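import Pool.Agent.Run7.h663.PA.TMain

/-!
Two interior points and a boundary arc: the theorems.
-/

set_option autoImplicit false

namespace Run7.h663.PA

open H974 hiding Blk okhalf
open H973 hiding okhalf
open Finset
open Pool.Agent.Y989.SD
open Pool.Agent.H160R2.CV (nv P ar Far)

variable {f : ℂ → ℂ}

/-- the expression for the open cluster of the two points and the arc -/
noncomputable def ET (ε r s q u v : ℝ) : ℝ :=
  (ε / r) ^ (5 / 48 : ℝ) * (ε / s) ^ (5 / 48 : ℝ) *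
    min (q ^ (-(5 / 24 : ℝ)) * (1 - q ^ 2) ^ (1 / 3 : ℝ))
      (q ^ (-(5 / 48 : ℝ)) * ((1 - q ^ 2) * (u * v)) ^ (1 / 6 : ℝ))

/-- the expression for the wired cluster of the arc -/
noncomputable def EW (ε r s q u v : ℝ) : ℝ :=
  (ε / r) ^ (5 / 48 : ℝ) * (ε / s) ^ (5 / 48 : ℝ) *
    max ((u * v) ^ (1 / 3 : ℝ)) (q ^ (-(5 / 48 : ℝ)) * ((1 - q ^ 2) * (u * v)) ^ (1 / 6 : ℝ))

/-- **The factorization.** -/
theorem main_fw {g : ℂ → ℂ} {M α : ℝ} (hW : SmW f g M α) : ∃ c C K : ℝ, 0 < c ∧ 0 < C ∧ 0 < K ∧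
    ∀ (ε : ℝ) (x y : Vtx) (z w : ℂ) (θ1 θ2 : ℝ), 0 < ε → ‖z‖ < 1 → ‖w‖ < 1 → f z = pos ε x →
    f w = pos ε y → x ≠ y → K * ε ≤ ‖g z‖ * (1 - ‖z‖ ^ 2) → K * ε ≤ ‖g w‖ * (1 - ‖w‖ ^ 2) →
    ε ≤ θ2 - θ1 →
    c * min (PP f ε x y) √(PP f ε x y * PD f ε {x} (near f ε θ1 θ2) *
      PD f ε {y} (near f ε θ1 θ2)) ≤ PT f ε x {y} (near f ε θ1 θ2) ∧
    PT f ε x {y} (near f ε θ1 θ2) ≤ C * min (PP f ε x y) √(PP f ε x y *
      PD f ε {x} (near f ε θ1 θ2) * PD f ε {y} (near f ε θ1 θ2)) ∧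
    c * max (PD f ε {x} (near f ε θ1 θ2) * PD f ε {y} (near f ε θ1 θ2)) √(PP f ε x y *
      PD f ε {x} (near f ε θ1 θ2) * PD f ε {y} (near f ε θ1 θ2)) ≤
      PW f ε x y (near f ε θ1 θ2) ∧
    PW f ε x y (near f ε θ1 θ2) ≤ C * max (PD f ε {x} (near f ε θ1 θ2) *
      PD f ε {y} (near f ε θ1 θ2)) √(PP f ε x y *
      PD f ε {x} (near f ε θ1 θ2) * PD f ε {y} (near f ε θ1 θ2)) := by
  obtain ⟨c, C, K, hc, hC, hK, h⟩ := main_tri hW
  refine ⟨min c 1, C + 1, K, lt_min hc one_pos, by positivity, hK, ?_⟩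
  intro ε x y z w θ1 θ2 hε hz hw hfz hfw hxy hKz hKw hℓ
  obtain ⟨h1, h2⟩ := h ε x y z w θ1 θ2 hε hz hw hfz hfw hxy hKz hKw hℓ
  have i1 := PT_le_PP f ε x y (near f ε θ1 θ2)
  have i2 := PT_le_PW f ε x y (near f ε θ1 θ2)
  have i3 := PW_harris f ε x y (near f ε θ1 θ2)
  have i4 := PW_bk f ε x y (near f ε θ1 θ2)
  have hP0 := PP_nonneg f ε x y
  have hx0 := PD_nonneg f ε {x} (near f ε θ1 θ2)
  have hy0 := PD_nonneg f ε {y} (near f ε θ1 θ2)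
  set T := PT f ε x {y} (near f ε θ1 θ2) with hT
  set W := PW f ε x y (near f ε θ1 θ2) with hWd
  set Px := PD f ε {x} (near f ε θ1 θ2) with hPx
  set Py := PD f ε {y} (near f ε θ1 θ2) with hPy
  set P2 := PP f ε x y with hP2
  set S := √(P2 * Px * Py) with hS
  have hS0 : 0 ≤ S := Real.sqrt_nonneg _
  have hxy0 : 0 ≤ Px * Py := mul_nonneg hx0 hy0
  have hc1 : min c 1 ≤ c := min_le_left _ _
  have hc11 : min c 1 ≤ 1 := min_le_right _ _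
  have hc0 : 0 < min c 1 := lt_min hc one_pos
  refine ⟨?_, ?_, ?_, ?_⟩
  · rcases h2 with h2 | ⟨h2, -⟩
    · exact (mul_le_mul hc1 (min_le_right _ _) (le_min hP0 hS0) hc.le).trans h2
    · exact (mul_le_mul hc1 (min_le_left _ _) (le_min hP0 hS0) hc.le).trans h2
  · rcases min_choice P2 S with h3 | h3 <;> rw [h3]
    · nlinarith
    · nlinarith
  · rcases max_choice (Px * Py) S with h3 | h3 <;> rw [h3]
    · nlinarith
    · rcases h2 with h2 | ⟨-, h2⟩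
      · exact (mul_le_mul_of_nonneg_right hc1 hS0).trans (h2.trans i2)
      · exact (mul_le_mul_of_nonneg_right hc1 hS0).trans (h2.trans i3)
  · have h3 : S ≤ max (Px * Py) S := le_max_right _ _
    have h4 : Px * Py ≤ max (Px * Py) S := le_max_left _ _
    nlinarith

theorem half_pow {x : ℝ} (hx : 0 ≤ x) : x ^ (1 / 6 : ℝ) * x ^ (1 / 6 : ℝ) = x ^ (1 / 3 : ℝ) := by
  rw [← Real.rpow_add_of_nonneg hx (by norm_num) (by norm_num)]
  norm_num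

/-- the square root, in the covariant form -/
theorem sqrt_cov {ε r s u v : ℝ} {z w : ℂ} (hε : 0 < ε) (hr : 0 < r) (hs : 0 < s)
    (hq : 0 < ph z w) (hq1 : 0 ≤ 1 - ph z w ^ 2) (hu : 0 ≤ u) (hv : 0 ≤ v) :
    √(F2 ε r s z w * ((ε / r) ^ (5 / 48 : ℝ) * u ^ (1 / 3 : ℝ)) *
      ((ε / s) ^ (5 / 48 : ℝ) * v ^ (1 / 3 : ℝ))) =
    (ε / r) ^ (5 / 48 : ℝ) * (ε / s) ^ (5 / 48 : ℝ) *
      (ph z w ^ (-(5 / 48 : ℝ)) * ((1 - ph z w ^ 2) * (u * v)) ^ (1 / 6 : ℝ)) := by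
  have huv : 0 ≤ u * v := mul_nonneg hu hv
  rw [Real.sqrt_eq_iff_mul_self_eq (by unfold F2; positivity) (by positivity)]
  have e1 : ph z w ^ (-(5 / 24 : ℝ)) = ph z w ^ (-(5 / 48 : ℝ)) * ph z w ^ (-(5 / 48 : ℝ)) := by
    rw [← Real.rpow_add hq]
    norm_num
  unfold F2
  rw [e1, Real.mul_rpow hq1 huv, Real.mul_rpow hu hv, ← half_pow hq1, ← half_pow hu,
    ← half_pow hv]
  ring

/-- **The covariant form.** -/
theorem main_cov {g : ℂ → ℂ} {M α : ℝ} (hW : SmW f g M α) : ∃ c C K : ℝ, 0 < c ∧ 0 < C ∧ 0 < K ∧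
    ∀ (ε : ℝ) (x y : Vtx) (z w : ℂ) (θ1 θ2 : ℝ), 0 < ε → ‖z‖ < 1 → ‖w‖ < 1 → f z = pos ε x →
    f w = pos ε y → x ≠ y → K * ε ≤ ‖g z‖ * (1 - ‖z‖ ^ 2) → K * ε ≤ ‖g w‖ * (1 - ‖w‖ ^ 2) →
    ε ≤ θ2 - θ1 → θ2 ≤ θ1 + 2 * Real.pi →
    (∀ v, v ∈ TD f ε ↔ pos ε v ∈ f '' disc) ∧
    c * ET ε (‖g z‖ * (1 - ‖z‖ ^ 2)) (‖g w‖ * (1 - ‖w‖ ^ 2)) (ph z w) (hm z θ1 θ2)
      (hm w θ1 θ2) ≤ PT f ε x {y} (near f ε θ1 θ2) ∧
    PT f ε x {y} (near f ε θ1 θ2) ≤ C * ET ε (‖g z‖ * (1 - ‖z‖ ^ 2))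
      (‖g w‖ * (1 - ‖w‖ ^ 2)) (ph z w) (hm z θ1 θ2) (hm w θ1 θ2) ∧
    c * EW ε (‖g z‖ * (1 - ‖z‖ ^ 2)) (‖g w‖ * (1 - ‖w‖ ^ 2)) (ph z w) (hm z θ1 θ2)
      (hm w θ1 θ2) ≤ PW f ε x y (near f ε θ1 θ2) ∧
    PW f ε x y (near f ε θ1 θ2) ≤ C * EW ε (‖g z‖ * (1 - ‖z‖ ^ 2))
      (‖g w‖ * (1 - ‖w‖ ^ 2)) (ph z w) (hm z θ1 θ2) (hm w θ1 θ2) := by
  obtain ⟨c1, C1, K1, hc1, hC1, hK1, h1⟩ := main_fw hW
  obtain ⟨c2, C2, K2, hc2, hC2, hK2, h2⟩ := main_two hW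
  obtain ⟨c3, C3, K3, hc3, hC3, hK3, h3⟩ := main_arc hW
  obtain ⟨e1, he1⟩ : ∃ e1 : ℝ, e1 = min (min c2 (c3 * c3)) (√(c2 * c3 * c3)) := ⟨_, rfl⟩
  obtain ⟨e2, he2⟩ : ∃ e2 : ℝ, e2 = max (max C2 (C3 * C3)) (√(C2 * C3 * C3)) := ⟨_, rfl⟩
  have he10 : 0 < e1 := by
    rw [he1]
    exact lt_min (lt_min hc2 (by positivity)) (Real.sqrt_pos.mpr (by positivity))
  have he20 : 0 < e2 := by
    rw [he2]
    exact lt_max_of_lt_left (lt_max_of_lt_left hC2)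
  have he11 : e1 ≤ c2 := by rw [he1]; exact (min_le_left _ _).trans (min_le_left _ _)
  have he12 : e1 ≤ c3 * c3 := by rw [he1]; exact (min_le_left _ _).trans (min_le_right _ _)
  have he13 : e1 ≤ √(c2 * c3 * c3) := by rw [he1]; exact min_le_right _ _
  have he21 : C2 ≤ e2 := by rw [he2]; exact (le_max_left _ _).trans (le_max_left _ _)
  have he22 : C3 * C3 ≤ e2 := by rw [he2]; exact (le_max_right _ _).trans (le_max_left _ _)
  have he23 : √(C2 * C3 * C3) ≤ e2 := by rw [he2]; exact le_max_right _ _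
  refine ⟨c1 * e1, C1 * e2, K1 + K2 + K3, by positivity, by positivity, by positivity, ?_⟩
  intro ε x y z w θ1 θ2 hε hz hw hfz hfw hxy hKz hKw hℓ hθ
  have hKK : ∀ t : ℝ, (K1 + K2 + K3) * ε ≤ t → K1 * ε ≤ t ∧ K2 * ε ≤ t ∧ K3 * ε ≤ t := by
    intro t ht
    have q1 : 0 < K1 * ε := by positivity
    have q2 : 0 < K2 * ε := by positivity
    have q3 : 0 < K3 * ε := by positivity
    refine ⟨by nlinarith, by nlinarith, by nlinarith⟩
  obtain ⟨kz1, kz2, kz3⟩ := hKK _ hKz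
  obtain ⟨kw1, kw2, kw3⟩ := hKK _ hKw
  obtain ⟨t1, t2, t3, t4⟩ := h1 ε x y z w θ1 θ2 hε hz hw hfz hfw hxy kz1 kw1 hℓ
  obtain ⟨-, p1, p2⟩ := h2 ε x y z w hε hz hw hfz hfw hxy kz2 kw2
  obtain ⟨hTD, a1, a2⟩ := h3 ε x z θ1 θ2 hε hz hfz kz3 hℓ hθ
  obtain ⟨-, b1, b2⟩ := h3 ε y w θ1 θ2 hε hw hfw kw3 hℓ hθ
  have hDuo : ∀ u : Vtx, Pr hf (ES (TD f ε))
      (fun F => ∃ w ∈ near f ε θ1 θ2, Reach (F : Set Edg) u w) = PD f ε {u} (near f ε θ1 θ2) := by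
    intro u
    apply Pr_congr
    intro F _
    constructor
    · rintro ⟨w, hw, h⟩
      exact ⟨u, rfl, w, hw, h⟩
    · rintro ⟨v, hv, w, hw, h⟩
      rw [Set.mem_singleton_iff] at hv
      subst hv
      exact ⟨w, hw, h⟩
  rw [hDuo] at a1 a2 b1 b2
  have hzw : z ≠ w := ne_of_ne hε hfz hfw hxy
  obtain ⟨hm0, hdm, -, -, -, -, -⟩ := F2_eq (ε := ε) (r := 1) (s := 1) hz hw hzw
  have hd : 0 < ‖z - w‖ := by rw [norm_pos_iff, sub_ne_zero]; exact hzw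
  have hq : 0 < ph z w := by unfold ph; positivity
  have hq1 : 0 ≤ 1 - ph z w ^ 2 := by
    have h5 : ph z w ≤ 1 := by unfold ph; rw [div_le_one hm0]; exact hdm
    nlinarith
  have hr : 0 < ‖g z‖ * (1 - ‖z‖ ^ 2) := lt_of_lt_of_le (by positivity) hKz
  have hs : 0 < ‖g w‖ * (1 - ‖w‖ ^ 2) := lt_of_lt_of_le (by positivity) hKw
  have hint : ∀ u : ℂ, ‖u‖ < 1 → 0 ≤ hm u θ1 θ2 := by
    intro u hu
    unfold hm
    apply div_nonneg _ (by positivity)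
    apply intervalIntegral.integral_nonneg (by linarith)
    intro t _
    have := norm_nonneg u
    exact div_nonneg (by nlinarith) (by positivity)
  have hu := hint z hz
  have hv := hint w hw
  have hE := sqrt_cov hε hr hs hq hq1 hu hv
  set r := ‖g z‖ * (1 - ‖z‖ ^ 2) with hrd
  set s := ‖g w‖ * (1 - ‖w‖ ^ 2) with hsd
  set u := hm z θ1 θ2 with hud
  set v := hm w θ1 θ2 with hvd
  set A := (ε / r) ^ (5 / 48 : ℝ) * u ^ (1 / 3 : ℝ) with hA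
  set B := (ε / s) ^ (5 / 48 : ℝ) * v ^ (1 / 3 : ℝ) with hB
  set G := F2 ε r s z w with hG
  have hA0 : 0 ≤ A := by positivity
  have hB0 : 0 ≤ B := by positivity
  have hG0 : 0 ≤ G := by rw [hG]; unfold F2; positivity
  have hx0 := PD_nonneg f ε {x} (near f ε θ1 θ2)
  have hy0 := PD_nonneg f ε {y} (near f ε θ1 θ2)
  have hP0 := PP_nonneg f ε x y
  set Px := PD f ε {x} (near f ε θ1 θ2) with hPx
  set Py := PD f ε {y} (near f ε θ1 θ2) with hPy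
  set P2 := PP f ε x y with hP2
  -- the square root
  have s1 : √(c2 * c3 * c3) * √(G * A * B) ≤ √(P2 * Px * Py) := by
    rw [← Real.sqrt_mul (by positivity)]
    apply Real.sqrt_le_sqrt
    calc c2 * c3 * c3 * (G * A * B) = c2 * G * (c3 * A) * (c3 * B) := by ring
      _ ≤ _ := mul_le_mul (mul_le_mul p1 a1 (by positivity) hP0) b1 (by positivity)
          (by positivity)
  have s2 : √(P2 * Px * Py) ≤ √(C2 * C3 * C3) * √(G * A * B) := by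
    rw [← Real.sqrt_mul (by positivity)]
    apply Real.sqrt_le_sqrt
    calc P2 * Px * Py ≤ C2 * G * (C3 * A) * (C3 * B) :=
          mul_le_mul (mul_le_mul p2 a2 hx0 (by positivity)) b2 hy0 (by positivity)
      _ = _ := by ring
  have m1 : c3 * c3 * (A * B) ≤ Px * Py := by
    calc c3 * c3 * (A * B) = c3 * A * (c3 * B) := by ring
      _ ≤ _ := mul_le_mul a1 b1 (by positivity) hx0
  have m2 : Px * Py ≤ C3 * C3 * (A * B) := by
    calc Px * Py ≤ C3 * A * (C3 * B) := mul_le_mul a2 b2 hy0 (by positivity)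
      _ = _ := by ring
  have hT : ET ε r s (ph z w) u v = min G √(G * A * B) := by
    rw [hE]
    unfold ET
    rw [mul_min_of_nonneg _ _ (by positivity)]
    rw [hG]
    unfold F2
    rfl
  have hWc : EW ε r s (ph z w) u v = max (A * B) √(G * A * B) := by
    rw [hE]
    unfold EW
    rw [mul_max_of_nonneg _ _ (by positivity), Real.mul_rpow hu hv]
    congr 1
    rw [hA, hB]
    ring
  have hR0 : 0 ≤ √(G * A * B) := Real.sqrt_nonneg _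
  have hAB0 : 0 ≤ A * B := by positivity
  refine ⟨hTD, ?_, ?_, ?_, ?_⟩
  · refine le_trans ?_ t1
    rw [mul_assoc]
    apply mul_le_mul_of_nonneg_left _ hc1.le
    rw [hT, mul_min_of_nonneg _ _ he10.le]
    exact min_le_min ((mul_le_mul_of_nonneg_right he11 hG0).trans p1)
      ((mul_le_mul_of_nonneg_right he13 hR0).trans s1)
  · refine t2.trans ?_
    rw [mul_assoc C1]
    apply mul_le_mul_of_nonneg_left _ hC1.le
    rw [hT, mul_min_of_nonneg _ _ he20.le]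
    exact min_le_min (p2.trans (mul_le_mul_of_nonneg_right he21 hG0))
      (s2.trans (mul_le_mul_of_nonneg_right he23 hR0))
  · refine le_trans ?_ t3
    rw [mul_assoc]
    apply mul_le_mul_of_nonneg_left _ hc1.le
    rw [hWc, mul_max_of_nonneg _ _ he10.le]
    exact max_le_max ((mul_le_mul_of_nonneg_right he12 hAB0).trans m1)
      ((mul_le_mul_of_nonneg_right he13 hR0).trans s1)
  · refine t4.trans ?_
    rw [mul_assoc C1]
    apply mul_le_mul_of_nonneg_left _ hC1.le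
    rw [hWc, mul_max_of_nonneg _ _ he20.le]
    exact max_le_max (m2.trans (mul_le_mul_of_nonneg_right he22 hAB0))
      (s2.trans (mul_le_mul_of_nonneg_right he23 hR0))

end Run7.h663.PA
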