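import Pool.Agent.Run7.h663.PA.AThree
import Pool.Agent.Run7.h663.PA.TFin

/-!
One interior point and two boundary arcs: the theorems.
-/

set_option autoImplicit false

namespace Run7.h663.PA

open H974 hiding Blk okhalf
open H973 hiding okhalf
open Finset
open Pool.Agent.Y989.SD
open Pool.Agent.H160R2.CV (nv P ar Far)

variable {f : ℂ → ℂ}

theorem PD_pt (f : ℂ → ℂ) (ε θ1 θ2 : ℝ) (u : Vtx) : Pr hf (ES (TD f ε))
    (fun F => ∃ w ∈ near f ε θ1 θ2, Reach (F : Set Edg) u w) = PD f ε {u} (near f ε θ1 θ2) := by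
  apply Pr_congr
  intro F _
  constructor
  · rintro ⟨w, hw, h⟩
    exact ⟨u, rfl, w, hw, h⟩
  · rintro ⟨v, hv, w, hw, h⟩
    rw [Set.mem_singleton_iff] at hv
    subst hv
    exact ⟨w, hw, h⟩

/-- the position of two disjoint arcs -/
theorem conf_of {c C ε θ1 θ2 θ3 θ4 tA tB : ℝ} {x : Vtx} {z : ℂ} (h12 : θ1 < θ2) (h23 : θ2 < θ3)
    (h34 : θ3 < θ4) (h41 : θ4 < θ1 + 2 * Real.pi) (hℓ : ε ≤ θ2 - θ1) (hk : ε ≤ θ4 - θ3)
    (hA1 : θ1 ≤ tA) (hA2 : tA ≤ θ2) (hB1 : θ3 ≤ tB) (hB2 : tB ≤ θ4)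
    (minA : ∀ t, θ1 ≤ t → t ≤ θ2 → ‖z - cir tA‖ ≤ ‖z - cir t‖)
    (minB : ∀ t, θ3 ≤ t → t ≤ θ4 → ‖z - cir tB‖ ≤ ‖z - cir t‖)
    (a1 : c * AA ε (1 - ‖z‖) (θ2 - θ1) ‖z - cir tA‖ ≤ PD f ε {x} (near f ε θ1 θ2))
    (a2 : PD f ε {x} (near f ε θ1 θ2) ≤ C * AA ε (1 - ‖z‖) (θ2 - θ1) ‖z - cir tA‖)
    (b1 : c * AA ε (1 - ‖z‖) (θ4 - θ3) ‖z - cir tB‖ ≤ PD f ε {x} (near f ε θ3 θ4))
    (b2 : PD f ε {x} (near f ε θ3 θ4) ≤ C * AA ε (1 - ‖z‖) (θ4 - θ3) ‖z - cir tB‖)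
    (c1 : c * EE θ1 θ2 θ3 θ4 ^ (1 / 3 : ℝ) ≤ PC f ε θ1 θ2 θ3 θ4)
    (c2 : PC f ε θ1 θ2 θ3 θ4 ≤ C * EE θ1 θ2 θ3 θ4 ^ (1 / 3 : ℝ)) :
    Conf f c C ε θ1 θ2 θ3 θ4 (min (θ3 - θ2) (θ1 + 2 * Real.pi - θ4)) tA tB x z := by
  have g1 : min (θ3 - θ2) (θ1 + 2 * Real.pi - θ4) ≤ θ3 - θ2 := min_le_left _ _
  have g2 : min (θ3 - θ2) (θ1 + 2 * Real.pi - θ4) ≤ θ1 + 2 * Real.pi - θ4 := min_le_right _ _
  have g0 : 0 < min (θ3 - θ2) (θ1 + 2 * Real.pi - θ4) := lt_min (by linarith) (by linarith)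
  refine ⟨g0, hℓ, hk, hA1, hA2, hB1, hB2, minA, minB, ?_, ?_, ?_, ?_, a1, a2, b1, b2, c1, c2⟩
  · intro s t hs1 hs2 ht1 ht2
    rw [norm_sub_rev]
    exact AUP.cir_low s t _ g0.le (by linarith) (by linarith)
  · rcases min_choice (θ3 - θ2) (θ1 + 2 * Real.pi - θ4) with h | h
    · rw [h]
      refine ⟨θ2, θ3, h12.le, le_rfl, le_rfl, h34.le, (ALO.cir_lip _ _).trans ?_⟩
      rw [abs_sub_comm, abs_of_nonneg (by linarith)]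
    · rw [h]
      refine ⟨θ1, θ4, le_rfl, h12.le, h34.le, le_rfl, ?_⟩
      rw [← ALO.cir_add θ1]
      refine (ALO.cir_lip _ _).trans ?_
      rw [abs_of_nonneg (by linarith)]
  · rcases min_choice (θ3 - θ2) (θ1 + 2 * Real.pi - θ4) with h | h
    · rw [h]
      refine ⟨θ2, h12.le, le_rfl, fun r hr0 hr => ⟨θ3 + r / 2, ?_, ?_⟩⟩
      · rw [abs_of_nonneg (by linarith)]
        linarith
      · exact ALO.near_mono (by linarith) (by linarith)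
    · rw [h]
      refine ⟨θ1, le_rfl, h12.le, fun r hr0 hr => ⟨θ4 - r / 2 - 2 * Real.pi, ?_, ?_⟩⟩
      · rw [abs_sub_comm, abs_of_nonneg (by linarith)]
        linarith
      · rw [← ALO.near_add]
        exact ALO.near_mono (by linarith) (by linarith)
  · rcases min_choice (θ3 - θ2) (θ1 + 2 * Real.pi - θ4) with h | h
    · rw [h]
      refine ⟨θ3, le_rfl, h34.le, fun r hr0 hr => ⟨θ2 - r / 2, ?_, ?_⟩⟩
      · rw [abs_sub_comm, abs_of_nonneg (by linarith)]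
        linarith
      · exact ALO.near_mono (by linarith) (by linarith)
    · rw [h]
      refine ⟨θ4, h34.le, le_rfl, fun r hr0 hr => ⟨θ1 + 2 * Real.pi + r / 2, ?_, ?_⟩⟩
      · rw [abs_of_nonneg (by linarith)]
        linarith
      · have e1 : θ1 + 2 * Real.pi + r / 2 - r / 2 = θ1 + 2 * Real.pi := by ring
        have e2 : θ1 + 2 * Real.pi + r / 2 + r / 2 = (θ1 + r) + 2 * Real.pi := by ring
        rw [e1, e2, ALO.near_add]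
        exact ALO.near_mono le_rfl (by linarith)

/-- **The factorization formula.** -/
theorem main_anc {g : ℂ → ℂ} {M α : ℝ} (hW : SmW f g M α) : ∃ c C K : ℝ, 0 < c ∧ 0 < C ∧ 0 < K ∧
    ∀ (ε : ℝ) (x : Vtx) (z : ℂ) (θ1 θ2 θ3 θ4 : ℝ), 0 < ε → ‖z‖ < 1 → f z = pos ε x →
    K * ε ≤ ‖g z‖ * (1 - ‖z‖ ^ 2) → θ1 < θ2 → θ2 < θ3 → θ3 < θ4 → θ4 < θ1 + 2 * Real.pi →
    ε ≤ θ2 - θ1 → ε ≤ θ4 - θ3 →
    c * min (min (PD f ε {x} (near f ε θ1 θ2)) (PD f ε {x} (near f ε θ3 θ4)))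
      √(PD f ε {x} (near f ε θ1 θ2) * PD f ε {x} (near f ε θ3 θ4) * PC f ε θ1 θ2 θ3 θ4) ≤
      PT f ε x (near f ε θ1 θ2) (near f ε θ3 θ4) ∧
    PT f ε x (near f ε θ1 θ2) (near f ε θ3 θ4) ≤
      C * min (min (PD f ε {x} (near f ε θ1 θ2)) (PD f ε {x} (near f ε θ3 θ4)))
      √(PD f ε {x} (near f ε θ1 θ2) * PD f ε {x} (near f ε θ3 θ4) * PC f ε θ1 θ2 θ3 θ4) := by
  have hS : Smooth f := ⟨g, M, α, hW⟩
  obtain ⟨D⟩ := dom_of hS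
  obtain ⟨l, H, hl, hH, -, hg, -, -, -⟩ := m_GA f g M α hW
  obtain ⟨c3, K3, ε3, hc3, hK3, hε3, hε30, hlow⟩ := arc_low D
  obtain ⟨C4, K4, hC4, hK4, hup⟩ := arc_up D
  obtain ⟨C5, ε5, hC5, hε5, hAUP⟩ := m_AUP f hS
  obtain ⟨c6, ε6, hc6, hε6, hALO⟩ := m_ALO f hS
  obtain ⟨c0, hc0⟩ : ∃ c0 : ℝ, c0 = min c3 c6 := ⟨_, rfl⟩
  obtain ⟨C0, hC0⟩ : ∃ C0 : ℝ, C0 = max C4 C5 := ⟨_, rfl⟩
  have hc00 : 0 < c0 := by rw [hc0]; exact lt_min hc3 hc6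
  have hC00 : 0 < C0 := by rw [hC0]; exact lt_max_of_lt_left hC4
  have hc03 : c0 ≤ c3 := by rw [hc0]; exact min_le_left _ _
  have hc06 : c0 ≤ c6 := by rw [hc0]; exact min_le_right _ _
  have hC04 : C4 ≤ C0 := by rw [hC0]; exact le_max_left _ _
  have hC05 : C5 ≤ C0 := by rw [hC0]; exact le_max_right _ _
  obtain ⟨c7, C7, K7, ε7, hc7, hC7, hK7, hε7, hε70, hall⟩ := anc_all D hc00 hC00
  obtain ⟨K8, hK8⟩ : ∃ K8 : ℝ, K8 = K3 + K4 + K7 + 1 / ε3 + 1 / ε5 + 1 / ε6 + 1 / ε7 :=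
    ⟨_, rfl⟩
  have hK80 : 0 < K8 := by rw [hK8]; positivity
  refine ⟨c7, C7 + 1, 2 * H * K8, hc7, by positivity, by positivity, ?_⟩
  intro ε x z θ1 θ2 θ3 θ4 hε hz hfz hKz h12 h23 h34 h41 hℓ hk
  have hn := norm_nonneg z
  have hz8 : K8 * ε ≤ 1 - ‖z‖ := by
    have hgu := hg z (disc_of hz.le)
    have h4 : ‖g z‖ * (1 - ‖z‖ ^ 2) ≤ H * (2 * (1 - ‖z‖)) :=
      mul_le_mul hgu.2 (by nlinarith) (by nlinarith) hH.le
    have h6 : 2 * H * (K8 * ε) ≤ 2 * H * (1 - ‖z‖) := by nlinarith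
    exact le_of_mul_le_mul_left h6 (by positivity)
  have r3 : 0 < K3 * ε := by positivity
  have r4 : 0 < K4 * ε := by positivity
  have r7 : 0 < K7 * ε := by positivity
  have s3 : 0 < 1 / ε3 * ε := by positivity
  have s5 : 0 < 1 / ε5 * ε := by positivity
  have s6 : 0 < 1 / ε6 * ε := by positivity
  have s7 : 0 < 1 / ε7 * ε := by positivity
  have hsum : K8 * ε = K3 * ε + K4 * ε + K7 * ε + 1 / ε3 * ε + 1 / ε5 * ε + 1 / ε6 * ε +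
      1 / ε7 * ε := by rw [hK8]; ring
  have hsm : ∀ e : ℝ, 0 < e → 1 / e * ε ≤ 1 → ε ≤ e := by
    intro e he h1
    rw [one_div_mul_eq_div, div_le_one he] at h1
    exact h1
  have e3 : ε ≤ ε3 := hsm ε3 hε3 (by linarith)
  have e5 : ε ≤ ε5 := hsm ε5 hε5 (by linarith)
  have e6 : ε ≤ ε6 := hsm ε6 hε6 (by linarith)
  have e7 : ε ≤ ε7 := hsm ε7 hε7 (by linarith)
  have hε0 : ε ≤ D.ε0 := e3.trans hε30
  obtain ⟨tA, htA, hmA0⟩ := (isCompact_Icc (a := θ1) (b := θ2)).exists_isMinOn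
    ⟨θ1, ⟨le_rfl, h12.le⟩⟩ ((continuous_const.sub cir_cont).norm.continuousOn
      (f := fun t => ‖z - cir t‖))
  obtain ⟨tB, htB, hmB0⟩ := (isCompact_Icc (a := θ3) (b := θ4)).exists_isMinOn
    ⟨θ3, ⟨le_rfl, h34.le⟩⟩ ((continuous_const.sub cir_cont).norm.continuousOn
      (f := fun t => ‖z - cir t‖))
  have hmA : ∀ t, θ1 ≤ t → t ≤ θ2 → ‖z - cir tA‖ ≤ ‖z - cir t‖ := fun t h1 h2 => hmA0 ⟨h1, h2⟩
  have hmB : ∀ t, θ3 ≤ t → t ≤ θ4 → ‖z - cir tB‖ ≤ ‖z - cir t‖ := fun t h1 h2 => hmB0 ⟨h1, h2⟩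
  have a1 := hlow ε x z θ1 θ2 tA hε e3 hz hfz (by linarith) hℓ htA.1 htA.2
  have a2 := hup ε x z θ1 θ2 tA hε hε0 hz hfz (by linarith) hℓ htA.1 htA.2 hmA
  have b1 := hlow ε x z θ3 θ4 tB hε e3 hz hfz (by linarith) hk htB.1 htB.2
  have b2 := hup ε x z θ3 θ4 tB hε hε0 hz hfz (by linarith) hk htB.1 htB.2 hmB
  have d2 := hAUP ε θ1 θ2 θ3 θ4 hε e5 h12 h23 h34 h41 hℓ hk
  have d1 := hALO ε θ1 θ2 θ3 θ4 hε e6 h12 h23 h34 h41 hℓ hk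
  rw [PD_pt] at a1 a2 b1 b2
  have haA := le_cir (z := z) tA
  have haB := le_cir (z := z) tB
  have ha0 : 0 < 1 - ‖z‖ := by linarith
  have hA0 : 0 < ‖z - cir tA‖ := ha0.trans_le haA
  have hB0 : 0 < ‖z - cir tB‖ := ha0.trans_le haB
  have hℓ0 : 0 < θ2 - θ1 := hε.trans_le hℓ
  have hk0 : 0 < θ4 - θ3 := hε.trans_le hk
  have hmA' : 0 < min (θ2 - θ1) ‖z - cir tA‖ := lt_min hℓ0 hA0
  have hmB' : 0 < min (θ4 - θ3) ‖z - cir tB‖ := lt_min hk0 hB0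
  have hAx0 : 0 ≤ AA ε (1 - ‖z‖) (θ2 - θ1) ‖z - cir tA‖ := by unfold AA; positivity
  have hAy0 : 0 ≤ AA ε (1 - ‖z‖) (θ4 - θ3) ‖z - cir tB‖ := by unfold AA; positivity
  have g0 : 0 < min (θ3 - θ2) (θ1 + 2 * Real.pi - θ4) := lt_min (by linarith) (by linarith)
  have hE0 : 0 ≤ EE θ1 θ2 θ3 θ4 := by unfold EE; positivity
  have hE0' : 0 ≤ EE θ1 θ2 θ3 θ4 ^ (1 / 3 : ℝ) := by positivity
  have hconf := conf_of (f := f) (x := x) (z := z) h12 h23 h34 h41 hℓ hk htA.1 htA.2 htB.1 htB.2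
    hmA hmB (c := c0) (C := C0)
    ((mul_le_mul_of_nonneg_right hc03 hAx0).trans a1)
    (le_trans a2 (mul_le_mul_of_nonneg_right hC04 hAx0))
    ((mul_le_mul_of_nonneg_right hc03 hAy0).trans b1)
    (le_trans b2 (mul_le_mul_of_nonneg_right hC04 hAy0))
    ((mul_le_mul_of_nonneg_right hc06 hE0').trans d1)
    (d2.trans (mul_le_mul_of_nonneg_right hC05 hE0'))
  obtain ⟨t1, t2⟩ := hall ε θ1 θ2 θ3 θ4 _ tA tB x z hconf hε e7 hz hfz (by linarith)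
  have i1 := PT_le_left f ε x (near f ε θ1 θ2) (near f ε θ3 θ4)
  have i2 := PT_le_right f ε x (near f ε θ1 θ2) (near f ε θ3 θ4)
  have hPC : PC f ε θ1 θ2 θ3 θ4 = PD f ε (near f ε θ1 θ2) (near f ε θ3 θ4) := rfl
  rw [hPC]
  refine ⟨t2, ?_⟩
  have hPA := PD_nonneg f ε {x} (near f ε θ1 θ2)
  have hPB := PD_nonneg f ε {x} (near f ε θ3 θ4)
  have hS0 := Real.sqrt_nonneg (PD f ε {x} (near f ε θ1 θ2) * PD f ε {x} (near f ε θ3 θ4) *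
    PD f ε (near f ε θ1 θ2) (near f ε θ3 θ4))
  rw [mul_min_of_nonneg _ _ (by positivity), mul_min_of_nonneg _ _ (by positivity)]
  exact le_min (le_min (by nlinarith) (by nlinarith)) (by nlinarith)

/-- the covariant expression -/
noncomputable def EX (ε r u v q : ℝ) : ℝ :=
  (ε / r) ^ (5 / 48 : ℝ) * min (min (u ^ (1 / 3 : ℝ)) (v ^ (1 / 3 : ℝ)))
    ((u * v * q) ^ (1 / 6 : ℝ))

/-- **The covariant form.** -/
theorem main_anc' {g : ℂ → ℂ} {M α : ℝ} (hW : SmW f g M α) : ∃ c C K : ℝ, 0 < c ∧ 0 < C ∧ 0 < K ∧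
    ∀ (ε : ℝ) (x : Vtx) (z : ℂ) (θ1 θ2 θ3 θ4 : ℝ), 0 < ε → ‖z‖ < 1 → f z = pos ε x →
    K * ε ≤ ‖g z‖ * (1 - ‖z‖ ^ 2) → θ1 < θ2 → θ2 < θ3 → θ3 < θ4 → θ4 < θ1 + 2 * Real.pi →
    ε ≤ θ2 - θ1 → ε ≤ θ4 - θ3 →
    (∀ v, v ∈ TD f ε ↔ pos ε v ∈ f '' disc) ∧
    c * EX ε (‖g z‖ * (1 - ‖z‖ ^ 2)) (hm z θ1 θ2) (hm z θ3 θ4) (xr θ1 θ2 θ3 θ4) ≤
      PT f ε x (near f ε θ1 θ2) (near f ε θ3 θ4) ∧
    PT f ε x (near f ε θ1 θ2) (near f ε θ3 θ4) ≤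
      C * EX ε (‖g z‖ * (1 - ‖z‖ ^ 2)) (hm z θ1 θ2) (hm z θ3 θ4) (xr θ1 θ2 θ3 θ4) := by
  have hS : Smooth f := ⟨g, M, α, hW⟩
  obtain ⟨c1, C1, K1, hc1, hC1, hK1, h1⟩ := main_anc hW
  obtain ⟨c3, C3, K3, hc3, hC3, hK3, h3⟩ := main_arc hW
  obtain ⟨l, H, hl, hH, -, hg, -, -, -⟩ := m_GA f g M α hW
  obtain ⟨C5, ε5, hC5, hε5, hAUP⟩ := m_AUP f hS
  obtain ⟨c6, ε6, hc6, hε6, hALO⟩ := m_ALO f hS
  obtain ⟨c7, C7, hc7, hC7, hXR⟩ := m_XR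
  obtain ⟨c8, hc8⟩ : ∃ c8 : ℝ, c8 = c6 * (1 / C7) ^ (1 / 3 : ℝ) := ⟨_, rfl⟩
  obtain ⟨C8, hC8⟩ : ∃ C8 : ℝ, C8 = C5 * (1 / c7) ^ (1 / 3 : ℝ) := ⟨_, rfl⟩
  have hc80 : 0 < c8 := by rw [hc8]; positivity
  have hC80 : 0 < C8 := by rw [hC8]; positivity
  obtain ⟨e1, he1⟩ : ∃ e1 : ℝ, e1 = min c3 (√(c3 * c3 * c8)) := ⟨_, rfl⟩
  obtain ⟨e2, he2⟩ : ∃ e2 : ℝ, e2 = max C3 (√(C3 * C3 * C8)) := ⟨_, rfl⟩
  have he10 : 0 < e1 := by
    rw [he1]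
    exact lt_min hc3 (Real.sqrt_pos.mpr (by positivity))
  have he20 : 0 < e2 := by
    rw [he2]
    exact lt_max_of_lt_left hC3
  have he11 : e1 ≤ c3 := by rw [he1]; exact min_le_left _ _
  have he13 : e1 ≤ √(c3 * c3 * c8) := by rw [he1]; exact min_le_right _ _
  have he21 : C3 ≤ e2 := by rw [he2]; exact le_max_left _ _
  have he23 : √(C3 * C3 * C8) ≤ e2 := by rw [he2]; exact le_max_right _ _
  refine ⟨c1 * e1, C1 * e2, K1 + K3 + 2 * H * (1 / ε5 + 1 / ε6), by positivity, by positivity,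
    by positivity, ?_⟩
  intro ε x z θ1 θ2 θ3 θ4 hε hz hfz hKz h12 h23 h34 h41 hℓ hk
  have q1 : 0 < K1 * ε := by positivity
  have q3 : 0 < K3 * ε := by positivity
  have q5 : 0 < 1 / ε5 * ε := by positivity
  have q6 : 0 < 1 / ε6 * ε := by positivity
  have q7 : 0 < 2 * H * (1 / ε5 * ε) := by positivity
  have q8 : 0 < 2 * H * (1 / ε6 * ε) := by positivity
  have hexp : (K1 + K3 + 2 * H * (1 / ε5 + 1 / ε6)) * ε = K1 * ε + K3 * ε +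
      2 * H * (1 / ε5 * ε) + 2 * H * (1 / ε6 * ε) := by ring
  have kz1 : K1 * ε ≤ ‖g z‖ * (1 - ‖z‖ ^ 2) := by linarith
  have kz3 : K3 * ε ≤ ‖g z‖ * (1 - ‖z‖ ^ 2) := by linarith
  have hn := norm_nonneg z
  have hrad2 : ‖g z‖ * (1 - ‖z‖ ^ 2) ≤ 2 * H := by
    calc ‖g z‖ * (1 - ‖z‖ ^ 2) ≤ H * 2 :=
          mul_le_mul (hg z (disc_of hz.le)).2 (by nlinarith) (by nlinarith) hH.le
      _ = 2 * H := by ring
  have hsm : ∀ e : ℝ, 0 < e → 2 * H * (1 / e * ε) ≤ 2 * H → ε ≤ e := by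
    intro e he h1
    have h2 : 1 / e * ε ≤ 1 := by
      have : 2 * H * (1 / e * ε) ≤ 2 * H * 1 := by linarith
      exact le_of_mul_le_mul_left this (by positivity)
    rw [one_div_mul_eq_div, div_le_one he] at h2
    exact h2
  have e5 : ε ≤ ε5 := hsm ε5 hε5 (by linarith)
  have e6 : ε ≤ ε6 := hsm ε6 hε6 (by linarith)
  obtain ⟨t1, t2⟩ := h1 ε x z θ1 θ2 θ3 θ4 hε hz hfz kz1 h12 h23 h34 h41 hℓ hk
  obtain ⟨hTD, a1, a2⟩ := h3 ε x z θ1 θ2 hε hz hfz kz3 hℓ (by linarith)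
  obtain ⟨-, b1, b2⟩ := h3 ε x z θ3 θ4 hε hz hfz kz3 hk (by linarith)
  rw [PD_pt] at a1 a2 b1 b2
  have d2 := hAUP ε θ1 θ2 θ3 θ4 hε e5 h12 h23 h34 h41 hℓ hk
  have d1 := hALO ε θ1 θ2 θ3 θ4 hε e6 h12 h23 h34 h41 hℓ hk
  obtain ⟨x0, x1, x2, x3⟩ := hXR θ1 θ2 θ3 θ4 h12 h23 h34 h41
  have g0 : 0 < min (θ3 - θ2) (θ1 + 2 * Real.pi - θ4) := lt_min (by linarith) (by linarith)
  have hℓ0 : 0 < θ2 - θ1 := by linarith
  have hk0 : 0 < θ4 - θ3 := by linarith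
  have hE0 : 0 ≤ EE θ1 θ2 θ3 θ4 := by unfold EE; positivity
  set q := xr θ1 θ2 θ3 θ4 with hqd
  set E := EE θ1 θ2 θ3 θ4 with hEd
  have d1' : c8 * q ^ (1 / 3 : ℝ) ≤ PC f ε θ1 θ2 θ3 θ4 := by
    refine le_trans ?_ d1
    rw [hc8, mul_assoc]
    apply mul_le_mul_of_nonneg_left _ hc6.le
    rw [← Real.mul_rpow (by positivity) x0.le]
    apply Real.rpow_le_rpow (by positivity) _ (by norm_num)
    rw [one_div_mul_eq_div, div_le_iff₀ hC7]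
    linarith
  have d2' : PC f ε θ1 θ2 θ3 θ4 ≤ C8 * q ^ (1 / 3 : ℝ) := by
    refine d2.trans ?_
    rw [hC8, mul_assoc]
    apply mul_le_mul_of_nonneg_left _ hC5.le
    rw [← Real.mul_rpow (by positivity) x0.le]
    apply Real.rpow_le_rpow hE0 _ (by norm_num)
    rw [one_div_mul_eq_div, le_div_iff₀ hc7]
    linarith
  have hint : ∀ a b : ℝ, a ≤ b → 0 ≤ hm z a b := by
    intro a b hab
    unfold hm
    apply div_nonneg _ (by positivity)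
    apply intervalIntegral.integral_nonneg hab
    intro t _
    exact div_nonneg (by nlinarith) (by positivity)
  have hu := hint θ1 θ2 h12.le
  have hv := hint θ3 θ4 h34.le
  have hr : 0 < ‖g z‖ * (1 - ‖z‖ ^ 2) := lt_of_lt_of_le (by positivity) kz1
  set r := ‖g z‖ * (1 - ‖z‖ ^ 2) with hrd
  set u := hm z θ1 θ2 with hud
  set v := hm z θ3 θ4 with hvd
  set A := (ε / r) ^ (5 / 48 : ℝ) * u ^ (1 / 3 : ℝ) with hA
  set B := (ε / r) ^ (5 / 48 : ℝ) * v ^ (1 / 3 : ℝ) with hB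
  have hA0 : 0 ≤ A := by positivity
  have hB0 : 0 ≤ B := by positivity
  have hQ0 : 0 ≤ q ^ (1 / 3 : ℝ) := by positivity
  have hx0 := PD_nonneg f ε {x} (near f ε θ1 θ2)
  have hy0 := PD_nonneg f ε {x} (near f ε θ3 θ4)
  have hC0 : 0 ≤ PC f ε θ1 θ2 θ3 θ4 := Pr_nonneg oku _ _
  set Px := PD f ε {x} (near f ε θ1 θ2) with hPx
  set Py := PD f ε {x} (near f ε θ3 θ4) with hPy
  set Pc := PC f ε θ1 θ2 θ3 θ4 with hPc
  have hE : √(A * B * q ^ (1 / 3 : ℝ)) = (ε / r) ^ (5 / 48 : ℝ) * (u * v * q) ^ (1 / 6 : ℝ) := by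
    rw [Real.sqrt_eq_iff_mul_self_eq (by positivity) (by positivity)]
    rw [Real.mul_rpow (x := u * v) (by positivity) x0.le, Real.mul_rpow hu hv, hA, hB,
      ← half_pow hu, ← half_pow hv, ← half_pow x0.le]
    ring
  have s1 : √(c3 * c3 * c8) * √(A * B * q ^ (1 / 3 : ℝ)) ≤ √(Px * Py * Pc) := by
    rw [← Real.sqrt_mul (by positivity)]
    apply Real.sqrt_le_sqrt
    calc c3 * c3 * c8 * (A * B * q ^ (1 / 3 : ℝ)) =
          c3 * A * (c3 * B) * (c8 * q ^ (1 / 3 : ℝ)) := by ring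
      _ ≤ _ := mul_le_mul (mul_le_mul a1 b1 (by positivity) hx0) d1' (by positivity)
          (by positivity)
  have s2 : √(Px * Py * Pc) ≤ √(C3 * C3 * C8) * √(A * B * q ^ (1 / 3 : ℝ)) := by
    rw [← Real.sqrt_mul (by positivity)]
    apply Real.sqrt_le_sqrt
    calc Px * Py * Pc ≤ C3 * A * (C3 * B) * (C8 * q ^ (1 / 3 : ℝ)) :=
          mul_le_mul (mul_le_mul a2 b2 hy0 (by positivity)) d2' hC0 (by positivity)
      _ = _ := by ring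
  have hT : EX ε r u v q = min (min A B) √(A * B * q ^ (1 / 3 : ℝ)) := by
    rw [hE]
    unfold EX
    rw [mul_min_of_nonneg _ _ (by positivity), mul_min_of_nonneg _ _ (by positivity)]
  have hR0 : 0 ≤ √(A * B * q ^ (1 / 3 : ℝ)) := Real.sqrt_nonneg _
  refine ⟨hTD, ?_, ?_⟩
  · refine le_trans ?_ t1
    rw [mul_assoc]
    apply mul_le_mul_of_nonneg_left _ hc1.le
    rw [hT, mul_min_of_nonneg _ _ he10.le, mul_min_of_nonneg _ _ he10.le]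
    exact min_le_min (min_le_min ((mul_le_mul_of_nonneg_right he11 hA0).trans a1)
      ((mul_le_mul_of_nonneg_right he11 hB0).trans b1))
      ((mul_le_mul_of_nonneg_right he13 hR0).trans s1)
  · refine t2.trans ?_
    rw [mul_assoc C1]
    apply mul_le_mul_of_nonneg_left _ hC1.le
    rw [hT, mul_min_of_nonneg _ _ he20.le, mul_min_of_nonneg _ _ he20.le]
    exact min_le_min (min_le_min (a2.trans (mul_le_mul_of_nonneg_right he21 hA0))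
      (b2.trans (mul_le_mul_of_nonneg_right he21 hB0)))
      (s2.trans (mul_le_mul_of_nonneg_right he23 hR0))

end Run7.h663.PA
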