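import Pool.Agent.Run7.h663.PA.ArcUp

/-!
The harmonic measure of an arc of the unit circle, up to constants, and the two-sided bound for
the probability that an interior point is connected to a boundary arc.
-/

set_option autoImplicit false

namespace Run7.h663.PA

open H974 hiding Blk okhalf
open H973 hiding okhalf
open Finset MeasureTheory
open Pool.Agent.Y989.SD

variable {f : ℂ → ℂ}

/-- harmonic measure of the arc of the unit circle between the arguments `a` and `b`, seen from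
`z` -/
noncomputable def hm (z : ℂ) (a b : ℝ) : ℝ :=
  (∫ t in a..b, (1 - ‖z‖ ^ 2) / ‖cir t - z‖ ^ 2) / (2 * Real.pi)

theorem cir_cont : Continuous cir := by
  unfold cir
  fun_prop

theorem ker_cont {z : ℂ} (hz : ‖z‖ < 1) :
    Continuous fun t : ℝ => (1 - ‖z‖ ^ 2) / ‖cir t - z‖ ^ 2 := by
  apply Continuous.div continuous_const
  · exact ((cir_cont.sub continuous_const).norm).pow 2
  · intro t
    have h1 : 0 < ‖cir t - z‖ := by
      rw [norm_pos_iff, sub_ne_zero]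
      rintro h
      rw [← h, ARM1.norm_cir] at hz
      exact lt_irrefl _ hz
    positivity

/-- the arctangent integral -/
theorem atan_int {A : ℝ} (hA : 0 < A) (s a b : ℝ) :
    ∫ t in a..b, (A ^ 2 + ((t - s) / Real.pi) ^ 2)⁻¹ ≤ Real.pi ^ 2 / A := by
  have hpi := Real.pi_pos
  have h1 : ∀ t ∈ Set.uIcc a b, HasDerivAt
      (fun t => Real.pi / A * Real.arctan ((t - s) / (Real.pi * A)))
      ((A ^ 2 + ((t - s) / Real.pi) ^ 2)⁻¹) t := by
    intro t _
    have h2 : HasDerivAt (fun t : ℝ => (t - s) / (Real.pi * A)) (1 / (Real.pi * A)) t :=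
      ((hasDerivAt_id t).sub_const s).div_const _
    have h3 := (h2.arctan).const_mul (Real.pi / A)
    have h4 : (A ^ 2 + ((t - s) / Real.pi) ^ 2)⁻¹ =
        Real.pi / A * (1 / (1 + ((t - s) / (Real.pi * A)) ^ 2) * (1 / (Real.pi * A))) := by
      have h5 : 0 < A ^ 2 + ((t - s) / Real.pi) ^ 2 := by positivity
      have h6 : 1 + ((t - s) / (Real.pi * A)) ^ 2 = (A ^ 2 + ((t - s) / Real.pi) ^ 2) / A ^ 2 := by
        field_simp
      rw [h6]
      field_simp
    rw [h4]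
    exact h3
  have h2 : Continuous fun t : ℝ => (A ^ 2 + ((t - s) / Real.pi) ^ 2)⁻¹ := by
    apply Continuous.inv₀ (by fun_prop)
    intro t
    positivity
  rw [intervalIntegral.integral_eq_sub_of_hasDerivAt h1 (h2.intervalIntegrable _ _)]
  have h3 := Real.arctan_lt_pi_div_two ((b - s) / (Real.pi * A))
  have h4 := Real.neg_pi_div_two_lt_arctan ((a - s) / (Real.pi * A))
  have h5 : 0 < Real.pi / A := by positivity
  calc Real.pi / A * Real.arctan ((b - s) / (Real.pi * A)) -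
        Real.pi / A * Real.arctan ((a - s) / (Real.pi * A)) =
      Real.pi / A * (Real.arctan ((b - s) / (Real.pi * A)) -
        Real.arctan ((a - s) / (Real.pi * A))) := by ring
    _ ≤ Real.pi / A * Real.pi := by
      apply mul_le_mul_of_nonneg_left _ h5.le
      linarith
    _ = Real.pi ^ 2 / A := by ring

theorem ker_le {z : ℂ} {t0 A t : ℝ} (hA : 0 < A) (h0 : ‖z - cir t0‖ = A)
    (h : A ≤ ‖z - cir t‖) (ht : |t - t0| ≤ 2 * Real.pi) :
    (‖cir t - z‖ ^ 2)⁻¹ ≤ 2 * (A ^ 2 + ((t - t0) / Real.pi) ^ 2)⁻¹ +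
      2 * (A ^ 2 + ((t - (t0 + 2 * Real.pi)) / Real.pi) ^ 2)⁻¹ +
      2 * (A ^ 2 + ((t - (t0 - 2 * Real.pi)) / Real.pi) ^ 2)⁻¹ := by
  have hpi := Real.pi_pos
  have hX : A ≤ ‖cir t - z‖ := by rwa [norm_sub_rev]
  have hp : ∀ s : ℝ, 0 ≤ 2 * (A ^ 2 + ((t - s) / Real.pi) ^ 2)⁻¹ := fun s => by positivity
  have key : ∀ s : ℝ, cir s = cir t0 → |t - s| ≤ Real.pi →
      (‖cir t - z‖ ^ 2)⁻¹ ≤ 2 * (A ^ 2 + ((t - s) / Real.pi) ^ 2)⁻¹ := by
    intro s hs hts
    have h1 := ARM1.chord hts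
    rw [hs] at h1
    have h2 : ‖cir t - cir t0‖ ≤ 2 * ‖cir t - z‖ := by
      have h3 : cir t - cir t0 = (cir t - z) + (z - cir t0) := by ring
      rw [h3]
      refine (norm_add_le _ _).trans ?_
      rw [h0]
      linarith
    have h3 : |t - s| / Real.pi ≤ ‖cir t - z‖ := by
      rw [div_le_iff₀ hpi]
      have h4 : Real.pi / 2 * ‖cir t - cir t0‖ ≤ Real.pi / 2 * (2 * ‖cir t - z‖) :=
        mul_le_mul_of_nonneg_left h2 (by positivity)
      linarith
    have h4 : ((t - s) / Real.pi) ^ 2 ≤ ‖cir t - z‖ ^ 2 := by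
      rw [← sq_abs, abs_div, abs_of_pos hpi]
      exact pow_le_pow_left₀ (by positivity) h3 2
    have h5 : A ^ 2 ≤ ‖cir t - z‖ ^ 2 := pow_le_pow_left₀ hA.le hX 2
    have h6 : 0 < A ^ 2 + ((t - s) / Real.pi) ^ 2 := by positivity
    have h7 : 0 < ‖cir t - z‖ ^ 2 := pow_pos (hA.trans_le hX) 2
    rw [← div_eq_mul_inv, le_div_iff₀ h6, inv_mul_le_iff₀ h7]
    linarith
  have hper : cir (t0 + 2 * Real.pi) = cir t0 := ALO.cir_add t0
  have hper' : cir (t0 - 2 * Real.pi) = cir t0 := by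
    have := ALO.cir_add (t0 - 2 * Real.pi)
    rwa [sub_add_cancel, eq_comm] at this
  rw [abs_le] at ht
  rcases le_total (t - t0) Real.pi with h1 | h1
  · rcases le_total (-Real.pi) (t - t0) with h2 | h2
    · have := key t0 rfl (abs_le.mpr ⟨h2, h1⟩)
      linarith [hp (t0 + 2 * Real.pi), hp (t0 - 2 * Real.pi)]
    · have := key (t0 - 2 * Real.pi) hper' (abs_le.mpr ⟨by linarith, by linarith⟩)
      linarith [hp (t0 + 2 * Real.pi), hp t0]
  · have := key (t0 + 2 * Real.pi) hper (abs_le.mpr ⟨by linarith, by linarith⟩)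
    linarith [hp (t0 - 2 * Real.pi), hp t0]

theorem hm_bounds {z : ℂ} {a b t0 : ℝ} (hz : ‖z‖ < 1) (hab : a < b) (hb : b ≤ a + 2 * Real.pi)
    (ha0 : a ≤ t0) (hb0 : t0 ≤ b) (hmin : ∀ t, a ≤ t → t ≤ b → ‖z - cir t0‖ ≤ ‖z - cir t‖) :
    1 / (8 * Real.pi) * ((1 - ‖z‖) * min (b - a) ‖z - cir t0‖ / ‖z - cir t0‖ ^ 2) ≤ hm z a b ∧
    hm z a b ≤ 6 * Real.pi * ((1 - ‖z‖) * min (b - a) ‖z - cir t0‖ / ‖z - cir t0‖ ^ 2) := by
  have hpi := Real.pi_pos
  set δ := 1 - ‖z‖ with hδ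
  set A := ‖z - cir t0‖ with hA
  have hz0 := norm_nonneg z
  have hδ0 : 0 < δ := by linarith
  have hδA : δ ≤ A := by
    have := norm_sub_norm_le (cir t0) z
    rw [ARM1.norm_cir, norm_sub_rev] at this
    exact this
  have hA0 : 0 < A := hδ0.trans_le hδA
  have hd1 : δ ≤ 1 - ‖z‖ ^ 2 := by nlinarith
  have hd2 : 1 - ‖z‖ ^ 2 ≤ 2 * δ := by nlinarith
  have hcont := ker_cont hz
  have hint : ∀ c d : ℝ, IntervalIntegrable (fun t : ℝ => (1 - ‖z‖ ^ 2) / ‖cir t - z‖ ^ 2)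
      volume c d := fun c d => hcont.intervalIntegrable _ _
  have hker0 : ∀ t : ℝ, 0 ≤ (1 - ‖z‖ ^ 2) / ‖cir t - z‖ ^ 2 := fun t =>
    div_nonneg (hδ0.le.trans hd1) (by positivity)
  have hker1 : ∀ t, a ≤ t → t ≤ b → (1 - ‖z‖ ^ 2) / ‖cir t - z‖ ^ 2 ≤ 2 * δ / A ^ 2 := by
    intro t h1 h2
    apply div_le_div₀ (by positivity) hd2 (by positivity)
    rw [norm_sub_rev]
    exact pow_le_pow_left₀ hA0.le (hmin t h1 h2) 2
  have hlow : min (b - a) A * (δ / (4 * A ^ 2)) ≤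
      ∫ t in a..b, (1 - ‖z‖ ^ 2) / ‖cir t - z‖ ^ 2 := by
    obtain ⟨c, hc⟩ : ∃ c : ℝ, c = max a (t0 - A) := ⟨_, rfl⟩
    obtain ⟨d, hd⟩ : ∃ d : ℝ, d = min b (t0 + A) := ⟨_, rfl⟩
    have hac : a ≤ c := by rw [hc]; exact le_max_left _ _
    have hdb : d ≤ b := by rw [hd]; exact min_le_left _ _
    have hc0 : c ≤ t0 := by rw [hc]; exact max_le ha0 (by linarith)
    have hd0 : t0 ≤ d := by rw [hd]; exact le_min hb0 (by linarith)
    have hcd : min (b - a) A ≤ d - c := by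
      rw [hc, hd]
      rcases max_choice a (t0 - A) with h1 | h1 <;> rcases min_choice b (t0 + A) with h2 | h2 <;>
        rw [h1, h2]
      · exact min_le_left _ _
      · exact (min_le_right _ _).trans (by linarith)
      · exact (min_le_right _ _).trans (by linarith)
      · exact (min_le_right _ _).trans (by linarith)
    have h1 : ∫ t in c..d, (1 - ‖z‖ ^ 2) / ‖cir t - z‖ ^ 2 ≤
        ∫ t in a..b, (1 - ‖z‖ ^ 2) / ‖cir t - z‖ ^ 2 := by
      apply intervalIntegral.integral_mono_interval hac (hc0.trans hd0) hdb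
      · exact Filter.Eventually.of_forall hker0
      · exact hint a b
    refine le_trans ?_ h1
    have h2 : ∫ t in c..d, (δ / (4 * A ^ 2)) ≤
        ∫ t in c..d, (1 - ‖z‖ ^ 2) / ‖cir t - z‖ ^ 2 := by
      apply intervalIntegral.integral_mono_on (hc0.trans hd0)
        (continuous_const.intervalIntegrable _ _) (hint c d)
      intro t ht
      have h3 : ‖cir t - z‖ ≤ 2 * A := by
        have h4 : cir t - z = (cir t - cir t0) + -(z - cir t0) := by ring
        rw [h4]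
        refine (norm_add_le _ _).trans ?_
        rw [norm_neg]
        have h5 := ALO.cir_lip t t0
        have h6 : |t - t0| ≤ A := by
          rw [abs_le]
          constructor
          · have : t0 - A ≤ c := by rw [hc]; exact le_max_right _ _
            linarith [ht.1]
          · have : d ≤ t0 + A := by rw [hd]; exact min_le_right _ _
            linarith [ht.2]
        linarith
      have h7 : 0 < ‖cir t - z‖ := by
        rw [norm_pos_iff, sub_ne_zero]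
        rintro h
        rw [← h, ARM1.norm_cir] at hz
        exact lt_irrefl _ hz
      apply div_le_div₀ (hδ0.le.trans hd1) hd1 (by positivity)
      calc ‖cir t - z‖ ^ 2 ≤ (2 * A) ^ 2 := pow_le_pow_left₀ h7.le h3 2
        _ = 4 * A ^ 2 := by ring
    rw [intervalIntegral.integral_const, smul_eq_mul] at h2
    exact (mul_le_mul_of_nonneg_right hcd (by positivity)).trans h2
  have hup : ∫ t in a..b, (1 - ‖z‖ ^ 2) / ‖cir t - z‖ ^ 2 ≤
      12 * Real.pi ^ 2 * (δ * min (b - a) A / A ^ 2) := by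
    rcases le_total (b - a) A with h1 | h1
    · rw [min_eq_left h1]
      have h2 : ∫ t in a..b, (1 - ‖z‖ ^ 2) / ‖cir t - z‖ ^ 2 ≤ ∫ t in a..b, (2 * δ / A ^ 2) := by
        apply intervalIntegral.integral_mono_on hab.le (hint a b)
          (continuous_const.intervalIntegrable _ _)
        intro t ht
        exact hker1 t ht.1 ht.2
      rw [intervalIntegral.integral_const, smul_eq_mul] at h2
      refine h2.trans ?_
      have h3 : (b - a) * (2 * δ / A ^ 2) = 2 * (δ * (b - a) / A ^ 2) := by ring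
      rw [h3]
      apply mul_le_mul_of_nonneg_right _ (by
        have : 0 < b - a := by linarith
        positivity)
      have := Real.pi_gt_three
      nlinarith
    · rw [min_eq_right h1]
      have hci : ∀ s : ℝ, IntervalIntegrable
          (fun t : ℝ => (A ^ 2 + ((t - s) / Real.pi) ^ 2)⁻¹) volume a b := by
        intro s
        apply Continuous.intervalIntegrable
        apply Continuous.inv₀ (by fun_prop)
        intro t
        positivity
      have h2 : ∫ t in a..b, (1 - ‖z‖ ^ 2) / ‖cir t - z‖ ^ 2 ≤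
          ∫ t in a..b, (2 * δ * (2 * (A ^ 2 + ((t - t0) / Real.pi) ^ 2)⁻¹ +
            2 * (A ^ 2 + ((t - (t0 + 2 * Real.pi)) / Real.pi) ^ 2)⁻¹ +
            2 * (A ^ 2 + ((t - (t0 - 2 * Real.pi)) / Real.pi) ^ 2)⁻¹)) := by
        apply intervalIntegral.integral_mono_on hab.le (hint a b)
        · exact ((((hci _).const_mul 2).add ((hci _).const_mul 2)).add
            ((hci _).const_mul 2)).const_mul _
        · intro t ht
          rw [div_eq_mul_inv]
          have h3 := ker_le hA0 rfl (hmin t ht.1 ht.2) (by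
            rw [abs_le]
            constructor <;> linarith [ht.1, ht.2])
          exact mul_le_mul hd2 h3 (by positivity) (by positivity)
      refine h2.trans ?_
      rw [intervalIntegral.integral_const_mul, intervalIntegral.integral_add
        (((hci _).const_mul 2).add ((hci _).const_mul 2)) ((hci _).const_mul 2),
        intervalIntegral.integral_add ((hci _).const_mul 2) ((hci _).const_mul 2),
        intervalIntegral.integral_const_mul, intervalIntegral.integral_const_mul,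
        intervalIntegral.integral_const_mul]
      have h4 := atan_int hA0 t0 a b
      have h5 := atan_int hA0 (t0 + 2 * Real.pi) a b
      have h6 := atan_int hA0 (t0 - 2 * Real.pi) a b
      have h7 : 12 * Real.pi ^ 2 * (δ * A / A ^ 2) = 2 * δ * (2 * (Real.pi ^ 2 / A) +
        2 * (Real.pi ^ 2 / A) + 2 * (Real.pi ^ 2 / A)) := by
        field_simp
        ring
      rw [h7]
      apply mul_le_mul_of_nonneg_left _ (by positivity)
      linarith
  unfold hm
  constructor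
  · rw [le_div_iff₀ (by positivity)]
    refine le_trans (le_of_eq ?_) hlow
    field_simp
    ring
  · rw [div_le_iff₀ (by positivity)]
    refine hup.trans (le_of_eq ?_)
    ring

/-- **Interior point to arc.** -/
theorem main_arc {f g : ℂ → ℂ} {M α : ℝ} (hW : SmW f g M α) : ∃ c C K : ℝ, 0 < c ∧ 0 < C ∧ 0 < K ∧
    ∀ (ε : ℝ) (x : Vtx) (z : ℂ) (θ1 θ2 : ℝ), 0 < ε → ‖z‖ < 1 → f z = pos ε x →
    K * ε ≤ ‖g z‖ * (1 - ‖z‖ ^ 2) → ε ≤ θ2 - θ1 → θ2 ≤ θ1 + 2 * Real.pi →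
    (∀ v, v ∈ TD f ε ↔ pos ε v ∈ f '' disc) ∧
    c * ((ε / (‖g z‖ * (1 - ‖z‖ ^ 2))) ^ (5 / 48 : ℝ) * hm z θ1 θ2 ^ (1 / 3 : ℝ)) ≤
      Pr hf (ES (TD f ε)) (fun F => ∃ w ∈ near f ε θ1 θ2, Reach (F : Set Edg) x w) ∧
    Pr hf (ES (TD f ε)) (fun F => ∃ w ∈ near f ε θ1 θ2, Reach (F : Set Edg) x w) ≤
      C * ((ε / (‖g z‖ * (1 - ‖z‖ ^ 2))) ^ (5 / 48 : ℝ) * hm z θ1 θ2 ^ (1 / 3 : ℝ)) := by
  obtain ⟨D⟩ := dom_of ⟨g, M, α, hW⟩
  obtain ⟨l, H, hl, hH, -, hg, -, -, -⟩ := m_GA f g M α hW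
  obtain ⟨c1, K1, ε1, hc1, hK1, hε1, hε10, hlow⟩ := arc_low D
  obtain ⟨C2, K2, hC2, hK2, hup⟩ := arc_up D
  have hpi := Real.pi_pos
  refine ⟨c1 * (l ^ (5 / 48 : ℝ) * (6 * Real.pi)⁻¹ ^ (1 / 3 : ℝ)),
    C2 * ((2 * H) ^ (5 / 48 : ℝ) * (8 * Real.pi) ^ (1 / 3 : ℝ)),
    2 * H * (K1 + K2 + 1 / ε1), by positivity, by positivity, by positivity, ?_⟩
  intro ε x z θ1 θ2 hε hz hfz hKε hℓ hθ
  have hz0 := norm_nonneg z
  have hgz := hg z (disc_of hz.le)
  set δ := 1 - ‖z‖ with hδ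
  have hδ0 : 0 < δ := by linarith
  have hd1 : δ ≤ 1 - ‖z‖ ^ 2 := by nlinarith
  have hd2 : 1 - ‖z‖ ^ 2 ≤ 2 * δ := by nlinarith
  set rad := ‖g z‖ * (1 - ‖z‖ ^ 2) with hrad
  have hr1 : l * δ ≤ rad := mul_le_mul hgz.1 hd1 hδ0.le (norm_nonneg _)
  have hr2 : rad ≤ 2 * H * δ := by
    calc rad ≤ H * (2 * δ) := mul_le_mul hgz.2 hd2 (hδ0.le.trans hd1) hH.le
      _ = 2 * H * δ := by ring
  have hrad0 : 0 < rad := lt_of_lt_of_le (by positivity) hr1
  have hKδ : (K1 + K2 + 1 / ε1) * ε ≤ δ := by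
    have h1 : 2 * H * ((K1 + K2 + 1 / ε1) * ε) ≤ 2 * H * δ := by
      calc 2 * H * ((K1 + K2 + 1 / ε1) * ε) = 2 * H * (K1 + K2 + 1 / ε1) * ε := by ring
        _ ≤ _ := hKε.trans hr2
    exact le_of_mul_le_mul_left h1 (by positivity)
  have p1 : 0 < K1 * ε := by positivity
  have p2 : 0 < K2 * ε := by positivity
  have p3 : 0 < 1 / ε1 * ε := by positivity
  have hK1ε : K1 * ε ≤ δ := by nlinarith
  have hK2ε : K2 * ε ≤ δ := by nlinarith
  have hεε1 : ε ≤ ε1 := by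
    have h1 : 1 / ε1 * ε ≤ 1 := by nlinarith
    rw [one_div_mul_eq_div, div_le_one hε1] at h1
    exact h1
  have hε0 : ε ≤ D.ε0 := hεε1.trans hε10
  have hab : θ1 < θ2 := by linarith
  obtain ⟨t0, ht0, hmin⟩ := (isCompact_Icc (a := θ1) (b := θ2)).exists_isMinOn
    ⟨θ1, ⟨le_rfl, hab.le⟩⟩ ((continuous_const.sub cir_cont).norm.continuousOn
      (f := fun t => ‖z - cir t‖))
  have hmin' : ∀ t, θ1 ≤ t → t ≤ θ2 → ‖z - cir t0‖ ≤ ‖z - cir t‖ := fun t h1 h2 => hmin ⟨h1, h2⟩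
  have h1 := hlow ε x z θ1 θ2 t0 hε hεε1 hz hfz hK1ε hℓ ht0.1 ht0.2
  have h2 := hup ε x z θ1 θ2 t0 hε hε0 hz hfz hK2ε hℓ ht0.1 ht0.2 hmin'
  obtain ⟨h3, h4⟩ := hm_bounds hz hab hθ ht0.1 ht0.2 hmin'
  set Q := δ * min (θ2 - θ1) ‖z - cir t0‖ / ‖z - cir t0‖ ^ 2 with hQ
  have hQ0 : 0 ≤ Q := by
    have : 0 < θ2 - θ1 := by linarith
    have : 0 ≤ min (θ2 - θ1) ‖z - cir t0‖ := le_min this.le (norm_nonneg _)
    positivity
  have hhm0 : 0 ≤ hm z θ1 θ2 := le_trans (by positivity) h3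
  refine ⟨(D.gd ε hε hε0).1, ?_, ?_⟩
  · refine le_trans ?_ h1
    rw [mul_assoc]
    apply mul_le_mul_of_nonneg_left _ hc1.le
    have e1 : l ^ (5 / 48 : ℝ) * (ε / rad) ^ (5 / 48 : ℝ) ≤ (ε / δ) ^ (5 / 48 : ℝ) := by
      rw [← Real.mul_rpow hl.le (by positivity)]
      apply Real.rpow_le_rpow (by positivity) _ (by norm_num)
      rw [mul_div_assoc', div_le_div_iff₀ hrad0 hδ0]
      nlinarith
    have e2 : (6 * Real.pi)⁻¹ ^ (1 / 3 : ℝ) * hm z θ1 θ2 ^ (1 / 3 : ℝ) ≤ Q ^ (1 / 3 : ℝ) := by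
      rw [← Real.mul_rpow (by positivity) hhm0]
      apply Real.rpow_le_rpow (by positivity) _ (by norm_num)
      rw [inv_mul_le_iff₀ (by positivity)]
      exact h4
    calc _ = (l ^ (5 / 48 : ℝ) * (ε / rad) ^ (5 / 48 : ℝ)) *
          ((6 * Real.pi)⁻¹ ^ (1 / 3 : ℝ) * hm z θ1 θ2 ^ (1 / 3 : ℝ)) := by ring
      _ ≤ _ := mul_le_mul e1 e2 (by positivity) (by positivity)
  · refine h2.trans ?_
    rw [mul_assoc C2]
    apply mul_le_mul_of_nonneg_left _ hC2.le
    have e1 : (ε / δ) ^ (5 / 48 : ℝ) ≤ (2 * H) ^ (5 / 48 : ℝ) * (ε / rad) ^ (5 / 48 : ℝ) := by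
      rw [← Real.mul_rpow (by positivity) (by positivity)]
      apply Real.rpow_le_rpow (by positivity) _ (by norm_num)
      rw [mul_div_assoc', div_le_div_iff₀ hδ0 hrad0]
      nlinarith
    have e2 : Q ^ (1 / 3 : ℝ) ≤ (8 * Real.pi) ^ (1 / 3 : ℝ) * hm z θ1 θ2 ^ (1 / 3 : ℝ) := by
      rw [← Real.mul_rpow (by positivity) hhm0]
      apply Real.rpow_le_rpow hQ0 _ (by norm_num)
      have h5 : Q = 8 * Real.pi * (1 / (8 * Real.pi) * Q) := by field_simp
      rw [h5]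
      exact mul_le_mul_of_nonneg_left h3 (by positivity)
    calc (ε / δ) ^ (5 / 48 : ℝ) * Q ^ (1 / 3 : ℝ) ≤
          ((2 * H) ^ (5 / 48 : ℝ) * (ε / rad) ^ (5 / 48 : ℝ)) *
          ((8 * Real.pi) ^ (1 / 3 : ℝ) * hm z θ1 θ2 ^ (1 / 3 : ℝ)) :=
          mul_le_mul e1 e2 (by positivity) (by positivity)
      _ = _ := by ring

end Run7.h663.PA
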