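import Pool.Agent.Run7.h663.PA.Two
import Pool.Agent.Run7.h663.PA.Poi

/-!
The probability that two interior points are connected: the conformally covariant form.
-/

set_option autoImplicit false

namespace Run7.h663.PA

open H974 hiding Blk okhalf
open H973 hiding okhalf
open Finset
open Pool.Agent.Y989.SD
open Pool.Agent.H160R2.CV (nv P ar Far)

/-- `|1 - z̄ w|` -/
noncomputable def mz (z w : ℂ) : ℝ := ‖1 - (starRingEnd ℂ) z * w‖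

theorem mz_sq (z w : ℂ) : mz z w ^ 2 = ‖z - w‖ ^ 2 + (1 - ‖z‖ ^ 2) * (1 - ‖w‖ ^ 2) := by
  unfold mz
  rw [← Complex.normSq_eq_norm_sq, ← Complex.normSq_eq_norm_sq, ← Complex.normSq_eq_norm_sq,
    ← Complex.normSq_eq_norm_sq]
  simp only [Complex.normSq_apply, Complex.sub_re, Complex.sub_im, Complex.one_re, Complex.one_im,
    Complex.mul_re, Complex.mul_im, Complex.conj_re, Complex.conj_im]
  ring

/-- the pseudo-hyperbolic distance -/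
noncomputable def ph (z w : ℂ) : ℝ := ‖z - w‖ / mz z w

/-- the covariant expression -/
noncomputable def F2 (ε r s : ℝ) (z w : ℂ) : ℝ :=
  (ε / r) ^ (5 / 48 : ℝ) * (ε / s) ^ (5 / 48 : ℝ) *
    (ph z w ^ (-(5 / 24 : ℝ)) * (1 - ph z w ^ 2) ^ (1 / 3 : ℝ))

theorem cube_two {a b m : ℝ} (ha : 0 ≤ a) (hb : 0 ≤ b) (hm : 0 < m) :
    (a * b / m ^ 2) ^ (1 / 3 : ℝ) = (a / m) ^ (1 / 3 : ℝ) * (b / m) ^ (1 / 3 : ℝ) := by
  rw [← Real.mul_rpow (by positivity) (by positivity)]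
  congr 1
  field_simp

/-- comparison with the covariant expression -/
theorem F2_eq {ε r s : ℝ} {z w : ℂ} (hz : ‖z‖ < 1) (hw : ‖w‖ < 1) (hzw : z ≠ w) :
    0 < mz z w ∧ ‖z - w‖ ≤ mz z w ∧ 1 - ‖z‖ ≤ mz z w ∧ 1 - ‖w‖ ≤ mz z w ∧
    mz z w ≤ ‖z - w‖ + 2 * (1 - ‖z‖) ∧ mz z w ≤ ‖z - w‖ + 2 * (1 - ‖w‖) ∧
    F2 ε r s z w = (ε / r) ^ (5 / 48 : ℝ) * (ε / s) ^ (5 / 48 : ℝ) *
      ((mz z w / ‖z - w‖) ^ (5 / 24 : ℝ) *
      (((1 - ‖z‖ ^ 2) / mz z w) ^ (1 / 3 : ℝ) * ((1 - ‖w‖ ^ 2) / mz z w) ^ (1 / 3 : ℝ))) := by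
  have hz0 := norm_nonneg z
  have hw0 := norm_nonneg w
  have hD : 0 < ‖z - w‖ := by rw [norm_pos_iff, sub_ne_zero]; exact hzw
  have h1 : 0 < 1 - ‖z‖ ^ 2 := by nlinarith
  have h2 : 0 < 1 - ‖w‖ ^ 2 := by nlinarith
  have hsq := mz_sq z w
  have hm0 : 0 ≤ mz z w := norm_nonneg _
  have hDm : ‖z - w‖ ≤ mz z w := by
    apply le_of_sq_le_sq _ hm0
    rw [hsq]
    have := mul_pos h1 h2
    linarith
  have hm : 0 < mz z w := hD.trans_le hDm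
  have hlow : 1 - ‖z‖ * ‖w‖ ≤ mz z w := by
    have h3 := norm_sub_norm_le (1 : ℂ) ((starRingEnd ℂ) z * w)
    rw [norm_one, norm_mul, Complex.norm_conj] at h3
    exact h3
  have hup1 : mz z w ≤ ‖z - w‖ + 2 * (1 - ‖z‖) := by
    have h3 : 1 - (starRingEnd ℂ) z * w = (1 - (starRingEnd ℂ) z * z) +
        (starRingEnd ℂ) z * (z - w) := by ring
    unfold mz
    rw [h3]
    refine (norm_add_le _ _).trans ?_
    have h4 : (1 : ℂ) - (starRingEnd ℂ) z * z = ((1 - ‖z‖ ^ 2 : ℝ) : ℂ) := by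
      rw [mul_comm, Complex.mul_conj, Complex.normSq_eq_norm_sq]
      push_cast
      ring
    rw [h4, Complex.norm_real, Real.norm_eq_abs, abs_of_pos h1, norm_mul, Complex.norm_conj]
    nlinarith
  have hup2 : mz z w ≤ ‖z - w‖ + 2 * (1 - ‖w‖) := by
    have h3 : 1 - (starRingEnd ℂ) z * w = (1 - (starRingEnd ℂ) w * w) -
        (starRingEnd ℂ) (z - w) * w := by
      rw [map_sub]
      ring
    unfold mz
    rw [h3]
    refine (norm_sub_le _ _).trans ?_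
    have h4 : (1 : ℂ) - (starRingEnd ℂ) w * w = ((1 - ‖w‖ ^ 2 : ℝ) : ℂ) := by
      rw [mul_comm, Complex.mul_conj, Complex.normSq_eq_norm_sq]
      push_cast
      ring
    rw [h4, Complex.norm_real, Real.norm_eq_abs, abs_of_pos h2, norm_mul, Complex.norm_conj]
    nlinarith
  refine ⟨hm, hDm, by nlinarith, by nlinarith, hup1, hup2, ?_⟩
  unfold F2
  have e1 : ph z w ^ (-(5 / 24 : ℝ)) = (mz z w / ‖z - w‖) ^ (5 / 24 : ℝ) := by
    unfold ph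
    exact rpow_inv_eq hD hm
  have e2 : 1 - ph z w ^ 2 = (1 - ‖z‖ ^ 2) * (1 - ‖w‖ ^ 2) / mz z w ^ 2 := by
    unfold ph
    rw [div_pow, eq_div_iff (by positivity), sub_mul, div_mul_cancel₀ _ (by positivity), hsq]
    ring
  rw [e1, e2, cube_two h1.le h2.le hm]

theorem rp {X c Y p : ℝ} (hX : 0 ≤ X) (hc : 0 ≤ c) (hY : 0 ≤ Y) (hp : 0 ≤ p) (h : X ≤ c * Y) :
    X ^ p ≤ c ^ p * Y ^ p := by
  rw [← Real.mul_rpow hc hY]
  exact Real.rpow_le_rpow hX h hp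

theorem dv {ε a b c : ℝ} (hε : 0 ≤ ε) (ha : 0 < a) (hb : 0 < b) (h : b ≤ c * a) :
    ε / a ≤ c * (ε / b) := by
  rw [mul_div_assoc', div_le_div_iff₀ ha hb]
  nlinarith

theorem rpd {ε a b c p : ℝ} (hε : 0 ≤ ε) (ha : 0 < a) (hb : 0 < b) (hc : 0 ≤ c) (hp : 0 ≤ p)
    (h : b ≤ c * a) : (ε / a) ^ p ≤ c ^ p * (ε / b) ^ p :=
  rp (by positivity) hc (by positivity) hp (dv hε ha hb h)

/-- the comparison function -/
noncomputable def GG (ε a b m d : ℝ) : ℝ :=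
  (ε / a) ^ (5 / 48 : ℝ) * (ε / b) ^ (5 / 48 : ℝ) *
    ((m / d) ^ (5 / 24 : ℝ) * ((a / m) ^ (1 / 3 : ℝ) * (b / m) ^ (1 / 3 : ℝ)))

theorem two48 {x : ℝ} (hx : 0 < x) : x ^ (5 / 48 : ℝ) * x ^ (5 / 48 : ℝ) = x ^ (5 / 24 : ℝ) := by
  rw [← Real.rpow_add hx]
  norm_num

/-- the close regime -/
theorem GG_close {ε a b m d : ℝ} (hε : 0 < ε) (ha : 0 < a) (hb : 0 < b) (hd : 0 < d)
    (ham : a ≤ m) (hbm : b ≤ m) (hma : m ≤ 3 * a) (hmb : m ≤ 3 * b) :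
    (1 / 9 : ℝ) * (ε / d) ^ (5 / 24 : ℝ) ≤ GG ε a b m d ∧
    GG ε a b m d ≤ 9 * (ε / d) ^ (5 / 24 : ℝ) := by
  have hm : 0 < m := ha.trans_le ham
  have e0 : (ε / m) ^ (5 / 24 : ℝ) * (m / d) ^ (5 / 24 : ℝ) = (ε / d) ^ (5 / 24 : ℝ) := by
    rw [← Real.mul_rpow (by positivity) (by positivity)]
    congr 1
    field_simp
  have e1 : (ε / m) ^ (5 / 48 : ℝ) ≤ (ε / a) ^ (5 / 48 : ℝ) :=
    Real.rpow_le_rpow (by positivity) (div_le_div_of_nonneg_left hε.le ha ham) (by norm_num)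
  have e2 : (ε / m) ^ (5 / 48 : ℝ) ≤ (ε / b) ^ (5 / 48 : ℝ) :=
    Real.rpow_le_rpow (by positivity) (div_le_div_of_nonneg_left hε.le hb hbm) (by norm_num)
  have h3 : (3 : ℝ) ^ (5 / 48 : ℝ) ≤ 3 := by
    calc (3 : ℝ) ^ (5 / 48 : ℝ) ≤ 3 ^ (1 : ℝ) :=
          Real.rpow_le_rpow_of_exponent_le (by norm_num) (by norm_num)
      _ = 3 := Real.rpow_one _
  have e3 : (ε / a) ^ (5 / 48 : ℝ) ≤ 3 * (ε / m) ^ (5 / 48 : ℝ) :=
    (rpd hε.le ha hm (by norm_num) (by norm_num) hma).trans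
      (mul_le_mul_of_nonneg_right h3 (by positivity))
  have e4 : (ε / b) ^ (5 / 48 : ℝ) ≤ 3 * (ε / m) ^ (5 / 48 : ℝ) :=
    (rpd hε.le hb hm (by norm_num) (by norm_num) hmb).trans
      (mul_le_mul_of_nonneg_right h3 (by positivity))
  have h13 : (1 / 3 : ℝ) ≤ (1 / 3 : ℝ) ^ (1 / 3 : ℝ) := by
    calc (1 / 3 : ℝ) = (1 / 3 : ℝ) ^ (1 : ℝ) := (Real.rpow_one _).symm
      _ ≤ _ := Real.rpow_le_rpow_of_exponent_ge (by norm_num) (by norm_num) (by norm_num)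
  have f1 : (1 / 3 : ℝ) ≤ (a / m) ^ (1 / 3 : ℝ) := by
    refine h13.trans (Real.rpow_le_rpow (by norm_num) ?_ (by norm_num))
    rw [le_div_iff₀ hm]
    linarith
  have f2 : (1 / 3 : ℝ) ≤ (b / m) ^ (1 / 3 : ℝ) := by
    refine h13.trans (Real.rpow_le_rpow (by norm_num) ?_ (by norm_num))
    rw [le_div_iff₀ hm]
    linarith
  have f3 : (a / m) ^ (1 / 3 : ℝ) ≤ 1 :=
    Real.rpow_le_one (by positivity) (by rw [div_le_one hm]; exact ham) (by norm_num)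
  have f4 : (b / m) ^ (1 / 3 : ℝ) ≤ 1 :=
    Real.rpow_le_one (by positivity) (by rw [div_le_one hm]; exact hbm) (by norm_num)
  have h24 := two48 (show (0 : ℝ) < ε / m by positivity)
  unfold GG
  constructor
  · calc (1 / 9 : ℝ) * (ε / d) ^ (5 / 24 : ℝ) = (ε / m) ^ (5 / 48 : ℝ) * (ε / m) ^ (5 / 48 : ℝ) *
          ((m / d) ^ (5 / 24 : ℝ) * ((1 / 3 : ℝ) * (1 / 3 : ℝ))) := by
          rw [h24, ← e0]
          ring
      _ ≤ _ := by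
          apply mul_le_mul (mul_le_mul e1 e2 (by positivity) (by positivity)) _ (by positivity)
            (by positivity)
          exact mul_le_mul_of_nonneg_left (mul_le_mul f1 f2 (by norm_num) (by positivity))
            (by positivity)
  · calc _ ≤ (3 * (ε / m) ^ (5 / 48 : ℝ)) * (3 * (ε / m) ^ (5 / 48 : ℝ)) *
          ((m / d) ^ (5 / 24 : ℝ) * (1 * 1)) := by
          apply mul_le_mul (mul_le_mul e3 e4 (by positivity) (by positivity)) _ (by positivity)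
            (by positivity)
          exact mul_le_mul_of_nonneg_left (mul_le_mul f3 f4 (by positivity) (by norm_num))
            (by positivity)
      _ = 9 * (((ε / m) ^ (5 / 48 : ℝ) * (ε / m) ^ (5 / 48 : ℝ)) * (m / d) ^ (5 / 24 : ℝ)) := by
          ring
      _ = _ := by rw [h24, e0]

/-- the separated regime -/
theorem GG_far {ε a b m d A c1 : ℝ} (hε : 0 < ε) (ha : 0 < a) (hb : 0 < b) (hd : 0 < d)
    (hA : 0 < A) (hc1 : 0 < c1) (hAm : A ≤ m) (hmA : m ≤ 3 * A) (hdm : d ≤ m)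
    (hAd : c1 * A ≤ d) :
    GG ε a b m d ≤ (3 / c1) ^ (5 / 24 : ℝ) * ((ε / a) ^ (5 / 48 : ℝ) * (ε / b) ^ (5 / 48 : ℝ) *
      ((a / A) ^ (1 / 3 : ℝ) * (b / A) ^ (1 / 3 : ℝ))) ∧
    (ε / a) ^ (5 / 48 : ℝ) * (ε / b) ^ (5 / 48 : ℝ) *
      ((a / A) ^ (1 / 3 : ℝ) * (b / A) ^ (1 / 3 : ℝ)) ≤ 9 * GG ε a b m d := by
  have hm : 0 < m := hA.trans_le hAm
  have e1 : (m / d) ^ (5 / 24 : ℝ) ≤ (3 / c1) ^ (5 / 24 : ℝ) := by
    apply Real.rpow_le_rpow (by positivity) _ (by norm_num)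
    rw [div_le_div_iff₀ hd hc1]
    nlinarith
  have e2 : 1 ≤ (m / d) ^ (5 / 24 : ℝ) := by
    apply Real.one_le_rpow _ (by norm_num)
    rw [one_le_div hd]
    exact hdm
  have f1 : (a / m) ^ (1 / 3 : ℝ) ≤ (a / A) ^ (1 / 3 : ℝ) :=
    Real.rpow_le_rpow (by positivity) (div_le_div_of_nonneg_left ha.le hA hAm) (by norm_num)
  have f2 : (b / m) ^ (1 / 3 : ℝ) ≤ (b / A) ^ (1 / 3 : ℝ) :=
    Real.rpow_le_rpow (by positivity) (div_le_div_of_nonneg_left hb.le hA hAm) (by norm_num)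
  have h3 : (3 : ℝ) ^ (1 / 3 : ℝ) ≤ 3 := by
    calc (3 : ℝ) ^ (1 / 3 : ℝ) ≤ 3 ^ (1 : ℝ) :=
          Real.rpow_le_rpow_of_exponent_le (by norm_num) (by norm_num)
      _ = 3 := Real.rpow_one _
  have f3 : (a / A) ^ (1 / 3 : ℝ) ≤ 3 * (a / m) ^ (1 / 3 : ℝ) :=
    (rpd ha.le hA hm (by norm_num) (by norm_num) hmA).trans
      (mul_le_mul_of_nonneg_right h3 (by positivity))
  have f4 : (b / A) ^ (1 / 3 : ℝ) ≤ 3 * (b / m) ^ (1 / 3 : ℝ) :=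
    (rpd hb.le hA hm (by norm_num) (by norm_num) hmA).trans
      (mul_le_mul_of_nonneg_right h3 (by positivity))
  have g1 : (a / m) ^ (1 / 3 : ℝ) * (b / m) ^ (1 / 3 : ℝ) ≤
      (a / A) ^ (1 / 3 : ℝ) * (b / A) ^ (1 / 3 : ℝ) :=
    mul_le_mul f1 f2 (by positivity) (by positivity)
  have g2 : (a / A) ^ (1 / 3 : ℝ) * (b / A) ^ (1 / 3 : ℝ) ≤
      (3 * (a / m) ^ (1 / 3 : ℝ)) * (3 * (b / m) ^ (1 / 3 : ℝ)) :=
    mul_le_mul f3 f4 (by positivity) (by positivity)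
  have hE : 0 ≤ (ε / a) ^ (5 / 48 : ℝ) * (ε / b) ^ (5 / 48 : ℝ) := by positivity
  unfold GG
  constructor
  · calc _ ≤ (ε / a) ^ (5 / 48 : ℝ) * (ε / b) ^ (5 / 48 : ℝ) * ((3 / c1) ^ (5 / 24 : ℝ) *
          ((a / A) ^ (1 / 3 : ℝ) * (b / A) ^ (1 / 3 : ℝ))) :=
          mul_le_mul_of_nonneg_left (mul_le_mul e1 g1 (by positivity) (by positivity)) hE
      _ = _ := by ring
  · have g3 : 9 * ((a / m) ^ (1 / 3 : ℝ) * (b / m) ^ (1 / 3 : ℝ)) ≤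
        9 * ((m / d) ^ (5 / 24 : ℝ) * ((a / m) ^ (1 / 3 : ℝ) * (b / m) ^ (1 / 3 : ℝ))) := by
      have : 0 ≤ (a / m) ^ (1 / 3 : ℝ) * (b / m) ^ (1 / 3 : ℝ) := by positivity
      nlinarith
    calc _ ≤ (ε / a) ^ (5 / 48 : ℝ) * (ε / b) ^ (5 / 48 : ℝ) * (9 * ((m / d) ^ (5 / 24 : ℝ) *
          ((a / m) ^ (1 / 3 : ℝ) * (b / m) ^ (1 / 3 : ℝ)))) := by
          apply mul_le_mul_of_nonneg_left _ hE
          linarith
      _ = _ := by ring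

/-- passing from the distances to the conformal radii -/
theorem F2_GG {l H ε r s u v a b m d : ℝ} (hl : 0 < l) (hH : 0 < H) (hε : 0 < ε) (ha : 0 < a)
    (hb : 0 < b) (hm : 0 < m) (hd : 0 < d) (hr1 : l * a ≤ r) (hr2 : r ≤ 2 * H * a)
    (hs1 : l * b ≤ s) (hs2 : s ≤ 2 * H * b) (hu1 : a ≤ u) (hu2 : u ≤ 2 * a) (hv1 : b ≤ v)
    (hv2 : v ≤ 2 * b) {F : ℝ} (hF : F = (ε / r) ^ (5 / 48 : ℝ) * (ε / s) ^ (5 / 48 : ℝ) *
      ((m / d) ^ (5 / 24 : ℝ) * ((u / m) ^ (1 / 3 : ℝ) * (v / m) ^ (1 / 3 : ℝ)))) :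
    GG ε a b m d ≤ (2 * H) ^ (5 / 24 : ℝ) * F ∧ F ≤ 4 * (1 / l) ^ (5 / 24 : ℝ) * GG ε a b m d := by
  have hr0 : 0 < r := lt_of_lt_of_le (by positivity) hr1
  have hs0 : 0 < s := lt_of_lt_of_le (by positivity) hs1
  have hu0 : 0 < u := ha.trans_le hu1
  have hv0 : 0 < v := hb.trans_le hv1
  have e1 : (ε / a) ^ (5 / 48 : ℝ) ≤ (2 * H) ^ (5 / 48 : ℝ) * (ε / r) ^ (5 / 48 : ℝ) :=
    rpd hε.le ha hr0 (by positivity) (by norm_num) hr2
  have e2 : (ε / b) ^ (5 / 48 : ℝ) ≤ (2 * H) ^ (5 / 48 : ℝ) * (ε / s) ^ (5 / 48 : ℝ) :=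
    rpd hε.le hb hs0 (by positivity) (by norm_num) hs2
  have e3 : (ε / r) ^ (5 / 48 : ℝ) ≤ (1 / l) ^ (5 / 48 : ℝ) * (ε / a) ^ (5 / 48 : ℝ) := by
    apply rpd hε.le hr0 ha (by positivity) (by norm_num)
    rw [one_div_mul_eq_div, le_div_iff₀ hl]
    linarith
  have e4 : (ε / s) ^ (5 / 48 : ℝ) ≤ (1 / l) ^ (5 / 48 : ℝ) * (ε / b) ^ (5 / 48 : ℝ) := by
    apply rpd hε.le hs0 hb (by positivity) (by norm_num)
    rw [one_div_mul_eq_div, le_div_iff₀ hl]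
    linarith
  have f1 : (a / m) ^ (1 / 3 : ℝ) ≤ (u / m) ^ (1 / 3 : ℝ) :=
    Real.rpow_le_rpow (by positivity) (div_le_div_of_nonneg_right hu1 hm.le) (by norm_num)
  have f2 : (b / m) ^ (1 / 3 : ℝ) ≤ (v / m) ^ (1 / 3 : ℝ) :=
    Real.rpow_le_rpow (by positivity) (div_le_div_of_nonneg_right hv1 hm.le) (by norm_num)
  have h2 : (2 : ℝ) ^ (1 / 3 : ℝ) ≤ 2 := by
    calc (2 : ℝ) ^ (1 / 3 : ℝ) ≤ 2 ^ (1 : ℝ) :=
          Real.rpow_le_rpow_of_exponent_le (by norm_num) (by norm_num)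
      _ = 2 := Real.rpow_one _
  have f3 : (u / m) ^ (1 / 3 : ℝ) ≤ 2 * (a / m) ^ (1 / 3 : ℝ) := by
    refine (rp (c := 2) (Y := a / m) (by positivity) (by norm_num) (by positivity) (by norm_num)
      ?_).trans (mul_le_mul_of_nonneg_right h2 (by positivity))
    rw [mul_div_assoc']
    exact div_le_div_of_nonneg_right hu2 hm.le
  have f4 : (v / m) ^ (1 / 3 : ℝ) ≤ 2 * (b / m) ^ (1 / 3 : ℝ) := by
    refine (rp (c := 2) (Y := b / m) (by positivity) (by norm_num) (by positivity) (by norm_num)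
      ?_).trans (mul_le_mul_of_nonneg_right h2 (by positivity))
    rw [mul_div_assoc']
    exact div_le_div_of_nonneg_right hv2 hm.le
  have k1 := two48 (show (0 : ℝ) < 2 * H by positivity)
  have k2 := two48 (show (0 : ℝ) < 1 / l by positivity)
  rw [hF]
  unfold GG
  constructor
  · calc _ ≤ ((2 * H) ^ (5 / 48 : ℝ) * (ε / r) ^ (5 / 48 : ℝ)) *
          ((2 * H) ^ (5 / 48 : ℝ) * (ε / s) ^ (5 / 48 : ℝ)) *
          ((m / d) ^ (5 / 24 : ℝ) * ((u / m) ^ (1 / 3 : ℝ) * (v / m) ^ (1 / 3 : ℝ))) := by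
          apply mul_le_mul (mul_le_mul e1 e2 (by positivity) (by positivity)) _ (by positivity)
            (by positivity)
          exact mul_le_mul_of_nonneg_left (mul_le_mul f1 f2 (by positivity) (by positivity))
            (by positivity)
      _ = ((2 * H) ^ (5 / 48 : ℝ) * (2 * H) ^ (5 / 48 : ℝ)) * ((ε / r) ^ (5 / 48 : ℝ) *
          (ε / s) ^ (5 / 48 : ℝ) *
          ((m / d) ^ (5 / 24 : ℝ) * ((u / m) ^ (1 / 3 : ℝ) * (v / m) ^ (1 / 3 : ℝ)))) := by ring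
      _ = _ := by rw [k1]
  · calc _ ≤ ((1 / l) ^ (5 / 48 : ℝ) * (ε / a) ^ (5 / 48 : ℝ)) *
          ((1 / l) ^ (5 / 48 : ℝ) * (ε / b) ^ (5 / 48 : ℝ)) *
          ((m / d) ^ (5 / 24 : ℝ) * ((2 * (a / m) ^ (1 / 3 : ℝ)) *
            (2 * (b / m) ^ (1 / 3 : ℝ)))) := by
          apply mul_le_mul (mul_le_mul e3 e4 (by positivity) (by positivity)) _ (by positivity)
            (by positivity)
          exact mul_le_mul_of_nonneg_left (mul_le_mul f3 f4 (by positivity) (by positivity))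
            (by positivity)
      _ = 4 * ((1 / l) ^ (5 / 48 : ℝ) * (1 / l) ^ (5 / 48 : ℝ)) * ((ε / a) ^ (5 / 48 : ℝ) *
          (ε / b) ^ (5 / 48 : ℝ) *
          ((m / d) ^ (5 / 24 : ℝ) * ((a / m) ^ (1 / 3 : ℝ) * (b / m) ^ (1 / 3 : ℝ)))) := by ring
      _ = _ := by rw [k2]

theorem GG_comm (ε a b m d : ℝ) : GG ε a b m d = GG ε b a m d := by
  unfold GG
  ring

/-- **Two interior points.** -/
theorem main_two {f g : ℂ → ℂ} {M α : ℝ} (hW : SmW f g M α) : ∃ c C K : ℝ, 0 < c ∧ 0 < C ∧ 0 < K ∧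
    ∀ (ε : ℝ) (x y : Vtx) (z w : ℂ), 0 < ε → ‖z‖ < 1 → ‖w‖ < 1 → f z = pos ε x → f w = pos ε y →
    x ≠ y → K * ε ≤ ‖g z‖ * (1 - ‖z‖ ^ 2) → K * ε ≤ ‖g w‖ * (1 - ‖w‖ ^ 2) →
    (∀ v, v ∈ TD f ε ↔ pos ε v ∈ f '' disc) ∧
    c * F2 ε (‖g z‖ * (1 - ‖z‖ ^ 2)) (‖g w‖ * (1 - ‖w‖ ^ 2)) z w ≤ PP f ε x y ∧
    PP f ε x y ≤ C * F2 ε (‖g z‖ * (1 - ‖z‖ ^ 2)) (‖g w‖ * (1 - ‖w‖ ^ 2)) z w := by
  obtain ⟨D⟩ := dom_of ⟨g, M, α, hW⟩
  obtain ⟨l, H, hl, hH, -, hg, -, -, -⟩ := m_GA f g M α hW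
  obtain ⟨c0, hc0, hloc⟩ := two_loc_low D
  obtain ⟨C0, hC0, hlocu⟩ := two_loc_up D
  obtain ⟨c2, K2, ε1, hc2, hK2, hε1, hε10, hlow⟩ := two_low D
  have hDH := D.hH
  have hDl := D.hl
  set c1 : ℝ := min (1 / 2) (D.l / (36 * D.H)) with hc1
  have hc10 : 0 < c1 := lt_min (by norm_num) (by positivity)
  have hc12 : c1 ≤ 1 / 2 := min_le_left _ _
  have hc1l : 36 * D.H * c1 ≤ D.l := by
    have h1 : c1 ≤ D.l / (36 * D.H) := min_le_right _ _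
    rw [le_div_iff₀ (by positivity)] at h1
    linarith
  obtain ⟨C3, K3, hC3, hK3, hup⟩ := two_up D hc10 (by linarith)
  -- the statement in terms of `GG`
  obtain ⟨cG, hcG⟩ : ∃ cG : ℝ, cG = min (c0 / 9) (c2 / (3 / c1) ^ (5 / 24 : ℝ)) := ⟨_, rfl⟩
  obtain ⟨CG, hCG⟩ : ∃ CG : ℝ, CG = max (9 * C0) (9 * C3) := ⟨_, rfl⟩
  have hcG0 : 0 < cG := by rw [hcG]; exact lt_min (by positivity) (by positivity)
  have hCG0 : 0 < CG := by rw [hCG]; exact lt_max_of_lt_left (by positivity)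
  have key : ∀ (ε : ℝ) (x y : Vtx) (z w : ℂ), 0 < ε → ε ≤ ε1 → ‖z‖ < 1 → ‖w‖ < 1 →
      f z = pos ε x → f w = pos ε y → x ≠ y → z ≠ w → K2 * ε ≤ 1 - ‖z‖ → K2 * ε ≤ 1 - ‖w‖ →
      K3 * ε ≤ 1 - ‖z‖ → K3 * ε ≤ 1 - ‖w‖ → 1 - ‖w‖ ≤ 1 - ‖z‖ →
      cG * GG ε (1 - ‖z‖) (1 - ‖w‖) (mz z w) ‖z - w‖ ≤ PP f ε x y ∧
      PP f ε x y ≤ CG * GG ε (1 - ‖z‖) (1 - ‖w‖) (mz z w) ‖z - w‖ := by
    intro ε x y z w hε hεε1 hz hw hfz hfw hxy hzw hK2z hK2w hK3z hK3w hwz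
    obtain ⟨hm, hDm, hzm, hwm, hm1, hm2, -⟩ := F2_eq (ε := ε) (r := 1) (s := 1) hz hw hzw
    have hz0 := norm_nonneg z
    have hw0 := norm_nonneg w
    have hd : 0 < ‖z - w‖ := by rw [norm_pos_iff, sub_ne_zero]; exact hzw
    set a := 1 - ‖z‖ with ha
    set b := 1 - ‖w‖ with hb
    set d := ‖z - w‖ with hdd
    set m := mz z w with hmm
    have ha0 : 0 < a := by linarith
    have hb0 : 0 < b := by linarith
    have hε0 : ε ≤ D.ε0 := hεε1.trans hε10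
    have hab : a ≤ b + d := by
      have := norm_sub_norm_le w z
      rw [norm_sub_rev] at this
      linarith
    have hGG0 : 0 ≤ GG ε a b m d := by unfold GG; positivity
    rcases lt_or_ge d (c1 * a) with hda | hda
    · -- close points
      have hda2 : d ≤ a / 2 := by nlinarith
      obtain ⟨g1, g2⟩ := GG_close hε ha0 hb0 hd hzm hwm (by linarith) (by linarith)
      constructor
      · have h1 := hloc ε x y z w hε hε0 hz hw hfz hfw hxy (by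
          calc 36 * D.H * ‖z - w‖ ≤ 36 * D.H * (c1 * a) :=
                mul_le_mul_of_nonneg_left hda.le (by positivity)
            _ = 36 * D.H * c1 * a := by ring
            _ ≤ D.l * a := mul_le_mul_of_nonneg_right hc1l ha0.le)
        have h2 : cG ≤ c0 / 9 := by rw [hcG]; exact min_le_left _ _
        calc cG * GG ε a b m d ≤ c0 / 9 * (9 * (ε / d) ^ (5 / 24 : ℝ)) :=
              mul_le_mul h2 g2 hGG0 (by positivity)
          _ = c0 * (ε / d) ^ (5 / 24 : ℝ) := by ring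
          _ ≤ _ := h1
      · have h1 := hlocu ε x y z w hε hz hw hfz hfw hxy
        have h2 : 9 * C0 ≤ CG := by rw [hCG]; exact le_max_left _ _
        calc PP f ε x y ≤ C0 * (ε / d) ^ (5 / 24 : ℝ) := h1
          _ = 9 * C0 * (1 / 9 * (ε / d) ^ (5 / 24 : ℝ)) := by ring
          _ ≤ _ := mul_le_mul h2 g1 (by positivity) hCG0.le
    · -- separated points
      obtain ⟨A, hA⟩ : ∃ A : ℝ, A = max d a := ⟨_, rfl⟩
      have hAd : d ≤ A := by rw [hA]; exact le_max_left _ _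
      have hAa : a ≤ A := by rw [hA]; exact le_max_right _ _
      have hA0 : 0 < A := hd.trans_le hAd
      have hAm : A ≤ m := by rw [hA]; exact max_le hDm hzm
      have hA2 : A ≤ 2 := by
        rw [hA]
        apply max_le
        · have := norm_sub_le z w
          linarith
        · linarith
      have hc1A : c1 * A ≤ d := by
        rw [hA]
        rcases max_choice d a with h1 | h1 <;> rw [h1]
        · nlinarith
        · exact hda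
      obtain ⟨g1, g2⟩ := GG_far (b := b) hε ha0 hb0 hd hA0 hc10 hAm (by linarith) hDm hc1A
      constructor
      · have h1 := hlow ε A x y z w hε hεε1 hz hw hfz hfw hK2z hK2w hAa (hwz.trans hAa) hAd hA2
        have h2 : cG ≤ c2 / (3 / c1) ^ (5 / 24 : ℝ) := by rw [hcG]; exact min_le_right _ _
        refine (mul_le_mul h2 g1 hGG0 (by positivity)).trans (le_trans (le_of_eq ?_) h1)
        have h3 : (3 / c1) ^ (5 / 24 : ℝ) ≠ 0 := by positivity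
        rw [← mul_assoc, div_mul_cancel₀ _ h3]
      · have h1 := hup ε A x y z w hε hε0 hz hw hfz hfw hK3z hK3w hAa (hwz.trans hAa) hA2 hc1A
        have h2 : 9 * C3 ≤ CG := by rw [hCG]; exact le_max_right _ _
        refine h1.trans ?_
        calc _ ≤ C3 * (9 * GG ε a b m d) := mul_le_mul_of_nonneg_left g2 hC3.le
          _ = 9 * C3 * GG ε a b m d := by ring
          _ ≤ _ := mul_le_mul_of_nonneg_right h2 hGG0
  refine ⟨cG / (4 * (1 / l) ^ (5 / 24 : ℝ)), CG * (2 * H) ^ (5 / 24 : ℝ),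
    2 * H * (K2 + K3 + 1 / ε1), by positivity, by positivity, by positivity, ?_⟩
  intro ε x y z w hε hz hw hfz hfw hxy hKz hKw
  have hz0 := norm_nonneg z
  have hw0 := norm_nonneg w
  have hgz := hg z (disc_of hz.le)
  have hgw := hg w (disc_of hw.le)
  have hzw : z ≠ w := by
    rintro rfl
    rw [hfz] at hfw
    apply hxy
    have h1 : nv (x - y) ≤ 0 := by
      rw [← mem_BX_nv]
      apply ALO.mem_BX_of hε
      rw [hfw, sub_self, norm_zero]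
      simp
    exact sub_eq_zero.mp (Pool.Agent.H160R2.CV.Quad.nv_eq_zero (by omega))
  obtain ⟨hm, -, -, -, -, -, hF⟩ := F2_eq (ε := ε) (r := ‖g z‖ * (1 - ‖z‖ ^ 2))
    (s := ‖g w‖ * (1 - ‖w‖ ^ 2)) hz hw hzw
  have hd : 0 < ‖z - w‖ := by rw [norm_pos_iff, sub_ne_zero]; exact hzw
  have ha0 : 0 < 1 - ‖z‖ := by linarith
  have hb0 : 0 < 1 - ‖w‖ := by linarith
  have hu1 : 1 - ‖z‖ ≤ 1 - ‖z‖ ^ 2 := by nlinarith
  have hu2 : 1 - ‖z‖ ^ 2 ≤ 2 * (1 - ‖z‖) := by nlinarith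
  have hv1 : 1 - ‖w‖ ≤ 1 - ‖w‖ ^ 2 := by nlinarith
  have hv2 : 1 - ‖w‖ ^ 2 ≤ 2 * (1 - ‖w‖) := by nlinarith
  have hr1 : l * (1 - ‖z‖) ≤ ‖g z‖ * (1 - ‖z‖ ^ 2) := mul_le_mul hgz.1 hu1 ha0.le (norm_nonneg _)
  have hs1 : l * (1 - ‖w‖) ≤ ‖g w‖ * (1 - ‖w‖ ^ 2) := mul_le_mul hgw.1 hv1 hb0.le (norm_nonneg _)
  have hr2 : ‖g z‖ * (1 - ‖z‖ ^ 2) ≤ 2 * H * (1 - ‖z‖) := by
    calc _ ≤ H * (2 * (1 - ‖z‖)) := mul_le_mul hgz.2 hu2 (ha0.le.trans hu1) hH.le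
      _ = _ := by ring
  have hs2 : ‖g w‖ * (1 - ‖w‖ ^ 2) ≤ 2 * H * (1 - ‖w‖) := by
    calc _ ≤ H * (2 * (1 - ‖w‖)) := mul_le_mul hgw.2 hv2 (hb0.le.trans hv1) hH.le
      _ = _ := by ring
  obtain ⟨k1, k2⟩ := F2_GG hl hH hε ha0 hb0 hm hd hr1 hr2 hs1 hs2 hu1 hu2 hv1 hv2 hF
  have hKz' : (K2 + K3 + 1 / ε1) * ε ≤ 1 - ‖z‖ := by
    have h1 : 2 * H * ((K2 + K3 + 1 / ε1) * ε) ≤ 2 * H * (1 - ‖z‖) := by
      calc 2 * H * ((K2 + K3 + 1 / ε1) * ε) = 2 * H * (K2 + K3 + 1 / ε1) * ε := by ring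
        _ ≤ _ := hKz.trans hr2
    exact le_of_mul_le_mul_left h1 (by positivity)
  have hKw' : (K2 + K3 + 1 / ε1) * ε ≤ 1 - ‖w‖ := by
    have h1 : 2 * H * ((K2 + K3 + 1 / ε1) * ε) ≤ 2 * H * (1 - ‖w‖) := by
      calc 2 * H * ((K2 + K3 + 1 / ε1) * ε) = 2 * H * (K2 + K3 + 1 / ε1) * ε := by ring
        _ ≤ _ := hKw.trans hs2
    exact le_of_mul_le_mul_left h1 (by positivity)
  have p1 : 0 < K2 * ε := by positivity
  have p2 : 0 < K3 * ε := by positivity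
  have p3 : 0 < 1 / ε1 * ε := by positivity
  have hεε1 : ε ≤ ε1 := by
    have h1 : 1 / ε1 * ε ≤ 1 := by nlinarith
    rw [one_div_mul_eq_div, div_le_one hε1] at h1
    exact h1
  have hε0 : ε ≤ D.ε0 := hεε1.trans hε10
  have hmc : mz w z = mz z w := by
    have h1 := mz_sq z w
    have h2 := mz_sq w z
    rw [norm_sub_rev w z, mul_comm (1 - ‖w‖ ^ 2)] at h2
    have h3 : mz w z ^ 2 = mz z w ^ 2 := h2.trans h1.symm
    exact le_antisymm (le_of_sq_le_sq h3.le hm.le) (le_of_sq_le_sq h3.ge (norm_nonneg _))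
  have hk : cG * GG ε (1 - ‖z‖) (1 - ‖w‖) (mz z w) ‖z - w‖ ≤ PP f ε x y ∧
      PP f ε x y ≤ CG * GG ε (1 - ‖z‖) (1 - ‖w‖) (mz z w) ‖z - w‖ := by
    rcases le_total (1 - ‖w‖) (1 - ‖z‖) with h | h
    · exact key ε x y z w hε hεε1 hz hw hfz hfw hxy hzw (by nlinarith) (by nlinarith)
        (by nlinarith) (by nlinarith) h
    · have := key ε y x w z hε hεε1 hw hz hfw hfz hxy.symm hzw.symm (by nlinarith) (by nlinarith)
        (by nlinarith) (by nlinarith) h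
      rwa [GG_comm, hmc, norm_sub_rev, PP_comm] at this
  refine ⟨(D.gd ε hε hε0).1, ?_, ?_⟩
  · refine le_trans ?_ hk.1
    have h1 : 0 < 4 * (1 / l) ^ (5 / 24 : ℝ) := by positivity
    calc _ ≤ cG / (4 * (1 / l) ^ (5 / 24 : ℝ)) * (4 * (1 / l) ^ (5 / 24 : ℝ) *
          GG ε (1 - ‖z‖) (1 - ‖w‖) (mz z w) ‖z - w‖) :=
          mul_le_mul_of_nonneg_left k2 (by positivity)
      _ = cG * GG ε (1 - ‖z‖) (1 - ‖w‖) (mz z w) ‖z - w‖ := by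
          rw [← mul_assoc, div_mul_cancel₀ _ h1.ne']
  · refine hk.2.trans ?_
    rw [mul_assoc CG]
    exact mul_le_mul_of_nonneg_left k1 hCG0.le

end Run7.h663.PA
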