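import Pool.Agent.Run7.h663.PA.KMain

/-!
The probability that finitely many interior points are connected: the factorization formulas.
-/

set_option autoImplicit false

namespace Run7.h663.PA

open H974 hiding Blk okhalf
open H973 hiding okhalf
open Finset
open Pool.Agent.Y989.SD
open Pool.Agent.H160R2.CV (nv P ar Far)

variable {f : ℂ → ℂ}

theorem mz_comm (z w : ℂ) : mz z w = mz w z := by
  have h1 := mz_sq z w
  have h2 := mz_sq w z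
  rw [norm_sub_rev w z, mul_comm (1 - ‖w‖ ^ 2)] at h2
  have h3 : mz w z ^ 2 = mz z w ^ 2 := h2.trans h1.symm
  exact le_antisymm (le_of_sq_le_sq h3.ge (norm_nonneg _)) (le_of_sq_le_sq h3.le (norm_nonneg _))

theorem mz_tri {z w u : ℂ} (hu : ‖u‖ ≤ 1) : mz z u ≤ mz w u + ‖z - w‖ := by
  unfold mz
  have h1 : 1 - (starRingEnd ℂ) z * u = (1 - (starRingEnd ℂ) w * u) -
      (starRingEnd ℂ) (z - w) * u := by
    rw [map_sub]
    ring
  rw [h1]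
  refine (norm_sub_le _ _).trans ?_
  rw [norm_mul, Complex.norm_conj]
  have := norm_nonneg (z - w)
  nlinarith

/-- distinct vertices have distinct preimages -/
theorem ne_of_ne {ε : ℝ} (hε : 0 < ε) {x y : Vtx} {z w : ℂ} (hfz : f z = pos ε x)
    (hfw : f w = pos ε y) (hxy : x ≠ y) : z ≠ w := by
  rintro rfl
  rw [hfz] at hfw
  apply hxy
  have h1 : nv (x - y) ≤ 0 := by
    rw [← mem_BX_nv]
    apply ALO.mem_BX_of hε
    rw [hfw, sub_self, norm_zero]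
    simp
  exact sub_eq_zero.mp (Pool.Agent.H160R2.CV.Quad.nv_eq_zero (by omega))

/-- **Two interior points**, in terms of the distances. -/
theorem two_GG {g : ℂ → ℂ} {M α : ℝ} (hW : SmW f g M α) : ∃ c C K : ℝ, 0 < c ∧ 0 < C ∧ 0 < K ∧
    ∀ (ε : ℝ) (x y : Vtx) (z w : ℂ), 0 < ε → ‖z‖ < 1 → ‖w‖ < 1 → f z = pos ε x → f w = pos ε y →
    x ≠ y → K * ε ≤ ‖g z‖ * (1 - ‖z‖ ^ 2) → K * ε ≤ ‖g w‖ * (1 - ‖w‖ ^ 2) →
    c * GG ε (1 - ‖z‖) (1 - ‖w‖) (mz z w) ‖z - w‖ ≤ PP f ε x y ∧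
    PP f ε x y ≤ C * GG ε (1 - ‖z‖) (1 - ‖w‖) (mz z w) ‖z - w‖ := by
  obtain ⟨c, C, K, hc, hC, hK, h⟩ := main_two hW
  obtain ⟨l, H, hl, hH, -, hg, -, -, -⟩ := m_GA f g M α hW
  refine ⟨c / (2 * H) ^ (5 / 24 : ℝ), C * (4 * (1 / l) ^ (5 / 24 : ℝ)), K, by positivity,
    by positivity, hK, ?_⟩
  intro ε x y z w hε hz hw hfz hfw hxy hKz hKw
  have hz0 := norm_nonneg z
  have hw0 := norm_nonneg w
  have hgz := hg z (disc_of hz.le)
  have hgw := hg w (disc_of hw.le)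
  have hzw : z ≠ w := ne_of_ne hε hfz hfw hxy
  obtain ⟨hm, -, -, -, -, -, hF⟩ := F2_eq (ε := ε) (r := ‖g z‖ * (1 - ‖z‖ ^ 2))
    (s := ‖g w‖ * (1 - ‖w‖ ^ 2)) hz hw hzw
  have hd : 0 < ‖z - w‖ := by rw [norm_pos_iff, sub_ne_zero]; exact hzw
  have ha0 : 0 < 1 - ‖z‖ := by linarith
  have hb0 : 0 < 1 - ‖w‖ := by linarith
  have hu1 : 1 - ‖z‖ ≤ 1 - ‖z‖ ^ 2 := by nlinarith
  have hu2 : 1 - ‖z‖ ^ 2 ≤ 2 * (1 - ‖z‖) := by nlinarith
  have hv1 : 1 - ‖w‖ ≤ 1 - ‖w‖ ^ 2 := by nlinarith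
  have hv2 : 1 - ‖w‖ ^ 2 ≤ 2 * (1 - ‖w‖) := by nlinarith
  have hr1 : l * (1 - ‖z‖) ≤ ‖g z‖ * (1 - ‖z‖ ^ 2) := mul_le_mul hgz.1 hu1 ha0.le (norm_nonneg _)
  have hs1 : l * (1 - ‖w‖) ≤ ‖g w‖ * (1 - ‖w‖ ^ 2) := mul_le_mul hgw.1 hv1 hb0.le (norm_nonneg _)
  have hr2 : ‖g z‖ * (1 - ‖z‖ ^ 2) ≤ 2 * H * (1 - ‖z‖) := by
    calc _ ≤ H * (2 * (1 - ‖z‖)) := mul_le_mul hgz.2 hu2 (ha0.le.trans hu1) hH.le
      _ = _ := by ring
  have hs2 : ‖g w‖ * (1 - ‖w‖ ^ 2) ≤ 2 * H * (1 - ‖w‖) := by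
    calc _ ≤ H * (2 * (1 - ‖w‖)) := mul_le_mul hgw.2 hv2 (hb0.le.trans hv1) hH.le
      _ = _ := by ring
  obtain ⟨k1, k2⟩ := F2_GG hl hH hε ha0 hb0 hm hd hr1 hr2 hs1 hs2 hu1 hu2 hv1 hv2 hF
  obtain ⟨-, h1, h2⟩ := h ε x y z w hε hz hw hfz hfw hxy hKz hKw
  have hp : 0 < (2 * H) ^ (5 / 24 : ℝ) := by positivity
  constructor
  · refine le_trans ?_ h1
    rw [div_mul_eq_mul_div, div_le_iff₀ hp, mul_assoc]
    apply mul_le_mul_of_nonneg_left _ hc.le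
    rw [mul_comm]
    linarith
  · refine h2.trans ?_
    rw [mul_assoc]
    apply mul_le_mul_of_nonneg_left _ hC.le
    exact k2

theorem fac {L g12 g' g23 g13 p12 p23 p13 c C q : ℝ} (hL : 0 ≤ L) (h12 : 0 < g12) (_ : 0 < g')
    (h23 : 0 < g23) (h13 : 0 < g13) (hc : 0 < c) (hC : 0 < C) (hq : 0 < q)
    (hid : L ^ 2 * g13 = g12 * g') (k1 : g' ≤ q * g23) (k2 : g23 ≤ q * g')
    (a1 : c * g12 ≤ p12) (a2 : p12 ≤ C * g12) (b1 : c * g23 ≤ p23) (b2 : p23 ≤ C * g23)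
    (e1 : c * g13 ≤ p13) (e2 : p13 ≤ C * g13) :
    L ≤ √(q * C / c ^ 2) * √(p12 * p23 / p13) ∧
    √(p12 * p23 / p13) ≤ √(C ^ 2 * q / c) * L := by
  have hp12 : 0 < p12 := lt_of_lt_of_le (by positivity) a1
  have hp23 : 0 < p23 := lt_of_lt_of_le (by positivity) b1
  have hp13 : 0 < p13 := lt_of_lt_of_le (by positivity) e1
  constructor
  · rw [← Real.sqrt_mul (by positivity)]
    apply Real.le_sqrt_of_sq_le
    rw [div_mul_div_comm, le_div_iff₀ (by positivity)]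
    have h1 : L ^ 2 * p13 ≤ C * (g12 * g') := by
      rw [← hid]
      have := mul_le_mul_of_nonneg_left e2 (sq_nonneg L)
      linarith
    have h2 : g12 * g' ≤ q * (g12 * g23) := by
      have := mul_le_mul_of_nonneg_left k1 h12.le
      linarith
    have h3 : c ^ 2 * (g12 * g23) ≤ p12 * p23 := by
      have := mul_le_mul a1 b1 (by positivity) hp12.le
      calc c ^ 2 * (g12 * g23) = c * g12 * (c * g23) := by ring
        _ ≤ _ := this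
    calc L ^ 2 * (c ^ 2 * p13) = c ^ 2 * (L ^ 2 * p13) := by ring
      _ ≤ c ^ 2 * (C * (q * (g12 * g23))) := by
          apply mul_le_mul_of_nonneg_left _ (by positivity)
          exact h1.trans (mul_le_mul_of_nonneg_left h2 hC.le)
      _ = q * C * (c ^ 2 * (g12 * g23)) := by ring
      _ ≤ q * C * (p12 * p23) := mul_le_mul_of_nonneg_left h3 (by positivity)
  · have h0 : √(C ^ 2 * q / c) * L = √(C ^ 2 * q / c * L ^ 2) := by
      rw [Real.sqrt_mul (by positivity), Real.sqrt_sq hL]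
    rw [h0]
    apply Real.sqrt_le_sqrt
    rw [div_le_iff₀ hp13]
    have h3 : p12 * p23 ≤ C ^ 2 * (g12 * g23) := by
      have := mul_le_mul a2 b2 hp23.le (by positivity)
      calc p12 * p23 ≤ C * g12 * (C * g23) := this
        _ = _ := by ring
    have h2 : g12 * g23 ≤ q * (g12 * g') := by
      have := mul_le_mul_of_nonneg_left k2 h12.le
      linarith
    calc p12 * p23 ≤ C ^ 2 * (q * (g12 * g')) :=
          h3.trans (mul_le_mul_of_nonneg_left h2 (by positivity))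
      _ = C ^ 2 * q / c * L ^ 2 * (c * g13) := by
          rw [← hid]
          field_simp
      _ ≤ _ := mul_le_mul_of_nonneg_left e1 (by positivity)

/-- **Adding a point.** -/
theorem main_k {g : ℂ → ℂ} {M α : ℝ} (hW : SmW f g M α) {Q : ℝ} (hQ : 1 ≤ Q) :
    ∃ c C K : ℝ, 0 < c ∧ 0 < C ∧ 0 < K ∧
    ∀ (ε : ℝ) (X : Finset Vtx) (ζ : Vtx → ℂ) (x y v : Vtx), 0 < ε →
    (∀ u ∈ X, ‖ζ u‖ < 1 ∧ f (ζ u) = pos ε u ∧ K * ε ≤ ‖g (ζ u)‖ * (1 - ‖ζ u‖ ^ 2)) →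
    x ∈ X → y ∈ X → v ∈ X → x ≠ y → x ≠ v → y ≠ v →
    (∀ u ∈ X, ∀ u' ∈ X, u ≠ u' → ‖pos ε x - pos ε y‖ ≤ Q * ‖pos ε u - pos ε u'‖) →
    (∀ v, v ∈ TD f ε ↔ pos ε v ∈ f '' disc) ∧
    c * (√(PP f ε x y * PP f ε x v / PP f ε y v) * KP f ε (X.erase x)) ≤ KP f ε X ∧
    KP f ε X ≤ C * (√(PP f ε x y * PP f ε x v / PP f ε y v) * KP f ε (X.erase x)) := by
  obtain ⟨D⟩ := dom_of ⟨g, M, α, hW⟩
  obtain ⟨l, H, hl, hH, -, hg, -, -, -⟩ := m_GA f g M α hW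
  obtain ⟨c1, C1, K1, ε1, hc1, hC1, hK1, hε1, hε10, hstep⟩ := kstep D hQ
  obtain ⟨c2, C2, K2, hc2, hC2, hK2, htwo⟩ := two_GG hW
  have hDH := D.hH
  have hDl := D.hl
  obtain ⟨q, hq⟩ : ∃ q : ℝ, q = 1 + Q * D.H / D.l := ⟨_, rfl⟩
  have hQ0 : 0 < Q := by linarith
  have hq0 : 0 < q := by rw [hq]; positivity
  have hq1 : 1 ≤ q := by
    have : 0 < Q * D.H / D.l := by positivity
    linarith
  obtain ⟨Cq, hCq⟩ : ∃ Cq : ℝ, Cq = (q * q) ^ (5 / 24 : ℝ) * (q ^ (1 / 3 : ℝ) * q ^ (1 / 3 : ℝ)) :=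
    ⟨_, rfl⟩
  have hCq0 : 0 < Cq := by rw [hCq]; positivity
  obtain ⟨A, hA⟩ : ∃ A : ℝ, A = √(Cq * C2 / c2 ^ 2) := ⟨_, rfl⟩
  obtain ⟨B, hB⟩ : ∃ B : ℝ, B = √(C2 ^ 2 * Cq / c2) := ⟨_, rfl⟩
  have hA0 : 0 < A := by rw [hA]; exact Real.sqrt_pos.mpr (by positivity)
  have hB0 : 0 < B := by rw [hB]; exact Real.sqrt_pos.mpr (by positivity)
  refine ⟨c1 / B, C1 * A, 2 * H * (K1 + 1 / ε1) + K2, by positivity, by positivity,
    by positivity, ?_⟩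
  intro ε X ζ x y v hε hζ hx hy hv hxy hxv hyv hcl
  have hloc : ∀ u ∈ X, (K1 + 1 / ε1) * ε ≤ 1 - ‖ζ u‖ := by
    intro u hu
    obtain ⟨h1, h2, h3⟩ := hζ u hu
    have hn := norm_nonneg (ζ u)
    have hgu := hg (ζ u) (disc_of h1.le)
    have h4 : ‖g (ζ u)‖ * (1 - ‖ζ u‖ ^ 2) ≤ H * (2 * (1 - ‖ζ u‖)) :=
      mul_le_mul hgu.2 (by nlinarith) (by nlinarith) hH.le
    have h5 : 0 < K2 * ε := by positivity
    have h6 : 2 * H * ((K1 + 1 / ε1) * ε) ≤ 2 * H * (1 - ‖ζ u‖) := by nlinarith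
    exact le_of_mul_le_mul_left h6 (by positivity)
  have hK2' : ∀ u ∈ X, K2 * ε ≤ ‖g (ζ u)‖ * (1 - ‖ζ u‖ ^ 2) := by
    intro u hu
    refine le_trans ?_ (hζ u hu).2.2
    apply mul_le_mul_of_nonneg_right _ hε.le
    have : 0 < 2 * H * (K1 + 1 / ε1) := by positivity
    linarith
  obtain ⟨hz, hfz, -⟩ := hζ x hx
  obtain ⟨hw, hfw, -⟩ := hζ y hy
  obtain ⟨hu, hfu, -⟩ := hζ v hv
  set z := ζ x with hzdef
  set w := ζ y with hwdef
  set u := ζ v with hudef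
  have hz0 := norm_nonneg z
  have hw0 := norm_nonneg w
  have hu0 := norm_nonneg u
  have p1 : 0 < K1 * ε := by positivity
  have p3 : 0 < 1 / ε1 * ε := by positivity
  have hlx := hloc x hx
  have hly := hloc y hy
  have hεε1 : ε ≤ ε1 := by
    have h1 : 1 / ε1 * ε ≤ 1 := by nlinarith
    rw [one_div_mul_eq_div, div_le_one hε1] at h1
    exact h1
  have hε0 : ε ≤ D.ε0 := hεε1.trans hε10
  have hTD := (D.gd ε hε hε0).1
  have hzw : z ≠ w := ne_of_ne hε hfz hfw hxy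
  have hzu : z ≠ u := ne_of_ne hε hfz hfu hxv
  have hwu : w ≠ u := ne_of_ne hε hfw hfu hyv
  obtain ⟨m12, -, -, -, -, -, -⟩ := F2_eq (ε := ε) (r := 1) (s := 1) hz hw hzw
  obtain ⟨m23, dm23, -, -, -, -, -⟩ := F2_eq (ε := ε) (r := 1) (s := 1) hz hu hzu
  obtain ⟨m13, dm13, -, -, -, -, -⟩ := F2_eq (ε := ε) (r := 1) (s := 1) hw hu hwu
  have d12 : 0 < ‖z - w‖ := by rw [norm_pos_iff, sub_ne_zero]; exact hzw
  have d23 : 0 < ‖z - u‖ := by rw [norm_pos_iff, sub_ne_zero]; exact hzu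
  have d13 : 0 < ‖w - u‖ := by rw [norm_pos_iff, sub_ne_zero]; exact hwu
  have ha : 0 < 1 - ‖z‖ := by linarith
  have hb : 0 < 1 - ‖w‖ := by linarith
  have he : 0 < 1 - ‖u‖ := by linarith
  -- the distances in the disc
  have hlip := (D.lip z (disc_of hz.le) w (disc_of hw.le)).1
  rw [hfz, hfw] at hlip
  have hdd : ∀ p p' : Vtx, ∀ s s' : ℂ, ‖s‖ < 1 → ‖s'‖ < 1 → f s = pos ε p → f s' = pos ε p' →
      ‖pos ε x - pos ε y‖ ≤ Q * ‖pos ε p - pos ε p'‖ → ‖z - w‖ ≤ Q * D.H / D.l * ‖s - s'‖ := by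
    intro p p' s s' hs hs' hfs hfs' h1
    have h2 := (D.lip s (disc_of hs.le) s' (disc_of hs'.le)).2
    rw [hfs, hfs'] at h2
    rw [div_mul_eq_mul_div, le_div_iff₀ hDl]
    have h3 : Q * ‖pos ε p - pos ε p'‖ ≤ Q * (D.H * ‖s - s'‖) := mul_le_mul_of_nonneg_left h2 hQ0.le
    linarith
  have k23 := hdd x v z u hz hu hfz hfu (hcl x hx v hv hxv)
  have k13 := hdd y v w u hw hu hfw hfu (hcl y hy v hv hyv)
  have r23 : mz z u ≤ q * mz w u := by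
    have h1 := mz_tri (z := z) (w := w) (u := u) hu.le
    have h2 : Q * D.H / D.l * ‖w - u‖ ≤ Q * D.H / D.l * mz w u :=
      mul_le_mul_of_nonneg_left dm13 (by positivity)
    rw [hq]
    linarith
  have r13 : mz w u ≤ q * mz z u := by
    have h1 := mz_tri (z := w) (w := z) (u := u) hu.le
    rw [norm_sub_rev w z] at h1
    have h2 : Q * D.H / D.l * ‖z - u‖ ≤ Q * D.H / D.l * mz z u :=
      mul_le_mul_of_nonneg_left dm23 (by positivity)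
    rw [hq]
    linarith
  have s23 : ‖z - u‖ ≤ q * ‖w - u‖ := by
    have h1 := norm_sub_le_norm_sub_add_norm_sub z w u
    rw [hq]
    linarith
  have s13 : ‖w - u‖ ≤ q * ‖z - u‖ := by
    have h1 := norm_sub_le_norm_sub_add_norm_sub w z u
    rw [norm_sub_rev w z] at h1
    rw [hq]
    linarith
  have g1 := GG_cmp (ε := ε) hε ha he m13 d13 m23 d23 hq0 r13 r23 s23
  have g2 := GG_cmp (ε := ε) hε ha he m23 d23 m13 d13 hq0 r23 r13 s13
  rw [← hCq] at g1 g2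
  have hid := LG_id (ε := ε) (a1 := 1 - ‖w‖) (a2 := 1 - ‖z‖) (a3 := 1 - ‖u‖) hε hb ha he m12 d12
    m13 d13
  obtain ⟨x1, x2⟩ := htwo ε x y z w hε hz hw hfz hfw hxy (hK2' x hx) (hK2' y hy)
  obtain ⟨y1, y2⟩ := htwo ε x v z u hε hz hu hfz hfu hxv (hK2' x hx) (hK2' v hv)
  obtain ⟨z1, z2⟩ := htwo ε y v w u hε hw hu hfw hfu hyv (hK2' y hy) (hK2' v hv)
  have hG : ∀ a b m d : ℝ, 0 < a → 0 < b → 0 < m → 0 < d → 0 < GG ε a b m d := by
    intro a b m d h1 h2 h3 h4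
    unfold GG
    positivity
  have hLG : 0 ≤ LG ε (1 - ‖z‖) (mz z w) ‖z - w‖ := by unfold LG; positivity
  rw [GG_comm ε (1 - ‖z‖) (1 - ‖w‖)] at x1 x2
  obtain ⟨f1, f2⟩ := fac hLG (hG _ _ _ _ hb ha m12 d12) (hG _ _ _ _ ha he m13 d13)
    (hG _ _ _ _ ha he m23 d23) (hG _ _ _ _ hb he m13 d13) hc2 hC2 hCq0 hid g1 g2 x1 x2 y1 y2 z1 z2
  rw [← hA] at f1
  rw [← hB] at f2
  have hX' : X.erase x ⊆ X := Finset.erase_subset _ _
  have hT : ∀ p ∈ X.erase x, p ∈ TD f ε := by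
    intro p hp
    obtain ⟨h1, h2, -⟩ := hζ p (hX' hp)
    refine (hTD p).mpr ?_
    rw [← h2]
    exact ⟨_, disc_of h1.le, rfl⟩
  obtain ⟨n1, n2⟩ := hstep ε x y v z w X (X.erase x) hε hεε1 hz hw hfz hfw (by nlinarith)
    (by nlinarith) hx hX' (by rw [Finset.insert_erase hx]) (Finset.mem_erase.mpr ⟨hxy.symm, hy⟩)
    (Finset.mem_erase.mpr ⟨hxv.symm, hv⟩) hxy hzw hT (by
      intro p hp
      exact hcl p (hX' hp) x hx (Finset.ne_of_mem_erase hp)) (hcl v hv y hy hyv.symm)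
  have hKP := KP_nonneg f ε (X.erase x)
  set sq := √(PP f ε x y * PP f ε x v / PP f ε y v) with hsq
  refine ⟨hTD, ?_, ?_⟩
  · refine le_trans ?_ n1
    rw [← mul_assoc]
    apply mul_le_mul_of_nonneg_right _ hKP
    rw [div_mul_eq_mul_div, div_le_iff₀ hB0]
    calc c1 * sq ≤ c1 * (B * LG ε (1 - ‖z‖) (mz z w) ‖z - w‖) :=
          mul_le_mul_of_nonneg_left f2 hc1.le
      _ = _ := by ring
  · refine n2.trans ?_
    rw [← mul_assoc]
    apply mul_le_mul_of_nonneg_right _ hKP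
    rw [mul_assoc]
    exact mul_le_mul_of_nonneg_left f1 hC1.le

theorem sqrt_div_mul {a p : ℝ} (hp : 0 ≤ p) : √(a / p) * p = √(a * p) := by
  rcases hp.eq_or_lt with h | h
  · rw [← h]
    simp
  · have h1 : √(p ^ 2) = p := Real.sqrt_sq hp
    have h2 : √(a / p) * √(p ^ 2) = √(a / p * p ^ 2) := (Real.sqrt_mul' _ (sq_nonneg p)).symm
    rw [h1] at h2
    rw [h2]
    congr 1
    field_simp

theorem PP_nonneg (f : ℂ → ℂ) (ε : ℝ) (x y : Vtx) : 0 ≤ PP f ε x y := Pr_nonneg oku _ _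

theorem KP_pair (f : ℂ → ℂ) (ε : ℝ) (x y : Vtx) : KP f ε {x, y} = PP f ε x y := by
  unfold KP PP
  apply Pr_congr
  intro F _
  constructor
  · intro h
    exact h x (by simp) y (by simp)
  · intro h a ha b hb
    simp only [Finset.mem_insert, Finset.mem_singleton] at ha hb
    rcases ha with rfl | rfl <;> rcases hb with rfl | rfl
    · exact Relation.ReflTransGen.refl
    · exact h
    · exact h.symm
    · exact Relation.ReflTransGen.refl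

/-- **Three points.** -/
theorem main_three {g : ℂ → ℂ} {M α : ℝ} (hW : SmW f g M α) : ∃ c C K : ℝ, 0 < c ∧ 0 < C ∧ 0 < K ∧
    ∀ (ε : ℝ) (x y v : Vtx) (z w u : ℂ), 0 < ε → ‖z‖ < 1 → ‖w‖ < 1 → ‖u‖ < 1 → f z = pos ε x →
    f w = pos ε y → f u = pos ε v → x ≠ y → x ≠ v → y ≠ v → K * ε ≤ ‖g z‖ * (1 - ‖z‖ ^ 2) →
    K * ε ≤ ‖g w‖ * (1 - ‖w‖ ^ 2) → K * ε ≤ ‖g u‖ * (1 - ‖u‖ ^ 2) →
    c * √(PP f ε x y * PP f ε x v * PP f ε y v) ≤ KP f ε {x, y, v} ∧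
    KP f ε {x, y, v} ≤ C * √(PP f ε x y * PP f ε x v * PP f ε y v) := by
  obtain ⟨c, C, K, hc, hC, hK, h⟩ := main_k hW (Q := 1) le_rfl
  refine ⟨c, C, K, hc, hC, hK, ?_⟩
  -- the closest pair first
  have key : ∀ (ε : ℝ) (x y v : Vtx) (z w u : ℂ), 0 < ε → ‖z‖ < 1 → ‖w‖ < 1 → ‖u‖ < 1 →
      f z = pos ε x → f w = pos ε y → f u = pos ε v → x ≠ y → x ≠ v → y ≠ v →
      K * ε ≤ ‖g z‖ * (1 - ‖z‖ ^ 2) → K * ε ≤ ‖g w‖ * (1 - ‖w‖ ^ 2) →
      K * ε ≤ ‖g u‖ * (1 - ‖u‖ ^ 2) → ‖pos ε x - pos ε y‖ ≤ ‖pos ε x - pos ε v‖ →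
      ‖pos ε x - pos ε y‖ ≤ ‖pos ε y - pos ε v‖ →
      c * √(PP f ε x y * PP f ε x v * PP f ε y v) ≤ KP f ε {x, y, v} ∧
      KP f ε {x, y, v} ≤ C * √(PP f ε x y * PP f ε x v * PP f ε y v) := by
    intro ε x y v z w u hε hz hw hu hfz hfw hfu hxy hxv hyv hKz hKw hKu h1 h2
    set ζ : Vtx → ℂ := fun p => if p = x then z else if p = y then w else u with hζ
    have e1 : ζ x = z := by simp [hζ]
    have e2 : ζ y = w := by simp [hζ, hxy.symm]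
    have e3 : ζ v = u := by simp [hζ, hxv.symm, hyv.symm]
    have h3 := h ε {x, y, v} ζ x y v hε (by
      intro p hp
      simp only [Finset.mem_insert, Finset.mem_singleton] at hp
      rcases hp with rfl | rfl | rfl
      · rw [e1]; exact ⟨hz, hfz, hKz⟩
      · rw [e2]; exact ⟨hw, hfw, hKw⟩
      · rw [e3]; exact ⟨hu, hfu, hKu⟩) (by simp) (by simp) (by simp) hxy hxv hyv (by
      intro p hp p' hp' hne
      rw [one_mul]
      simp only [Finset.mem_insert, Finset.mem_singleton] at hp hp'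
      rcases hp with rfl | rfl | rfl <;> rcases hp' with rfl | rfl | rfl
      · exact absurd rfl hne
      · exact le_rfl
      · exact h1
      · rw [norm_sub_rev]
      · exact absurd rfl hne
      · exact h2
      · rw [norm_sub_rev (pos ε p)]; exact h1
      · rw [norm_sub_rev (pos ε p)]; exact h2
      · exact absurd rfl hne)
    have h4 : ({x, y, v} : Finset Vtx).erase x = {y, v} := by
      rw [Finset.erase_insert]
      simp only [Finset.mem_insert, Finset.mem_singleton]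
      rintro (h | h)
      · exact hxy h
      · exact hxv h
    rw [h4, KP_pair, sqrt_div_mul (PP_nonneg f ε y v)] at h3
    exact h3.2
  intro ε x y v z w u hε hz hw hu hfz hfw hfu hxy hxv hyv hKz hKw hKu
  rcases le_total ‖pos ε x - pos ε y‖ ‖pos ε x - pos ε v‖ with h1 | h1
  · rcases le_total ‖pos ε x - pos ε y‖ ‖pos ε y - pos ε v‖ with h2 | h2
    · exact key ε x y v z w u hε hz hw hu hfz hfw hfu hxy hxv hyv hKz hKw hKu h1 h2
    · -- `y`, `v` closest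
      have h3 := key ε y v x w u z hε hw hu hz hfw hfu hfz hyv hxy.symm hxv.symm hKw hKu hKz
        (by rw [norm_sub_rev (pos ε y) (pos ε x)]; exact h2)
        (by rw [norm_sub_rev (pos ε v) (pos ε x)]; exact h2.trans h1)
      have e1 : ({y, v, x} : Finset Vtx) = {x, y, v} := by
        ext p
        simp only [Finset.mem_insert, Finset.mem_singleton]
        tauto
      have e2 : PP f ε y v * PP f ε y x * PP f ε v x = PP f ε x y * PP f ε x v * PP f ε y v := by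
        rw [PP_comm f ε y x, PP_comm f ε v x]
        ring
      rw [e1, e2] at h3
      exact h3
  · rcases le_total ‖pos ε x - pos ε v‖ ‖pos ε y - pos ε v‖ with h2 | h2
    · -- `x`, `v` closest
      have h3 := key ε x v y z u w hε hz hu hw hfz hfu hfw hxv hxy hyv.symm hKz hKu hKw h1
        (by rw [norm_sub_rev (pos ε v) (pos ε y)]; exact h2)
      have e1 : ({x, v, y} : Finset Vtx) = {x, y, v} := by
        ext p
        simp only [Finset.mem_insert, Finset.mem_singleton]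
        tauto
      have e2 : PP f ε x v * PP f ε x y * PP f ε v y = PP f ε x y * PP f ε x v * PP f ε y v := by
        rw [PP_comm f ε v y]
        ring
      rw [e1, e2] at h3
      exact h3
    · have h3 := key ε y v x w u z hε hw hu hz hfw hfu hfz hyv hxy.symm hxv.symm hKw hKu hKz
        (by rw [norm_sub_rev (pos ε y) (pos ε x)]; exact h2.trans h1)
        (by rw [norm_sub_rev (pos ε v) (pos ε x)]; exact h2)
      have e1 : ({y, v, x} : Finset Vtx) = {x, y, v} := by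
        ext p
        simp only [Finset.mem_insert, Finset.mem_singleton]
        tauto
      have e2 : PP f ε y v * PP f ε y x * PP f ε v x = PP f ε x y * PP f ε x v * PP f ε y v := by
        rw [PP_comm f ε y x, PP_comm f ε v x]
        ring
      rw [e1, e2] at h3
      exact h3

/-- the covariant expression for three points -/
noncomputable def F3 (ε r s t q12 q13 q23 : ℝ) : ℝ :=
  (ε / r) ^ (5 / 48 : ℝ) * (ε / s) ^ (5 / 48 : ℝ) * (ε / t) ^ (5 / 48 : ℝ) *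
    ((q12 * q13 * q23) ^ (-(5 / 48 : ℝ)) *
      ((1 - q12 ^ 2) * (1 - q13 ^ 2) * (1 - q23 ^ 2)) ^ (1 / 6 : ℝ))

theorem F3_eq {ε r s t : ℝ} (hε : 0 < ε) (hr : 0 < r) (hs : 0 < s) (ht : 0 < t) {z w u : ℂ}
    (h12 : 0 < ph z w) (h13 : 0 < ph z u) (h23 : 0 < ph w u) (k12 : 0 ≤ 1 - ph z w ^ 2)
    (k13 : 0 ≤ 1 - ph z u ^ 2) (k23 : 0 ≤ 1 - ph w u ^ 2) :
    √(F2 ε r s z w * F2 ε r t z u * F2 ε s t w u) =
      F3 ε r s t (ph z w) (ph z u) (ph w u) := by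
  have h0 : 0 ≤ F3 ε r s t (ph z w) (ph z u) (ph w u) := by unfold F3; positivity
  rw [Real.sqrt_eq_iff_mul_self_eq (by unfold F2; positivity) h0]
  unfold F3 F2
  have e1 : ∀ x : ℝ, 0 < x → x ^ (-(5 / 24 : ℝ)) = x ^ (-(5 / 48 : ℝ)) * x ^ (-(5 / 48 : ℝ)) := by
    intro x hx
    rw [← Real.rpow_add hx]
    norm_num
  have e2 : ∀ x : ℝ, 0 ≤ x → x ^ (1 / 3 : ℝ) = x ^ (1 / 6 : ℝ) * x ^ (1 / 6 : ℝ) := by
    intro x hx
    rw [← Real.rpow_add_of_nonneg hx (by norm_num) (by norm_num)]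
    norm_num
  rw [e1 _ h12, e1 _ h13, e1 _ h23, e2 _ k12, e2 _ k13, e2 _ k23,
    Real.mul_rpow (by positivity) h23.le, Real.mul_rpow h12.le h13.le,
    Real.mul_rpow (by positivity) k23, Real.mul_rpow k12 k13]
  ring

theorem main_three' {g : ℂ → ℂ} {M α : ℝ} (hW : SmW f g M α) : ∃ c C K : ℝ, 0 < c ∧ 0 < C ∧ 0 < K ∧
    ∀ (ε : ℝ) (x y v : Vtx) (z w u : ℂ), 0 < ε → ‖z‖ < 1 → ‖w‖ < 1 → ‖u‖ < 1 → f z = pos ε x →
    f w = pos ε y → f u = pos ε v → x ≠ y → x ≠ v → y ≠ v → K * ε ≤ ‖g z‖ * (1 - ‖z‖ ^ 2) →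
    K * ε ≤ ‖g w‖ * (1 - ‖w‖ ^ 2) → K * ε ≤ ‖g u‖ * (1 - ‖u‖ ^ 2) →
    c * F3 ε (‖g z‖ * (1 - ‖z‖ ^ 2)) (‖g w‖ * (1 - ‖w‖ ^ 2)) (‖g u‖ * (1 - ‖u‖ ^ 2)) (ph z w)
      (ph z u) (ph w u) ≤ KP f ε {x, y, v} ∧
    KP f ε {x, y, v} ≤ C * F3 ε (‖g z‖ * (1 - ‖z‖ ^ 2)) (‖g w‖ * (1 - ‖w‖ ^ 2))
      (‖g u‖ * (1 - ‖u‖ ^ 2)) (ph z w) (ph z u) (ph w u) := by
  obtain ⟨c1, C1, K1, hc1, hC1, hK1, h3⟩ := main_three hW
  obtain ⟨c2, C2, K2, hc2, hC2, hK2, h2⟩ := main_two hW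
  refine ⟨c1 * √(c2 ^ 3), C1 * √(C2 ^ 3), K1 + K2, mul_pos hc1 (Real.sqrt_pos.mpr (by positivity)),
    mul_pos hC1 (Real.sqrt_pos.mpr (by positivity)), by positivity, ?_⟩
  intro ε x y v z w u hε hz hw hu hfz hfw hfu hxy hxv hyv hKz hKw hKu
  have hA : ∀ t : ℝ, (K1 + K2) * ε ≤ t → K1 * ε ≤ t ∧ K2 * ε ≤ t := by
    intro t ht
    have h4 : 0 < K1 * ε := by positivity
    have h5 : 0 < K2 * ε := by positivity
    constructor <;> nlinarith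
  obtain ⟨a1, a2⟩ := hA _ hKz
  obtain ⟨b1, b2⟩ := hA _ hKw
  obtain ⟨d1, d2⟩ := hA _ hKu
  obtain ⟨f1, f2⟩ := h3 ε x y v z w u hε hz hw hu hfz hfw hfu hxy hxv hyv a1 b1 d1
  obtain ⟨-, l12, u12⟩ := h2 ε x y z w hε hz hw hfz hfw hxy a2 b2
  obtain ⟨-, l13, u13⟩ := h2 ε x v z u hε hz hu hfz hfu hxv a2 d2
  obtain ⟨-, l23, u23⟩ := h2 ε y v w u hε hw hu hfw hfu hyv b2 d2
  have hph : ∀ p p' : ℂ, ‖p‖ < 1 → ‖p'‖ < 1 → p ≠ p' → 0 < ph p p' ∧ 0 ≤ 1 - ph p p' ^ 2 := by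
    intro p p' hp hp' hne
    obtain ⟨hm, hdm, -, -, -, -, -⟩ := F2_eq (ε := ε) (r := 1) (s := 1) hp hp' hne
    have hd : 0 < ‖p - p'‖ := by rw [norm_pos_iff, sub_ne_zero]; exact hne
    have h4 : 0 < ph p p' := by unfold ph; positivity
    have h5 : ph p p' ≤ 1 := by unfold ph; rw [div_le_one hm]; exact hdm
    refine ⟨h4, ?_⟩
    nlinarith
  obtain ⟨q12, r12⟩ := hph z w hz hw (ne_of_ne hε hfz hfw hxy)
  obtain ⟨q13, r13⟩ := hph z u hz hu (ne_of_ne hε hfz hfu hxv)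
  obtain ⟨q23, r23⟩ := hph w u hw hu (ne_of_ne hε hfw hfu hyv)
  have hr : 0 < ‖g z‖ * (1 - ‖z‖ ^ 2) := lt_of_lt_of_le (by positivity) hKz
  have hs : 0 < ‖g w‖ * (1 - ‖w‖ ^ 2) := lt_of_lt_of_le (by positivity) hKw
  have ht : 0 < ‖g u‖ * (1 - ‖u‖ ^ 2) := lt_of_lt_of_le (by positivity) hKu
  have hF := F3_eq hε hr hs ht q12 q13 q23 r12 r13 r23
  set A := F2 ε (‖g z‖ * (1 - ‖z‖ ^ 2)) (‖g w‖ * (1 - ‖w‖ ^ 2)) z w with hAd
  set B := F2 ε (‖g z‖ * (1 - ‖z‖ ^ 2)) (‖g u‖ * (1 - ‖u‖ ^ 2)) z u with hBd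
  set E := F2 ε (‖g w‖ * (1 - ‖w‖ ^ 2)) (‖g u‖ * (1 - ‖u‖ ^ 2)) w u with hEd
  have hA0 : 0 ≤ A := by rw [hAd]; unfold F2; positivity
  have hB0 : 0 ≤ B := by rw [hBd]; unfold F2; positivity
  have hE0 : 0 ≤ E := by rw [hEd]; unfold F2; positivity
  have g1 := PP_nonneg f ε x y
  have g2 := PP_nonneg f ε x v
  have g3 := PP_nonneg f ε y v
  rw [← hF]
  constructor
  · refine le_trans ?_ f1
    rw [mul_assoc]
    apply mul_le_mul_of_nonneg_left _ hc1.le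
    rw [← Real.sqrt_mul (by positivity)]
    apply Real.sqrt_le_sqrt
    calc c2 ^ 3 * (A * B * E) = c2 * A * (c2 * B) * (c2 * E) := by ring
      _ ≤ _ := mul_le_mul (mul_le_mul l12 l13 (by positivity) g1) l23 (by positivity)
          (by positivity)
  · refine f2.trans ?_
    rw [mul_assoc C1]
    apply mul_le_mul_of_nonneg_left _ hC1.le
    rw [← Real.sqrt_mul (by positivity)]
    apply Real.sqrt_le_sqrt
    calc PP f ε x y * PP f ε x v * PP f ε y v ≤ C2 * A * (C2 * B) * (C2 * E) :=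
          mul_le_mul (mul_le_mul u12 u13 g2 (by positivity)) u23 g3 (by positivity)
      _ = _ := by ring

end Run7.h663.PA
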