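import Pool.Agent.Run7.h663.PA.LeftUp2

/-!
Left-passage probabilities: the two bounds.
-/

set_option autoImplicit false

namespace Run7.h663.PA

open H974 hiding Blk okhalf
open H973 hiding okhalf
open Finset
open Pool.Agent.Y989.SD

variable {f : ℂ → ℂ}

/-- **Left-passage probabilities.** -/
theorem main_left {f g : ℂ → ℂ} {M α : ℝ} (hW : SmW f g M α) : ∃ c C K : ℝ, 0 < c ∧ 0 < C ∧ 0 < K ∧
    ∀ (ε : ℝ) (x : Vtx) (z : ℂ) (θ1 θ2 : ℝ), 0 < ε → ‖z‖ < 1 → f z = pos ε x →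
    K * ε ≤ ‖g z‖ * (1 - ‖z‖ ^ 2) → ε ≤ θ2 - θ1 → θ2 ≤ θ1 + 2 * Real.pi →
    (∀ v, v ∈ TD f ε ↔ pos ε v ∈ f '' disc) ∧
    c * hm z θ1 θ2 ^ (1 / 3 : ℝ) ≤
      Pr hf (ES (TD f ε)) (fun F => ¬ Rt (TD f ε) (near f ε θ1 θ2)
        (near f ε θ2 (θ1 + 2 * Real.pi)) x F) ∧
    Pr hf (ES (TD f ε)) (fun F => ¬ Rt (TD f ε) (near f ε θ1 θ2)
        (near f ε θ2 (θ1 + 2 * Real.pi)) x F) ≤ C * hm z θ1 θ2 ^ (1 / 3 : ℝ) := by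
  obtain ⟨D⟩ := dom_of ⟨g, M, α, hW⟩
  obtain ⟨l, H, hl, hH, -, hg, -, -, -⟩ := m_GA f g M α hW
  obtain ⟨c1, K1, ε1, hc1, hK1, hε1, hε10, hlow⟩ := left_low D
  obtain ⟨C2, K2, hC2, hK2, hup⟩ := left_up D
  have hpi := Real.pi_pos
  refine ⟨c1 * (6 * Real.pi)⁻¹ ^ (1 / 3 : ℝ), C2 * (8 * Real.pi) ^ (1 / 3 : ℝ),
    2 * H * (K1 + K2 + 1 / ε1), by positivity, by positivity, by positivity, ?_⟩
  intro ε x z θ1 θ2 hε hz hfz hKε hℓ hθ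
  have hz0 := norm_nonneg z
  have hgz := hg z (disc_of hz.le)
  set δ := 1 - ‖z‖ with hδ
  have hδ0 : 0 < δ := by linarith
  have hd1 : δ ≤ 1 - ‖z‖ ^ 2 := by nlinarith
  have hd2 : 1 - ‖z‖ ^ 2 ≤ 2 * δ := by nlinarith
  set rad := ‖g z‖ * (1 - ‖z‖ ^ 2) with hrad
  have hr2 : rad ≤ 2 * H * δ := by
    calc rad ≤ H * (2 * δ) := mul_le_mul hgz.2 hd2 (hδ0.le.trans hd1) hH.le
      _ = 2 * H * δ := by ring
  have hKδ : (K1 + K2 + 1 / ε1) * ε ≤ δ := by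
    have h1 : 2 * H * ((K1 + K2 + 1 / ε1) * ε) ≤ 2 * H * δ := by
      calc 2 * H * ((K1 + K2 + 1 / ε1) * ε) = 2 * H * (K1 + K2 + 1 / ε1) * ε := by ring
        _ ≤ _ := hKε.trans hr2
    exact le_of_mul_le_mul_left h1 (by positivity)
  have p1 : 0 < K1 * ε := by positivity
  have p2 : 0 < K2 * ε := by positivity
  have p3 : 0 < 1 / ε1 * ε := by positivity
  have hK1ε : K1 * ε ≤ δ := by nlinarith
  have hK2ε : K2 * ε ≤ δ := by nlinarith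
  have hεε1 : ε ≤ ε1 := by
    have h1 : 1 / ε1 * ε ≤ 1 := by nlinarith
    rw [one_div_mul_eq_div, div_le_one hε1] at h1
    exact h1
  have hε0 : ε ≤ D.ε0 := hεε1.trans hε10
  have hab : θ1 < θ2 := by linarith
  obtain ⟨t0, ht0, hmin⟩ := (isCompact_Icc (a := θ1) (b := θ2)).exists_isMinOn
    ⟨θ1, ⟨le_rfl, hab.le⟩⟩ ((continuous_const.sub cir_cont).norm.continuousOn
      (f := fun t => ‖z - cir t‖))
  have hmin' : ∀ t, θ1 ≤ t → t ≤ θ2 → ‖z - cir t0‖ ≤ ‖z - cir t‖ := fun t h1 h2 => hmin ⟨h1, h2⟩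
  have h1 := hlow ε x z θ1 θ2 t0 (near f ε θ2 (θ1 + 2 * Real.pi)) hε hεε1 hz hfz hK1ε hℓ ht0.1
    ht0.2 (by
      rintro y ⟨-, t, -, -, h⟩
      exact ⟨t, h⟩)
  have h2 := hup ε x z θ1 θ2 t0 hε hε0 hz hfz hK2ε hℓ ht0.1 ht0.2 hmin'
  obtain ⟨h3, h4⟩ := hm_bounds hz hab hθ ht0.1 ht0.2 hmin'
  rw [← hδ] at h1 h2 h3 h4
  obtain ⟨Q, hQ⟩ : ∃ Q : ℝ, Q = δ * min (θ2 - θ1) ‖z - cir t0‖ / ‖z - cir t0‖ ^ 2 := ⟨_, rfl⟩
  rw [← hQ] at h1 h2 h3 h4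
  have hQ0 : 0 ≤ Q := by
    have : 0 < θ2 - θ1 := by linarith
    have : 0 ≤ min (θ2 - θ1) ‖z - cir t0‖ := le_min this.le (norm_nonneg _)
    rw [hQ]
    positivity
  have hhm0 : 0 ≤ hm z θ1 θ2 := le_trans (by positivity) h3
  refine ⟨(D.gd ε hε hε0).1, ?_, ?_⟩
  · refine le_trans ?_ h1
    have e2 : (6 * Real.pi)⁻¹ ^ (1 / 3 : ℝ) * hm z θ1 θ2 ^ (1 / 3 : ℝ) ≤ Q ^ (1 / 3 : ℝ) := by
      rw [← Real.mul_rpow (by positivity) hhm0]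
      apply Real.rpow_le_rpow (by positivity) _ (by norm_num)
      rw [inv_mul_le_iff₀ (by positivity)]
      exact h4
    calc _ = c1 * ((6 * Real.pi)⁻¹ ^ (1 / 3 : ℝ) * hm z θ1 θ2 ^ (1 / 3 : ℝ)) := by ring
      _ ≤ _ := mul_le_mul_of_nonneg_left e2 hc1.le
  · refine h2.trans ?_
    have e2 : Q ^ (1 / 3 : ℝ) ≤ (8 * Real.pi) ^ (1 / 3 : ℝ) * hm z θ1 θ2 ^ (1 / 3 : ℝ) := by
      rw [← Real.mul_rpow (by positivity) hhm0]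
      apply Real.rpow_le_rpow hQ0 _ (by norm_num)
      have h5 : Q = 8 * Real.pi * (1 / (8 * Real.pi) * Q) := by field_simp
      rw [h5]
      exact mul_le_mul_of_nonneg_left h3 (by positivity)
    calc C2 * Q ^ (1 / 3 : ℝ) ≤ C2 * ((8 * Real.pi) ^ (1 / 3 : ℝ) * hm z θ1 θ2 ^ (1 / 3 : ℝ)) :=
          mul_le_mul_of_nonneg_left e2 hC2.le
      _ = _ := by ring

end Run7.h663.PA
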