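import Pool.Agent.Run7.h663.PA.TArc

/-!
One interior point and two boundary arcs: the point next to one of the arcs.
-/

set_option autoImplicit false

namespace Run7.h663.PA

open H974 hiding Blk okhalf
open H973 hiding okhalf
open Finset
open Pool.Agent.Y989.SD
open Pool.Agent.H160R2.CV (nv P ar Far)
open Pool.Agent.H160R2.CV.Quad (bo)

variable {f : ℂ → ℂ}

/-- **A point next to a long arc.** -/
theorem tlow_subW (D : Dom f) {e0 κ1 : ℝ} (he0 : 0 < e0) (hκ1 : 0 < κ1) (hκ11 : κ1 ≤ 1) :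
    ∃ c K0 ε1 : ℝ, 0 < c ∧ 1 ≤ K0 ∧ 0 < ε1 ∧ ε1 ≤ D.ε0 ∧
    ∀ (ε : ℝ) (x : Vtx) (z : ℂ) (θ1 θ2 t0 : ℝ) (W : Set Vtx), 0 < ε → ε ≤ ε1 → ‖z‖ < 1 → f z = pos ε x →
    K0 * ε ≤ 1 - ‖z‖ → ε ≤ θ2 - θ1 → θ1 ≤ t0 → t0 ≤ θ2 → κ1 * ‖z - cir t0‖ ≤ θ2 - θ1 →
    (∀ v ∈ W, e0 * ‖z - cir t0‖ ≤ ‖pos ε v - pos ε x‖) →
    c * PD f ε {x} W ≤ PT f ε x W (near f ε θ1 θ2) := by
  have hH := D.hH
  have hρ := D.hρ
  have hcA := D.hcA
  have hcW := D.hcW
  have hcC := D.hcC
  obtain ⟨K3, hK3⟩ : ∃ K3 : ℝ, K3 = 5 * D.H + 12 := ⟨_, rfl⟩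
  obtain ⟨A0, hA0⟩ : ∃ A0 : ℝ, A0 = D.ρ / (128 * (K3 + 1)) := ⟨_, rfl⟩
  have hK30 : 0 < K3 := by linarith
  have hA00 : 0 < A0 := by rw [hA0]; positivity
  obtain ⟨K2, hK2⟩ : ∃ K2 : ℝ, K2 = D.H + 5 := ⟨_, rfl⟩
  have hK20 : 0 < K2 := by linarith
  set ρ' : ℝ := D.ρ / 200 with hρ'
  have hρ'0 : 0 < ρ' := by positivity
  set δs : ℝ := min 1 (ρ' / (4 * K2)) with hδs
  have hδs0 : 0 < δs := lt_min one_pos (by positivity)
  have hδs2 : K2 * δs ≤ ρ' / 4 := by
    have h1 : δs ≤ ρ' / (4 * K2) := min_le_right _ _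
    rw [le_div_iff₀ (by positivity)] at h1
    linarith
  set δ1 : ℝ := min 1 (ρ' / (2 * (D.H + 1))) with hδ1
  have hδ10 : 0 < δ1 := lt_min one_pos (by positivity)
  have hδ11 : δ1 ≤ 1 := min_le_left _ _
  have hδ12 : (D.H + 1) * δ1 ≤ ρ' / 2 := by
    have h1 : δ1 ≤ ρ' / (2 * (D.H + 1)) := min_le_right _ _
    rw [le_div_iff₀ (by positivity)] at h1
    linarith
  obtain ⟨c3, K3', hc3, hK3', hext1⟩ := ext D (δs := 1) (e0 := e0) (Λ := 65 * (K3 + 1))
    one_pos he0 (by positivity) hK2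
  obtain ⟨c4, K4', hc4, hK4', hext2⟩ := ext D (δs := δs) (e0 := e0) (Λ := 64 * ρ' / A0)
    hδs0 he0 (by positivity) hK2
  set C1 : ℝ := c3 * (D.cA * (κ1 / (130 * (K3 + 1))) ^ (1 / 3 : ℝ) * D.cW) with hC1
  set κ2 : ℝ := min (κ1 * A0) δ1 with hκ2
  have hκ20 : 0 < κ2 := lt_min (by positivity) hδ10
  set C2 : ℝ := c4 * (D.cA * (κ2 / (130 * ρ')) ^ (1 / 3 : ℝ) * D.cC) with hC2
  have hC10 : 0 < C1 := by positivity
  have hC20 : 0 < C2 := by positivity
  refine ⟨min C1 C2, K3' + K4', min D.ε0 (min δ1 (ρ' / 16)), lt_min hC10 hC20, by linarith,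
    lt_min D.he (lt_min hδ10 (by positivity)), min_le_left _ _, ?_⟩
  intro ε x z θ1 θ2 t0 W hε hεε hz hfz hKε hℓ ht1 ht2 hκℓ hxy
  have hε0 : ε ≤ D.ε0 := hεε.trans (min_le_left _ _)
  have hεδ1 : ε ≤ δ1 := hεε.trans ((min_le_right _ _).trans (min_le_left _ _))
  have hερ : ε ≤ ρ' / 16 := hεε.trans ((min_le_right _ _).trans (min_le_right _ _))
  obtain ⟨-, hG2, -⟩ := D.gd ε hε hε0
  set a := 1 - ‖z‖ with ha
  set m := ‖z - cir t0‖ with hm
  set ℓ := θ2 - θ1 with hℓd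
  have q3 : 0 < K3' * ε := by positivity
  have q4 : 0 < K4' * ε := by positivity
  have hK3z : K3' * ε ≤ a := by nlinarith
  have hK4z : K4' * ε ≤ a := by nlinarith
  have hεa : ε ≤ a := by nlinarith
  have ha0 : 0 < a := hε.trans_le hεa
  have ham : a ≤ m := by
    have := norm_sub_norm_le (cir t0) z
    rw [ARM1.norm_cir, norm_sub_rev] at this
    exact this
  have hm0 : 0 < m := ha0.trans_le ham
  have hεm : ε ≤ m := hεa.trans ham
  have hm2 : m ≤ 2 := by
    have := norm_sub_le z (cir t0)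
    rw [ARM1.norm_cir] at this
    linarith
  have hℓ0 : 0 < ℓ := hε.trans_le hℓ
  obtain ⟨θ, hθ⟩ := exists_dir z
  obtain ⟨v, hv, hv', hvW⟩ := hG2 θ
  have hBv : Bp f ε D.ρ D.B D.α θ v := ⟨hv, hv', hvW⟩
  have hzθ := dir_dist hz.le hθ
  have hxT : x ∈ TD f ε := by
    refine ((D.gd ε hε hε0).1 x).mpr ?_
    rw [← hfz]
    exact ⟨z, disc_of hz.le, rfl⟩
  have hPP0 : 0 ≤ PD f ε {x} W := PD_nonneg _ _ _ _
  have iP : IncrE (ES (TD f ε)) (Duo {x} W) := Duo_incr _ _ _
  rcases le_total m A0 with hAs | hAl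
  · -- in a window
    obtain ⟨v0, hv0, hv0', hv0W⟩ := hG2 t0
    have hB0 : Bp f ε D.ρ D.B D.α t0 v0 := ⟨hv0, hv0', hv0W⟩
    set r0 : ℤ := ⌈K3 * m / ε⌉ with hr0
    have hr01 : K3 * m ≤ ε * r0 := by
      have h1 := Int.le_ceil (K3 * m / ε)
      rw [div_le_iff₀ hε, ← hr0] at h1
      linarith
    have hr02 : ε * r0 ≤ (K3 + 1) * m := by
      have h1 := (Int.ceil_lt_add_one (K3 * m / ε)).le
      have h2 : ε * (r0 : ℝ) ≤ ε * (K3 * m / ε + 1) := mul_le_mul_of_nonneg_left h1 hε.le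
      have h3 : ε * (K3 * m / ε + 1) = K3 * m + ε := by field_simp
      linarith
    have hr00 : (0 : ℝ) < r0 := by
      have : 0 < ε * r0 := lt_of_lt_of_le (by positivity) hr01
      exact (mul_pos_iff_of_pos_left hε).mp this
    have hr00' : (0 : ℤ) < r0 := by exact_mod_cast hr00
    have hL : 128 * r0 ≤ ⌊D.ρ / ε⌋ := by
      rw [Int.le_floor, le_div_iff₀ hε]
      push_cast
      have h1 : m * (128 * (K3 + 1)) ≤ D.ρ := by
        rw [hA0, le_div_iff₀ (by positivity)] at hAs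
        exact hAs
      nlinarith
    -- the two base points
    set k : ℤ := ⌈(2 * D.H + 4) * m / ε⌉ with hk
    have hk1 : (2 * D.H + 4) * m ≤ ε * k := by
      have h1 := Int.le_ceil ((2 * D.H + 4) * m / ε)
      rw [div_le_iff₀ hε, ← hk] at h1
      linarith
    have hk2 : ε * k ≤ (2 * D.H + 5) * m := by
      have h1 := (Int.ceil_lt_add_one ((2 * D.H + 4) * m / ε)).le
      have h2 : ε * (k : ℝ) ≤ ε * ((2 * D.H + 4) * m / ε + 1) :=
        mul_le_mul_of_nonneg_left h1 hε.le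
      have h3 : ε * ((2 * D.H + 4) * m / ε + 1) = (2 * D.H + 4) * m + ε := by field_simp
      linarith
    have hvk : v ∈ BX v0 k := by
      refine base_near hε hBv hB0 (e := 2 * D.H * m) ?_ (by linarith)
      refine (D.circ θ t0).trans ?_
      have h1 : ‖cir θ - cir t0‖ ≤ 2 * m := by
        have h2 : cir θ - cir t0 = -(z - cir θ) + (z - cir t0) := by ring
        rw [h2]
        refine (norm_add_le _ _).trans ?_
        rw [norm_neg, hzθ]
        linarith
      nlinarith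
    obtain ⟨r, hr⟩ : ∃ r : ℤ, r = r0 - k := ⟨_, rfl⟩
    have hrε : K2 * min m 1 + ε ≤ ε * r := by
      have h1 : min m 1 ≤ m := min_le_left _ _
      have h2 : K2 * min m 1 ≤ K2 * m := mul_le_mul_of_nonneg_left h1 hK20.le
      have h3 : ε * (r : ℝ) = ε * r0 - ε * k := by rw [hr]; push_cast; ring
      have h4 : 0 < D.H * m := by positivity
      have h5 : K3 * m = 5 * (D.H * m) + 12 * m := by rw [hK3]; ring
      have h6 : K2 * m = D.H * m + 5 * m := by rw [hK2]; ring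
      have h7 : (2 * D.H + 5) * m = 2 * (D.H * m) + 5 * m := by ring
      linarith
    have hr0' : 0 ≤ r := by
      have h1 : 0 < ε * (r : ℝ) := by
        refine lt_of_lt_of_le ?_ hrε
        have : 0 < min m 1 := lt_min hm0 one_pos
        positivity
      have h2 : (0 : ℝ) < r := (mul_pos_iff_of_pos_left hε).mp h1
      exact_mod_cast h2.le
    have hk0 : 0 ≤ k := by
      by_contra hc
      push Not at hc
      rw [mem_BX] at hvk
      omega
    obtain ⟨E1, hi1, hp1, hE1⟩ := hext1 ε m x z θ v r (65 * r0) hε hε0 hz hfz hK3z ham hm2 hθ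
      hBv hrε (by omega) (by omega) (by omega) (by push_cast; linarith)
    -- the arc
    obtain ⟨b, hb⟩ : ∃ b : ℝ, b = min ℓ m / 2 := ⟨_, rfl⟩
    have hbℓ : 2 * b ≤ ℓ := by rw [hb]; linarith [min_le_left ℓ m]
    have hbm : 2 * b ≤ m := by rw [hb]; linarith [min_le_right ℓ m]
    have hbε : ε / 2 ≤ b := by
      rw [hb]
      have : ε ≤ min ℓ m := le_min hℓ hεm
      linarith
    have hbκ : κ1 * m ≤ 2 * b := by
      rw [hb]
      have : κ1 * m ≤ min ℓ m := le_min hκℓ (by nlinarith)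
      linarith
    have hb0 : 0 < b := by linarith
    obtain ⟨t, ht⟩ : ∃ t : ℝ, t = max (θ1 + b) (min t0 (θ2 - b)) := ⟨_, rfl⟩
    have ht3 : θ1 ≤ t - b := by rw [ht]; linarith [le_max_left (θ1 + b) (min t0 (θ2 - b))]
    have ht4 : t + b ≤ θ2 := by
      have : t ≤ θ2 - b := by
        rw [ht]
        exact max_le (by linarith) (min_le_right _ _)
      linarith
    have ht5 : |t - t0| ≤ b := by
      rw [abs_le, ht]
      constructor
      · have h1 : t0 - b ≤ min t0 (θ2 - b) := le_min (by linarith) (by linarith)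
        linarith [le_max_right (θ1 + b) (min t0 (θ2 - b))]
      · have h1 : max (θ1 + b) (min t0 (θ2 - b)) ≤ t0 + b :=
          max_le (by linarith) ((min_le_left _ _).trans (by linarith))
        linarith
    have hHr : D.H * m + 4 * ε ≤ ε * r0 := by nlinarith
    have h2 := arc_arm D hε hε0 hB0 (t := t) (a := b) (m := m) (r0 := r0) (by linarith) hbε
      (by linarith) hHr (by nlinarith) (by omega) (by omega)
    have h2' : D.cA * (κ1 / (130 * (K3 + 1))) ^ (1 / 3 : ℝ) ≤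
        D.cA * (b / (ε * (65 * r0))) ^ (1 / 3 : ℝ) := by
      apply mul_le_mul_of_nonneg_left _ hcA.le
      apply Real.rpow_le_rpow (by positivity) _ (by norm_num)
      rw [div_le_div_iff₀ (by positivity) (by positivity)]
      calc κ1 * (ε * (65 * r0)) = 65 * κ1 * (ε * r0) := by ring
        _ ≤ 65 * κ1 * ((K3 + 1) * m) := mul_le_mul_of_nonneg_left hr02 (by positivity)
        _ = κ1 * m * (65 * (K3 + 1)) := by ring
        _ ≤ 2 * b * (65 * (K3 + 1)) := mul_le_mul_of_nonneg_right hbκ (by positivity)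
        _ = _ := by ring
    have h3 := (D.win (TD f ε) v0 _ hv0W r0 r0 (by omega) le_rfl (by omega)).2.2 hL
    have i2 := CHN.HT_incr (ES (TD f ε)) (TD f ε) v0 r0 (64 * r0)
    have i3 := near_incr (ES (TD f ε)) (near f ε (t - b) (t + b)) (TD f ε)
      (fun w => w ∉ BX v0 (64 * r0 - 1))
    have k1 := hars i3 i2 (h2'.trans h2) h3 hcW.le
    have k2 := hars hi1 (and_incr i3 i2) hp1 k1 (by positivity)
    have k3 := hars iP (and_incr hi1 (and_incr i3 i2)) (le_refl (PD f ε {x} W)) k2 (by positivity)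
    have k4 : PD f ε {x} W * C1 ≤ PT f ε x W (near f ε θ1 θ2) := by
      rw [hC1]
      refine k3.trans (Pr_mono oku ?_)
      rintro F hF ⟨⟨x', hx', y, hyW, hr'⟩, hE, ⟨u, hu, w', hw', hw'R, hr''⟩, b', -, -, -, hbl⟩
      rw [Set.mem_singleton_iff] at hx'
      rw [hx'] at hr'
      have hs := hE1 F hF hE ⟨y, hxy y hyW, hr'⟩
      have hs' : Src (TD f ε) x (fun u => u ∈ BX v0 r0) (fun w => w ∉ BX v0 (64 * r0 - 1)) F := by
        refine Src_mono (fun u hu => ?_) (fun w hw => ?_) hs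
        · rw [mem_BX] at hu hvk ⊢
          omega
        · exact not_BX_shift (n := r0) (by rw [mem_BX] at hvk ⊢; omega) (by omega) hw
      have m1 := Src_blk hF hs' hbl
      have m2 := CHN.meets hF hbl hu.1
        (near_box D hε hv0' (by linarith) hHr u hu) hw' hw'R hr''
      exact ⟨y, hyW, u, ALO.near_mono ht3 ht4 hu, hr', m1.symm.trans m2⟩
    calc min C1 C2 * PD f ε {x} W ≤ C1 * PD f ε {x} W :=
          mul_le_mul_of_nonneg_right (min_le_left _ _) hPP0
      _ = PD f ε {x} W * C1 := by ring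
      _ ≤ _ := k4
  · -- macroscopic distances
    set N : ℤ := ⌊ρ' / ε⌋ with hN
    have hN1 : ε * N ≤ ρ' := by
      have h1 := Int.floor_le (ρ' / ε)
      rw [le_div_iff₀ hε, ← hN] at h1
      linarith
    have hN2 : ρ' - ε ≤ ε * N := by
      have h1 := (Int.lt_floor_add_one (ρ' / ε)).le
      rw [div_le_iff₀ hε, ← hN] at h1
      linarith
    have hN0 : (0 : ℝ) < N := by
      have : 0 < ε * N := by linarith
      exact (mul_pos_iff_of_pos_left hε).mp this
    have hN0' : (0 : ℤ) < N := by exact_mod_cast hN0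
    have hL : 200 * N ≤ ⌊D.ρ / ε⌋ := by
      rw [Int.le_floor, le_div_iff₀ hε]
      push_cast
      rw [hρ'] at hN1
      linarith
    obtain ⟨E1, hi1, hp1, hE1⟩ := hext2 ε m x z θ v N (64 * N) hε hε0 hz hfz hK4z ham hm2 hθ
      hBv (by
        have h1 : min m δs ≤ δs := min_le_right _ _
        have h2 : K2 * min m δs ≤ K2 * δs := mul_le_mul_of_nonneg_left h1 hK20.le
        linarith) le_rfl (by omega) (by omega) (by
        push_cast
        rw [div_mul_eq_mul_div, le_div_iff₀ hA00]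
        have h1 : ε * (64 * N) * A0 ≤ 64 * ρ' * A0 := by
          apply mul_le_mul_of_nonneg_right _ hA00.le
          linarith
        have h2 : 64 * ρ' * A0 ≤ 64 * ρ' * m := mul_le_mul_of_nonneg_left hAl (by positivity)
        linarith)
    obtain ⟨b, hb⟩ : ∃ b : ℝ, b = min ℓ δ1 / 2 := ⟨_, rfl⟩
    have hbℓ : 2 * b ≤ ℓ := by rw [hb]; linarith [min_le_left ℓ δ1]
    have hbδ : 2 * b ≤ δ1 := by rw [hb]; linarith [min_le_right ℓ δ1]
    have hbε : ε / 2 ≤ b := by
      rw [hb]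
      have : ε ≤ min ℓ δ1 := le_min hℓ hεδ1
      linarith
    have hbκ : κ2 ≤ 2 * b := by
      rw [hb]
      have : κ2 ≤ min ℓ δ1 := by
        apply le_min _ (min_le_right _ _)
        refine (min_le_left _ _).trans (le_trans ?_ hκℓ)
        exact mul_le_mul_of_nonneg_left hAl hκ1.le
      linarith
    have hb0 : 0 < b := by linarith
    obtain ⟨t, ht⟩ : ∃ t : ℝ, t = θ1 + b := ⟨_, rfl⟩
    obtain ⟨v0, hv0, hv0', hv0W⟩ := hG2 t
    have hB0 : Bp f ε D.ρ D.B D.α t v0 := ⟨hv0, hv0', hv0W⟩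
    have hHr : D.H * b + 4 * ε ≤ ε * N := by nlinarith
    have h2 := arc_arm D hε hε0 hB0 (t := t) (a := b) (m := b) (r0 := N) (by simp) hbε
      (by linarith) hHr (by nlinarith) (by omega) (by omega)
    have h2' : D.cA * (κ2 / (130 * ρ')) ^ (1 / 3 : ℝ) ≤
        D.cA * (b / (ε * (65 * N))) ^ (1 / 3 : ℝ) := by
      apply mul_le_mul_of_nonneg_left _ hcA.le
      apply Real.rpow_le_rpow (by positivity) _ (by norm_num)
      rw [div_le_div_iff₀ (by positivity) (by positivity)]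
      calc κ2 * (ε * (65 * N)) = 65 * κ2 * (ε * N) := by ring
        _ ≤ 65 * κ2 * ρ' := mul_le_mul_of_nonneg_left hN1 (by positivity)
        _ = κ2 * (65 * ρ') := by ring
        _ ≤ 2 * b * (65 * ρ') := mul_le_mul_of_nonneg_right hbκ (by positivity)
        _ = _ := by ring
    have hchn := D.chn ε hε hε0 θ t v v0 hBv hB0
    have i2 : IncrE (ES (TD f ε)) (fun F => ∃ b ∈ TD f ε,
        Pool.Agent.Y989.SD.Blk (TD f ε) (fun u => u ∈ BX v N) (fun w => w ∉ BX v (64 * N - 1)) b F ∧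
        Pool.Agent.Y989.SD.Blk (TD f ε) (fun u => u ∈ BX v0 N)
          (fun w => w ∉ BX v0 (64 * N - 1)) b F) := by
      rintro F G hFG - ⟨b, hb, h1, h2⟩
      exact ⟨b, hb, ALO.Blk_mono hFG h1, ALO.Blk_mono hFG h2⟩
    have i3 := near_incr (ES (TD f ε)) (near f ε (t - b) (t + b)) (TD f ε)
      (fun w => w ∉ BX v0 (64 * N - 1))
    have k1 := hars i3 i2 (h2'.trans h2) hchn hcC.le
    have k2 := hars hi1 (and_incr i3 i2) hp1 k1 (by positivity)
    have k3 := hars iP (and_incr hi1 (and_incr i3 i2)) (le_refl (PD f ε {x} W)) k2 (by positivity)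
    have k4 : PD f ε {x} W * C2 ≤ PT f ε x W (near f ε θ1 θ2) := by
      rw [hC2]
      refine k3.trans (Pr_mono oku ?_)
      rintro F hF ⟨⟨x', hx', y, hyW, hr'⟩, hE, ⟨u, hu, w', hw', hw'R, hr''⟩, b', -, hb1, hb2⟩
      rw [Set.mem_singleton_iff] at hx'
      rw [hx'] at hr'
      have hs := hE1 F hF hE ⟨y, hxy y hyW, hr'⟩
      have m1 := Src_blk hF hs hb1
      have m2 := CHN.meets hF hb2 hu.1
        (near_box D hε hv0' (by simp) hHr u hu) hw' hw'R hr''
      exact ⟨y, hyW, u, ALO.near_mono (by linarith) (by linarith) hu, hr', m1.symm.trans m2⟩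
    calc min C1 C2 * PD f ε {x} W ≤ C2 * PD f ε {x} W :=
          mul_le_mul_of_nonneg_right (min_le_right _ _) hPP0
      _ = PD f ε {x} W * C2 := by ring
      _ ≤ _ := k4

end Run7.h663.PA
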