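import Pool.Agent.Run7.h663.PA.TNum

/-!
One interior point and two boundary arcs: the comparison of the expressions.
-/

set_option autoImplicit false

namespace Run7.h663.PA

/-- the expression of two arcs -/
noncomputable def EB (ℓ k g : ℝ) : ℝ := ℓ / (ℓ + g) * (k / (k + g))

theorem EB_comm (ℓ k g : ℝ) : EB ℓ k g = EB k ℓ g := by unfold EB; ring

theorem frac_low {k g B : ℝ} (hk : 0 < k) (hg : 0 < g) (hB : 0 < B) (h : g ≤ 4 * B) :
    min k B / (5 * B) ≤ k / (k + g) := by
  rw [div_le_div_iff₀ (by positivity) (by positivity)]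
  rcases min_choice k B with h1 | h1
  · rw [h1]
    have h2 : k ≤ B := by rw [← h1]; exact min_le_right _ _
    nlinarith
  · rw [h1]
    have h2 : B ≤ k := by rw [← h1]; exact min_le_left _ _
    nlinarith

/-- a long arc next to the point -/
theorem anum_one {a A B ℓ k g κ : ℝ} (ha : 0 < a) (hA : 0 < A) (hB : 0 < B) (hℓ : 0 < ℓ)
    (hk : 0 < k) (hg : 0 < g) (hκ : 0 < κ) (hκ1 : κ ≤ 1) (hAB : A ≤ B) (hκA : κ * A ≤ ℓ)
    (hgB : g ≤ 4 * B) :
    a * min k B / B ^ 2 ≤ 25 / κ ^ 2 * (a * min ℓ A / A ^ 2 * EB ℓ k g) := by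
  have h1 := frac_low hk hg hB hgB
  have hmk : 0 < min k B := lt_min hk hB
  have hm : κ * A ≤ min ℓ A := le_min hκA (by nlinarith)
  have h2 : κ ^ 2 / (5 * B) ≤ min ℓ A / A ^ 2 * (ℓ / (ℓ + g)) := by
    have h3 : κ / A ≤ min ℓ A / A ^ 2 := by
      rw [div_le_div_iff₀ hA (by positivity)]
      nlinarith
    have h4 : κ ^ 2 / (5 * B) ≤ κ / A * (ℓ / (ℓ + g)) := by
      rw [div_mul_div_comm, div_le_div_iff₀ (by positivity) (by positivity)]
      have h5 : κ * (A * (ℓ + g)) ≤ 5 * B * ℓ := by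
        have h6 : κ * (A * ℓ) ≤ B * ℓ := by
          calc κ * (A * ℓ) ≤ 1 * (B * ℓ) :=
                mul_le_mul hκ1 (mul_le_mul_of_nonneg_right hAB hℓ.le) (by positivity) zero_le_one
            _ = B * ℓ := one_mul _
        have h7 : κ * A * g ≤ ℓ * (4 * B) := mul_le_mul hκA hgB hg.le hℓ.le
        nlinarith
      nlinarith
    exact h4.trans (mul_le_mul_of_nonneg_right h3 (by positivity))
  have h3 := mul_le_mul h2 h1 (by positivity) (by positivity)
  have h4 := mul_le_mul_of_nonneg_left h3 (show 0 ≤ 25 / κ ^ 2 * a by positivity)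
  unfold EB
  calc a * min k B / B ^ 2 = 25 / κ ^ 2 * a * (κ ^ 2 / (5 * B) * (min k B / (5 * B))) := by
        field_simp
        ring
    _ ≤ _ := h4
    _ = _ := by ring

/-- a small arc next to the point -/
theorem anum_two {a A B ℓ k g κ : ℝ} (ha : 0 < a) (hA : 0 < A) (hB : 0 < B) (hℓ : 0 < ℓ)
    (hk : 0 < k) (hg : 0 < g) (hκ : 0 < κ) (hκ1 : κ ≤ 1) (hℓA : ℓ ≤ A) (hκg : κ * A ≤ g)
    (hgB : g ≤ 4 * B) (hBA : B ≤ A + ℓ + g) :
    a / A * (a / A) * EB ℓ k g ≤
      9 / κ ^ 2 * ((a * min ℓ A / A ^ 2) * (a * min k B / B ^ 2)) ∧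
    (a * min ℓ A / A ^ 2) * (a * min k B / B ^ 2) ≤
      40 / κ * (a / A * (a / A) * EB ℓ k g) := by
  have hmk : 0 < min k B := lt_min hk hB
  have hBg : κ * B ≤ 3 * g := by
    have h1 : κ * B ≤ κ * (2 * A + g) := mul_le_mul_of_nonneg_left (by linarith) hκ.le
    have h2 : κ * g ≤ 1 * g := mul_le_mul_of_nonneg_right hκ1 hg.le
    linarith
  have hℓg : κ * (ℓ + g) ≤ 8 * B := by
    have h1 : κ * ℓ ≤ κ * A := mul_le_mul_of_nonneg_left hℓA hκ.le
    have h2 : κ * g ≤ 1 * g := mul_le_mul_of_nonneg_right hκ1 hg.le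
    linarith
  rw [min_eq_left hℓA]
  unfold EB
  constructor
  · have h1 : 1 / (ℓ + g) ≤ 3 / (κ * B) := by
      rw [div_le_div_iff₀ (by positivity) (by positivity)]
      linarith
    have h2 : k / (k + g) ≤ 3 / κ * (min k B / B) := by
      rcases min_choice k B with h | h
      · rw [h, div_mul_div_comm, div_le_div_iff₀ (by positivity) (by positivity)]
        have h3 : κ * B ≤ 3 * (k + g) := by linarith
        nlinarith
      · rw [h, div_self hB.ne', mul_one]
        have h3 : k / (k + g) ≤ 1 := by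
          rw [div_le_one (by positivity)]
          linarith
        have h4 : 1 ≤ 3 / κ := by
          rw [le_div_iff₀ hκ]
          linarith
        linarith
    have h3 := mul_le_mul h1 h2 (by positivity) (by positivity)
    have h4 := mul_le_mul_of_nonneg_left h3 (show 0 ≤ a * a * ℓ / (A * A) by positivity)
    calc _ = a * a * ℓ / (A * A) * (1 / (ℓ + g) * (k / (k + g))) := by field_simp
      _ ≤ _ := h4
      _ = _ := by
        field_simp
        ring
  · have h1 : κ / (8 * B) ≤ 1 / (ℓ + g) := by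
      rw [div_le_div_iff₀ (by positivity) (by positivity)]
      linarith
    have h2 := frac_low hk hg hB hgB
    have h3 := mul_le_mul h1 h2 (by positivity) (by positivity)
    have h4 := mul_le_mul_of_nonneg_left h3
      (show 0 ≤ 40 / κ * (a * a * ℓ / (A * A)) by positivity)
    calc _ = 40 / κ * (a * a * ℓ / (A * A)) * (κ / (8 * B) * (min k B / (5 * B))) := by
          field_simp
          ring
      _ ≤ _ := h4
      _ = _ := by field_simp

/-- two arcs next to one another -/
theorem anum_three {a A B ℓ k g s : ℝ} (ha : 0 < a) (hA : 0 < A) (hB : 0 < B) (hℓ : 0 < ℓ)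
    (hk : 0 < k) (hg : 0 < g) (hs : s = max g ℓ) (hℓk : ℓ ≤ k) (hsA : s ≤ A) (hAB : A ≤ 3 * B)
    (hBA : B ≤ 3 * A) :
    min k s / s * (min k s / s) * (a * min ℓ A / A ^ 2) ≤
      108 * (a * min k B / B ^ 2 * EB ℓ k g) ∧
    (k ≤ s → a * min k B / B ^ 2 * EB ℓ k g ≤
      9 * (min k s / s * (min k s / s) * (a * min ℓ A / A ^ 2))) := by
  have hgs : g ≤ s := by rw [hs]; exact le_max_left _ _
  have hℓs : ℓ ≤ s := by rw [hs]; exact le_max_right _ _
  have hs0 : 0 < s := hg.trans_le hgs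
  have hmk : 0 < min k B := lt_min hk hB
  have hℓA : ℓ ≤ A := hℓs.trans hsA
  rw [min_eq_left hℓA]
  unfold EB
  have hA2 : B ^ 2 ≤ 9 * A ^ 2 := by
    calc B ^ 2 ≤ (3 * A) ^ 2 := pow_le_pow_left₀ hB.le hBA 2
      _ = _ := by ring
  have hB2 : A ^ 2 ≤ 9 * B ^ 2 := by
    calc A ^ 2 ≤ (3 * B) ^ 2 := pow_le_pow_left₀ hA.le hAB 2
      _ = _ := by ring
  have hinv : 1 / A ^ 2 ≤ 9 * (1 / B ^ 2) := by
    rw [mul_one_div, div_le_div_iff₀ (by positivity) (by positivity), one_mul]
    exact hA2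
  have hinv2 : 1 / B ^ 2 ≤ 9 * (1 / A ^ 2) := by
    rw [mul_one_div, div_le_div_iff₀ (by positivity) (by positivity), one_mul]
    exact hB2
  constructor
  · rcases le_total s k with h | h
    · rw [min_eq_right h, div_self hs0.ne']
      have h1 : 1 / 2 ≤ k / (k + g) := by
        rw [div_le_div_iff₀ (by positivity) (by positivity)]
        linarith
      have h2 : s / 3 ≤ min k B := le_min (by linarith) (by linarith)
      have h3 : 1 / (2 * s) ≤ 1 / (ℓ + g) :=
        one_div_le_one_div_of_le (by positivity) (by linarith)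
      have h4 := mul_le_mul h2 (mul_le_mul h3 h1 (by positivity) (by positivity))
        (by positivity) hmk.le
      have h5 : s / 3 * (1 / (2 * s) * (1 / 2)) = 1 / 12 := by
        field_simp
        norm_num
      rw [h5] at h4
      have h6 := mul_le_mul hinv h4 (by norm_num) (by positivity)
      have h7 := mul_le_mul_of_nonneg_left h6 (show 0 ≤ 12 * (a * ℓ) by positivity)
      calc 1 * 1 * (a * ℓ / A ^ 2) = 12 * (a * ℓ) * (1 / A ^ 2 * (1 / 12)) := by
            field_simp
        _ ≤ _ := h7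
        _ = _ := by
          field_simp
          ring
    · rw [min_eq_left h]
      have hsg : s = g ∨ s = ℓ := by rw [hs]; exact max_choice g ℓ
      have h0 : g ≤ s := hgs
      have h1 : k / (2 * s) ≤ k / (k + g) :=
        div_le_div_of_nonneg_left hk.le (by positivity) (by linarith)
      have h2 : k / 3 ≤ min k B := le_min (by linarith) (by linarith)
      have h3 : 1 / (2 * s) ≤ 1 / (ℓ + g) :=
        one_div_le_one_div_of_le (by positivity) (by linarith)
      have h4 := mul_le_mul h2 (mul_le_mul h3 h1 (by positivity) (by positivity))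
        (by positivity) hmk.le
      have h6 := mul_le_mul hinv h4 (by positivity) (by positivity)
      have h7 := mul_le_mul_of_nonneg_left h6 (show 0 ≤ 12 * (a * ℓ) by positivity)
      calc k / s * (k / s) * (a * ℓ / A ^ 2) =
            12 * (a * ℓ) * (1 / A ^ 2 * (k / 3 * (1 / (2 * s) * (k / (2 * s))))) := by
            field_simp
            ring
        _ ≤ _ := h7
        _ = _ := by
          field_simp
          ring
  · intro h
    rw [min_eq_left h]
    have hle : s ≤ ℓ + g := by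
      rw [hs]
      exact max_le (by linarith) (by linarith)
    have hsk : s ≤ k + g := by
      rw [hs]
      exact max_le (by linarith) (by linarith)
    have h1 : k / (k + g) ≤ k / s := div_le_div_of_nonneg_left hk.le hs0 hsk
    have h2 : min k B ≤ k := min_le_left _ _
    have h3 : 1 / (ℓ + g) ≤ 1 / s := one_div_le_one_div_of_le hs0 hle
    have h4 := mul_le_mul h2 (mul_le_mul h3 h1 (by positivity) (by positivity))
      (by positivity) hk.le
    have h6 := mul_le_mul hinv2 h4 (by positivity) (by positivity)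
    have h7 := mul_le_mul_of_nonneg_left h6 (show 0 ≤ a * ℓ by positivity)
    calc a * min k B / B ^ 2 * (ℓ / (ℓ + g) * (k / (k + g))) =
          a * ℓ * (1 / B ^ 2 * (min k B * (1 / (ℓ + g) * (k / (k + g))))) := by
          field_simp
      _ ≤ _ := h7
      _ = _ := by
        field_simp

/-- the square root, first half -/
theorem sq_cmp1 {L G βx βy P A B c C k : ℝ} (hL : 0 ≤ L) (hG : 0 ≤ G) (hβx : 0 ≤ βx)
    (hc : 0 < c) (hC : 0 < C) (hk : 0 < k) (h1 : L ^ 2 * βy ≤ k * (G * βx))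
    (hP1 : c * G ≤ P) (hA1 : c * βx ≤ A) (hB2 : B ≤ C * βy) (hB : 0 ≤ B) :
    L * B ≤ √(C * k / c ^ 2) * √(P * A * B) := by
  have hP : 0 ≤ P := le_trans (by positivity) hP1
  rw [← Real.sqrt_mul (by positivity)]
  apply Real.le_sqrt_of_sq_le
  rw [div_mul_eq_mul_div, le_div_iff₀ (by positivity)]
  have h3 : L ^ 2 * B ≤ C * (k * (G * βx)) := by
    calc L ^ 2 * B ≤ L ^ 2 * (C * βy) := mul_le_mul_of_nonneg_left hB2 (sq_nonneg L)
      _ = C * (L ^ 2 * βy) := by ring
      _ ≤ _ := mul_le_mul_of_nonneg_left h1 hC.le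
  have h4 : c ^ 2 * (G * βx) ≤ P * A := by
    calc c ^ 2 * (G * βx) = c * G * (c * βx) := by ring
      _ ≤ _ := mul_le_mul hP1 hA1 (by positivity) hP
  calc (L * B) ^ 2 * c ^ 2 = (L ^ 2 * B) * B * c ^ 2 := by ring
    _ ≤ C * (k * (G * βx)) * B * c ^ 2 := by
        apply mul_le_mul_of_nonneg_right _ (by positivity)
        exact mul_le_mul_of_nonneg_right h3 hB
    _ = C * k * B * (c ^ 2 * (G * βx)) := by ring
    _ ≤ C * k * B * (P * A) := mul_le_mul_of_nonneg_left h4 (by positivity)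
    _ = _ := by ring

/-- the square root, second half -/
theorem sq_cmp2 {L G βx βy P A B c C k : ℝ} (hL : 0 ≤ L) (hG : 0 ≤ G)
    (hc : 0 < c) (hC : 0 < C) (hk : 0 < k)
    (h2 : G * βx ≤ k * (L ^ 2 * βy)) (hP2 : P ≤ C * G) (hA : 0 ≤ A)
    (hA2 : A ≤ C * βx) (hB1 : c * βy ≤ B) (hB : 0 ≤ B) :
    √(P * A * B) ≤ √(C ^ 2 * k / c) * (L * B) := by
  have h0 : √(C ^ 2 * k / c) * (L * B) = √(C ^ 2 * k / c * (L * B) ^ 2) := by
    rw [Real.sqrt_mul (by positivity), Real.sqrt_sq (by positivity)]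
  rw [h0]
  apply Real.sqrt_le_sqrt
  have h3 : P * A ≤ C ^ 2 * (k * (L ^ 2 * βy)) := by
    calc P * A ≤ C * G * (C * βx) := mul_le_mul hP2 hA2 hA (by positivity)
      _ = C ^ 2 * (G * βx) := by ring
      _ ≤ _ := mul_le_mul_of_nonneg_left h2 (by positivity)
  have h4 : βy ≤ B / c := by
    rw [le_div_iff₀ hc]
    linarith
  calc P * A * B ≤ C ^ 2 * (k * (L ^ 2 * βy)) * B := mul_le_mul_of_nonneg_right h3 hB
    _ ≤ C ^ 2 * (k * (L ^ 2 * (B / c))) * B := by
        apply mul_le_mul_of_nonneg_right _ hB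
        apply mul_le_mul_of_nonneg_left _ (by positivity)
        apply mul_le_mul_of_nonneg_left _ hk.le
        exact mul_le_mul_of_nonneg_left h4 (sq_nonneg L)
    _ = _ := by
        field_simp

end Run7.h663.PA
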