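import Pool.Agent.Run7.h663.PA.TCase

/-!
One interior point and two boundary arcs: two arcs which are close to one another.
-/

set_option autoImplicit false

namespace Run7.h663.PA

open H974 hiding Blk okhalf
open H973 hiding okhalf
open Finset
open Pool.Agent.Y989.SD
open Pool.Agent.H160R2.CV (nv P ar Far)
open Pool.Agent.H160R2.CV.Quad (bo)

variable {f : ℂ → ℂ}

/-- **Upper bound, for an event.** -/
theorem ev_up {E S : Finset Edg} {V W : Set Vtx} {q c : ℝ} (hc : 0 < c)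
    {T : Finset Edg → Prop} (hT : ∀ F, T F → Duo V W F)
    (hloc : Loc E T S q) {Bs : Vtx → Prop}
    (hS : ∀ e ∈ S, Bs (H974.src e) ∧ Bs (tgt e))
    {Bk : Finset Edg → Prop} (hBi : IncrE E Bk) (hBc : c ≤ Pr hf E Bk)
    (hBk : ∀ F, F ⊆ E → Bk F → ∃ z, ∀ u, Bs u → ∀ v, (v ∈ V ∨ v ∈ W) →
      Reach (F : Set Edg) v u → Reach (F : Set Edg) v z) :
    Pr hf E T ≤ q / c * Pr hf E (Duo V W) := by
  obtain ⟨hSE, G, hG, hA⟩ := hloc
  have hq : 0 ≤ q := (Pr_nonneg oku _ _).trans hG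
  set G' : Finset Edg → Prop := fun H => Duo V W (H ∪ S) with hG'
  have hGi : IncrE E G' := by
    intro F H hFH _ hF
    exact Duo_incr (H ∪ S) V W (F ∪ S) (H ∪ S) (Finset.union_subset_union_left hFH)
      (Finset.Subset.refl _) hF
  have hdj : Disjoint S (E \ S) := Finset.disjoint_sdiff
  have h1 : Pr hf E T ≤ Pr hf S G * Pr hf (E \ S) G' := by
    refine (Pr_mono oku (B := fun F => G (F ∩ S) ∧ G' (F ∩ (E \ S))) (fun F hF h =>
      ⟨hA F hF h, ?_⟩)).trans (le_of_eq (Pr_indep' hSE Finset.sdiff_subset hdj G G'))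
    refine Duo_incr (F ∩ (E \ S) ∪ S) V W F _ ?_ (Finset.Subset.refl _) (hT F h)
    intro e he
    rw [Finset.mem_union, Finset.mem_inter, Finset.mem_sdiff]
    by_cases h3 : e ∈ S
    · exact Or.inr h3
    · exact Or.inl ⟨he, hF he, h3⟩
  have h2 : Pr hf (E \ S) G' ≤ Pr hf E G' := Pr_mono_set oku Finset.sdiff_subset hGi
  have h3 : Pr hf E G' * c ≤ Pr hf E (Duo V W) := by
    refine (hars hGi hBi le_rfl hBc hc.le).trans (Pr_mono oku ?_)
    rintro F hF ⟨⟨v, hv, w, hw, h4⟩, h5⟩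
    obtain ⟨z, hz⟩ := hBk F hF h5
    refine ⟨v, hv, w, hw, ?_⟩
    rcases hit hS h4 with h6 | ⟨u, hu, h6⟩
    · exact h6
    · rcases hit hS h4.symm with h7 | ⟨u', hu', h7⟩
      · exact h7.symm
      · exact (hz u hu v (Or.inl hv) h6).trans (hz u' hu' w (Or.inr hw) h7).symm
  have h4 : Pr hf E G' ≤ Pr hf E (Duo V W) / c := by rwa [le_div_iff₀ hc]
  calc Pr hf E T ≤ Pr hf S G * Pr hf (E \ S) G' := h1
    _ ≤ q * (Pr hf E (Duo V W) / c) :=
        mul_le_mul hG (h2.trans h4) (Pr_nonneg oku _ _) hq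
    _ = _ := by ring

/-- **Two arcs next to one another: lower bound.** -/
theorem tlow_pair (D : Dom f) : ∃ κ c : ℝ, 0 < κ ∧ κ ≤ 1 ∧ 0 < c ∧
    ∀ (ε : ℝ) (x : Vtx) (z : ℂ) (θ1 θ2 p t h s : ℝ) (W : Set Vtx), 0 < ε → ε ≤ D.ε0 →
    ‖z‖ < 1 → f z = pos ε x → θ1 ≤ p → p ≤ θ2 → θ2 - θ1 ≤ s → ε ≤ h → h ≤ s →
    |t - p| + h / 2 ≤ 2 * s → near f ε (t - h / 2) (t + h / 2) ⊆ W → s ≤ κ * ‖z - cir p‖ →
    c * (h / s) ^ (1 / 3 : ℝ) * PD f ε {x} (near f ε θ1 θ2) ≤ PT f ε x (near f ε θ1 θ2) W := by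
  have hH := D.hH
  have hl := D.hl
  have hρ := D.hρ
  have hcA := D.hcA
  have hcW := D.hcW
  obtain ⟨K, hK⟩ : ∃ K : ℝ, K = 2 * D.H + 4 := ⟨_, rfl⟩
  have hK0 : 0 < K := by linarith
  obtain ⟨κ, hκ⟩ : ∃ κ : ℝ, κ = min (min (1 / 2) (D.ρ / (256 * (K + 1))))
    (D.l / (128 * (K + 1) + 4)) := ⟨_, rfl⟩
  have hκ0 : 0 < κ := by
    rw [hκ]
    exact lt_min (lt_min (by norm_num) (by positivity)) (by positivity)
  have hκ1 : κ ≤ 1 / 2 := by rw [hκ]; exact (min_le_left _ _).trans (min_le_left _ _)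
  have hκρ : κ * (256 * (K + 1)) ≤ D.ρ := by
    have h1 : κ ≤ D.ρ / (256 * (K + 1)) := by
      rw [hκ]; exact (min_le_left _ _).trans (min_le_right _ _)
    rwa [le_div_iff₀ (by positivity)] at h1
  have hκl : κ * (128 * (K + 1) + 4) ≤ D.l := by
    have h1 : κ ≤ D.l / (128 * (K + 1) + 4) := by rw [hκ]; exact min_le_right _ _
    rwa [le_div_iff₀ (by positivity)] at h1
  refine ⟨κ, D.cA * (1 / (130 * (K + 1))) ^ (1 / 3 : ℝ) * D.cW, hκ0, by linarith,
    by positivity, ?_⟩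
  intro ε x z θ1 θ2 p t h s W hε hε0 hz hfz hp1 hp2 hs hh hhs ht hW hsκ
  obtain ⟨hTD, hG2, -⟩ := D.gd ε hε hε0
  have hεs : ε ≤ s := hh.trans hhs
  have hs0 : 0 < s := hε.trans_le hεs
  have hh0 : 0 < h := hε.trans_le hh
  have hA2 : ‖z - cir p‖ ≤ 2 := by
    refine (norm_sub_le _ _).trans ?_
    rw [ARM1.norm_cir]
    linarith
  have hs2 : s ≤ κ * 2 := hsκ.trans (mul_le_mul_of_nonneg_left hA2 hκ0.le)
  have hs1 : s ≤ 1 := by linarith
  obtain ⟨v0, hv0, hv0', hv0W⟩ := hG2 p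
  have hB0 : Bp f ε D.ρ D.B D.α p v0 := ⟨hv0, hv0', hv0W⟩
  have hxT : x ∈ TD f ε := by
    refine (hTD x).mpr ?_
    rw [← hfz]
    exact ⟨z, disc_of hz.le, rfl⟩
  set r0 : ℤ := ⌈K * s / ε⌉ with hr0
  have hr01 : K * s ≤ ε * r0 := by
    have h1 := Int.le_ceil (K * s / ε)
    rw [div_le_iff₀ hε, ← hr0] at h1
    linarith
  have hr02 : ε * r0 ≤ (K + 1) * s := by
    have h1 := (Int.ceil_lt_add_one (K * s / ε)).le
    have h2 : ε * (r0 : ℝ) ≤ ε * (K * s / ε + 1) := mul_le_mul_of_nonneg_left h1 hε.le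
    have h3 : ε * (K * s / ε + 1) = K * s + ε := by field_simp
    linarith
  have hr00 : (0 : ℝ) < r0 := by
    have : 0 < ε * r0 := lt_of_lt_of_le (by positivity) hr01
    exact (mul_pos_iff_of_pos_left hε).mp this
  have hr00' : (0 : ℤ) < r0 := by exact_mod_cast hr00
  have hL : 128 * r0 ≤ ⌊D.ρ / ε⌋ := by
    rw [Int.le_floor, le_div_iff₀ hε]
    push_cast
    have h1 : (K + 1) * s ≤ (K + 1) * (κ * 2) := mul_le_mul_of_nonneg_left hs2 (by positivity)
    nlinarith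
  have hHr : D.H * (2 * s) + 4 * ε ≤ ε * r0 := by
    have h1 : K * s = D.H * (2 * s) + 4 * s := by rw [hK]; ring
    linarith
  have h2 := arc_arm D hε hε0 hB0 (t := t) (a := h / 2) (m := 2 * s) (r0 := r0) ht (by linarith)
    (by linarith) hHr (by nlinarith) (by omega) (by omega)
  have h2' : D.cA * (1 / (130 * (K + 1))) ^ (1 / 3 : ℝ) * (h / s) ^ (1 / 3 : ℝ) ≤
      D.cA * (h / 2 / (ε * (65 * r0))) ^ (1 / 3 : ℝ) := by
    rw [mul_assoc, ← Real.mul_rpow (by positivity) (by positivity)]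
    apply mul_le_mul_of_nonneg_left _ hcA.le
    apply Real.rpow_le_rpow (by positivity) _ (by norm_num)
    rw [div_mul_div_comm, one_mul, div_div, div_le_div_iff_of_pos_left hh0 (by positivity)
      (by positivity)]
    nlinarith
  have h3 := (D.win (TD f ε) v0 _ hv0W r0 r0 (by omega) le_rfl (by omega)).2.2 hL
  have i2 := CHN.HT_incr (ES (TD f ε)) (TD f ε) v0 r0 (64 * r0)
  have i3 := near_incr (ES (TD f ε)) (near f ε (t - h / 2) (t + h / 2)) (TD f ε)
    (fun w => w ∉ BX v0 (64 * r0 - 1))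
  have k1 := hars i3 i2 (h2'.trans h2) h3 hcW.le
  have k2 := hars (Duo_incr _ {x} (near f ε θ1 θ2)) (and_incr i3 i2)
    (le_refl (PD f ε {x} (near f ε θ1 θ2))) k1 (by positivity)
  have hxR : x ∉ BX v0 (64 * r0 - 1) := by
    intro hx
    have h4 := ARM1.norm_pos_sub hε hx
    push_cast at h4
    have h5 := (D.lip z (disc_of hz.le) _ (ARM1.cir_mem p)).1
    rw [hfz] at h5
    have h6 : pos ε x - f (cir p) = (pos ε x - pos ε v0) + (pos ε v0 - f (cir p)) := by ring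
    have h7 := norm_add_le (pos ε x - pos ε v0) (pos ε v0 - f (cir p))
    rw [← h6] at h7
    have h8 : D.l * s ≤ κ * (D.l * ‖z - cir p‖) := by
      have := mul_le_mul_of_nonneg_left hsκ hl.le
      linarith
    have h9 : κ * (D.l * ‖z - cir p‖) ≤ κ * (2 * (64 * r0 - 1) * ε + 2 * ε) :=
      mul_le_mul_of_nonneg_left (by linarith) hκ0.le
    have h10 : κ * (128 * (ε * r0)) ≤ κ * (128 * ((K + 1) * s)) :=
      mul_le_mul_of_nonneg_left (by linarith) hκ0.le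
    have h11 : κ * (128 * (K + 1) + 4) * s ≤ D.l * s := mul_le_mul_of_nonneg_right hκl hs0.le
    have h12 : 0 < κ * s := by positivity
    nlinarith
  refine le_trans (le_of_eq ?_) (k2.trans (Pr_mono oku ?_))
  · ring
  · rintro F hF ⟨⟨x', hx', u, hu, hr⟩, ⟨u', hu', w', hw', hw'R, hr''⟩, b', -, -, -, hbl⟩
    rw [Set.mem_singleton_iff] at hx'
    subst hx'
    have hu2 : u ∈ BX v0 r0 := by
      refine near_box D hε hv0' (t := (θ1 + θ2) / 2) (a := (θ2 - θ1) / 2) (m := 2 * s) ?_ hHr u ?_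
      · have : |(θ1 + θ2) / 2 - p| ≤ (θ2 - θ1) / 2 := by
          rw [abs_le]
          constructor <;> linarith
        linarith
      · have e1 : (θ1 + θ2) / 2 - (θ2 - θ1) / 2 = θ1 := by ring
        have e2 : (θ1 + θ2) / 2 + (θ2 - θ1) / 2 = θ2 := by ring
        rw [e1, e2]
        exact hu
    have m1 := CHN.meets hF hbl hu.1 hu2 hxT hxR hr.symm
    have m2 := CHN.meets hF hbl hu'.1 (near_box D hε hv0' ht hHr u' hu') hw' hw'R hr''
    exact ⟨u, hu, u', hW hu', hr, hr.trans (m1.symm.trans m2)⟩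

/-- **Two arcs next to one another: upper bound.** -/
theorem tup_pair (D : Dom f) {e1 : ℝ} (he1 : 0 < e1) : ∃ C : ℝ, 0 < C ∧
    ∀ (ε : ℝ) (x : Vtx) (z : ℂ) (θ3 θ4 g : ℝ) (V : Set Vtx), 0 < ε → ε ≤ D.ε0 →
    ‖z‖ < 1 → f z = pos ε x → ε ≤ θ4 - θ3 → θ4 - θ3 ≤ g → g ≤ 7 →
    (∀ v ∈ V, v ∈ TD f ε) →
    (∀ v ∈ V, e1 * g ≤ ‖pos ε v - f (cir ((θ3 + θ4) / 2))‖ + 2 * ε) →
    e1 * g ≤ ‖pos ε x - f (cir ((θ3 + θ4) / 2))‖ + 2 * ε →
    PT f ε x V (near f ε θ3 θ4) ≤ C * ((θ4 - θ3) / g) ^ (1 / 3 : ℝ) * PD f ε {x} V := by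
  have hH := D.hH
  have hρ := D.hρ
  have hcW := D.hcW
  have hCW := D.hCW
  obtain ⟨K, hK⟩ : ∃ K : ℝ, K = D.H + 4 := ⟨_, rfl⟩
  have hK0 : 0 < K := by linarith
  obtain ⟨κ, hκ⟩ : ∃ κ : ℝ, κ = min (min 1 (D.ρ / 896)) (e1 / 1000) := ⟨_, rfl⟩
  have hκ0 : 0 < κ := by
    rw [hκ]
    exact lt_min (lt_min one_pos (by positivity)) (by positivity)
  have hκ1 : κ ≤ 1 := by rw [hκ]; exact (min_le_left _ _).trans (min_le_left _ _)
  have hκρ : κ * 896 ≤ D.ρ := by
    have h1 : κ ≤ D.ρ / 896 := by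
      rw [hκ]; exact (min_le_left _ _).trans (min_le_right _ _)
    rwa [le_div_iff₀ (by norm_num)] at h1
  have hκe : κ * 1000 ≤ e1 := by
    have h1 : κ ≤ e1 / 1000 := by rw [hκ]; exact min_le_right _ _
    rwa [le_div_iff₀ (by norm_num)] at h1
  set C1 : ℝ := D.CW * (2 * (K + 1) / κ) ^ (1 / 3 : ℝ) / D.cW with hC1
  set C2 : ℝ := (2 * (K + 1) / κ) ^ (1 / 3 : ℝ) with hC2
  have hC10 : 0 < C1 := by positivity
  have hC20 : 0 < C2 := by positivity
  refine ⟨C1 + C2, by positivity, ?_⟩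
  intro ε x z θ3 θ4 g V hε hε0 hz hfz hk hkg hg7 hVT hVd hxd
  obtain ⟨hTD, hG2, -⟩ := D.gd ε hε hε0
  set k := θ4 - θ3 with hkd
  have hk0 : 0 < k := hε.trans_le hk
  have hg0 : 0 < g := hk0.trans_le hkg
  have hPD := PD_nonneg f ε {x} V
  have hxT : x ∈ TD f ε := by
    refine (hTD x).mpr ?_
    rw [← hfz]
    exact ⟨z, disc_of hz.le, rfl⟩
  by_cases hc : (K + 1) * k ≤ κ * g / 2
  · obtain ⟨v, hv, hv', hvW⟩ := hG2 ((θ3 + θ4) / 2)
    set r : ℤ := ⌈K * k / ε⌉ with hr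
    set R : ℤ := ⌊κ * g / ε⌋ with hR
    have hr1 : K * k ≤ ε * r := by
      have h1 := Int.le_ceil (K * k / ε)
      rw [div_le_iff₀ hε, ← hr] at h1
      linarith
    have hr2 : ε * r ≤ (K + 1) * k := by
      have h1 := (Int.ceil_lt_add_one (K * k / ε)).le
      have h2 : ε * (r : ℝ) ≤ ε * (K * k / ε + 1) := mul_le_mul_of_nonneg_left h1 hε.le
      have h3 : ε * (K * k / ε + 1) = K * k + ε := by field_simp
      linarith
    have hR1 : ε * R ≤ κ * g := by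
      have h1 := Int.floor_le (κ * g / ε)
      rw [le_div_iff₀ hε, ← hR] at h1
      linarith
    have hR2 : κ * g - ε ≤ ε * R := by
      have h1 := (Int.lt_floor_add_one (κ * g / ε)).le
      rw [div_le_iff₀ hε, ← hR] at h1
      linarith
    have hεκ : 2 * ε ≤ κ * g := by nlinarith
    have hrR : r ≤ R := by
      have h1 : ε * (r : ℝ) ≤ ε * R := by linarith
      exact_mod_cast le_of_mul_le_mul_left h1 hε
    have hr0 : (0 : ℝ) < r := by
      have : 0 < ε * r := lt_of_lt_of_le (by positivity) hr1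
      exact (mul_pos_iff_of_pos_left hε).mp this
    have hr0' : (0 : ℤ) < r := by exact_mod_cast hr0
    have hR0 : (0 : ℝ) < R := lt_of_lt_of_le hr0 (by exact_mod_cast hrR)
    have hRL : 128 * R ≤ ⌊D.ρ / ε⌋ := by
      rw [Int.le_floor, le_div_iff₀ hε]
      push_cast
      nlinarith
    have hq := (D.win (TD f ε) v _ hvW r R (by omega) hrR (by omega)).1
    have hHT := (D.win (TD f ε) v _ hvW R R (by omega) le_rfl (by omega)).2.2 hRL
    have hq2 : D.CW * ((r : ℝ) / R) ^ (1 / 3 : ℝ) ≤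
        D.CW * ((2 * (K + 1) / κ) ^ (1 / 3 : ℝ) * (k / g) ^ (1 / 3 : ℝ)) := by
      apply mul_le_mul_of_nonneg_left _ hCW.le
      refine cbrt_mul_le (by positivity) (by positivity) (by positivity) ?_
      rw [div_le_iff₀ hR0]
      have h1 : κ * g / 2 ≤ ε * R := by linarith
      have h2 : 2 * (K + 1) / κ * (k / g) * R = (2 * (K + 1) * k / (κ * g)) * R := by
        field_simp
      rw [h2, div_mul_eq_mul_div, le_div_iff₀ (by positivity)]
      have h3 : (r : ℝ) * (κ * g / 2) ≤ r * (ε * R) := mul_le_mul_of_nonneg_left h1 hr0.le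
      have h4 : ε * r * R ≤ (K + 1) * k * R := mul_le_mul_of_nonneg_right hr2 hR0.le
      linarith
    have hbox : ∀ u ∈ near f ε θ3 θ4, u ∈ BX v r := by
      intro u hu
      refine near_box D hε hv' (t := (θ3 + θ4) / 2) (a := k / 2) (m := k) ?_ ?_ u ?_
      · rw [sub_self, abs_zero]
        linarith
      · have : K * k = D.H * k + 4 * k := by rw [hK]; ring
        linarith
      · have e1 : (θ3 + θ4) / 2 - k / 2 = θ3 := by rw [hkd]; ring
        have e2 : (θ3 + θ4) / 2 + k / 2 = θ4 := by rw [hkd]; ring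
        rw [e1, e2]
        exact hu
    have hfar : ∀ (w : Vtx) (N : ℤ), N ≤ 64 * R →
        e1 * g ≤ ‖pos ε w - f (cir ((θ3 + θ4) / 2))‖ + 2 * ε → w ∉ BX v N := by
      intro w N hN hw hwB
      have h1 := ARM1.norm_pos_sub hε hwB
      have h2 : (N : ℝ) ≤ 64 * R := by exact_mod_cast hN
      have h3 : 2 * (N : ℝ) * ε ≤ 128 * (ε * R) := by nlinarith
      have h4 : pos ε w - f (cir ((θ3 + θ4) / 2)) = (pos ε w - pos ε v) +
          (pos ε v - f (cir ((θ3 + θ4) / 2))) := by ring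
      have h5 := norm_add_le (pos ε w - pos ε v) (pos ε v - f (cir ((θ3 + θ4) / 2)))
      rw [← h4] at h5
      have h6 : κ * 1000 * g ≤ e1 * g := mul_le_mul_of_nonneg_right hκe hg0.le
      have h7 : 0 < κ * g := by positivity
      nlinarith
    have hxR : x ∉ BX v (R - 1) := hfar x (R - 1) (by omega) hxd
    have hloc : Loc (ES (TD f ε)) (Tri x V (near f ε θ3 θ4)) (ES (TD f ε ∩ BX v R))
        (D.CW * ((2 * (K + 1) / κ) ^ (1 / 3 : ℝ) * (k / g) ^ (1 / 3 : ℝ))) := by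
      refine loc_XT hrR (hq.trans hq2) ?_
      rintro F hF ⟨v', hv', w, hw, h1, h2⟩
      exact ⟨w, hw.1, hbox w hw, x, hxR, h2.symm⟩
    have hmain := ev_up (c := D.cW) hcW (V := {x}) (W := V) (T := Tri x V (near f ε θ3 θ4))
      (by
        rintro F ⟨v', hv', w, hw, h1, h2⟩
        exact ⟨x, rfl, v', hv', h1⟩) hloc (Bs := fun u => u ∈ TD f ε ∧ u ∈ BX v R)
      (by
        intro e he
        rw [mem_ES, Finset.mem_inter, Finset.mem_inter] at he
        exact he)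
      (CHN.HT_incr (ES (TD f ε)) (TD f ε) v R (64 * R)) hHT (by
        rintro F hF ⟨b, -, -, -, hbl⟩
        refine ⟨b, fun u hu w hw hr => ?_⟩
        have hw2 : w ∈ TD f ε ∧ w ∉ BX v (64 * R - 1) := by
          rcases hw with hw | hw
          · rw [Set.mem_singleton_iff] at hw
            subst hw
            exact ⟨hxT, hfar w _ (by omega) hxd⟩
          · exact ⟨hVT w hw, hfar w _ (by omega) (hVd w hw)⟩
        exact hr.trans (CHN.meets hF hbl hu.1 hu.2 hw2.1 hw2.2 hr.symm).symm)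
    refine hmain.trans ?_
    have e : D.CW * ((2 * (K + 1) / κ) ^ (1 / 3 : ℝ) * (k / g) ^ (1 / 3 : ℝ)) / D.cW =
        C1 * (k / g) ^ (1 / 3 : ℝ) := by rw [hC1]; ring
    rw [e]
    apply mul_le_mul_of_nonneg_right _ hPD
    apply mul_le_mul_of_nonneg_right _ (by positivity)
    linarith
  · push Not at hc
    have h1 : PT f ε x V (near f ε θ3 θ4) ≤ PD f ε {x} V := by
      apply Pr_mono oku
      rintro F _ ⟨v', hv', w, hw, h1, h2⟩
      exact ⟨x, rfl, v', hv', h1⟩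
    have h5 : (1 : ℝ) ≤ C2 * (k / g) ^ (1 / 3 : ℝ) := by
      rw [hC2, ← Real.mul_rpow (by positivity) (by positivity)]
      apply Real.one_le_rpow _ (by norm_num)
      rw [div_mul_div_comm, le_div_iff₀ (by positivity)]
      linarith
    refine h1.trans ?_
    calc PD f ε {x} V = 1 * PD f ε {x} V := (one_mul _).symm
      _ ≤ (C1 + C2) * (k / g) ^ (1 / 3 : ℝ) * PD f ε {x} V := by
          apply mul_le_mul_of_nonneg_right _ hPD
          refine h5.trans ?_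
          apply mul_le_mul_of_nonneg_right _ (by positivity)
          linarith

end Run7.h663.PA
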