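import Pool.Agent.Run7.h663.PA.AArc
import Pool.Agent.Run7.h663.PA.APair
import Pool.Agent.Run7.h663.PA.ANum

/-!
One interior point and two boundary arcs: the cases.
-/

set_option autoImplicit false

namespace Run7.h663.PA

open H974 hiding Blk okhalf
open H973 hiding okhalf
open Finset
open Pool.Agent.Y989.SD
open Pool.Agent.H160R2.CV (nv P ar Far)

variable {f : ℂ → ℂ}

theorem PT_le_left (f : ℂ → ℂ) (ε : ℝ) (x : Vtx) (V W : Set Vtx) :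
    PT f ε x V W ≤ PD f ε {x} V := by
  apply Pr_mono oku
  rintro F _ ⟨v, hv, w, hw, h1, h2⟩
  exact ⟨x, rfl, v, hv, h1⟩

theorem PT_le_right (f : ℂ → ℂ) (ε : ℝ) (x : Vtx) (V W : Set Vtx) :
    PT f ε x V W ≤ PD f ε {x} W := by
  apply Pr_mono oku
  rintro F _ ⟨v, hv, w, hw, h1, h2⟩
  exact ⟨x, rfl, w, hw, h2⟩

/-- the position of the arcs, and the bounds for two objects -/
structure Conf (f : ℂ → ℂ) (c C ε θ1 θ2 θ3 θ4 g tA tB : ℝ) (x : Vtx) (z : ℂ) : Prop where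
  hg : 0 < g
  hℓ : ε ≤ θ2 - θ1
  hk : ε ≤ θ4 - θ3
  hA1 : θ1 ≤ tA
  hA2 : tA ≤ θ2
  hB1 : θ3 ≤ tB
  hB2 : tB ≤ θ4
  minA : ∀ t, θ1 ≤ t → t ≤ θ2 → ‖z - cir tA‖ ≤ ‖z - cir t‖
  minB : ∀ t, θ3 ≤ t → t ≤ θ4 → ‖z - cir tB‖ ≤ ‖z - cir t‖
  sep : ∀ s t, θ1 ≤ s → s ≤ θ2 → θ3 ≤ t → t ≤ θ4 → g / 2 ≤ ‖cir s - cir t‖
  adj : ∃ p q, θ1 ≤ p ∧ p ≤ θ2 ∧ θ3 ≤ q ∧ q ≤ θ4 ∧ ‖cir p - cir q‖ ≤ g
  adB : ∃ p, θ1 ≤ p ∧ p ≤ θ2 ∧ ∀ h, 0 ≤ h → h ≤ θ4 - θ3 → ∃ t, |t - p| + h / 2 ≤ g + h ∧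
    near f ε (t - h / 2) (t + h / 2) ⊆ near f ε θ3 θ4
  adA : ∃ p, θ3 ≤ p ∧ p ≤ θ4 ∧ ∀ h, 0 ≤ h → h ≤ θ2 - θ1 → ∃ t, |t - p| + h / 2 ≤ g + h ∧
    near f ε (t - h / 2) (t + h / 2) ⊆ near f ε θ1 θ2
  a1 : c * AA ε (1 - ‖z‖) (θ2 - θ1) ‖z - cir tA‖ ≤ PD f ε {x} (near f ε θ1 θ2)
  a2 : PD f ε {x} (near f ε θ1 θ2) ≤ C * AA ε (1 - ‖z‖) (θ2 - θ1) ‖z - cir tA‖
  b1 : c * AA ε (1 - ‖z‖) (θ4 - θ3) ‖z - cir tB‖ ≤ PD f ε {x} (near f ε θ3 θ4)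
  b2 : PD f ε {x} (near f ε θ3 θ4) ≤ C * AA ε (1 - ‖z‖) (θ4 - θ3) ‖z - cir tB‖
  c1 : c * EB (θ2 - θ1) (θ4 - θ3) g ^ (1 / 3 : ℝ) ≤
    PD f ε (near f ε θ1 θ2) (near f ε θ3 θ4)
  c2 : PD f ε (near f ε θ1 θ2) (near f ε θ3 θ4) ≤
    C * EB (θ2 - θ1) (θ4 - θ3) g ^ (1 / 3 : ℝ)

theorem Conf.swap {c C ε θ1 θ2 θ3 θ4 g tA tB : ℝ} {x : Vtx} {z : ℂ}
    (h : Conf f c C ε θ1 θ2 θ3 θ4 g tA tB x z) : Conf f c C ε θ3 θ4 θ1 θ2 g tB tA x z where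
  hg := h.hg
  hℓ := h.hk
  hk := h.hℓ
  hA1 := h.hB1
  hA2 := h.hB2
  hB1 := h.hA1
  hB2 := h.hA2
  minA := h.minB
  minB := h.minA
  sep := fun s t h1 h2 h3 h4 => by
    rw [norm_sub_rev]
    exact h.sep t s h3 h4 h1 h2
  adj := by
    obtain ⟨p, q, h1, h2, h3, h4, h5⟩ := h.adj
    exact ⟨q, p, h3, h4, h1, h2, by rw [norm_sub_rev]; exact h5⟩
  adB := h.adA
  adA := h.adB
  a1 := h.b1
  a2 := h.b2
  b1 := h.a1
  b2 := h.a2
  c1 := by rw [EB_comm, PD_swap]; exact h.c1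
  c2 := by rw [EB_comm, PD_swap]; exact h.c2

/-- the conclusion -/
def Fin3 (c C T PA PB PAB : ℝ) : Prop :=
  T ≤ C * √(PA * PB * PAB) ∧ c * min (min PA PB) √(PA * PB * PAB) ≤ T

theorem Fin3.mono {c C c' C' T PA PB PAB : ℝ} (h : Fin3 c C T PA PB PAB) (hc : c' ≤ c)
    (hC : C ≤ C') (hA : 0 ≤ PA) (hB : 0 ≤ PB) : Fin3 c' C' T PA PB PAB :=
  ⟨h.1.trans (mul_le_mul_of_nonneg_right hC (Real.sqrt_nonneg _)),
    (mul_le_mul_of_nonneg_right hc (le_min (le_min hA hB) (Real.sqrt_nonneg _))).trans h.2⟩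

theorem Fin3.swap {c C T PA PB PAB : ℝ} (h : Fin3 c C T PB PA PAB) : Fin3 c C T PA PB PAB := by
  unfold Fin3 at h ⊢
  rw [mul_comm PA PB, min_comm PA PB]
  exact h

/-- elementary facts about the position -/
theorem Conf.geo {c C ε θ1 θ2 θ3 θ4 g tA tB : ℝ} {x : Vtx} {z : ℂ}
    (h : Conf f c C ε θ1 θ2 θ3 θ4 g tA tB x z) :
    g ≤ 2 * (‖z - cir tA‖ + ‖z - cir tB‖) ∧
    ‖z - cir tB‖ ≤ ‖z - cir tA‖ + (θ2 - θ1) + g ∧ g ≤ 4 := by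
  have h1 := h.sep tA tB h.hA1 h.hA2 h.hB1 h.hB2
  refine ⟨?_, ?_, ?_⟩
  · have h2 : cir tA - cir tB = -(z - cir tA) + (z - cir tB) := by ring
    have h3 := norm_add_le (-(z - cir tA)) (z - cir tB)
    rw [← h2, norm_neg] at h3
    linarith
  · obtain ⟨p, q, hp1, hp2, hq1, hq2, hpq⟩ := h.adj
    have h2 := h.minB q hq1 hq2
    have h3 : z - cir q = (z - cir tA) + (cir tA - cir p) + (cir p - cir q) := by ring
    have h4 := norm_add₃_le (a := z - cir tA) (b := cir tA - cir p) (c := cir p - cir q)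
    rw [← h3] at h4
    have h5 : ‖cir tA - cir p‖ ≤ θ2 - θ1 := by
      refine (ALO.cir_lip tA p).trans ?_
      have := h.hA1
      have := h.hA2
      rw [abs_le]
      constructor <;> linarith
    linarith
  · have h2 := norm_sub_le (cir tA) (cir tB)
    rw [ARM1.norm_cir, ARM1.norm_cir] at h2
    linarith

/-- **A long arc next to the point.** -/
theorem anc_one (D : Dom f) {c C κ : ℝ} (hc : 0 < c) (hC : 0 < C) (hκ : 0 < κ) (hκ1 : κ ≤ 1) :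
    ∃ c' C' K0 ε1 : ℝ, 0 < c' ∧ 0 < C' ∧ 1 ≤ K0 ∧ 0 < ε1 ∧ ε1 ≤ D.ε0 ∧
    ∀ (ε θ1 θ2 θ3 θ4 g tA tB : ℝ) (x : Vtx) (z : ℂ), Conf f c C ε θ1 θ2 θ3 θ4 g tA tB x z →
    0 < ε → ε ≤ ε1 → ‖z‖ < 1 → f z = pos ε x → K0 * ε ≤ 1 - ‖z‖ →
    ‖z - cir tA‖ ≤ ‖z - cir tB‖ → κ * ‖z - cir tA‖ ≤ θ2 - θ1 →
    Fin3 c' C' (PT f ε x (near f ε θ1 θ2) (near f ε θ3 θ4)) (PD f ε {x} (near f ε θ1 θ2))
      (PD f ε {x} (near f ε θ3 θ4)) (PD f ε (near f ε θ1 θ2) (near f ε θ3 θ4)) := by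
  have hl := D.hl
  obtain ⟨c1, K1, ε1, hc1, hK1, hε1, hε10, hsub⟩ := tlow_subW D (e0 := D.l / 2) (by positivity)
    hκ hκ1
  obtain ⟨q, hq⟩ : ∃ q : ℝ, q = C * (25 / κ ^ 2) ^ (1 / 3 : ℝ) / c ^ 2 := ⟨_, rfl⟩
  have hq0 : 0 < q := by rw [hq]; positivity
  refine ⟨c1, √q, K1 + 4 / D.l, ε1, hc1, Real.sqrt_pos.mpr hq0, by
    have : 0 < 4 / D.l := by positivity
    linarith, hε1, hε10, ?_⟩
  intro ε θ1 θ2 θ3 θ4 g tA tB x z h hε hεε hz hfz hKz hAB hκA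
  obtain ⟨g1, g2, -⟩ := h.geo
  have haA := le_cir (z := z) tA
  set a := 1 - ‖z‖ with ha
  have p1 : 0 < K1 * ε := by positivity
  have p3 : 0 < 4 / D.l * ε := by positivity
  have hK1z : K1 * ε ≤ a := by nlinarith
  have hla4 : 4 * ε ≤ D.l * a := by
    have h1 : 4 / D.l * ε ≤ a := by nlinarith
    rw [div_mul_eq_mul_div, div_le_iff₀ hl] at h1
    linarith
  have ha0 : 0 < a := by linarith
  have hPA := PD_nonneg f ε {x} (near f ε θ1 θ2)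
  have hPB := PD_nonneg f ε {x} (near f ε θ3 θ4)
  have hPAB := PD_nonneg f ε (near f ε θ1 θ2) (near f ε θ3 θ4)
  have hℓ0 : 0 < θ2 - θ1 := hε.trans_le h.hℓ
  have hk0 : 0 < θ4 - θ3 := hε.trans_le h.hk
  have c1' := h.c1
  have c2' := h.c2
  have a1' := h.a1
  have b2' := h.b2
  have hg := h.hg
  set A := ‖z - cir tA‖ with hA
  set B := ‖z - cir tB‖ with hB
  set ℓ := θ2 - θ1 with hℓd
  set k := θ4 - θ3 with hkd
  have hA0 : 0 < A := ha0.trans_le haA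
  have hB0 : 0 < B := hA0.trans_le hAB
  have hn := anum_one (k := k) ha0 hA0 hB0 hℓ0 hk0 hg hκ hκ1 hAB hκA (by linarith)
  have hmA : 0 < min ℓ A := lt_min hℓ0 hA0
  have hmB : 0 < min k B := lt_min hk0 hB0
  have hE0 : 0 ≤ EB ℓ k g := by unfold EB; positivity
  constructor
  · have h1 := PT_le_right f ε x (near f ε θ1 θ2) (near f ε θ3 θ4)
    have h2 : PD f ε {x} (near f ε θ3 θ4) ≤ q * (PD f ε {x} (near f ε θ1 θ2) *
        PD f ε (near f ε θ1 θ2) (near f ε θ3 θ4)) := by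
      have h3 : (a * min k B / B ^ 2) ^ (1 / 3 : ℝ) ≤ (25 / κ ^ 2) ^ (1 / 3 : ℝ) *
          ((a * min ℓ A / A ^ 2) ^ (1 / 3 : ℝ) * EB ℓ k g ^ (1 / 3 : ℝ)) := by
        rw [← Real.mul_rpow (x := a * min ℓ A / A ^ 2) (by positivity) hE0]
        exact rp (by positivity) (by positivity) (by positivity) (by norm_num) hn
      have h4 := mul_le_mul a1' c1' (by positivity) hPA
      calc PD f ε {x} (near f ε θ3 θ4) ≤ C * AA ε a k B := b2'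
        _ = C * ((ε / a) ^ (5 / 48 : ℝ) * (a * min k B / B ^ 2) ^ (1 / 3 : ℝ)) := rfl
        _ ≤ C * ((ε / a) ^ (5 / 48 : ℝ) * ((25 / κ ^ 2) ^ (1 / 3 : ℝ) *
            ((a * min ℓ A / A ^ 2) ^ (1 / 3 : ℝ) * EB ℓ k g ^ (1 / 3 : ℝ)))) := by
            apply mul_le_mul_of_nonneg_left _ hC.le
            exact mul_le_mul_of_nonneg_left h3 (by positivity)
        _ = q * (c * AA ε a ℓ A * (c * EB ℓ k g ^ (1 / 3 : ℝ))) := by
            unfold AA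
            rw [hq]
            field_simp
        _ ≤ _ := mul_le_mul_of_nonneg_left h4 hq0.le
    obtain ⟨h3, -⟩ := sq_cmp' hPB hPA hPAB hq0 h2
    refine h1.trans (h3.trans (le_of_eq ?_))
    rw [mul_comm (PD f ε {x} (near f ε θ3 θ4))]
  · have h1 := hsub ε x z θ1 θ2 tA (near f ε θ3 θ4) hε hεε hz hfz hK1z h.hℓ h.hA1 h.hA2 hκA
      (by
        intro v hv
        exact near_dist D (A := A) hz hfz (fun t h1 h2 => hAB.trans (h.minB t h1 h2))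
          (hla4.trans (mul_le_mul_of_nonneg_left haA hl.le)) hv)
    rw [PT_swap]
    refine le_trans ?_ h1
    apply mul_le_mul_of_nonneg_left _ hc1.le
    exact (min_le_left _ _).trans (min_le_right _ _)

/-- **A small arc next to the point.** -/
theorem anc_two (D : Dom f) {c C κ : ℝ} (hc : 0 < c) (hC : 0 < C) (hκ : 0 < κ) (hκ1 : κ ≤ 1) :
    ∃ κ1 c' C' K0 ε1 : ℝ, 0 < κ1 ∧ κ1 ≤ 1 ∧ 0 < c' ∧ 0 < C' ∧ 1 ≤ K0 ∧ 0 < ε1 ∧ ε1 ≤ D.ε0 ∧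
    ∀ (ε θ1 θ2 θ3 θ4 g tA tB : ℝ) (x : Vtx) (z : ℂ), Conf f c C ε θ1 θ2 θ3 θ4 g tA tB x z →
    0 < ε → ε ≤ ε1 → ‖z‖ < 1 → f z = pos ε x → K0 * ε ≤ 1 - ‖z‖ →
    ‖z - cir tA‖ ≤ ‖z - cir tB‖ → θ2 - θ1 ≤ κ1 * ‖z - cir tA‖ → κ * ‖z - cir tA‖ ≤ g →
    Fin3 c' C' (PT f ε x (near f ε θ1 θ2) (near f ε θ3 θ4)) (PD f ε {x} (near f ε θ1 θ2))
      (PD f ε {x} (near f ε θ3 θ4)) (PD f ε (near f ε θ1 θ2) (near f ε θ3 θ4)) := by
  have hl := D.hl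
  have hH := D.hH
  obtain ⟨e0, he0⟩ : ∃ e0 : ℝ, e0 = min (D.l / 2) 1 := ⟨_, rfl⟩
  have he00 : 0 < e0 := by rw [he0]; exact lt_min (by positivity) one_pos
  have he01 : e0 ≤ 1 := by rw [he0]; exact min_le_right _ _
  have he0l : e0 ≤ D.l / 2 := by rw [he0]; exact min_le_left _ _
  obtain ⟨Cu, Ku, hCu, hKu, hup⟩ := tup D he00 he01
  obtain ⟨κ1, c1, Kc, ε1, hκ10, hκ11, hc1, hKc, hε1, hε10, hlow⟩ := tlow_arc D
    (e0 := D.l * κ / 4) (by positivity)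
  obtain ⟨k1, hk1⟩ : ∃ k1 : ℝ, k1 = (9 / κ ^ 2 + 40 / κ) ^ (1 / 3 : ℝ) := ⟨_, rfl⟩
  have hk10 : 0 < k1 := by rw [hk1]; positivity
  obtain ⟨q1, hq1⟩ : ∃ q1 : ℝ, q1 = √(C * k1 / c ^ 2) := ⟨_, rfl⟩
  obtain ⟨q2, hq2⟩ : ∃ q2 : ℝ, q2 = √(C ^ 2 * k1 / c) := ⟨_, rfl⟩
  have hq10 : 0 < q1 := by rw [hq1]; exact Real.sqrt_pos.mpr (by positivity)
  have hq20 : 0 < q2 := by rw [hq2]; exact Real.sqrt_pos.mpr (by positivity)
  refine ⟨κ1, c1 / q2, Cu * q1, Ku + Kc + 4 / D.l + 8 / (D.l * κ), ε1, hκ10, hκ11,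
    by positivity, by positivity, by
      have : 0 < 4 / D.l := by positivity
      have : 0 < 8 / (D.l * κ) := by positivity
      linarith, hε1, hε10, ?_⟩
  intro ε θ1 θ2 θ3 θ4 g tA tB x z h hε hεε hz hfz hKz hAB hℓκ hκg
  obtain ⟨g1, g2, -⟩ := h.geo
  have haA := le_cir (z := z) tA
  have hA2 : ‖z - cir tA‖ ≤ 2 := by
    refine (norm_sub_le _ _).trans ?_
    rw [ARM1.norm_cir]
    linarith
  set a := 1 - ‖z‖ with ha
  have p1 : 0 < Ku * ε := by positivity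
  have p2 : 0 < Kc * ε := by positivity
  have p3 : 0 < 4 / D.l * ε := by positivity
  have p4 : 0 < 8 / (D.l * κ) * ε := by positivity
  have hKuz : Ku * ε ≤ a := by nlinarith
  have hKcz : Kc * ε ≤ a := by nlinarith
  have hla4 : 4 * ε ≤ D.l * a := by
    have h1 : 4 / D.l * ε ≤ a := by nlinarith
    rw [div_mul_eq_mul_div, div_le_iff₀ hl] at h1
    linarith
  have hla8 : 8 * ε ≤ D.l * κ * a := by
    have h1 : 8 / (D.l * κ) * ε ≤ a := by nlinarith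
    rw [div_mul_eq_mul_div, div_le_iff₀ (by positivity)] at h1
    linarith
  have ha0 : 0 < a := by linarith
  have hε0 : ε ≤ D.ε0 := hεε.trans hε10
  have hPA := PD_nonneg f ε {x} (near f ε θ1 θ2)
  have hPB := PD_nonneg f ε {x} (near f ε θ3 θ4)
  have hPAB := PD_nonneg f ε (near f ε θ1 θ2) (near f ε θ3 θ4)
  have hℓ0 : 0 < θ2 - θ1 := hε.trans_le h.hℓ
  have hk0 : 0 < θ4 - θ3 := hε.trans_le h.hk
  have c1' := h.c1
  have c2' := h.c2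
  have a1' := h.a1
  have a2' := h.a2
  have b1' := h.b1
  have b2' := h.b2
  have hg := h.hg
  have hlow' := hlow ε x z θ1 θ2 tA (near f ε θ3 θ4) hε hεε hz hfz hKcz h.hℓ h.hA1 h.hA2 hℓκ
    (by
      rintro v ⟨-, t, ht1, ht2, ht3⟩
      have h1 := h.sep tA t h.hA1 h.hA2 ht1 ht2
      have h2 := (D.lip _ (ARM1.cir_mem tA) _ (ARM1.cir_mem t)).1
      have h3 : f (cir tA) - f (cir t) = (pos ε v - f (cir t)) + -(pos ε v - f (cir tA)) := by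
        ring
      have h4 := norm_add_le (pos ε v - f (cir t)) (-(pos ε v - f (cir tA)))
      rw [← h3, norm_neg] at h4
      have h5 : D.l * (g / 2) ≤ D.l * ‖cir tA - cir t‖ := mul_le_mul_of_nonneg_left h1 hl.le
      have h6 : D.l * (κ * ‖z - cir tA‖) ≤ D.l * g := mul_le_mul_of_nonneg_left hκg hl.le
      have h7 : D.l * κ * a ≤ D.l * κ * ‖z - cir tA‖ :=
        mul_le_mul_of_nonneg_left haA (by positivity)
      nlinarith)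
  have hup' := hup ε ‖z - cir tA‖ ‖z - cir tA‖ x z (near f ε θ1 θ2) (near f ε θ3 θ4) hε hε0 hz
    hfz hKuz (ha0.trans_le haA) hA2 le_rfl haA (by linarith) (by
      rintro v (hv | hv)
      · exact hv.1
      · exact hv.1) (by
      have h5 : e0 * ‖z - cir tA‖ ≤ D.l / 2 * ‖z - cir tA‖ :=
        mul_le_mul_of_nonneg_right he0l (norm_nonneg _)
      rintro v (hv | hv)
      · exact h5.trans (near_dist D (A := ‖z - cir tA‖) hz hfz h.minA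
          (hla4.trans (mul_le_mul_of_nonneg_left haA hl.le)) hv)
      · exact h5.trans (near_dist D (A := ‖z - cir tA‖) hz hfz
          (fun t h1 h2 => hAB.trans (h.minB t h1 h2))
          (hla4.trans (mul_le_mul_of_nonneg_left haA hl.le)) hv))
  set A := ‖z - cir tA‖ with hA
  set B := ‖z - cir tB‖ with hB
  set ℓ := θ2 - θ1 with hℓd
  set k := θ4 - θ3 with hkd
  have hA0 : 0 < A := ha0.trans_le haA
  have hB0 : 0 < B := hA0.trans_le hAB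
  have hLG : LG ε a A A = (ε / a) ^ (5 / 48 : ℝ) * (a / A) ^ (1 / 3 : ℝ) := by
    unfold LG
    rw [div_self hA0.ne', Real.one_rpow, mul_one]
  rw [hLG] at hup'
  have hℓA : ℓ ≤ A := by nlinarith
  obtain ⟨n1, n2⟩ := anum_two (k := k) ha0 hA0 hB0 hℓ0 hk0 hg hκ hκ1 hℓA hκg (by linarith) g2
  have hmA : 0 < min ℓ A := lt_min hℓ0 hA0
  have hmB : 0 < min k B := lt_min hk0 hB0
  have hE0 : 0 ≤ EB ℓ k g := by unfold EB; positivity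
  have hα0 : 0 ≤ a * min ℓ A / A ^ 2 := by positivity
  have hβ0 : 0 ≤ a * min k B / B ^ 2 := by positivity
  set L := (ε / a) ^ (5 / 48 : ℝ) * (a / A) ^ (1 / 3 : ℝ) with hL
  have hL0 : 0 ≤ L := by rw [hL]; positivity
  have hAA : 0 ≤ AA ε a ℓ A := by unfold AA; positivity
  have hBB : 0 ≤ AA ε a k B := by unfold AA; positivity
  have hEE : 0 ≤ EB ℓ k g ^ (1 / 3 : ℝ) := by positivity
  have e1 : L ^ 2 * EB ℓ k g ^ (1 / 3 : ℝ) = ((ε / a) ^ (5 / 48 : ℝ) * (ε / a) ^ (5 / 48 : ℝ)) *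
      (a / A * (a / A) * EB ℓ k g) ^ (1 / 3 : ℝ) := by
    rw [← three_cbrt (by positivity) (by positivity) hE0, hL]
    ring
  have e2 : AA ε a ℓ A * AA ε a k B = ((ε / a) ^ (5 / 48 : ℝ) * (ε / a) ^ (5 / 48 : ℝ)) *
      ((a * min ℓ A / A ^ 2) * (a * min k B / B ^ 2)) ^ (1 / 3 : ℝ) := by
    rw [Real.mul_rpow hα0 hβ0]
    unfold AA
    ring
  have hX0 : 0 ≤ (ε / a) ^ (5 / 48 : ℝ) * (ε / a) ^ (5 / 48 : ℝ) := by positivity
  have m1 : L ^ 2 * EB ℓ k g ^ (1 / 3 : ℝ) ≤ k1 * (AA ε a ℓ A * AA ε a k B) := by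
    rw [e1, e2]
    have h3 := rp (X := a / A * (a / A) * EB ℓ k g) (c := 9 / κ ^ 2 + 40 / κ)
      (Y := (a * min ℓ A / A ^ 2) * (a * min k B / B ^ 2)) (p := 1 / 3) (by positivity)
      (by positivity) (by positivity) (by norm_num) (n1.trans (by
        apply mul_le_mul_of_nonneg_right _ (by positivity)
        have : 0 < 40 / κ := by positivity
        linarith))
    calc _ ≤ ((ε / a) ^ (5 / 48 : ℝ) * (ε / a) ^ (5 / 48 : ℝ)) * _ :=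
          mul_le_mul_of_nonneg_left h3 hX0
      _ = _ := by rw [hk1]; ring
  have m2 : AA ε a ℓ A * AA ε a k B ≤ k1 * (L ^ 2 * EB ℓ k g ^ (1 / 3 : ℝ)) := by
    rw [e1, e2]
    have h3 := rp (X := (a * min ℓ A / A ^ 2) * (a * min k B / B ^ 2)) (c := 9 / κ ^ 2 + 40 / κ)
      (Y := a / A * (a / A) * EB ℓ k g) (p := 1 / 3) (by positivity)
      (by positivity) (by positivity) (by norm_num) (n2.trans (by
        apply mul_le_mul_of_nonneg_right _ (by positivity)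
        have : 0 < 9 / κ ^ 2 := by positivity
        linarith))
    calc _ ≤ ((ε / a) ^ (5 / 48 : ℝ) * (ε / a) ^ (5 / 48 : ℝ)) * _ :=
          mul_le_mul_of_nonneg_left h3 hX0
      _ = _ := by rw [hk1]; ring
  obtain ⟨s1, s2⟩ := sq_cmp hL0 hAA hBB hc hC hk10 m1 m2 a1' a2' b1' b2' c1' c2' hPAB
  rw [← hq1] at s1
  rw [← hq2] at s2
  rw [mul_assoc] at hup' hlow'
  constructor
  · refine hup'.trans ?_
    calc _ ≤ Cu * (q1 * _) := mul_le_mul_of_nonneg_left s1 hCu.le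
      _ = _ := by ring
  · refine le_trans ?_ hlow'
    calc _ ≤ c1 / q2 * √(PD f ε {x} (near f ε θ1 θ2) * PD f ε {x} (near f ε θ3 θ4) *
          PD f ε (near f ε θ1 θ2) (near f ε θ3 θ4)) :=
          mul_le_mul_of_nonneg_left (min_le_right _ _) (by positivity)
      _ ≤ c1 / q2 * (q2 * (L * PD f ε (near f ε θ1 θ2) (near f ε θ3 θ4))) :=
          mul_le_mul_of_nonneg_left s2 (by positivity)
      _ = _ := by field_simp

end Run7.h663.PA
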