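import Pool.Agent.Run7.h663.PA.ACase

/-!
One interior point and two boundary arcs: the arcs next to one another, and the assembly.
-/

set_option autoImplicit false

namespace Run7.h663.PA

open H974 hiding Blk okhalf
open H973 hiding okhalf
open Finset
open Pool.Agent.Y989.SD
open Pool.Agent.H160R2.CV (nv P ar Far)

variable {f : ℂ → ℂ}

theorem cbrt_sq {x : ℝ} (hx : 0 ≤ x) : (x ^ (1 / 3 : ℝ)) ^ 2 = (x * x) ^ (1 / 3 : ℝ) := by
  rw [Real.mul_rpow hx hx, sq]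

/-- **Two arcs next to one another.** -/
theorem anc_three (D : Dom f) {c C : ℝ} (hc : 0 < c) (hC : 0 < C) :
    ∃ κ c' C' K0 ε1 : ℝ, 0 < κ ∧ κ ≤ 1 ∧ 0 < c' ∧ 0 < C' ∧ 1 ≤ K0 ∧ 0 < ε1 ∧ ε1 ≤ D.ε0 ∧
    ∀ (ε θ1 θ2 θ3 θ4 g tA tB : ℝ) (x : Vtx) (z : ℂ), Conf f c C ε θ1 θ2 θ3 θ4 g tA tB x z →
    0 < ε → ε ≤ ε1 → ‖z‖ < 1 → f z = pos ε x → K0 * ε ≤ 1 - ‖z‖ →
    θ2 - θ1 ≤ θ4 - θ3 → θ2 - θ1 ≤ κ * ‖z - cir tA‖ → g ≤ κ * ‖z - cir tA‖ →
    ‖z - cir tA‖ ≤ 3 * ‖z - cir tB‖ → ‖z - cir tB‖ ≤ 3 * ‖z - cir tA‖ →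
    Fin3 c' C' (PT f ε x (near f ε θ1 θ2) (near f ε θ3 θ4)) (PD f ε {x} (near f ε θ1 θ2))
      (PD f ε {x} (near f ε θ3 θ4)) (PD f ε (near f ε θ1 θ2) (near f ε θ3 θ4)) := by
  have hl := D.hl
  have hH := D.hH
  obtain ⟨κ, c1, hκ, hκ1, hc1, hlow⟩ := tlow_pair D
  obtain ⟨C1, hC1, hup⟩ := tup_pair D (e1 := D.l / 3) (by positivity)
  obtain ⟨k1, hk1⟩ : ∃ k1 : ℝ, k1 = (108 : ℝ) ^ (1 / 3 : ℝ) := ⟨_, rfl⟩
  have hk10 : 0 < k1 := by rw [hk1]; positivity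
  obtain ⟨q1, hq1⟩ : ∃ q1 : ℝ, q1 = √(C * k1 / c ^ 2) := ⟨_, rfl⟩
  obtain ⟨q2, hq2⟩ : ∃ q2 : ℝ, q2 = √(C ^ 2 * k1 / c) := ⟨_, rfl⟩
  have hq10 : 0 < q1 := by rw [hq1]; exact Real.sqrt_pos.mpr (by positivity)
  have hq20 : 0 < q2 := by rw [hq2]; exact Real.sqrt_pos.mpr (by positivity)
  refine ⟨κ, min c1 (c1 / q2), (C1 + 1) * q1, 1, D.ε0, hκ, hκ1,
    lt_min hc1 (by positivity), by positivity, le_rfl, D.he, le_rfl, ?_⟩
  intro ε θ1 θ2 θ3 θ4 g tA tB x z h hε hε0 hz hfz hKz hℓk hℓκ hgκ hAB hBA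
  obtain ⟨g1, g2, g3⟩ := h.geo
  have haA := le_cir (z := z) tA
  set a := 1 - ‖z‖ with ha
  have ha0 : 0 < a := by linarith
  have hPA := PD_nonneg f ε {x} (near f ε θ1 θ2)
  have hPB := PD_nonneg f ε {x} (near f ε θ3 θ4)
  have hPAB := PD_nonneg f ε (near f ε θ1 θ2) (near f ε θ3 θ4)
  have hT1 := PT_le_left f ε x (near f ε θ1 θ2) (near f ε θ3 θ4)
  have hℓ0 : 0 < θ2 - θ1 := hε.trans_le h.hℓ
  have hk0 : 0 < θ4 - θ3 := hε.trans_le h.hk
  have c1' := h.c1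
  have c2' := h.c2
  have a1' := h.a1
  have a2' := h.a2
  have b1' := h.b1
  have b2' := h.b2
  have hg := h.hg
  obtain ⟨s, hs⟩ : ∃ s : ℝ, s = max g (θ2 - θ1) := ⟨_, rfl⟩
  have hgs : g ≤ s := by rw [hs]; exact le_max_left _ _
  have hℓs : θ2 - θ1 ≤ s := by rw [hs]; exact le_max_right _ _
  have hsκ : s ≤ κ * ‖z - cir tA‖ := by rw [hs]; exact max_le hgκ hℓκ
  have hs0 : 0 < s := hg.trans_le hgs
  -- lower bound
  obtain ⟨p, hp1, hp2, hp⟩ := h.adB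
  obtain ⟨t, ht1, ht2⟩ := hp (min (θ4 - θ3) s) (le_min hk0.le hs0.le) (min_le_left _ _)
  have hlow' := hlow ε x z θ1 θ2 p t (min (θ4 - θ3) s) s (near f ε θ3 θ4) hε hε0 hz hfz hp1 hp2
    hℓs (le_min h.hk (h.hℓ.trans hℓs)) (min_le_right _ _)
    (ht1.trans (by linarith [min_le_right (θ4 - θ3) s])) ht2
    (hsκ.trans (mul_le_mul_of_nonneg_left (h.minA p hp1 hp2) hκ.le))
  -- upper bound
  have hsA : s ≤ ‖z - cir tA‖ := hsκ.trans (by
    have := norm_nonneg (z - cir tA)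
    nlinarith)
  have hup' : PT f ε x (near f ε θ1 θ2) (near f ε θ3 θ4) ≤
      (C1 + 1) * (min (θ4 - θ3) s / s) ^ (1 / 3 : ℝ) * PD f ε {x} (near f ε θ1 θ2) := by
    rcases le_or_gt s (θ4 - θ3) with hsk | hks
    · rw [min_eq_right hsk, div_self hs0.ne', Real.one_rpow, mul_one]
      nlinarith
    · have hsg : s = g := by
        rcases max_choice g (θ2 - θ1) with h1 | h1
        · rw [hs, h1]
        · rw [hs, h1] at hks
          linarith
      rw [min_eq_left hks.le, hsg]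
      have h1 := hup ε x z θ3 θ4 g (near f ε θ1 θ2) hε hε0 hz hfz h.hk (hsg ▸ hks.le) (by linarith)
        (fun v hv => hv.1) (by
          rintro v ⟨-, r, hr1, hr2, hr3⟩
          have h2 := h.sep r ((θ3 + θ4) / 2) hr1 hr2 (by linarith) (by linarith)
          have h3 := (D.lip _ (ARM1.cir_mem r) _ (ARM1.cir_mem ((θ3 + θ4) / 2))).1
          have h4 : f (cir r) - f (cir ((θ3 + θ4) / 2)) = -(pos ε v - f (cir r)) +
              (pos ε v - f (cir ((θ3 + θ4) / 2))) := by ring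
          have h5 := norm_add_le (-(pos ε v - f (cir r))) (pos ε v - f (cir ((θ3 + θ4) / 2)))
          rw [← h4, norm_neg] at h5
          have h6 := mul_le_mul_of_nonneg_left h2 hl.le
          nlinarith) (by
          have h2 := h.minB ((θ3 + θ4) / 2) (by linarith) (by linarith)
          have h3 := (D.lip z (disc_of hz.le) _ (ARM1.cir_mem ((θ3 + θ4) / 2))).1
          rw [hfz] at h3
          have h4 : D.l * (g / 3) ≤ D.l * ‖z - cir ((θ3 + θ4) / 2)‖ :=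
            mul_le_mul_of_nonneg_left (by linarith) hl.le
          linarith)
      refine h1.trans ?_
      apply mul_le_mul_of_nonneg_right _ hPA
      apply mul_le_mul_of_nonneg_right _ (by positivity)
      linarith
  have hup2 : PT f ε x (near f ε θ1 θ2) (near f ε θ3 θ4) ≤
      (C1 + 1) * ((min (θ4 - θ3) s / s) ^ (1 / 3 : ℝ) * PD f ε {x} (near f ε θ1 θ2)) := by
    rw [← mul_assoc]
    exact hup'
  rw [mul_assoc] at hlow'
  set A := ‖z - cir tA‖ with hA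
  set B := ‖z - cir tB‖ with hB
  set ℓ := θ2 - θ1 with hℓd
  set k := θ4 - θ3 with hkd
  have hA0 : 0 < A := ha0.trans_le haA
  have hB0 : 0 < B := by linarith
  obtain ⟨n1, n2⟩ := anum_three ha0 hA0 hB0 hℓ0 hk0 hg hs hℓk hsA hAB hBA
  have hmA : 0 < min ℓ A := lt_min hℓ0 hA0
  have hmB : 0 < min k B := lt_min hk0 hB0
  have hms : 0 < min k s := lt_min hk0 hs0
  have hE0 : 0 ≤ EB ℓ k g := by unfold EB; positivity
  have hα0 : 0 ≤ a * min ℓ A / A ^ 2 := by positivity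
  have hβ0 : 0 ≤ a * min k B / B ^ 2 := by positivity
  set L := (min k s / s) ^ (1 / 3 : ℝ) with hL
  have hL0 : 0 ≤ L := by rw [hL]; positivity
  have hAA : 0 ≤ AA ε a ℓ A := by unfold AA; positivity
  have hBB : 0 ≤ AA ε a k B := by unfold AA; positivity
  have hEE : 0 ≤ EB ℓ k g ^ (1 / 3 : ℝ) := by positivity
  have hX0 : 0 ≤ (ε / a) ^ (5 / 48 : ℝ) := by positivity
  have e1 : L ^ 2 * AA ε a ℓ A = (ε / a) ^ (5 / 48 : ℝ) *
      (min k s / s * (min k s / s) * (a * min ℓ A / A ^ 2)) ^ (1 / 3 : ℝ) := by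
    rw [Real.mul_rpow (x := min k s / s * (min k s / s)) (by positivity) hα0, hL,
      cbrt_sq (by positivity)]
    unfold AA
    ring
  have e2 : AA ε a k B * EB ℓ k g ^ (1 / 3 : ℝ) = (ε / a) ^ (5 / 48 : ℝ) *
      (a * min k B / B ^ 2 * EB ℓ k g) ^ (1 / 3 : ℝ) := by
    rw [Real.mul_rpow hβ0 hE0]
    unfold AA
    ring
  have m1 : L ^ 2 * AA ε a ℓ A ≤ k1 * (AA ε a k B * EB ℓ k g ^ (1 / 3 : ℝ)) := by
    rw [e1, e2]
    have h3 := rp (X := min k s / s * (min k s / s) * (a * min ℓ A / A ^ 2)) (c := 108)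
      (Y := a * min k B / B ^ 2 * EB ℓ k g) (p := 1 / 3) (by positivity)
      (by positivity) (by positivity) (by norm_num) n1
    calc _ ≤ (ε / a) ^ (5 / 48 : ℝ) * _ := mul_le_mul_of_nonneg_left h3 hX0
      _ = _ := by rw [hk1]; ring
  have s1 := sq_cmp1 hL0 hBB hEE hc hC hk10 m1 b1' c1' a2' hPA
  rw [← hq1] at s1
  have e3 : PD f ε {x} (near f ε θ3 θ4) * PD f ε (near f ε θ1 θ2) (near f ε θ3 θ4) *
      PD f ε {x} (near f ε θ1 θ2) = PD f ε {x} (near f ε θ1 θ2) *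
      PD f ε {x} (near f ε θ3 θ4) * PD f ε (near f ε θ1 θ2) (near f ε θ3 θ4) := by ring
  rw [e3] at s1
  constructor
  · refine hup2.trans ?_
    calc _ ≤ (C1 + 1) * (q1 * _) := mul_le_mul_of_nonneg_left s1 (by positivity)
      _ = _ := by ring
  · refine le_trans ?_ hlow'
    rcases le_total s k with hsk | hks
    · have hL1 : L = 1 := by
        rw [hL, min_eq_right hsk, div_self hs0.ne', Real.one_rpow]
      rw [hL1, one_mul]
      calc _ ≤ c1 * PD f ε {x} (near f ε θ1 θ2) := by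
            apply mul_le_mul (min_le_left _ _) ((min_le_left _ _).trans (min_le_left _ _))
              (le_min (le_min hPA hPB) (Real.sqrt_nonneg _)) hc1.le
        _ = _ := rfl
    · have m2 : AA ε a k B * EB ℓ k g ^ (1 / 3 : ℝ) ≤ k1 * (L ^ 2 * AA ε a ℓ A) := by
        rw [e1, e2]
        have h3 := rp (X := a * min k B / B ^ 2 * EB ℓ k g) (c := 108)
          (Y := min k s / s * (min k s / s) * (a * min ℓ A / A ^ 2)) (p := 1 / 3) (by positivity)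
          (by positivity) (by positivity) (by norm_num) ((n2 hks).trans (by
            apply mul_le_mul_of_nonneg_right _ (by positivity)
            norm_num))
        calc _ ≤ (ε / a) ^ (5 / 48 : ℝ) * _ := mul_le_mul_of_nonneg_left h3 hX0
          _ = _ := by rw [hk1]; ring
      have s2 := sq_cmp2 hL0 hBB hc hC hk10 m2 b2' hPAB c2' a1' hPA
      rw [← hq2, e3] at s2
      calc _ ≤ c1 / q2 * √(PD f ε {x} (near f ε θ1 θ2) * PD f ε {x} (near f ε θ3 θ4) *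
            PD f ε (near f ε θ1 θ2) (near f ε θ3 θ4)) := by
            apply mul_le_mul (min_le_right _ _) (min_le_right _ _)
              (le_min (le_min hPA hPB) (Real.sqrt_nonneg _)) (by positivity)
        _ ≤ c1 / q2 * (q2 * (L * PD f ε {x} (near f ε θ1 θ2))) :=
            mul_le_mul_of_nonneg_left s2 (by positivity)
        _ = _ := by field_simp

/-- **All positions.** -/
theorem anc_all (D : Dom f) {c C : ℝ} (hc : 0 < c) (hC : 0 < C) :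
    ∃ c' C' K0 ε1 : ℝ, 0 < c' ∧ 0 < C' ∧ 1 ≤ K0 ∧ 0 < ε1 ∧ ε1 ≤ D.ε0 ∧
    ∀ (ε θ1 θ2 θ3 θ4 g tA tB : ℝ) (x : Vtx) (z : ℂ), Conf f c C ε θ1 θ2 θ3 θ4 g tA tB x z →
    0 < ε → ε ≤ ε1 → ‖z‖ < 1 → f z = pos ε x → K0 * ε ≤ 1 - ‖z‖ →
    Fin3 c' C' (PT f ε x (near f ε θ1 θ2) (near f ε θ3 θ4)) (PD f ε {x} (near f ε θ1 θ2))
      (PD f ε {x} (near f ε θ3 θ4)) (PD f ε (near f ε θ1 θ2) (near f ε θ3 θ4)) := by
  obtain ⟨κ, c3, C3, K3, ε3, hκ, hκ1, hc3, hC3, hK3, hε3, hε30, h3⟩ := anc_three D hc hC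
  obtain ⟨κ', hκ'⟩ : ∃ κ' : ℝ, κ' = min κ (1 / 4) := ⟨_, rfl⟩
  have hκ'0 : 0 < κ' := by rw [hκ']; exact lt_min hκ (by norm_num)
  have hκ'κ : κ' ≤ κ := by rw [hκ']; exact min_le_left _ _
  have hκ'4 : κ' ≤ 1 / 4 := by rw [hκ']; exact min_le_right _ _
  obtain ⟨κ1, c2, C2, K2, ε2, hκ1', hκ11, hc2, hC2, hK2, hε2, hε20, h2⟩ :=
    anc_two D hc hC hκ'0 (by linarith)
  obtain ⟨κ0, hκ0⟩ : ∃ κ0 : ℝ, κ0 = min κ1 κ' := ⟨_, rfl⟩
  have hκ00 : 0 < κ0 := by rw [hκ0]; exact lt_min hκ1' hκ'0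
  have hκ01 : κ0 ≤ κ1 := by rw [hκ0]; exact min_le_left _ _
  have hκ0' : κ0 ≤ κ' := by rw [hκ0]; exact min_le_right _ _
  obtain ⟨c1, C1, K1, ε1, hc1, hC1, hK1, hε1, hε10, h1⟩ := anc_one D hc hC hκ00 (by linarith)
  -- the statement for one order
  have half : ∀ (ε θ1 θ2 θ3 θ4 g tA tB : ℝ) (x : Vtx) (z : ℂ),
      Conf f c C ε θ1 θ2 θ3 θ4 g tA tB x z →
      0 < ε → ε ≤ min ε1 (min ε2 ε3) → ‖z‖ < 1 → f z = pos ε x → (K1 + K2 + K3) * ε ≤ 1 - ‖z‖ →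
      ‖z - cir tA‖ ≤ ‖z - cir tB‖ →
      Fin3 (min c1 (min c2 c3)) (C1 + C2 + C3) (PT f ε x (near f ε θ1 θ2) (near f ε θ3 θ4))
      (PD f ε {x} (near f ε θ1 θ2)) (PD f ε {x} (near f ε θ3 θ4))
      (PD f ε (near f ε θ1 θ2) (near f ε θ3 θ4)) := by
    intro ε θ1 θ2 θ3 θ4 g tA tB x z h hε hεε hz hfz hKz hAB
    have hPA := PD_nonneg f ε {x} (near f ε θ1 θ2)
    have hPB := PD_nonneg f ε {x} (near f ε θ3 θ4)
    have q1 : 0 < K1 * ε := by positivity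
    have q2 : 0 < K2 * ε := by positivity
    have q3 : 0 < K3 * ε := by positivity
    obtain ⟨g1, g2, g3⟩ := h.geo
    have hA0 : 0 ≤ ‖z - cir tA‖ := norm_nonneg _
    rcases le_or_gt (κ0 * ‖z - cir tA‖) (θ2 - θ1) with hc1' | hc1'
    · exact (h1 ε θ1 θ2 θ3 θ4 g tA tB x z h hε (hεε.trans (min_le_left _ _)) hz hfz
        (by nlinarith) hAB hc1').mono (min_le_left _ _) (by linarith) hPA hPB
    · rcases le_or_gt (κ' * ‖z - cir tA‖) g with hc2' | hc2'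
      · exact (h2 ε θ1 θ2 θ3 θ4 g tA tB x z h hε
          (hεε.trans ((min_le_right _ _).trans (min_le_left _ _))) hz hfz (by nlinarith) hAB
          (hc1'.le.trans (mul_le_mul_of_nonneg_right hκ01 hA0)) hc2').mono
          ((min_le_right _ _).trans (min_le_left _ _)) (by linarith) hPA hPB
      · have hεε3 := hεε.trans ((min_le_right _ _).trans (min_le_right _ _))
        have r1 : κ0 * ‖z - cir tA‖ ≤ κ' * ‖z - cir tA‖ := mul_le_mul_of_nonneg_right hκ0' hA0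
        have r2 : κ' * ‖z - cir tA‖ ≤ κ * ‖z - cir tA‖ := mul_le_mul_of_nonneg_right hκ'κ hA0
        have r3 : κ' * ‖z - cir tA‖ ≤ 1 / 4 * ‖z - cir tA‖ :=
          mul_le_mul_of_nonneg_right hκ'4 hA0
        have r4 : κ * ‖z - cir tA‖ ≤ κ * ‖z - cir tB‖ := mul_le_mul_of_nonneg_left hAB hκ.le
        have m1 : min c1 (min c2 c3) ≤ c3 := (min_le_right _ _).trans (min_le_right _ _)
        rcases le_total (θ2 - θ1) (θ4 - θ3) with hℓk | hkℓ
        · exact (h3 ε θ1 θ2 θ3 θ4 g tA tB x z h hε hεε3 hz hfz (by nlinarith) hℓk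
            (by linarith) (by linarith) (by linarith) (by linarith)).mono m1 (by linarith) hPA hPB
        · have h4 := h3 ε θ3 θ4 θ1 θ2 g tB tA x z h.swap hε hεε3 hz hfz (by nlinarith) hkℓ
            (by linarith) (by linarith) (by linarith) (by linarith)
          rw [PT_swap, PD_swap f ε (near f ε θ3 θ4) (near f ε θ1 θ2)] at h4
          exact h4.swap.mono m1 (by linarith) hPA hPB
  refine ⟨min c1 (min c2 c3), C1 + C2 + C3, K1 + K2 + K3, min ε1 (min ε2 ε3),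
    lt_min hc1 (lt_min hc2 hc3), by positivity, by linarith, lt_min hε1 (lt_min hε2 hε3),
    (min_le_left _ _).trans hε10, ?_⟩
  intro ε θ1 θ2 θ3 θ4 g tA tB x z h hε hεε hz hfz hKz
  rcases le_total ‖z - cir tA‖ ‖z - cir tB‖ with hAB | hBA
  · exact half ε θ1 θ2 θ3 θ4 g tA tB x z h hε hεε hz hfz hKz hAB
  · have h4 := half ε θ3 θ4 θ1 θ2 g tB tA x z h.swap hε hεε hz hfz hKz hBA
    rw [PT_swap, PD_swap f ε (near f ε θ3 θ4) (near f ε θ1 θ2)] at h4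
    exact h4.swap

end Run7.h663.PA
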