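import Pool.Agent.Run7.h663.PA.Low

/-!
Lower bound for the probability that an interior point is connected to a boundary arc.
-/

set_option autoImplicit false

namespace Run7.h663.PA

open H974 hiding Blk okhalf
open H973 hiding okhalf
open Finset
open Pool.Agent.Y989.SD
open Pool.Agent.H160R2.CV (nv P ar Far)
open Pool.Agent.H160R2.CV.Quad (bo)

variable {f : ℂ → ℂ}

theorem okh : Ok hf := H974.okhalf

theorem near_box (D : Dom f) {ε : ℝ} (hε : 0 < ε) {θ0 t a m : ℝ} {v0 : Vtx}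
    (hB : ‖pos ε v0 - f (cir θ0)‖ ≤ 2 * ε) (ht : |t - θ0| + a ≤ m) {r : ℤ}
    (hr : D.H * m + 4 * ε ≤ ε * r) : ∀ u ∈ near f ε (t - a) (t + a), u ∈ BX v0 r := by
  rintro u ⟨-, θ, h1, h2, h3⟩
  apply ALO.mem_BX_of hε
  have h4 : pos ε u - pos ε v0 = (pos ε u - f (cir θ)) + (f (cir θ) - f (cir θ0)) +
      -(pos ε v0 - f (cir θ0)) := by ring
  rw [h4]
  refine norm_add₃_le.trans ?_
  rw [norm_neg]
  have h5 : ‖cir θ - cir θ0‖ ≤ m := by
    refine (ALO.cir_lip θ θ0).trans ?_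
    have h6 : |θ - θ0| ≤ |θ - t| + |t - θ0| := abs_sub_le _ _ _
    have h7 : |θ - t| ≤ a := by rw [abs_le]; constructor <;> linarith
    linarith
  have h6 := (D.circ θ θ0).trans (mul_le_mul_of_nonneg_left h5 D.hH.le)
  linarith

/-- an arc in a window -/
theorem arc_arm (D : Dom f) {ε θ0 t a m : ℝ} {v0 : Vtx} {r0 : ℤ} (hε : 0 < ε) (hε0 : ε ≤ D.ε0)
    (hB : Bp f ε D.ρ D.B D.α θ0 v0) (ht : |t - θ0| + a ≤ m) (ha : ε / 2 ≤ a) (ha1 : a ≤ 1)
    (hr : D.H * m + 4 * ε ≤ ε * r0) (har : a ≤ ε * r0) (hr1 : 1 ≤ r0)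
    (hL : 65 * r0 ≤ ⌊D.ρ / ε⌋) :
    D.cA * (a / (ε * (65 * r0))) ^ (1 / 3 : ℝ) ≤ Pr hf (ES (TD f ε)) (fun F =>
      ∃ u ∈ near f ε (t - a) (t + a), ∃ w ∈ TD f ε, w ∉ BX v0 (64 * r0 - 1) ∧
        Reach (F : Set Edg) u w) := by
  obtain ⟨-, hG2, -⟩ := D.gd ε hε hε0
  obtain ⟨v, hv, hv', hvW⟩ := hG2 t
  have hBv : Bp f ε D.ρ D.B D.α t v := ⟨hv, hv', hvW⟩
  have hr0 : (0 : ℝ) < r0 := by exact_mod_cast (by omega : 0 < r0)
  have h1 := D.arm ε hε hε0 t a v (65 * r0) hBv ha ha1 (by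
    rw [div_le_iff₀ hε]
    push_cast
    nlinarith) (by omega) hL
  push_cast at h1
  refine h1.trans (Pr_mono okh ?_)
  have ha0 : 0 < a := by linarith
  have hvv : v ∈ BX v0 r0 := by
    refine base_near hε hBv hB ((D.circ t θ0).trans (mul_le_mul_of_nonneg_left
      (ALO.cir_lip t θ0) D.hH.le)) ?_
    have : D.H * |t - θ0| ≤ D.H * m := mul_le_mul_of_nonneg_left (by linarith) D.hH.le
    linarith
  rintro F - ⟨u, hu, w, hw, hwR, hr'⟩
  exact ⟨u, hu, w, hw, not_BX_shift hvv (by omega) hwR, hr'⟩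

theorem near_incr (S : Finset Edg) (U : Set Vtx) (T : Finset Vtx) (Q : Vtx → Prop) :
    IncrE S (fun F => ∃ u ∈ U, ∃ w ∈ T, Q w ∧ Reach (F : Set Edg) u w) := by
  rintro F G h - ⟨u, hu, w, hw, h1, h2⟩
  exact ⟨u, hu, w, hw, h1, h2.mono (by exact_mod_cast h)⟩

/-- **The lower bound.** -/
theorem arc_low (D : Dom f) : ∃ c K0 ε1 : ℝ, 0 < c ∧ 1 ≤ K0 ∧ 0 < ε1 ∧ ε1 ≤ D.ε0 ∧
    ∀ (ε : ℝ) (x : Vtx) (z : ℂ) (θ1 θ2 t0 : ℝ), 0 < ε → ε ≤ ε1 → ‖z‖ < 1 → f z = pos ε x →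
    K0 * ε ≤ 1 - ‖z‖ → ε ≤ θ2 - θ1 → θ1 ≤ t0 → t0 ≤ θ2 →
    c * ((ε / (1 - ‖z‖)) ^ (5 / 48 : ℝ) *
      ((1 - ‖z‖) * min (θ2 - θ1) ‖z - cir t0‖ / ‖z - cir t0‖ ^ 2) ^ (1 / 3 : ℝ)) ≤
      Pr hf (ES (TD f ε)) (fun F => ∃ w ∈ near f ε θ1 θ2, Reach (F : Set Edg) x w) := by
  have hH := D.hH
  have hρ := D.hρ
  have hcA := D.hcA
  have hcW := D.hcW
  obtain ⟨K3, hK3⟩ : ∃ K3 : ℝ, K3 = 5 * D.H + 12 := ⟨_, rfl⟩
  obtain ⟨A0, hA0⟩ : ∃ A0 : ℝ, A0 = D.ρ / (128 * (K3 + 1)) := ⟨_, rfl⟩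
  have hK30 : 0 < K3 := by linarith
  have hA00 : 0 < A0 := by rw [hA0]; positivity
  obtain ⟨c1, K1, hc1, hK1, hwin⟩ := win_src D hK3 hA0
  obtain ⟨c2, K2, ε1, hc2, hK2, hε1, hε1', hglob⟩ := glob_src D
  set ρ' : ℝ := D.ρ / 200 with hρ'
  have hρ'0 : 0 < ρ' := by positivity
  set δ1 : ℝ := min 1 (ρ' / (2 * (D.H + 1))) with hδ1
  have hδ10 : 0 < δ1 := lt_min one_pos (by positivity)
  have hδ11 : δ1 ≤ 1 := min_le_left _ _
  have hδ12 : (D.H + 1) * δ1 ≤ ρ' / 2 := by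
    have h1 : δ1 ≤ ρ' / (2 * (D.H + 1)) := min_le_right _ _
    rw [le_div_iff₀ (by positivity)] at h1
    linarith
  set κ1 : ℝ := 1 / (130 * (K3 + 1)) with hκ1
  set κ2 : ℝ := A0 ^ 2 * δ1 / (260 * ρ') with hκ2
  have hκ10 : 0 < κ1 := by positivity
  have hκ20 : 0 < κ2 := by positivity
  set C1 : ℝ := c1 * D.cW * D.cA * κ1 ^ (1 / 3 : ℝ) with hC1
  set C2 : ℝ := c2 * D.cA * κ2 ^ (1 / 3 : ℝ) with hC2
  have hC10 : 0 < C1 := by positivity
  have hC20 : 0 < C2 := by positivity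
  refine ⟨min C1 C2, max K1 K2, min ε1 (min δ1 (ρ' / 16)), lt_min hC10 hC20,
    hK1.trans (le_max_left _ _), lt_min hε1 (lt_min hδ10 (by positivity)),
    (min_le_left _ _).trans hε1', ?_⟩
  intro ε x z θ1 θ2 t0 hε hεε hz hfz hKε hℓ ht1 ht2
  have hεε1 : ε ≤ ε1 := hεε.trans (min_le_left _ _)
  have hεδ1 : ε ≤ δ1 := hεε.trans ((min_le_right _ _).trans (min_le_left _ _))
  have hερ : ε ≤ ρ' / 16 := hεε.trans ((min_le_right _ _).trans (min_le_right _ _))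
  have hε0 : ε ≤ D.ε0 := hεε1.trans hε1'
  obtain ⟨-, hG2, -⟩ := D.gd ε hε hε0
  set δ := 1 - ‖z‖ with hδ
  set A := ‖z - cir t0‖ with hA
  set ℓ := θ2 - θ1 with hℓ'
  have hK1ε : K1 * ε ≤ δ := (mul_le_mul_of_nonneg_right (le_max_left _ _) hε.le).trans hKε
  have hK2ε : K2 * ε ≤ δ := (mul_le_mul_of_nonneg_right (le_max_right _ _) hε.le).trans hKε
  have hεδ : ε ≤ δ := by nlinarith
  have hδ0 : 0 < δ := hε.trans_le hεδ
  have hδA : δ ≤ A := by
    have := norm_sub_norm_le (cir t0) z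
    rw [ARM1.norm_cir, norm_sub_rev] at this
    exact this
  have hA0' : 0 < A := hδ0.trans_le hδA
  have hA2 : A ≤ 2 := by
    have := norm_sub_le z (cir t0)
    rw [ARM1.norm_cir] at this
    linarith
  have hℓ0 : 0 < ℓ := hε.trans_le hℓ
  have hX : 0 ≤ (ε / δ) ^ (5 / 48 : ℝ) := by positivity
  have hmin : 0 < min ℓ A := lt_min hℓ0 hA0'
  have hY : 0 ≤ (δ * min ℓ A / A ^ 2) ^ (1 / 3 : ℝ) := by positivity
  rcases le_total A A0 with hAs | hAl
  · -- the window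
    refine (mul_le_mul_of_nonneg_right (min_le_left C1 C2) (mul_nonneg hX hY)).trans ?_
    obtain ⟨v0, hv0, hv0', hv0W⟩ := hG2 t0
    have hB0 : Bp f ε D.ρ D.B D.α t0 v0 := ⟨hv0, hv0', hv0W⟩
    have h1 := hwin ε A x z t0 v0 hε hε0 hz hfz hK1ε hδA (by linarith) hAs hB0
    set r0 : ℤ := ⌈K3 * A / ε⌉ with hr0
    have hr01 : K3 * A ≤ ε * r0 := by
      have h1 := Int.le_ceil (K3 * A / ε)
      rw [div_le_iff₀ hε, ← hr0] at h1
      linarith
    have hr02 : ε * r0 ≤ (K3 + 1) * A := by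
      have h1 := (Int.ceil_lt_add_one (K3 * A / ε)).le
      have h2 : ε * (r0 : ℝ) ≤ ε * (K3 * A / ε + 1) := mul_le_mul_of_nonneg_left h1 hε.le
      have h3 : ε * (K3 * A / ε + 1) = K3 * A + ε := by field_simp
      linarith
    have hr00 : (0 : ℝ) < r0 := by
      have : 0 < ε * r0 := lt_of_lt_of_le (by positivity) hr01
      exact (mul_pos_iff_of_pos_left hε).mp this
    have hr00' : (0 : ℤ) < r0 := by exact_mod_cast hr00
    have hL : 128 * r0 ≤ ⌊D.ρ / ε⌋ := by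
      rw [Int.le_floor, le_div_iff₀ hε]
      push_cast
      have h1 : A * (128 * (K3 + 1)) ≤ D.ρ := by
        rw [hA0, le_div_iff₀ (by positivity)] at hAs
        exact hAs
      nlinarith
    -- the arc
    obtain ⟨a, ha⟩ : ∃ a : ℝ, a = min ℓ A / 2 := ⟨_, rfl⟩
    have haℓ : 2 * a ≤ ℓ := by rw [ha]; linarith [min_le_left ℓ A]
    have haA : 2 * a ≤ A := by rw [ha]; linarith [min_le_right ℓ A]
    have haε : ε / 2 ≤ a := by
      rw [ha]
      have : ε ≤ min ℓ A := le_min hℓ (hεδ.trans hδA)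
      linarith
    obtain ⟨t, ht⟩ : ∃ t : ℝ, t = max (θ1 + a) (min t0 (θ2 - a)) := ⟨_, rfl⟩
    have ht3 : θ1 ≤ t - a := by rw [ht]; linarith [le_max_left (θ1 + a) (min t0 (θ2 - a))]
    have ht4 : t + a ≤ θ2 := by
      have : t ≤ θ2 - a := by
        rw [ht]
        exact max_le (by linarith) (min_le_right _ _)
      linarith
    have ht5 : |t - t0| ≤ a := by
      rw [abs_le, ht]
      constructor
      · have h1 : t0 - a ≤ min t0 (θ2 - a) := le_min (by linarith) (by linarith)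
        linarith [le_max_right (θ1 + a) (min t0 (θ2 - a))]
      · have h1 : max (θ1 + a) (min t0 (θ2 - a)) ≤ t0 + a :=
          max_le (by linarith) ((min_le_left _ _).trans (by linarith))
        linarith
    have hHr : D.H * A + 4 * ε ≤ ε * r0 := by nlinarith
    have h2 := arc_arm D hε hε0 hB0 (t := t) (a := a) (m := A) (r0 := r0) (by linarith) haε
      (by linarith) hHr (by nlinarith) (by omega) (by omega)
    have h3 := (D.win (TD f ε) v0 _ hv0W r0 r0 (by omega) le_rfl (by omega)).2.2 hL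
    have i1 := Src_incr (ES (TD f ε)) (TD f ε) x (fun u => u ∈ BX v0 r0)
      (fun w => w ∉ BX v0 (64 * r0 - 1))
    have i2 := CHN.HT_incr (ES (TD f ε)) (TD f ε) v0 r0 (64 * r0)
    have i3 := near_incr (ES (TD f ε)) (near f ε (t - a) (t + a)) (TD f ε)
      (fun w => w ∉ BX v0 (64 * r0 - 1))
    have g1 := hars i1 i2 h1 h3 hcW.le
    have ha0 : 0 < a := by linarith
    have g2 := hars (and_incr i1 i2) i3 g1 h2 (by positivity)
    have g3 : Pr hf (ES (TD f ε)) (fun F => (Src (TD f ε) x (fun u => u ∈ BX v0 r0)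
        (fun w => w ∉ BX v0 (64 * r0 - 1)) F ∧ HT (TD f ε) v0 r0 (64 * r0) F) ∧
        ∃ u ∈ near f ε (t - a) (t + a), ∃ w ∈ TD f ε, w ∉ BX v0 (64 * r0 - 1) ∧
        Reach (F : Set Edg) u w) ≤
        Pr hf (ES (TD f ε)) (fun F => ∃ w ∈ near f ε θ1 θ2, Reach (F : Set Edg) x w) := by
      apply Pr_mono okh
      rintro F hF ⟨⟨hs, b, hb, -, -, hbl⟩, u, hu, w, hw, hwR, hr⟩
      have k1 := Src_blk hF hs hbl
      have k2 := CHN.meets hF hbl hu.1
        (near_box D hε hv0' (by linarith) hHr u hu) hw hwR hr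
      exact ⟨u, ALO.near_mono ht3 ht4 hu, k1.symm.trans k2⟩
    refine le_trans ?_ (g2.trans g3)
    have e1 : κ1 ^ (1 / 3 : ℝ) * (δ * min ℓ A / A ^ 2) ^ (1 / 3 : ℝ) ≤
        (δ / A) ^ (1 / 3 : ℝ) * (a / (ε * (65 * r0))) ^ (1 / 3 : ℝ) := by
      rw [← Real.mul_rpow (by positivity) (by positivity),
        ← Real.mul_rpow (by positivity) (by positivity)]
      apply Real.rpow_le_rpow (by positivity) _ (by norm_num)
      have e2 : κ1 * (δ * min ℓ A / A ^ 2) = (δ / A) * (a / (65 * ((K3 + 1) * A))) := by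
        rw [hκ1, ha]
        field_simp
        ring
      rw [e2]
      apply mul_le_mul_of_nonneg_left _ (by positivity)
      apply div_le_div_of_nonneg_left ha0.le (by positivity)
      nlinarith
    calc C1 * ((ε / δ) ^ (5 / 48 : ℝ) * (δ * min ℓ A / A ^ 2) ^ (1 / 3 : ℝ)) =
        c1 * D.cW * D.cA * (ε / δ) ^ (5 / 48 : ℝ) *
          (κ1 ^ (1 / 3 : ℝ) * (δ * min ℓ A / A ^ 2) ^ (1 / 3 : ℝ)) := by rw [hC1]; ring
      _ ≤ c1 * D.cW * D.cA * (ε / δ) ^ (5 / 48 : ℝ) *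
          ((δ / A) ^ (1 / 3 : ℝ) * (a / (ε * (65 * r0))) ^ (1 / 3 : ℝ)) :=
          mul_le_mul_of_nonneg_left e1 (by positivity)
      _ = _ := by ring
  · -- macroscopic distances
    refine (mul_le_mul_of_nonneg_right (min_le_right C1 C2) (mul_nonneg hX hY)).trans ?_
    set N : ℤ := ⌊ρ' / ε⌋ with hN
    have hN1 : ε * N ≤ ρ' := by
      have h1 := Int.floor_le (ρ' / ε)
      rw [le_div_iff₀ hε, ← hN] at h1
      linarith
    have hN2 : ρ' - ε ≤ ε * N := by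
      have h1 := (Int.lt_floor_add_one (ρ' / ε)).le
      rw [div_le_iff₀ hε, ← hN] at h1
      linarith
    have hN0 : (0 : ℝ) < N := by
      have : 0 < ε * N := by linarith
      exact (mul_pos_iff_of_pos_left hε).mp this
    have hN0' : (0 : ℤ) < N := by exact_mod_cast hN0
    have hL : 200 * N ≤ ⌊D.ρ / ε⌋ := by
      rw [Int.le_floor, le_div_iff₀ hε]
      push_cast
      rw [hρ'] at hN1
      linarith
    obtain ⟨a, ha⟩ : ∃ a : ℝ, a = min ℓ δ1 / 2 := ⟨_, rfl⟩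
    have haℓ : 2 * a ≤ ℓ := by rw [ha]; linarith [min_le_left ℓ δ1]
    have haδ : 2 * a ≤ δ1 := by rw [ha]; linarith [min_le_right ℓ δ1]
    have haε : ε / 2 ≤ a := by
      rw [ha]
      have : ε ≤ min ℓ δ1 := le_min hℓ hεδ1
      linarith
    have ha0 : 0 < a := by linarith
    obtain ⟨t, ht⟩ : ∃ t : ℝ, t = θ1 + a := ⟨_, rfl⟩
    obtain ⟨v0, hv0, hv0', hv0W⟩ := hG2 t
    have hB0 : Bp f ε D.ρ D.B D.α t v0 := ⟨hv0, hv0', hv0W⟩
    have h1 := hglob ε x z t v0 hε hεε1 hz hfz hK2ε hB0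
    have hHr : D.H * a + 4 * ε ≤ ε * N := by nlinarith
    have h2 := arc_arm D hε hε0 hB0 (t := t) (a := a) (m := a) (r0 := N) (by simp) haε
      (by linarith) hHr (by nlinarith) (by omega) (by omega)
    have i1 : IncrE (ES (TD f ε)) (fun F => ∃ b ∈ TD f ε, Reach (F : Set Edg) b x ∧
        Pool.Agent.Y989.SD.Blk (TD f ε) (fun u => u ∈ BX v0 N)
          (fun w => w ∉ BX v0 (64 * N - 1)) b F) := by
      rintro F G hFG - ⟨b, hb, h1, h2⟩
      exact ⟨b, hb, h1.mono (by exact_mod_cast hFG), ALO.Blk_mono hFG h2⟩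
    have i3 := near_incr (ES (TD f ε)) (near f ε (t - a) (t + a)) (TD f ε)
      (fun w => w ∉ BX v0 (64 * N - 1))
    have g2 := hars i1 i3 h1 h2 (by positivity)
    refine le_trans ?_ (g2.trans (Pr_mono okh (B := fun F => ∃ w ∈ near f ε θ1 θ2,
      Reach (F : Set Edg) x w) ?_))
    · have e1 : κ2 ^ (1 / 3 : ℝ) * (δ * min ℓ A / A ^ 2) ^ (1 / 3 : ℝ) ≤
          δ ^ (1 / 3 : ℝ) * (a / (ε * (65 * N))) ^ (1 / 3 : ℝ) := by
        rw [← Real.mul_rpow (by positivity) (by positivity),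
          ← Real.mul_rpow (by positivity) (by positivity)]
        apply Real.rpow_le_rpow (by positivity) _ (by norm_num)
        have e3 : min ℓ A ≤ 2 / δ1 * min ℓ δ1 := by
          rw [div_mul_eq_mul_div, le_div_iff₀ hδ10]
          rcases min_choice ℓ δ1 with h | h
          · rw [h]
            nlinarith [min_le_left ℓ A]
          · rw [h]
            nlinarith [min_le_right ℓ A]
        have e4 : min ℓ A / A ^ 2 ≤ (2 / δ1 * min ℓ δ1) / A0 ^ 2 := by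
          apply div_le_div₀ (by positivity) e3 (by positivity)
          nlinarith
        have e5 : κ2 * (δ * min ℓ A / A ^ 2) = δ * (κ2 * (min ℓ A / A ^ 2)) := by ring
        rw [e5]
        apply mul_le_mul_of_nonneg_left _ hδ0.le
        calc κ2 * (min ℓ A / A ^ 2) ≤ κ2 * ((2 / δ1 * min ℓ δ1) / A0 ^ 2) :=
              mul_le_mul_of_nonneg_left e4 hκ20.le
          _ = a / (65 * ρ') := by
              rw [hκ2, ha]
              field_simp
              ring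
          _ ≤ a / (ε * (65 * N)) := by
              apply div_le_div_of_nonneg_left ha0.le (by positivity)
              linarith
      calc C2 * ((ε / δ) ^ (5 / 48 : ℝ) * (δ * min ℓ A / A ^ 2) ^ (1 / 3 : ℝ)) =
          c2 * D.cA * (ε / δ) ^ (5 / 48 : ℝ) *
            (κ2 ^ (1 / 3 : ℝ) * (δ * min ℓ A / A ^ 2) ^ (1 / 3 : ℝ)) := by rw [hC2]; ring
        _ ≤ c2 * D.cA * (ε / δ) ^ (5 / 48 : ℝ) *
            (δ ^ (1 / 3 : ℝ) * (a / (ε * (65 * N))) ^ (1 / 3 : ℝ)) :=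
            mul_le_mul_of_nonneg_left e1 (by positivity)
        _ = _ := by ring
    · rintro F hF ⟨⟨b, hb, hbx, hbl⟩, u, hu, w, hw, hwR, hr⟩
      have k2 := CHN.meets hF hbl hu.1
        (near_box D hε hv0' (by simp) hHr u hu) hw hwR hr
      exact ⟨u, ALO.near_mono (by linarith) (by linarith) hu, hbx.symm.trans k2⟩

end Run7.h663.PA
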