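import Pool.Agent.Run7.h663.PA.Up
import Pool.Agent.Run7.h663.PA.ArcLow

/-!
Upper bound for the probability that an interior point is connected to a boundary arc.
-/

set_option autoImplicit false

namespace Run7.h663.PA

open H974 hiding Blk okhalf
open H973 hiding okhalf
open Finset
open Pool.Agent.Y989.SD
open Pool.Agent.H160R2.CV (nv P ar Far)
open Pool.Agent.H160R2.CV.Quad (bo LA)

variable {f : ℂ → ℂ}

theorem cbrt_mul_le {C a b : ℝ} (hC : 0 ≤ C) (hb : 0 ≤ b) (ha : 0 ≤ a) (h : a ≤ C * b) :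
    a ^ (1 / 3 : ℝ) ≤ C ^ (1 / 3 : ℝ) * b ^ (1 / 3 : ℝ) := by
  rw [← Real.mul_rpow hC hb]
  exact Real.rpow_le_rpow ha h (by norm_num)

/-- **Interior points.** -/
theorem up_x (D : Dom f) {κ : ℝ} (hκ : 0 < κ) (hκρ : 2 * κ ≤ D.ρ) (hκl : 4 * κ ≤ D.l)
    (hκ1 : κ ≤ 1) : ∃ C K0 : ℝ, 0 < C ∧ 1 ≤ K0 ∧
    ∀ (ε A : ℝ) (x : Vtx) (z : ℂ), 0 < ε → ε ≤ D.ε0 → ‖z‖ < 1 → f z = pos ε x →
    K0 * ε ≤ 1 - ‖z‖ → 1 - ‖z‖ ≤ A → A ≤ 2 → ∃ S : Finset Edg,
    (∀ e ∈ S, ‖pos ε (H974.src e) - f z‖ ≤ 3 * κ * A) ∧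
    ∀ E : Finset Edg → Prop, (∀ F, F ⊆ ES (TD f ε) → E F → ∃ w, 4 * κ * A ≤ ‖pos ε w - f z‖ ∧
      Reach (F : Set Edg) x w) →
    Loc (ES (TD f ε)) E S
      (C * ((ε / (1 - ‖z‖)) ^ (5 / 48 : ℝ) * ((1 - ‖z‖) / A) ^ (1 / 3 : ℝ))) := by
  have hH := D.hH
  have hl := D.hl
  have hCW := D.hCW
  obtain ⟨c0, C0, hc0, hC0, har⟩ := ar_sharp
  set K : ℝ := D.H + 5 with hK
  have hK0 : 0 < K := by linarith
  set κ0 : ℝ := κ / 4 with hκ0
  have hκ00 : 0 < κ0 := by positivity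
  set C1 : ℝ := C0 * (κ0 / 2) ^ (-(5 / 48 : ℝ)) with hC1
  have hC10 : 0 < C1 := by positivity
  set C2 : ℝ := D.CW * (2 * (K + 1) / κ) ^ (1 / 3 : ℝ) with hC2
  have hC20 : 0 < C2 := by positivity
  set C3 : ℝ := (2 * (K + 1) / κ) ^ (1 / 3 : ℝ) with hC3
  have hC30 : 0 < C3 := by positivity
  refine ⟨C1 * (C2 + C3), 1 + 2 / κ0, by positivity, ?_, ?_⟩
  · have : 0 < 2 / κ0 := by positivity
    linarith
  intro ε A x z hε hε0 hz hfz hKε hδA hA2
  obtain ⟨θ, hθ⟩ := exists_dir z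
  obtain ⟨-, hG2, -⟩ := D.gd ε hε hε0
  obtain ⟨v, hv, hv', hvW⟩ := hG2 θ
  set δ := 1 - ‖z‖ with hδ
  have hκε : 2 * ε ≤ κ0 * δ := by
    have h1 : (1 + 2 / κ0) * ε = ε + 2 / κ0 * ε := by ring
    have h2 : 2 / κ0 * ε ≤ δ := by linarith
    have h3 := mul_le_mul_of_nonneg_left h2 hκ00.le
    have h4 : κ0 * (2 / κ0 * ε) = 2 * ε := by field_simp
    linarith
  have hεδ : ε ≤ δ := by
    have h1 : (1 + 2 / κ0) * ε = ε + 2 / κ0 * ε := by ring
    have : 0 < 2 / κ0 * ε := by positivity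
    linarith
  have hδ0 : 0 < δ := hε.trans_le hεδ
  have hA0 : 0 < A := hδ0.trans_le hδA
  set n : ℕ := ⌊κ0 * δ / ε⌋₊ with hn
  have hn1 : (n : ℝ) ≤ κ0 * δ / ε := Nat.floor_le (by positivity)
  have hn2 : κ0 * δ / ε < n + 1 := Nat.lt_floor_add_one _
  rw [le_div_iff₀ hε] at hn1
  rw [div_lt_iff₀ hε] at hn2
  have hnn : 1 ≤ n := by
    rw [hn, Nat.one_le_floor_iff]
    rw [le_div_iff₀ hε]
    linarith
  have hnpos : (1 : ℝ) ≤ n := by exact_mod_cast hnn
  have hκ0κ : κ0 * δ = κ * δ / 4 := by rw [hκ0]; ring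
  have hbox : ∀ y ∈ BX x n, y ∈ TD f ε := by
    refine D.box hε hε0 hz (e := 0) (by rw [hfz, sub_self, norm_zero]) ?_
    have h1 : 4 * κ * δ ≤ D.l * δ := mul_le_mul_of_nonneg_right hκl hδ0.le
    have h2 : 0 < κ * δ := by positivity
    linarith
  have harn : ar n ≤ C1 * (ε / δ) ^ (5 / 48 : ℝ) := by
    refine (har n hnn).2.trans ?_
    rw [hC1, mul_assoc]
    apply mul_le_mul_of_nonneg_left _ hC0.le
    have h1 : (κ0 / 2) ^ (-(5 / 48 : ℝ)) * (ε / δ) ^ (5 / 48 : ℝ) =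
        (κ0 / 2 * (δ / ε)) ^ (-(5 / 48 : ℝ)) := by
      rw [Real.mul_rpow (x := κ0 / 2) (by positivity) (by positivity), rpow_inv_eq hδ0 hε]
    rw [h1]
    refine Real.rpow_le_rpow_of_nonpos (by positivity) ?_ (by norm_num)
    have h2 : κ0 / 2 * (δ / ε) = κ0 * δ / 2 / ε := by ring
    rw [h2, div_le_iff₀ hε]
    nlinarith
  have hp1 : 0 ≤ (ε / δ) ^ (5 / 48 : ℝ) := by positivity
  have hp2 : 0 ≤ (δ / A) ^ (1 / 3 : ℝ) := by positivity
  set r : ℤ := ⌈K * δ / ε⌉ with hr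
  set R : ℤ := ⌊κ * A / ε⌋ with hR
  have hr1 : K * δ ≤ ε * r := by
    have h1 := Int.le_ceil (K * δ / ε)
    rw [div_le_iff₀ hε, ← hr] at h1
    linarith
  have hr2 : ε * r ≤ (K + 1) * δ := by
    have h1 := (Int.ceil_lt_add_one (K * δ / ε)).le
    have h2 : ε * (r : ℝ) ≤ ε * (K * δ / ε + 1) := mul_le_mul_of_nonneg_left h1 hε.le
    have h3 : ε * (K * δ / ε + 1) = K * δ + ε := by field_simp
    linarith
  have hR1 : ε * R ≤ κ * A := by
    have h1 := Int.floor_le (κ * A / ε)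
    rw [le_div_iff₀ hε, ← hR] at h1
    linarith
  have hR2 : κ * A - ε ≤ ε * R := by
    have h1 := (Int.lt_floor_add_one (κ * A / ε)).le
    rw [div_le_iff₀ hε, ← hR] at h1
    linarith
  have hvz : ‖pos ε v - f z‖ ≤ D.H * δ + 2 * ε := by
    have h1 : pos ε v - f z = (pos ε v - f (cir θ)) + -(f z - f (cir θ)) := by ring
    rw [h1]
    refine (norm_add_le _ _).trans ?_
    rw [norm_neg]
    have h2 := (D.lip z (disc_of hz.le) (cir θ) (ARM1.cir_mem θ)).2
    rw [dir_dist hz.le hθ] at h2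
    linarith
  by_cases hc : (K + 1) * δ ≤ κ * A / 2
  · -- the annulus
    have hrR : r ≤ R := by
      have h1 : ε * (r : ℝ) ≤ ε * R := by
        have : κ * δ ≤ κ * A := mul_le_mul_of_nonneg_left hδA hκ.le
        nlinarith
      exact_mod_cast le_of_mul_le_mul_left h1 hε
    have hxv : ∀ y ∈ BX x n, y ∈ BX v r := by
      intro y hy
      apply ALO.mem_BX_of hε
      have h1 := ARM1.norm_pos_sub hε hy
      push_cast at h1
      have h2 : pos ε y - pos ε v = (pos ε y - pos ε x) + -(pos ε v - f z) := by rw [← hfz]; ring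
      rw [h2]
      refine (norm_add_le _ _).trans ?_
      rw [norm_neg]
      have h3 : K * δ = D.H * δ + 5 * δ := by rw [hK]; ring
      have h4 : κ * δ ≤ 1 * δ := mul_le_mul_of_nonneg_right hκ1 hδ0.le
      linarith
    have hr0 : (0 : ℝ) < r := by
      have : 0 < ε * r := lt_of_lt_of_le (by positivity) hr1
      exact (mul_pos_iff_of_pos_left hε).mp this
    have hR0 : (0 : ℝ) < R := lt_of_lt_of_le hr0 (by exact_mod_cast hrR)
    have hRL : R ≤ ⌊D.ρ / ε⌋ := by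
      rw [Int.le_floor, le_div_iff₀ hε]
      have : κ * A ≤ κ * 2 := mul_le_mul_of_nonneg_left hA2 hκ.le
      linarith
    have hq := (D.win (TD f ε) v _ hvW r R (by exact_mod_cast hr0) hrR hRL).1
    have hq2 : D.CW * ((r : ℝ) / R) ^ (1 / 3 : ℝ) ≤ C2 * (δ / A) ^ (1 / 3 : ℝ) := by
      rw [hC2, mul_assoc]
      apply mul_le_mul_of_nonneg_left _ hCW.le
      refine cbrt_mul_le (by positivity) (by positivity) (by positivity) ?_
      rw [div_le_iff₀ hR0]
      have h1 : κ * A / 2 ≤ ε * R := by nlinarith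
      have h2 : 2 * (K + 1) / κ * (δ / A) * R = (2 * (K + 1) * δ / (κ * A)) * R := by
        field_simp
      rw [h2, div_mul_eq_mul_div, le_div_iff₀ (by positivity)]
      have h3 : (r : ℝ) * (κ * A / 2) ≤ r * (ε * R) := mul_le_mul_of_nonneg_left h1 hr0.le
      have h4 : ε * r * R ≤ (K + 1) * δ * R := mul_le_mul_of_nonneg_right hr2 hR0.le
      nlinarith
    have hvz2 : ‖pos ε v - f z‖ ≤ κ * A := by
      refine hvz.trans ?_
      have : (K + 1) * δ = D.H * δ + 6 * δ := by rw [hK]; ring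
      nlinarith
    refine ⟨ES (TD f ε ∩ BX v R), ?_, ?_⟩
    · intro e he
      rw [mem_ES, Finset.mem_inter] at he
      have h1 := ARM1.norm_pos_sub hε he.1.2
      have h2 : pos ε (H974.src e) - f z = (pos ε (H974.src e) - pos ε v) + (pos ε v - f z) := by ring
      rw [h2]
      refine (norm_add_le _ _).trans ?_
      linarith
    · intro E hE
      have h1 := loc_src hbox hxv hrR (hq.trans hq2) (A := E) (by
        intro F hF hEF
        obtain ⟨w, hw, hr⟩ := hE F hF hEF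
        refine ⟨w, fun hwB => ?_, hr⟩
        have h1 := ARM1.norm_pos_sub hε hwB
        push_cast at h1
        have h2 : pos ε w - f z = (pos ε w - pos ε v) + (pos ε v - f z) := by ring
        have h3 := norm_add_le (pos ε w - pos ε v) (pos ε v - f z)
        rw [← h2] at h3
        have : 0 < κ * A := by positivity
        nlinarith)
      obtain ⟨h2, G, h3, h4⟩ := h1
      refine ⟨h2, G, h3.trans ?_, h4⟩
      calc ar n * (C2 * (δ / A) ^ (1 / 3 : ℝ)) ≤
            (C1 * (ε / δ) ^ (5 / 48 : ℝ)) * (C2 * (δ / A) ^ (1 / 3 : ℝ)) :=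
            mul_le_mul_of_nonneg_right harn (by positivity)
        _ = C1 * C2 * ((ε / δ) ^ (5 / 48 : ℝ) * (δ / A) ^ (1 / 3 : ℝ)) := by ring
        _ ≤ C1 * (C2 + C3) * ((ε / δ) ^ (5 / 48 : ℝ) * (δ / A) ^ (1 / 3 : ℝ)) := by
            apply mul_le_mul_of_nonneg_right _ (by positivity)
            apply mul_le_mul_of_nonneg_left _ hC10.le
            linarith
  · -- the small box
    push Not at hc
    refine ⟨bo x n, ?_, ?_⟩
    · intro e he
      rw [bo_eq, mem_ES] at he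
      have h1 := ARM1.norm_pos_sub hε he.1
      push_cast at h1
      rw [hfz]
      have : κ * δ ≤ κ * A := mul_le_mul_of_nonneg_left hδA hκ.le
      have : 0 < κ * A := by positivity
      linarith
    · intro E hE
      have h1 := loc_arm hbox (A := E) (by
        intro F hF hEF
        obtain ⟨w, hw, hr⟩ := hE F hF hEF
        refine ⟨w, ?_, hr⟩
        by_contra hcon
        push Not at hcon
        have h1 := ARM1.norm_pos_sub hε (mem_BX_nv.mpr hcon.le)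
        push_cast at h1
        rw [hfz] at hw
        have : κ * δ ≤ κ * A := mul_le_mul_of_nonneg_left hδA hκ.le
        have : 0 < κ * A := by positivity
        linarith)
      obtain ⟨h2, G, h3, h4⟩ := h1
      refine ⟨h2, G, h3.trans ?_, h4⟩
      have h5 : (1 : ℝ) ≤ C3 * (δ / A) ^ (1 / 3 : ℝ) := by
        have h6 := cbrt_mul_le (C := 2 * (K + 1) / κ) (a := 1) (b := δ / A) (by positivity)
          (by positivity) (by norm_num) (by
            rw [div_mul_div_comm, le_div_iff₀ (by positivity)]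
            linarith)
        rwa [Real.one_rpow] at h6
      calc ar n ≤ (C1 * (ε / δ) ^ (5 / 48 : ℝ)) * 1 := by rw [mul_one]; exact harn
        _ ≤ (C1 * (ε / δ) ^ (5 / 48 : ℝ)) * (C3 * (δ / A) ^ (1 / 3 : ℝ)) :=
            mul_le_mul_of_nonneg_left h5 (by positivity)
        _ = C1 * C3 * ((ε / δ) ^ (5 / 48 : ℝ) * (δ / A) ^ (1 / 3 : ℝ)) := by ring
        _ ≤ C1 * (C2 + C3) * ((ε / δ) ^ (5 / 48 : ℝ) * (δ / A) ^ (1 / 3 : ℝ)) := by
            apply mul_le_mul_of_nonneg_right _ (by positivity)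
            apply mul_le_mul_of_nonneg_left _ hC10.le
            linarith

/-- **The upper bound.** -/
theorem arc_up (D : Dom f) : ∃ C K0 : ℝ, 0 < C ∧ 1 ≤ K0 ∧
    ∀ (ε : ℝ) (x : Vtx) (z : ℂ) (θ1 θ2 t0 : ℝ), 0 < ε → ε ≤ D.ε0 → ‖z‖ < 1 → f z = pos ε x →
    K0 * ε ≤ 1 - ‖z‖ → ε ≤ θ2 - θ1 → θ1 ≤ t0 → t0 ≤ θ2 →
    (∀ t, θ1 ≤ t → t ≤ θ2 → ‖z - cir t0‖ ≤ ‖z - cir t‖) →
    Pr hf (ES (TD f ε)) (fun F => ∃ w ∈ near f ε θ1 θ2, Reach (F : Set Edg) x w) ≤
    C * ((ε / (1 - ‖z‖)) ^ (5 / 48 : ℝ) *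
      ((1 - ‖z‖) * min (θ2 - θ1) ‖z - cir t0‖ / ‖z - cir t0‖ ^ 2) ^ (1 / 3 : ℝ)) := by
  have hH := D.hH
  have hl := D.hl
  have hρ := D.hρ
  have hCW := D.hCW
  set κ : ℝ := min (D.l / 8) (min (D.ρ / 2) 1) with hκ
  have hκ0 : 0 < κ := lt_min (by positivity) (lt_min (by positivity) one_pos)
  have hκl : 8 * κ ≤ D.l := by
    have : κ ≤ D.l / 8 := min_le_left _ _
    linarith
  have hκρ : 2 * κ ≤ D.ρ := by
    have : κ ≤ D.ρ / 2 := (min_le_right _ _).trans (min_le_left _ _)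
    linarith
  have hκ1 : κ ≤ 1 := (min_le_right _ _).trans (min_le_right _ _)
  obtain ⟨C1, K1, hC1, hK1, hup⟩ := up_x D hκ0 hκρ (by linarith) hκ1
  set K : ℝ := D.H + 4 with hK
  have hK0 : 0 < K := by linarith
  set C2 : ℝ := D.CW * (2 * (K + 1) / κ) ^ (1 / 3 : ℝ) with hC2
  have hC20 : 0 < C2 := by positivity
  set C3 : ℝ := (1 + 2 * (K + 1) / κ) ^ (1 / 3 : ℝ) with hC3
  have hC30 : 0 < C3 := by positivity
  refine ⟨C1 * (C2 + C3), K1 + 2 / κ, by positivity, by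
    have : 0 < 2 / κ := by positivity
    linarith, ?_⟩
  intro ε x z θ1 θ2 t0 hε hε0 hz hfz hKε hℓ ht1 ht2 hmin
  obtain ⟨-, hG2, -⟩ := D.gd ε hε hε0
  set δ := 1 - ‖z‖ with hδ
  set A := ‖z - cir t0‖ with hA
  set ℓ := θ2 - θ1 with hℓ'
  have hK1ε : K1 * ε ≤ δ := by
    have : 0 < 2 / κ * ε := by positivity
    nlinarith
  have hκε : 2 * ε ≤ κ * δ := by
    have h0 : 0 < K1 * ε := by positivity
    have h2 : 2 / κ * ε ≤ δ := by nlinarith
    have h3 := mul_le_mul_of_nonneg_left h2 hκ0.le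
    have h4 : κ * (2 / κ * ε) = 2 * ε := by field_simp
    linarith
  have hεδ : ε ≤ δ := by nlinarith
  have hδ0 : 0 < δ := hε.trans_le hεδ
  have hδA : δ ≤ A := by
    have := norm_sub_norm_le (cir t0) z
    rw [ARM1.norm_cir, norm_sub_rev] at this
    exact this
  have hA0' : 0 < A := hδ0.trans_le hδA
  have hA2 : A ≤ 2 := by
    have := norm_sub_le z (cir t0)
    rw [ARM1.norm_cir] at this
    linarith
  have hκA : κ * δ ≤ κ * A := mul_le_mul_of_nonneg_left hδA hκ0.le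
  have hκlA : 8 * κ * A ≤ D.l * A := mul_le_mul_of_nonneg_right hκl hA0'.le
  have hκA0 : 0 < κ * A := by positivity
  have hℓ0 : 0 < ℓ := hε.trans_le hℓ
  have hX : 0 ≤ (ε / δ) ^ (5 / 48 : ℝ) := by positivity
  have hminp : 0 < min ℓ A := lt_min hℓ0 hA0'
  obtain ⟨S, hS, hloc⟩ := hup ε A x z hε hε0 hz hfz hK1ε hδA hA2
  have hfar : ∀ w ∈ near f ε θ1 θ2, 4 * κ * A ≤ ‖pos ε w - f z‖ := by
    rintro w ⟨-, t, h1, h2, h3⟩
    have h4 := (D.lip z (disc_of hz.le) (cir t) (ARM1.cir_mem t)).1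
    have h5 := mul_le_mul_of_nonneg_left (hmin t h1 h2) hl.le
    have h6 : f z - f (cir t) = (pos ε w - f (cir t)) + -(pos ε w - f z) := by ring
    have h7 := norm_add_le (pos ε w - f (cir t)) (-(pos ε w - f z))
    rw [← h6, norm_neg] at h7
    linarith
  have h1 := hloc (fun F => ∃ w ∈ near f ε θ1 θ2, Reach (F : Set Edg) x w) (by
    rintro F hF ⟨w, hw, hr⟩
    exact ⟨w, hfar w hw, hr⟩)
  have e0 : (δ * min ℓ A / A ^ 2) ^ (1 / 3 : ℝ) =
      (δ / A) ^ (1 / 3 : ℝ) * (min ℓ A / A) ^ (1 / 3 : ℝ) := by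
    rw [← Real.mul_rpow (by positivity) (by positivity)]
    congr 1
    field_simp
  rw [e0]
  have hp2 : 0 ≤ (δ / A) ^ (1 / 3 : ℝ) := by positivity
  have hp3 : 0 ≤ (min ℓ A / A) ^ (1 / 3 : ℝ) := by positivity
  by_cases hc : (K + 1) * ℓ ≤ κ * A / 2
  · -- a small arc
    obtain ⟨v, hv, hv', hvW⟩ := hG2 t0
    set r : ℤ := ⌈K * ℓ / ε⌉ with hr
    set R : ℤ := ⌊κ * A / ε⌋ with hR
    have hr1 : K * ℓ ≤ ε * r := by
      have h1 := Int.le_ceil (K * ℓ / ε)
      rw [div_le_iff₀ hε, ← hr] at h1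
      linarith
    have hr2 : ε * r ≤ (K + 1) * ℓ := by
      have h1 := (Int.ceil_lt_add_one (K * ℓ / ε)).le
      have h2 : ε * (r : ℝ) ≤ ε * (K * ℓ / ε + 1) := mul_le_mul_of_nonneg_left h1 hε.le
      have h3 : ε * (K * ℓ / ε + 1) = K * ℓ + ε := by field_simp
      linarith
    have hR1 : ε * R ≤ κ * A := by
      have h1 := Int.floor_le (κ * A / ε)
      rw [le_div_iff₀ hε, ← hR] at h1
      linarith
    have hR2 : κ * A - ε ≤ ε * R := by
      have h1 := (Int.lt_floor_add_one (κ * A / ε)).le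
      rw [div_le_iff₀ hε, ← hR] at h1
      linarith
    have hrR : r ≤ R := by
      have h1 : ε * (r : ℝ) ≤ ε * R := by linarith
      exact_mod_cast le_of_mul_le_mul_left h1 hε
    have hr0 : (0 : ℝ) < r := by
      have : 0 < ε * r := lt_of_lt_of_le (by positivity) hr1
      exact (mul_pos_iff_of_pos_left hε).mp this
    have hR0 : (0 : ℝ) < R := lt_of_lt_of_le hr0 (by exact_mod_cast hrR)
    have hRL : R ≤ ⌊D.ρ / ε⌋ := by
      rw [Int.le_floor, le_div_iff₀ hε]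
      have : κ * A ≤ κ * 2 := mul_le_mul_of_nonneg_left hA2 hκ0.le
      linarith
    have hq := (D.win (TD f ε) v _ hvW r R (by exact_mod_cast hr0) hrR hRL).1
    have hℓA : ℓ ≤ A := by
      have : κ * A ≤ 1 * A := mul_le_mul_of_nonneg_right hκ1 hA0'.le
      nlinarith
    have hq2 : D.CW * ((r : ℝ) / R) ^ (1 / 3 : ℝ) ≤ C2 * (min ℓ A / A) ^ (1 / 3 : ℝ) := by
      rw [hC2, mul_assoc, min_eq_left hℓA]
      apply mul_le_mul_of_nonneg_left _ hCW.le
      refine cbrt_mul_le (by positivity) (by positivity) (by positivity) ?_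
      rw [div_le_iff₀ hR0]
      have h1 : κ * A / 2 ≤ ε * R := by linarith
      have h2 : 2 * (K + 1) / κ * (ℓ / A) * R = (2 * (K + 1) * ℓ / (κ * A)) * R := by
        field_simp
      rw [h2, div_mul_eq_mul_div, le_div_iff₀ (by positivity)]
      have h3 : (r : ℝ) * (κ * A / 2) ≤ r * (ε * R) := mul_le_mul_of_nonneg_left h1 hr0.le
      have h4 : ε * r * R ≤ (K + 1) * ℓ * R := mul_le_mul_of_nonneg_right hr2 hR0.le
      linarith
    have hbox : ∀ u ∈ near f ε θ1 θ2, u ∈ TD f ε ∧ u ∈ BX v r := by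
      intro u hu
      refine ⟨hu.1, ?_⟩
      refine near_box D hε hv' (t := (θ1 + θ2) / 2) (a := ℓ / 2) (m := ℓ) ?_ ?_ u ?_
      · have : |(θ1 + θ2) / 2 - t0| ≤ ℓ / 2 := by
          rw [abs_le]
          constructor <;> linarith
        linarith
      · have : K * ℓ = D.H * ℓ + 4 * ℓ := by rw [hK]; ring
        linarith
      · have e1 : (θ1 + θ2) / 2 - ℓ / 2 = θ1 := by rw [hℓ']; ring
        have e2 : (θ1 + θ2) / 2 + ℓ / 2 = θ2 := by rw [hℓ']; ring
        rw [e1, e2]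
        exact hu
    have hxf : D.l * A ≤ ‖f z - f (cir t0)‖ := (D.lip z (disc_of hz.le) _ (ARM1.cir_mem t0)).1
    have h2 : Loc (ES (TD f ε)) (fun F => ∃ w ∈ near f ε θ1 θ2, Reach (F : Set Edg) x w)
        (ES (TD f ε ∩ BX v R)) (C2 * (min ℓ A / A) ^ (1 / 3 : ℝ)) := by
      refine loc_XT hrR (hq.trans hq2) ?_
      rintro F hF ⟨w, hw, hr⟩
      refine ⟨w, (hbox w hw).1, (hbox w hw).2, x, fun hx => ?_, hr.symm⟩
      have h3 := ARM1.norm_pos_sub hε hx
      push_cast at h3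
      rw [hfz] at hxf
      have h4 : pos ε x - f (cir t0) = (pos ε x - pos ε v) + (pos ε v - f (cir t0)) := by ring
      have h5 := norm_add_le (pos ε x - pos ε v) (pos ε v - f (cir t0))
      rw [← h4] at h5
      linarith
    have hd : Disjoint S (ES (TD f ε ∩ BX v R)) := by
      rw [Finset.disjoint_left]
      intro e he he'
      rw [mem_ES, Finset.mem_inter] at he'
      have h3 := ARM1.norm_pos_sub hε he'.1.2
      have h4 := hS e he
      have h5 : f z - f (cir t0) = -(pos ε (H974.src e) - f z) + (pos ε (H974.src e) - pos ε v) +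
        (pos ε v - f (cir t0)) := by ring
      have h6 := norm_add₃_le (a := -(pos ε (H974.src e) - f z)) (b := pos ε (H974.src e) - pos ε v)
        (c := pos ε v - f (cir t0))
      rw [← h5, norm_neg] at h6
      linarith
    refine (Loc.two hd h1 h2 (by positivity)).trans ?_
    calc C1 * ((ε / δ) ^ (5 / 48 : ℝ) * (δ / A) ^ (1 / 3 : ℝ)) *
          (C2 * (min ℓ A / A) ^ (1 / 3 : ℝ)) =
          C1 * C2 * ((ε / δ) ^ (5 / 48 : ℝ) * ((δ / A) ^ (1 / 3 : ℝ) *
            (min ℓ A / A) ^ (1 / 3 : ℝ))) := by ring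
      _ ≤ _ := by
          apply mul_le_mul_of_nonneg_right _ (by positivity)
          apply mul_le_mul_of_nonneg_left _ hC1.le
          linarith
  · push Not at hc
    refine h1.le.trans ?_
    have h5 : (1 : ℝ) ≤ C3 * (min ℓ A / A) ^ (1 / 3 : ℝ) := by
      have h6 := cbrt_mul_le (C := 1 + 2 * (K + 1) / κ) (a := 1) (b := min ℓ A / A)
        (by positivity) (by positivity) (by norm_num) (by
          rcases min_choice ℓ A with h | h
          · rw [h]
            have h7 : (1 + 2 * (K + 1) / κ) * (ℓ / A) =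
              (κ + 2 * (K + 1)) * ℓ / (κ * A) := by field_simp
            rw [h7, le_div_iff₀ (by positivity)]
            have : 0 < κ * ℓ := by positivity
            linarith
          · rw [h, div_self hA0'.ne', mul_one]
            have : 0 < 2 * (K + 1) / κ := by positivity
            linarith)
      rwa [Real.one_rpow] at h6
    calc C1 * ((ε / δ) ^ (5 / 48 : ℝ) * (δ / A) ^ (1 / 3 : ℝ)) =
          C1 * ((ε / δ) ^ (5 / 48 : ℝ) * (δ / A) ^ (1 / 3 : ℝ)) * 1 := by ring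
      _ ≤ C1 * ((ε / δ) ^ (5 / 48 : ℝ) * (δ / A) ^ (1 / 3 : ℝ)) *
          (C3 * (min ℓ A / A) ^ (1 / 3 : ℝ)) :=
          mul_le_mul_of_nonneg_left h5 (by positivity)
      _ = C1 * C3 * ((ε / δ) ^ (5 / 48 : ℝ) * ((δ / A) ^ (1 / 3 : ℝ) *
            (min ℓ A / A) ^ (1 / 3 : ℝ))) := by ring
      _ ≤ _ := by
          apply mul_le_mul_of_nonneg_right _ (by positivity)
          apply mul_le_mul_of_nonneg_left _ hC1.le
          linarith

end Run7.h663.PA
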