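import Pool.Agent.Run7.h663.PA.Src
import Pool.Agent.H160R2.SA.Arm
import Pool.Agent.Y989.SD.Fin

/-!
Interior points of smooth lattice domains: geometry, and the arms of interior points.
-/

set_option autoImplicit false

namespace Run7.h663.PA

open H974 hiding Blk
open H973 Finset
open Pool.Agent.Y989.SD
open Pool.Agent.H160R2.CV (nv P ar Far)
open Pool.Agent.H160R2.CV.Quad (bo)

/-- The constants of a domain, with the estimates known for it. -/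
structure Dom (f : ℂ → ℂ) where
  l : ℝ
  H : ℝ
  ρ : ℝ
  B : ℝ
  α : ℝ
  ε0 : ℝ
  cA : ℝ
  cC : ℝ
  cW : ℝ
  CW : ℝ
  hl : 0 < l
  hH : 0 < H
  hρ : 0 < ρ
  hα : 0 < α
  he : 0 < ε0
  hcA : 0 < cA
  hcC : 0 < cC
  hcW : 0 < cW
  hCW : 0 < CW
  lip : ∀ z ∈ disc, ∀ w ∈ disc, l * ‖z - w‖ ≤ ‖f z - f w‖ ∧ ‖f z - f w‖ ≤ H * ‖z - w‖
  cpt : IsCompact (f '' disc)
  int : ∀ w, ‖w‖ < 1 → f w ∈ interior (f '' disc)
  gd : ∀ ε : ℝ, 0 < ε → ε ≤ ε0 → GDc f ε ρ B α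
  arm : ALO.Arm f ρ B α ε0 cA
  chn : ALO.Chn f ρ B α ε0 (ρ / 200) cC
  win : ∀ (T : Finset Vtx) (v : Vtx) (L : ℤ), Win T v L B α → ∀ r R : ℤ, 1 ≤ r → r ≤ R → R ≤ L →
    Pr hf (ES T) (XT T v r R) ≤ CW * ((r : ℝ) / R) ^ (1 / 3 : ℝ) ∧
    cW * ((r : ℝ) / R) ^ (1 / 3 : ℝ) ≤ Pr hf (ES T) (XT T v r R) ∧
    (128 * r ≤ L → cW ≤ Pr hf (ES T) (HT T v r (64 * r)))

theorem dom_of {f : ℂ → ℂ} (h : Smooth f) : Nonempty (Dom f) := by
  obtain ⟨g, M, α, hS⟩ := h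
  obtain ⟨l, H, hl, hH, hlip, -, -, hcpt, hint⟩ := m_GA f g M α hS
  obtain ⟨ρ, B, ε0, hρ, hε0, hG⟩ := m_GD f g M α hS
  have hG' : ∀ ε : ℝ, 0 < ε → ε ≤ ε0 → GDc f ε ρ B α := hG
  obtain ⟨cW, CW, hcW, hCW, hW⟩ := m_WIN B α hS.al0
  obtain ⟨cA, hcA, hA⟩ := m_ARM1 f g M α hS ρ B ε0 hρ hε0 hG'
  obtain ⟨cC, ε1, hcC, hε1, hC⟩ := m_CHN f g M α hS ρ B ε0 hρ hε0 hG' (ρ / 200) (by positivity)
    (by linarith)
  refine ⟨⟨l, H, ρ, B, α, min ε0 ε1, cA, cC, cW, CW, hl, hH, hρ, hS.al0, lt_min hε0 hε1, hcA, hcC,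
    hcW, hCW, hlip, hcpt, hint, ?_, ?_, ?_, ?_⟩⟩
  · exact fun ε h1 h2 => hG' ε h1 (h2.trans (min_le_left _ _))
  · exact fun ε h1 h2 => hA ε h1 (h2.trans (min_le_left _ _))
  · exact fun ε h1 h2 => hC ε h1 (h2.trans (min_le_right _ _))
  · intro T v L hw r R hr hrR hRL
    obtain ⟨h1, h2, -, -⟩ := hW T v L hw r R hr hrR hRL
    exact ⟨h1, h2, fun h3 => (hW T v L hw r r hr le_rfl (by omega)).2.2.2 h3⟩

variable {f : ℂ → ℂ}

theorem disc_of {z : ℂ} (hz : ‖z‖ ≤ 1) : z ∈ disc := mem_disc.mpr hz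

theorem Dom.ball (D : Dom f) {z p : ℂ} (hz : ‖z‖ < 1) (hp : ‖p - f z‖ < D.l * (1 - ‖z‖)) :
    p ∈ f '' disc := by
  by_contra hc
  obtain ⟨θ, hθ⟩ := GD.seg D.cpt D.int ⟨z, disc_of hz.le, rfl⟩ hc
  have h1 := (D.lip z (disc_of hz.le) (cir θ) (ARM1.cir_mem θ)).1
  have h2 : 1 - ‖z‖ ≤ ‖z - cir θ‖ := by
    have := norm_sub_norm_le (cir θ) z
    rw [ARM1.norm_cir, norm_sub_rev] at this
    exact this
  have h3 := mul_le_mul_of_nonneg_left h2 D.hl.le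
  linarith

theorem Dom.box (D : Dom f) {ε e : ℝ} (hε : 0 < ε) (hε0 : ε ≤ D.ε0) {z : ℂ} (hz : ‖z‖ < 1)
    {q : Vtx} {n : ℕ} (hq : ‖pos ε q - f z‖ ≤ e) (hn : 2 * n * ε + e < D.l * (1 - ‖z‖)) :
    ∀ y ∈ BX q n, y ∈ TD f ε := by
  intro y hy
  refine ((D.gd ε hε hε0).1 y).mpr (D.ball hz ?_)
  have h1 := ARM1.norm_pos_sub hε hy
  have h2 : pos ε y - f z = (pos ε y - pos ε q) + (pos ε q - f z) := by ring
  rw [h2]
  push_cast at h1
  linarith [norm_add_le (pos ε y - pos ε q) (pos ε q - f z)]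

theorem exists_dir (z : ℂ) : ∃ θ : ℝ, z = (‖z‖ : ℂ) * cir θ := by
  refine ⟨Complex.arg z, ?_⟩
  unfold cir
  exact (Complex.norm_mul_exp_arg_mul_I z).symm

theorem exists_round {ε : ℝ} (hε : 0 < ε) (w : ℂ) : ∃ q : Vtx, ‖pos ε q - w‖ ≤ ε := by
  refine ⟨(round (w.re / ε), round (w.im / ε)), ?_⟩
  have key : ∀ a : ℝ, |ε * (round (a / ε) : ℝ) - a| ≤ ε / 2 := by
    intro a
    have h := abs_sub_round (a / ε)
    have h2 : ε * (round (a / ε) : ℝ) - a = -(ε * (a / ε - round (a / ε))) := by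
      field_simp
      ring
    rw [h2, abs_neg, abs_mul, abs_of_pos hε]
    nlinarith
  refine (Complex.norm_le_abs_re_add_abs_im _).trans ?_
  have h1 : (pos ε (round (w.re / ε), round (w.im / ε)) - w).re =
    ε * (round (w.re / ε) : ℝ) - w.re := rfl
  have h2 : (pos ε (round (w.re / ε), round (w.im / ε)) - w).im =
    ε * (round (w.im / ε) : ℝ) - w.im := rfl
  rw [h1, h2]
  linarith [key w.re, key w.im]

theorem norm_smul_cir {s : ℝ} (hs : 0 ≤ s) (θ : ℝ) : ‖(s : ℂ) * cir θ‖ = s := by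
  rw [norm_mul, ARM1.norm_cir, mul_one, Complex.norm_real, Real.norm_eq_abs, abs_of_nonneg hs]

theorem norm_sub_cir {s t : ℝ} (θ : ℝ) : ‖(s : ℂ) * cir θ - (t : ℂ) * cir θ‖ = |s - t| := by
  rw [← sub_mul, norm_mul, ARM1.norm_cir, mul_one, ← Complex.ofReal_sub, Complex.norm_real,
    Real.norm_eq_abs]

theorem ar_sharp : ∃ c C : ℝ, 0 < c ∧ 0 < C ∧ ∀ n : ℕ, 1 ≤ n →
    c * (n : ℝ) ^ (-(5 / 48 : ℝ)) ≤ ar n ∧ ar n ≤ C * (n : ℝ) ^ (-(5 / 48 : ℝ)) :=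
  Pool.Agent.H160R2.SA.arSharp

theorem rpow_inv_eq {x y p : ℝ} (hx : 0 < x) (hy : 0 < y) : (x / y) ^ (-p) = (y / x) ^ p := by
  rw [Real.rpow_neg (by positivity), ← Real.inv_rpow (by positivity), inv_div]

theorem nv_le_of {ε a : ℝ} (hε : 0 < ε) {u v : Vtx} {n : ℕ} (h : ‖pos ε u - pos ε v‖ ≤ a)
    (hn : a ≤ ε * n) : nv (u - v) ≤ n := by
  rw [← mem_BX_nv]
  apply ALO.mem_BX_of hε
  push_cast
  exact h.trans hn

/-- **Arms of interior points.** -/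
theorem arm_all (D : Dom f) {δs : ℝ} (hδs : 0 < δs) {K2 : ℝ} (hK2 : K2 = D.H + 5) :
    ∃ c K0 : ℝ, 0 < c ∧ 1 ≤ K0 ∧ ∀ (ε : ℝ) (x : Vtx) (z : ℂ) (θ δ : ℝ) (v : Vtx), 0 < ε → ε ≤ D.ε0 → ‖z‖ < 1 →
    f z = pos ε x → δ = min (1 - ‖z‖) δs → K0 * ε ≤ δ → z = (‖z‖ : ℂ) * cir θ →
    Bp f ε D.ρ D.B D.α θ v → ∀ R : ℤ, 64 * ⌈K2 * δ / ε⌉ ≤ R → 128 * ⌈K2 * δ / ε⌉ ≤ ⌊D.ρ / ε⌋ →
    R ≤ ⌊D.ρ / ε⌋ →
    c * ((ε / δ) ^ (5 / 48 : ℝ) * (δ / (ε * R)) ^ (1 / 3 : ℝ)) ≤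
      Pr hf (ES (TD f ε)) (Src (TD f ε) x (fun u => u ∈ BX v ⌈K2 * δ / ε⌉)
        (fun w => w ∉ BX v (R - 1))) := by
  have hl := D.hl
  have hH := D.hH
  obtain ⟨c0, C0, hc0, -, har⟩ := ar_sharp
  set κ : ℝ := min (D.l / 32) 1 with hκ
  have hκ0 : 0 < κ := lt_min (by positivity) one_pos
  have hκ1 : κ ≤ 1 := min_le_right _ _
  have hκl : κ ≤ D.l / 32 := min_le_left _ _
  have hK21 : 1 ≤ K2 := by linarith
  obtain ⟨M, hM⟩ := exists_nat_gt (8 * D.H / (κ * δs))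
  have hM0 : 0 < (M : ℝ) := lt_of_le_of_lt (by positivity) hM
  obtain ⟨K, hK⟩ := exists_nat_gt (2 * (K2 + 1) / κ)
  obtain ⟨c1, hc1, hsrc⟩ := src (B := D.B) D.hα K M
  set K0 : ℝ := 1 + 16 / κ with hK0
  have hK01 : 1 ≤ K0 := by
    have : 0 < 16 / κ := by positivity
    linarith
  refine ⟨c1 * c0 * (3 * κ) ^ (-(5 / 48 : ℝ)), K0, by positivity, hK01, ?_⟩
  intro ε x z θ δ v hε hεε0 hz hfz hδ hK0ε hzθ hBp R hR64 hR128 hRL
  have hδ1 : δ ≤ 1 - ‖z‖ := by rw [hδ]; exact min_le_left _ _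
  have hδ2 : δ ≤ δs := by rw [hδ]; exact min_le_right _ _
  have hεδ : ε ≤ δ := by nlinarith
  have hδ0 : 0 < δ := hε.trans_le hεδ
  have hκε : 16 * ε ≤ κ * δ := by
    have h1 : 16 / κ * ε ≤ δ := by
      have : K0 * ε = ε + 16 / κ * ε := by rw [hK0]; ring
      linarith
    have h2 := mul_le_mul_of_nonneg_left h1 hκ0.le
    have h3 : κ * (16 / κ * ε) = 16 * ε := by field_simp
    linarith
  set T := TD f ε with hT
  set n : ℕ := ⌊κ * δ / ε⌋₊ with hn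
  have hn1 : (n : ℝ) ≤ κ * δ / ε := Nat.floor_le (by positivity)
  have hn2 : κ * δ / ε < n + 1 := Nat.lt_floor_add_one _
  rw [le_div_iff₀ hε] at hn1
  rw [div_lt_iff₀ hε] at hn2
  have hn3 : κ * δ ≤ 2 * (n * ε) := by nlinarith
  have hnn : 1 ≤ n := by
    rw [hn, Nat.one_le_floor_iff]
    rw [le_div_iff₀ hε]
    linarith
  have hnpos : (0 : ℝ) < n := by exact_mod_cast hnn
  set s' : ℝ := 1 - δ with hs'
  have hs'z : ‖z‖ ≤ s' := by linarith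
  have hs'0 : 0 ≤ s' := (norm_nonneg z).trans hs'z
  set s : ℕ → ℝ := fun j => ‖z‖ + j * ((s' - ‖z‖) / M) with hs
  have hsM : s M = s' := by
    simp only [hs]
    field_simp
    ring
  have hsle : ∀ j < M + 1, 0 ≤ s j ∧ s j ≤ s' := by
    intro j hj
    have h1 : (j : ℝ) ≤ M := by exact_mod_cast Nat.lt_succ_iff.mp hj
    have h2 : 0 ≤ (s' - ‖z‖) / M := div_nonneg (by linarith) hM0.le
    have h3 : (j : ℝ) * ((s' - ‖z‖) / M) ≤ M * ((s' - ‖z‖) / M) :=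
      mul_le_mul_of_nonneg_right h1 h2
    have h4 : (M : ℝ) * ((s' - ‖z‖) / M) = s' - ‖z‖ := by field_simp
    have h5 : 0 ≤ (j : ℝ) * ((s' - ‖z‖) / M) := mul_nonneg (Nat.cast_nonneg _) h2
    simp only [hs]
    constructor
    · linarith [norm_nonneg z]
    · linarith
  have hex : ∀ j : ℕ, ∃ q : Vtx, ‖pos ε q - f ((s j : ℂ) * cir θ)‖ ≤ ε ∧ (s j = ‖z‖ → q = x) := by
    intro j
    by_cases h0 : s j = ‖z‖
    · refine ⟨x, ?_, fun _ => rfl⟩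
      rw [h0, ← hzθ, hfz, sub_self, norm_zero]
      exact hε.le
    · obtain ⟨q, hq⟩ := exists_round hε (f ((s j : ℂ) * cir θ))
      exact ⟨q, hq, fun h => absurd h h0⟩
  choose p hp hpx using hex
  have hs0 : s 0 = ‖z‖ := by simp [hs]
  have hp0 : p 0 = x := hpx 0 hs0
  have hzj : ∀ j < M + 1, ‖(s j : ℂ) * cir θ‖ < 1 := by
    intro j hj
    rw [norm_smul_cir (hsle j hj).1]
    linarith [(hsle j hj).2]
  -- the boxes
  have hbox : ∀ j < M + 1, ∀ y ∈ BX (p j) ((4 * n : ℕ) : ℤ), y ∈ T := by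
    intro j hj
    refine D.box hε hεε0 (hzj j hj) (hp j) ?_
    rw [norm_smul_cir (hsle j hj).1]
    push_cast
    have h1 : D.l * δ ≤ D.l * (1 - s j) := mul_le_mul_of_nonneg_left
      (by linarith [(hsle j hj).2]) hl.le
    have h2 : κ * δ ≤ D.l / 32 * δ := mul_le_mul_of_nonneg_right hκl hδ0.le
    have h3 : 0 < D.l * δ := by positivity
    nlinarith
  have hstep : ∀ j < M, 2 * nv (p (j + 1) - p j) ≤ n := by
    intro j hj
    rcases eq_or_lt_of_le hs'z with h0 | h0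
    · have h1 : ∀ i : ℕ, s i = ‖z‖ := by
        intro i
        simp only [hs]
        rw [← h0]
        simp
      rw [hpx _ (h1 (j + 1)), hpx _ (h1 j)]
      simp [nv]
    · have hδs' : δ = δs := by
        rcases min_choice (1 - ‖z‖) δs with h1 | h1
        · rw [h1] at hδ
          linarith
        · rw [h1] at hδ
          exact hδ
      have h1 : ‖f ((s (j + 1) : ℂ) * cir θ) - f ((s j : ℂ) * cir θ)‖ ≤ κ * δ / 8 := by
        refine (D.lip _ (disc_of (hzj _ (by omega)).le) _ (disc_of (hzj _ (by omega)).le)).2.trans ?_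
        rw [norm_sub_cir]
        have h2 : s (j + 1) - s j = (s' - ‖z‖) / M := by
          simp only [hs]
          push_cast
          ring
        rw [h2, abs_of_nonneg (div_nonneg (by linarith) hM0.le)]
        have h3 : s' - ‖z‖ ≤ 1 := by linarith [norm_nonneg z]
        rw [div_lt_iff₀ (by positivity)] at hM
        have h4 : (s' - ‖z‖) / M ≤ 1 / M := div_le_div_of_nonneg_right h3 hM0.le
        calc D.H * ((s' - ‖z‖) / M) ≤ D.H * (1 / M) := mul_le_mul_of_nonneg_left h4 hH.le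
          _ ≤ κ * δ / 8 := by
            rw [mul_one_div, div_le_iff₀ hM0, hδs']
            nlinarith
      have h2 : ‖pos ε (p (j + 1)) - pos ε (p j)‖ ≤ κ * δ / 8 + 2 * ε := by
        have h3 : pos ε (p (j + 1)) - pos ε (p j) =
            (pos ε (p (j + 1)) - f ((s (j + 1) : ℂ) * cir θ)) +
            (f ((s (j + 1) : ℂ) * cir θ) - f ((s j : ℂ) * cir θ)) +
            -(pos ε (p j) - f ((s j : ℂ) * cir θ)) := by ring
        rw [h3]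
        refine norm_add₃_le.trans ?_
        rw [norm_neg]
        linarith [hp j, hp (j + 1)]
      have h4 : nv (p (j + 1) - p j) ≤ n / 2 := by
        refine nv_le_of hε h2 ?_
        have h5 : (n : ℝ) ≤ 2 * ((n / 2 : ℕ) : ℝ) + 1 := by
          have : n ≤ 2 * (n / 2) + 1 := by omega
          exact_mod_cast this
        nlinarith
      omega
  have hvM : ∀ y ∈ BX (p M) n, y ∈ BX v ⌈K2 * δ / ε⌉ := by
    intro y hy
    apply ALO.mem_BX_of hε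
    have h1 := ARM1.norm_pos_sub hε hy
    push_cast at h1
    have h2 := hp M
    rw [hsM] at h2
    have h3 := (D.lip _ (disc_of (by rw [norm_smul_cir hs'0]; linarith)) _ (ARM1.cir_mem θ) :
      D.l * ‖(s' : ℂ) * cir θ - cir θ‖ ≤ ‖f ((s' : ℂ) * cir θ) - f (cir θ)‖ ∧ _).2
    have h4 : ‖(s' : ℂ) * cir θ - cir θ‖ = δ := by
      have := norm_sub_cir (s := s') (t := 1) θ
      rw [Complex.ofReal_one, one_mul] at this
      rw [this, hs', abs_sub_comm]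
      rw [abs_of_nonneg (by linarith)]
      ring
    rw [h4] at h3
    have h5 : pos ε y - pos ε v = ((pos ε y - pos ε (p M)) + (pos ε (p M) - f ((s' : ℂ) * cir θ)))
        + (f ((s' : ℂ) * cir θ) - f (cir θ)) + -(pos ε v - f (cir θ)) := by ring
    rw [h5]
    refine norm_add₃_le.trans ?_
    rw [norm_neg]
    have h6 := norm_add_le (pos ε y - pos ε (p M)) (pos ε (p M) - f ((s' : ℂ) * cir θ))
    have h7 := Int.le_ceil (K2 * δ / ε)
    rw [div_le_iff₀ hε] at h7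
    have h8 := hBp.2.1
    have h9 : K2 * δ = D.H * δ + 5 * δ := by rw [hK2]; ring
    have h10 : κ * δ ≤ 1 * δ := mul_le_mul_of_nonneg_right hκ1 hδ0.le
    nlinarith
  have hrK : ⌈K2 * δ / ε⌉ ≤ K * n := by
    have h1 := (Int.ceil_lt_add_one (K2 * δ / ε)).le
    have h2 : ((⌈K2 * δ / ε⌉ : ℤ) : ℝ) ≤ ((K * n : ℤ) : ℝ) := by
      push_cast
      refine h1.trans ?_
      rw [div_lt_iff₀ hκ0] at hK
      have h3 : K2 * δ / ε + 1 ≤ (K2 + 1) * δ / ε := by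
        have h4 : (K2 + 1) * δ / ε = K2 * δ / ε + δ / ε := by ring
        have : 1 ≤ δ / ε := by rw [le_div_iff₀ hε]; linarith
        linarith
      refine h3.trans ?_
      rw [div_le_iff₀ hε]
      have h4 : 2 * (K2 + 1) * δ ≤ (K * κ) * δ := mul_le_mul_of_nonneg_right hK.le hδ0.le
      have h5 : (K : ℝ) * (κ * δ) ≤ K * (2 * (n * ε)) :=
        mul_le_mul_of_nonneg_left hn3 (Nat.cast_nonneg _)
      nlinarith
    exact_mod_cast h2
  have hmain := hsrc T v ⌊D.ρ / ε⌋ n p ⌈K2 * δ / ε⌉ R hBp.2.2 hnn hbox hstep hvM hrK hR64 hR128 hRL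
  rw [hp0] at hmain
  refine le_trans ?_ hmain
  have hr0 : (0 : ℝ) < ((⌈K2 * δ / ε⌉ : ℤ) : ℝ) := by
    refine lt_of_lt_of_le ?_ (Int.le_ceil _)
    have : 0 < K2 := by linarith
    positivity
  have hR0 : (0 : ℝ) < R := by
    have h1 : (0 : ℤ) < ⌈K2 * δ / ε⌉ := by exact_mod_cast hr0
    exact_mod_cast (by omega : (0 : ℤ) < R)
  have h1 : (δ / (ε * R)) ^ (1 / 3 : ℝ) ≤ (((⌈K2 * δ / ε⌉ : ℤ) : ℝ) / R) ^ (1 / 3 : ℝ) := by
    apply Real.rpow_le_rpow (by positivity) _ (by norm_num)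
    have h2 : δ / (ε * R) = (δ / ε) / R := by field_simp
    rw [h2]
    apply div_le_div_of_nonneg_right _ hR0.le
    refine le_trans ?_ (Int.le_ceil _)
    apply div_le_div_of_nonneg_right _ hε.le
    nlinarith
  have h2 : c0 * (3 * κ) ^ (-(5 / 48 : ℝ)) * (ε / δ) ^ (5 / 48 : ℝ) ≤ ar (3 * n) := by
    refine le_trans ?_ (har (3 * n) (by omega)).1
    rw [mul_assoc]
    apply mul_le_mul_of_nonneg_left _ hc0.le
    have h3 : ((3 * n : ℕ) : ℝ) ≤ 3 * κ * (δ / ε) := by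
      push_cast
      have : 3 * κ * (δ / ε) = 3 * (κ * δ / ε) := by ring
      rw [this]
      have h4 : (n : ℝ) ≤ κ * δ / ε := by rw [le_div_iff₀ hε]; exact hn1
      linarith
    have h4 : (3 * κ) ^ (-(5 / 48 : ℝ)) * (ε / δ) ^ (5 / 48 : ℝ) =
        (3 * κ * (δ / ε)) ^ (-(5 / 48 : ℝ)) := by
      rw [Real.mul_rpow (x := 3 * κ) (by positivity) (by positivity), rpow_inv_eq hδ0 hε]
    rw [h4]
    exact Real.rpow_le_rpow_of_nonpos (by push_cast; positivity) h3 (by norm_num)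
  have h5 : 0 ≤ (δ / (ε * R)) ^ (1 / 3 : ℝ) := by positivity
  calc c1 * c0 * (3 * κ) ^ (-(5 / 48 : ℝ)) *
        ((ε / δ) ^ (5 / 48 : ℝ) * (δ / (ε * R)) ^ (1 / 3 : ℝ)) =
      c1 * ((c0 * (3 * κ) ^ (-(5 / 48 : ℝ)) * (ε / δ) ^ (5 / 48 : ℝ)) *
        (δ / (ε * R)) ^ (1 / 3 : ℝ)) := by ring
    _ ≤ c1 * (ar (3 * n) * (((⌈K2 * δ / ε⌉ : ℤ) : ℝ) / R) ^ (1 / 3 : ℝ)) := by
      apply mul_le_mul_of_nonneg_left _ hc1.le
      exact mul_le_mul h2 h1 h5 ((by positivity : (0:ℝ) ≤ _).trans h2)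

end Run7.h663.PA
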