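import Pool.Agent.Run7.h663.PA.ArcUp

/-!
The probability that finitely many interior points are connected: definitions and the upper bounds.
-/

set_option autoImplicit false

namespace Run7.h663.PA

open H974 hiding Blk okhalf
open H973 hiding okhalf
open Finset
open Pool.Agent.Y989.SD
open Pool.Agent.H160R2.CV (nv P ar Far)
open Pool.Agent.H160R2.CV.Quad (bo LA)

variable {f : ℂ → ℂ}

/-- all the points of `X` are connected -/
def Conn (X : Finset Vtx) (F : Finset Edg) : Prop := ∀ x ∈ X, ∀ y ∈ X, Reach (F : Set Edg) x y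

theorem Conn_incr (S : Finset Edg) (X : Finset Vtx) : IncrE S (Conn X) :=
  fun F G h _ hF x hx y hy => (hF x hx y hy).mono (by exact_mod_cast h)

theorem Conn_sub {X X' : Finset Vtx} (h : X' ⊆ X) {F : Finset Edg} (hF : Conn X F) : Conn X' F :=
  fun x hx y hy => hF x (h hx) y (h hy)

/-- the probability that all the points of `X` are connected -/
noncomputable def KP (f : ℂ → ℂ) (ε : ℝ) (X : Finset Vtx) : ℝ := Pr hf (ES (TD f ε)) (Conn X)

theorem KP_nonneg (f : ℂ → ℂ) (ε : ℝ) (X : Finset Vtx) : 0 ≤ KP f ε X := Pr_nonneg oku _ _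

theorem KP_anti (f : ℂ → ℂ) (ε : ℝ) {X X' : Finset Vtx} (h : X' ⊆ X) : KP f ε X ≤ KP f ε X' :=
  Pr_mono oku (fun _ _ hF => Conn_sub h hF)

/-- the first time a path uses an edge of `S` -/
theorem hit {F S : Finset Edg} {Bs : Vtx → Prop} (hS : ∀ e ∈ S, Bs (H974.src e) ∧ Bs (tgt e))
    {v w : Vtx} (h : Reach ((F ∪ S : Finset Edg) : Set Edg) v w) :
    Reach (F : Set Edg) v w ∨ ∃ u, Bs u ∧ Reach (F : Set Edg) v u := by
  unfold Reach at h
  induction h with
  | refl => exact Or.inl Relation.ReflTransGen.refl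
  | tail _ hbc ih =>
    rcases ih with ih | ih
    · obtain ⟨e, he, hc⟩ := hbc
      rw [Finset.mem_coe, Finset.mem_union] at he
      rcases he with he | he
      · exact Or.inl (Relation.ReflTransGen.tail ih ⟨e, by exact_mod_cast he, hc⟩)
      · rcases hc with ⟨h1, h2⟩ | ⟨h1, h2⟩
        · exact Or.inr ⟨_, h1 ▸ (hS e he).1, ih⟩
        · exact Or.inr ⟨_, h2 ▸ (hS e he).2, ih⟩
    · exact Or.inr ih

/-- **Upper bound, abstract form.** -/
theorem up_abs {E S : Finset Edg} {X X' : Finset Vtx} (hX : X' ⊆ X) {q c : ℝ} (hc : 0 < c)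
    (hloc : Loc E (Conn X) S q) {Bs : Vtx → Prop} (hS : ∀ e ∈ S, Bs (H974.src e) ∧ Bs (tgt e))
    {Bk : Finset Edg → Prop} (hBi : IncrE E Bk) (hBc : c ≤ Pr hf E Bk)
    (hBk : ∀ F, F ⊆ E → Bk F → ∃ z, ∀ u, Bs u → ∀ v ∈ X', Reach (F : Set Edg) v u →
      Reach (F : Set Edg) v z) :
    Pr hf E (Conn X) ≤ q / c * Pr hf E (Conn X') := by
  obtain ⟨hSE, G, hG, hA⟩ := hloc
  have hq : 0 ≤ q := (Pr_nonneg oku _ _).trans hG
  set G' : Finset Edg → Prop := fun H => Conn X' (H ∪ S) with hG'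
  have hGi : IncrE E G' := by
    intro F H hFH _ hF
    refine Conn_incr (H ∪ S) X' (F ∪ S) (H ∪ S) (Finset.union_subset_union_left hFH)
      (Finset.Subset.refl _) hF
  have hdj : Disjoint S (E \ S) := Finset.disjoint_sdiff
  have h1 : Pr hf E (Conn X) ≤ Pr hf S G * Pr hf (E \ S) G' := by
    refine (Pr_mono oku (B := fun F => G (F ∩ S) ∧ G' (F ∩ (E \ S))) (fun F hF h =>
      ⟨hA F hF h, ?_⟩)).trans (le_of_eq (Pr_indep' hSE Finset.sdiff_subset hdj G G'))
    have h2 : Conn X' F := Conn_sub hX h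
    refine Conn_incr (F ∩ (E \ S) ∪ S) X' F _ ?_ (Finset.Subset.refl _) h2
    intro e he
    rw [Finset.mem_union, Finset.mem_inter, Finset.mem_sdiff]
    by_cases h3 : e ∈ S
    · exact Or.inr h3
    · exact Or.inl ⟨he, hF he, h3⟩
  have h2 : Pr hf (E \ S) G' ≤ Pr hf E G' := Pr_mono_set oku Finset.sdiff_subset hGi
  have h3 : Pr hf E G' * c ≤ Pr hf E (Conn X') := by
    refine (hars hGi hBi le_rfl hBc hc.le).trans (Pr_mono oku ?_)
    rintro F hF ⟨h4, h5⟩
    obtain ⟨z, hz⟩ := hBk F hF h5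
    intro v hv w hw
    rcases hit hS (h4 v hv w hw) with h6 | ⟨u, hu, h6⟩
    · exact h6
    · rcases hit hS (h4 w hw v hv) with h7 | ⟨u', hu', h7⟩
      · exact h7.symm
      · exact (hz u hu v hv h6).trans (hz u' hu' w hw h7).symm
  have h4 : Pr hf E G' ≤ Pr hf E (Conn X') / c := by rwa [le_div_iff₀ hc]
  calc Pr hf E (Conn X) ≤ Pr hf S G * Pr hf (E \ S) G' := h1
    _ ≤ q * (Pr hf E (Conn X') / c) :=
        mul_le_mul hG (h2.trans h4) (Pr_nonneg oku _ _) hq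
    _ = _ := by ring

/-- **Lower bound, abstract form.** -/
theorem low_abs {E : Finset Edg} {X X' : Finset Vtx} {x y : Vtx} (hX : X ⊆ insert x X')
    (hy : y ∈ X') {p : ℝ} (hp : 0 ≤ p) {E' : Finset Edg → Prop} (hi : IncrE E E')
    (hE : p ≤ Pr hf E E')
    (h : ∀ F, F ⊆ E → Conn X' F → E' F → Reach (F : Set Edg) x y) :
    p * Pr hf E (Conn X') ≤ Pr hf E (Conn X) := by
  rw [mul_comm]
  refine (hars (Conn_incr E X') hi le_rfl hE hp).trans (Pr_mono oku ?_)
  rintro F hF ⟨h1, h2⟩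
  have h3 := h F hF h1 h2
  have h4 : ∀ u ∈ X, Reach (F : Set Edg) u y := by
    intro u hu
    rcases Finset.mem_insert.mp (hX hu) with rfl | h5
    · exact h3
    · exact h1 u h5 y hy
  exact fun u hu v hv => (h4 u hu).trans (h4 v hv).symm

/-- **Upper bound, interior regime.** -/
theorem kup_in (D : Dom f) {η e0 : ℝ} (hη : 0 < η) (he0 : 0 < e0) : ∃ C : ℝ, 0 < C ∧
    ∀ (ε d : ℝ) (x : Vtx) (z : ℂ) (X X' : Finset Vtx), 0 < ε → ε ≤ D.ε0 → ‖z‖ < 1 →
    f z = pos ε x → 0 < d → η * d ≤ 1 - ‖z‖ → x ∈ X → X' ⊆ X → X'.Nonempty →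
    (∀ v ∈ X', e0 * d ≤ ‖pos ε v - pos ε x‖) →
    KP f ε X ≤ C * (ε / d) ^ (5 / 48 : ℝ) * KP f ε X' := by
  have hl := D.hl
  obtain ⟨c0, C0, hc0, hC0, har⟩ := ar_sharp
  set κ : ℝ := min (η * D.l / 8) (e0 / 8) with hκ
  have hκ0 : 0 < κ := lt_min (by positivity) (by positivity)
  have hκl : 8 * κ ≤ η * D.l := by
    have : κ ≤ η * D.l / 8 := min_le_left _ _
    linarith
  have hκe : 8 * κ ≤ e0 := by
    have : κ ≤ e0 / 8 := min_le_right _ _
    linarith
  have hcir : (0 : ℝ) < (1 / 2 : ℝ) ^ 188 := by positivity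
  refine ⟨(C0 / (1 / 2 : ℝ) ^ 188 + 1) * (κ / 2) ^ (-(5 / 48 : ℝ)), by positivity, ?_⟩
  intro ε d x z X X' hε hε0 hz hfz hd hηd hx hX hne hdist
  set n : ℕ := ⌊κ * d / ε⌋₊ with hn
  have hn1 : (n : ℝ) ≤ κ * d / ε := Nat.floor_le (by positivity)
  have hn2 : κ * d / ε < n + 1 := Nat.lt_floor_add_one _
  rw [le_div_iff₀ hε] at hn1
  rw [div_lt_iff₀ hε] at hn2
  have hκd : 0 < κ * d := by positivity
  have hpow : ∀ t : ℝ, 0 < t → κ * d / 2 ≤ t * ε →
      t ^ (-(5 / 48 : ℝ)) ≤ (κ / 2) ^ (-(5 / 48 : ℝ)) * (ε / d) ^ (5 / 48 : ℝ) := by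
    intro t ht htd
    have h1 : (κ / 2) ^ (-(5 / 48 : ℝ)) * (ε / d) ^ (5 / 48 : ℝ) =
        (κ / 2 * (d / ε)) ^ (-(5 / 48 : ℝ)) := by
      rw [Real.mul_rpow (x := κ / 2) (by positivity) (by positivity), rpow_inv_eq hd hε]
    rw [h1]
    refine Real.rpow_le_rpow_of_nonpos (by positivity) ?_ (by norm_num)
    have h2 : κ / 2 * (d / ε) = κ * d / 2 / ε := by ring
    rw [h2, div_le_iff₀ hε]
    exact htd
  have hKP := KP_nonneg f ε X'
  have hp : 0 ≤ (κ / 2) ^ (-(5 / 48 : ℝ)) * (ε / d) ^ (5 / 48 : ℝ) := by positivity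
  rcases Nat.eq_zero_or_pos n with h0 | hnn
  · rw [h0, Nat.cast_zero, zero_add, one_mul] at hn2
    have h1 := hpow 1 one_pos (by linarith)
    rw [Real.one_rpow] at h1
    calc KP f ε X ≤ 1 * KP f ε X' := by rw [one_mul]; exact KP_anti f ε hX
      _ ≤ ((C0 / (1 / 2 : ℝ) ^ 188 + 1) * ((κ / 2) ^ (-(5 / 48 : ℝ)) * (ε / d) ^ (5 / 48 : ℝ))) *
          KP f ε X' := by
          apply mul_le_mul_of_nonneg_right _ hKP
          have : 0 < C0 / (1 / 2 : ℝ) ^ 188 := by positivity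
          nlinarith
      _ = _ := by ring
  · have hnpos : (1 : ℝ) ≤ n := by exact_mod_cast hnn
    have hbox : ∀ y ∈ BX x ((3 * n : ℕ) : ℤ), y ∈ TD f ε := by
      refine D.box hε hε0 hz (e := 0) (by rw [hfz, sub_self, norm_zero]) ?_
      push_cast
      have h1 : D.l * (η * d) ≤ D.l * (1 - ‖z‖) := mul_le_mul_of_nonneg_left hηd hl.le
      have h2 : 8 * κ * d ≤ η * D.l * d := mul_le_mul_of_nonneg_right hκl hd.le
      nlinarith
    have hfar : ∀ v ∈ X', 3 * n ≤ nv (v - x) := by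
      intro v hv
      by_contra hcon
      push Not at hcon
      have h1 := ARM1.norm_pos_sub hε (mem_BX_nv.mpr hcon.le)
      push_cast at h1
      have h2 := hdist v hv
      have h3 : 8 * κ * d ≤ e0 * d := mul_le_mul_of_nonneg_right hκe hd.le
      nlinarith
    obtain ⟨v0, hv0⟩ := hne
    have hloc : Loc (ES (TD f ε)) (Conn X) (bo x n) (ar n) := by
      refine loc_arm (fun y hy => hbox y (BX_mono (by push_cast; omega) hy)) ?_
      intro F _ hF
      exact ⟨v0, (by have := hfar v0 hv0; omega), hF x hx v0 (hX hv0)⟩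
    have hmain := up_abs hX (c := (1 / 2 : ℝ) ^ 188) hcir hloc (Bs := fun u => nv (u - x) ≤ n)
      (by
        intro e he
        rw [bo_eq, mem_ES] at he
        exact ⟨mem_BX_nv.mp he.1, mem_BX_nv.mp he.2⟩)
      (H362P.CA_incr (ES (TD f ε)) x n (3 * n)) (circ_lower hnn (bo_sub hbox)) (by
        intro F _ hF
        obtain ⟨z', hz'⟩ := H362P.CA_meet (by omega) hF
        refine ⟨z', fun u hu v hv hr => ?_⟩
        exact hr.trans (hz' u v hu (hfar v hv) hr.symm))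
    have harn := (har n hnn).2
    have h1 := hpow n (by linarith) (by nlinarith)
    calc KP f ε X ≤ ar n / (1 / 2 : ℝ) ^ 188 * KP f ε X' := hmain
      _ ≤ (C0 * ((κ / 2) ^ (-(5 / 48 : ℝ)) * (ε / d) ^ (5 / 48 : ℝ))) / (1 / 2 : ℝ) ^ 188 *
          KP f ε X' := by
          apply mul_le_mul_of_nonneg_right _ hKP
          apply div_le_div_of_nonneg_right _ hcir.le
          exact harn.trans (mul_le_mul_of_nonneg_left h1 hC0.le)
      _ = (C0 / (1 / 2 : ℝ) ^ 188) * ((κ / 2) ^ (-(5 / 48 : ℝ)) * (ε / d) ^ (5 / 48 : ℝ)) *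
          KP f ε X' := by ring
      _ ≤ ((C0 / (1 / 2 : ℝ) ^ 188 + 1) * ((κ / 2) ^ (-(5 / 48 : ℝ)) * (ε / d) ^ (5 / 48 : ℝ))) *
          KP f ε X' := by
          apply mul_le_mul_of_nonneg_right _ hKP
          apply mul_le_mul_of_nonneg_right _ hp
          linarith
      _ = _ := by ring

end Run7.h663.PA
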