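import Pool.Agent.Run7.h663.PA.KUp

/-!
The cluster of an interior point, extended from a small scale to a larger one through the boundary.
-/

set_option autoImplicit false

namespace Run7.h663.PA

open H974 hiding Blk okhalf
open H973 hiding okhalf
open Finset
open Pool.Agent.Y989.SD
open Pool.Agent.H160R2.CV (nv P ar Far)
open Pool.Agent.H160R2.CV.Quad (bo)

variable {f : ℂ → ℂ}

/-- **Extension of a cluster.** -/
theorem ext_src {B α : ℝ} (hα : 0 < α) (K M : ℕ) : ∃ c : ℝ, 0 < c ∧ ∀ (T : Finset Vtx) (v : Vtx)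
    (L : ℤ) (n : ℕ) (p : ℕ → Vtx) (r R : ℤ), Win T v L B α → 1 ≤ n →
    (∀ j < M + 1, ∀ y ∈ BX (p j) ((4 * n : ℕ) : ℤ), y ∈ T) →
    (∀ j < M, 2 * nv (p (j + 1) - p j) ≤ n) →
    (∀ y ∈ BX (p M) n, y ∈ BX v r) → r ≤ K * n → 64 * r ≤ R → 128 * r ≤ L → R ≤ L →
    ∃ E1 : Finset Edg → Prop, IncrE (ES T) E1 ∧
      c * ((r : ℝ) / R) ^ (1 / 3 : ℝ) ≤ Pr hf (ES T) E1 ∧
      ∀ F, F ⊆ ES T → E1 F → (∃ w, 3 * n ≤ nv (w - p 0) ∧ Reach (F : Set Edg) (p 0) w) →
        Src T (p 0) (fun u => u ∈ BX v r) (fun w => w ∉ BX v (R - 1)) F := by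
  obtain ⟨c1, C1, hc1, -, hW⟩ := m_WIN B α hα
  obtain ⟨c2, hc2, hcol⟩ := col K
  refine ⟨cc ^ (M + 1) * c2 * c1 * c1, by have := cc_pos; positivity, ?_⟩
  intro T v L n p r R hwin hn hbox hp hxv hrK hrR hrL hRL
  have hn0 : (1 : ℤ) ≤ n := by exact_mod_cast hn
  have hr0 : (n : ℤ) ≤ r := by
    have h1 := hxv ((p M).1 + n, (p M).2) (by rw [mem_BX]; simp only; omega)
    have h2 := hxv ((p M).1 - n, (p M).2) (by rw [mem_BX]; simp only; omega)
    rw [mem_BX] at h1 h2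
    simp only at h1 h2
    omega
  have hbo : ∀ j < M + 1, bo (p j) (4 * n) ⊆ ES T := fun j hj => bo_sub (hbox j hj)
  have e2 := chain_lower (p := p) (M := M) hn hbo
  have e3 := hcol T v (p M) L B α n r hwin hn
    (fun y hy => hbox M (by omega) y (BX_mono (by push_cast; omega) hy)) hxv hrK hrL
  obtain ⟨-, e5, -, -⟩ := hW T v L hwin r R (by omega) (by omega) hRL
  have e4 := (hW T v L hwin r r (by omega) le_rfl (by omega)).2.2.2 hrL
  have i2 := Chain_incr (ES T) p n M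
  have i3 := Out_incr (ES T) T (p M) v n (64 * r)
  have i4 := CHN.HT_incr (ES T) T v r (64 * r)
  have i5 := CHN.XT_incr (ES T) T v r R
  have hrr : (0 : ℝ) < r := by exact_mod_cast (by omega : 0 < r)
  have hRR : (0 : ℝ) < R := by exact_mod_cast (by omega : 0 < R)
  have q : 0 ≤ ((r : ℝ) / R) ^ (1 / 3 : ℝ) := by positivity
  have g2 := hars i2 i3 e2 e3 hc2.le
  have g3 := hars (and_incr i2 i3) i4 g2 e4 hc1.le
  have g4 := hars (and_incr (and_incr i2 i3) i4) i5 g3 e5 (by positivity)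
  refine ⟨_, and_incr (and_incr (and_incr i2 i3) i4) i5, le_trans (le_of_eq (by ring)) g4, ?_⟩
  rintro F hF ⟨⟨⟨hch, u, hu, hux, w, hw, hwR, hrw⟩, hH⟩, hX⟩ ⟨w0, hw0, hr0w⟩
  obtain ⟨z, hz⟩ := chain_meet hn hp hch
  have k1 := hz 0 (by omega) (p 0) w0 (by simp [nv]) hw0 hr0w
  have hMv : (v.1 - r + n ≤ (p M).1 ∧ (p M).1 ≤ v.1 + r - n) ∧
      (v.2 - r + n ≤ (p M).2 ∧ (p M).2 ≤ v.2 + r - n) := by
    have h1 := hxv ((p M).1 + n, (p M).2 + n) (by rw [mem_BX]; simp only; omega)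
    have h2 := hxv ((p M).1 - n, (p M).2 - n) (by rw [mem_BX]; simp only; omega)
    rw [mem_BX] at h1 h2
    simp only at h1 h2
    omega
  have k2 := hz M (by omega) u w (mem_BX_nv.mp hux) (by
    rw [mem_BX] at hwR
    unfold nv
    simp only [Prod.fst_sub, Prod.snd_sub]
    omega) hrw
  have k3 : Reach (F : Set Edg) (p 0) u := k1.trans k2.symm
  obtain ⟨zb, hzb, -, -, hB⟩ := hH
  obtain ⟨u', hu', hu'r, w', hw', hw'R, hr'⟩ := hX
  have k4 := CHN.meets hF hB hu (hxv u hux) hw hwR hrw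
  have k5 := CHN.meets hF hB hu' hu'r hw' (fun h => hw'R (BX_mono (by omega) h)) hr'
  exact ⟨u, hu, hxv u hux, k3, w', hw', hw'R, k4.symm.trans (k5.trans hr')⟩

/-- **Extension of the cluster of an interior point.** -/
theorem ext_arm (D : Dom f) {δs : ℝ} (hδs : 0 < δs) {K2 : ℝ} (hK2 : K2 = D.H + 5) {κ : ℝ}
    (hκ0 : 0 < κ) (hκ1 : κ ≤ 1) (hκl : κ ≤ D.l / 32) :
    ∃ c K0 : ℝ, 0 < c ∧ 1 ≤ K0 ∧ ∀ (ε : ℝ) (x : Vtx) (z : ℂ) (θ δ : ℝ) (v : Vtx), 0 < ε →
    ε ≤ D.ε0 → ‖z‖ < 1 → f z = pos ε x → δ = min (1 - ‖z‖) δs → K0 * ε ≤ δ →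
    z = (‖z‖ : ℂ) * cir θ → Bp f ε D.ρ D.B D.α θ v → ∀ R : ℤ, 64 * ⌈K2 * δ / ε⌉ ≤ R →
    128 * ⌈K2 * δ / ε⌉ ≤ ⌊D.ρ / ε⌋ → R ≤ ⌊D.ρ / ε⌋ →
    ∃ E1 : Finset Edg → Prop, IncrE (ES (TD f ε)) E1 ∧
      c * (δ / (ε * R)) ^ (1 / 3 : ℝ) ≤ Pr hf (ES (TD f ε)) E1 ∧
      ∀ F, F ⊆ ES (TD f ε) → E1 F →
      (∃ w, 6 * κ * δ < ‖pos ε w - pos ε x‖ ∧ Reach (F : Set Edg) x w) →
      Src (TD f ε) x (fun u => u ∈ BX v ⌈K2 * δ / ε⌉) (fun w => w ∉ BX v (R - 1)) F := by
  have hl := D.hl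
  have hH := D.hH
  have hK21 : 1 ≤ K2 := by linarith
  obtain ⟨M, hM⟩ := exists_nat_gt (8 * D.H / (κ * δs))
  have hM0 : 0 < (M : ℝ) := lt_of_le_of_lt (by positivity) hM
  obtain ⟨K, hK⟩ := exists_nat_gt (2 * (K2 + 1) / κ)
  obtain ⟨c1, hc1, hsrc⟩ := ext_src (B := D.B) D.hα K M
  set K0 : ℝ := 1 + 16 / κ with hK0
  have hK01 : 1 ≤ K0 := by
    have : 0 < 16 / κ := by positivity
    linarith
  refine ⟨c1, K0, hc1, hK01, ?_⟩
  intro ε x z θ δ v hε hεε0 hz hfz hδ hK0ε hzθ hBp R hR64 hR128 hRL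
  have hδ1 : δ ≤ 1 - ‖z‖ := by rw [hδ]; exact min_le_left _ _
  have hδ2 : δ ≤ δs := by rw [hδ]; exact min_le_right _ _
  have hεδ : ε ≤ δ := by nlinarith
  have hδ0 : 0 < δ := hε.trans_le hεδ
  have hκε : 16 * ε ≤ κ * δ := by
    have h1 : 16 / κ * ε ≤ δ := by
      have : K0 * ε = ε + 16 / κ * ε := by rw [hK0]; ring
      linarith
    have h2 := mul_le_mul_of_nonneg_left h1 hκ0.le
    have h3 : κ * (16 / κ * ε) = 16 * ε := by field_simp
    linarith
  set T := TD f ε with hT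
  set n : ℕ := ⌊κ * δ / ε⌋₊ with hn
  have hn1 : (n : ℝ) ≤ κ * δ / ε := Nat.floor_le (by positivity)
  have hn2 : κ * δ / ε < n + 1 := Nat.lt_floor_add_one _
  rw [le_div_iff₀ hε] at hn1
  rw [div_lt_iff₀ hε] at hn2
  have hn3 : κ * δ ≤ 2 * (n * ε) := by nlinarith
  have hnn : 1 ≤ n := by
    rw [hn, Nat.one_le_floor_iff]
    rw [le_div_iff₀ hε]
    linarith
  have hnpos : (0 : ℝ) < n := by exact_mod_cast hnn
  set s' : ℝ := 1 - δ with hs'
  have hs'z : ‖z‖ ≤ s' := by linarith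
  have hs'0 : 0 ≤ s' := (norm_nonneg z).trans hs'z
  set s : ℕ → ℝ := fun j => ‖z‖ + j * ((s' - ‖z‖) / M) with hs
  have hsM : s M = s' := by
    simp only [hs]
    field_simp
    ring
  have hsle : ∀ j < M + 1, 0 ≤ s j ∧ s j ≤ s' := by
    intro j hj
    have h1 : (j : ℝ) ≤ M := by exact_mod_cast Nat.lt_succ_iff.mp hj
    have h2 : 0 ≤ (s' - ‖z‖) / M := div_nonneg (by linarith) hM0.le
    have h3 : (j : ℝ) * ((s' - ‖z‖) / M) ≤ M * ((s' - ‖z‖) / M) :=
      mul_le_mul_of_nonneg_right h1 h2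
    have h4 : (M : ℝ) * ((s' - ‖z‖) / M) = s' - ‖z‖ := by field_simp
    have h5 : 0 ≤ (j : ℝ) * ((s' - ‖z‖) / M) := mul_nonneg (Nat.cast_nonneg _) h2
    simp only [hs]
    constructor
    · linarith [norm_nonneg z]
    · linarith
  have hex : ∀ j : ℕ, ∃ q : Vtx, ‖pos ε q - f ((s j : ℂ) * cir θ)‖ ≤ ε ∧ (s j = ‖z‖ → q = x) := by
    intro j
    by_cases h0 : s j = ‖z‖
    · refine ⟨x, ?_, fun _ => rfl⟩
      rw [h0, ← hzθ, hfz, sub_self, norm_zero]
      exact hε.le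
    · obtain ⟨q, hq⟩ := exists_round hε (f ((s j : ℂ) * cir θ))
      exact ⟨q, hq, fun h => absurd h h0⟩
  choose p hp hpx using hex
  have hs0 : s 0 = ‖z‖ := by simp [hs]
  have hp0 : p 0 = x := hpx 0 hs0
  have hzj : ∀ j < M + 1, ‖(s j : ℂ) * cir θ‖ < 1 := by
    intro j hj
    rw [norm_smul_cir (hsle j hj).1]
    linarith [(hsle j hj).2]
  -- the boxes
  have hbox : ∀ j < M + 1, ∀ y ∈ BX (p j) ((4 * n : ℕ) : ℤ), y ∈ T := by
    intro j hj
    refine D.box hε hεε0 (hzj j hj) (hp j) ?_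
    rw [norm_smul_cir (hsle j hj).1]
    push_cast
    have h1 : D.l * δ ≤ D.l * (1 - s j) := mul_le_mul_of_nonneg_left
      (by linarith [(hsle j hj).2]) hl.le
    have h2 : κ * δ ≤ D.l / 32 * δ := mul_le_mul_of_nonneg_right hκl hδ0.le
    have h3 : 0 < D.l * δ := by positivity
    nlinarith
  have hstep : ∀ j < M, 2 * nv (p (j + 1) - p j) ≤ n := by
    intro j hj
    rcases eq_or_lt_of_le hs'z with h0 | h0
    · have h1 : ∀ i : ℕ, s i = ‖z‖ := by
        intro i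
        simp only [hs]
        rw [← h0]
        simp
      rw [hpx _ (h1 (j + 1)), hpx _ (h1 j)]
      simp [nv]
    · have hδs' : δ = δs := by
        rcases min_choice (1 - ‖z‖) δs with h1 | h1
        · rw [h1] at hδ
          linarith
        · rw [h1] at hδ
          exact hδ
      have h1 : ‖f ((s (j + 1) : ℂ) * cir θ) - f ((s j : ℂ) * cir θ)‖ ≤ κ * δ / 8 := by
        refine (D.lip _ (disc_of (hzj _ (by omega)).le) _ (disc_of (hzj _ (by omega)).le)).2.trans ?_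
        rw [norm_sub_cir]
        have h2 : s (j + 1) - s j = (s' - ‖z‖) / M := by
          simp only [hs]
          push_cast
          ring
        rw [h2, abs_of_nonneg (div_nonneg (by linarith) hM0.le)]
        have h3 : s' - ‖z‖ ≤ 1 := by linarith [norm_nonneg z]
        rw [div_lt_iff₀ (by positivity)] at hM
        have h4 : (s' - ‖z‖) / M ≤ 1 / M := div_le_div_of_nonneg_right h3 hM0.le
        calc D.H * ((s' - ‖z‖) / M) ≤ D.H * (1 / M) := mul_le_mul_of_nonneg_left h4 hH.le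
          _ ≤ κ * δ / 8 := by
            rw [mul_one_div, div_le_iff₀ hM0, hδs']
            nlinarith
      have h2 : ‖pos ε (p (j + 1)) - pos ε (p j)‖ ≤ κ * δ / 8 + 2 * ε := by
        have h3 : pos ε (p (j + 1)) - pos ε (p j) =
            (pos ε (p (j + 1)) - f ((s (j + 1) : ℂ) * cir θ)) +
            (f ((s (j + 1) : ℂ) * cir θ) - f ((s j : ℂ) * cir θ)) +
            -(pos ε (p j) - f ((s j : ℂ) * cir θ)) := by ring
        rw [h3]
        refine norm_add₃_le.trans ?_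
        rw [norm_neg]
        linarith [hp j, hp (j + 1)]
      have h4 : nv (p (j + 1) - p j) ≤ n / 2 := by
        refine nv_le_of hε h2 ?_
        have h5 : (n : ℝ) ≤ 2 * ((n / 2 : ℕ) : ℝ) + 1 := by
          have : n ≤ 2 * (n / 2) + 1 := by omega
          exact_mod_cast this
        nlinarith
      omega
  have hvM : ∀ y ∈ BX (p M) n, y ∈ BX v ⌈K2 * δ / ε⌉ := by
    intro y hy
    apply ALO.mem_BX_of hε
    have h1 := ARM1.norm_pos_sub hε hy
    push_cast at h1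
    have h2 := hp M
    rw [hsM] at h2
    have h3 := (D.lip _ (disc_of (by rw [norm_smul_cir hs'0]; linarith)) _ (ARM1.cir_mem θ) :
      D.l * ‖(s' : ℂ) * cir θ - cir θ‖ ≤ ‖f ((s' : ℂ) * cir θ) - f (cir θ)‖ ∧ _).2
    have h4 : ‖(s' : ℂ) * cir θ - cir θ‖ = δ := by
      have := norm_sub_cir (s := s') (t := 1) θ
      rw [Complex.ofReal_one, one_mul] at this
      rw [this, hs', abs_sub_comm]
      rw [abs_of_nonneg (by linarith)]
      ring
    rw [h4] at h3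
    have h5 : pos ε y - pos ε v = ((pos ε y - pos ε (p M)) + (pos ε (p M) - f ((s' : ℂ) * cir θ)))
        + (f ((s' : ℂ) * cir θ) - f (cir θ)) + -(pos ε v - f (cir θ)) := by ring
    rw [h5]
    refine norm_add₃_le.trans ?_
    rw [norm_neg]
    have h6 := norm_add_le (pos ε y - pos ε (p M)) (pos ε (p M) - f ((s' : ℂ) * cir θ))
    have h7 := Int.le_ceil (K2 * δ / ε)
    rw [div_le_iff₀ hε] at h7
    have h8 := hBp.2.1
    have h9 : K2 * δ = D.H * δ + 5 * δ := by rw [hK2]; ring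
    have h10 : κ * δ ≤ 1 * δ := mul_le_mul_of_nonneg_right hκ1 hδ0.le
    nlinarith
  have hrK : ⌈K2 * δ / ε⌉ ≤ K * n := by
    have h1 := (Int.ceil_lt_add_one (K2 * δ / ε)).le
    have h2 : ((⌈K2 * δ / ε⌉ : ℤ) : ℝ) ≤ ((K * n : ℤ) : ℝ) := by
      push_cast
      refine h1.trans ?_
      rw [div_lt_iff₀ hκ0] at hK
      have h3 : K2 * δ / ε + 1 ≤ (K2 + 1) * δ / ε := by
        have h4 : (K2 + 1) * δ / ε = K2 * δ / ε + δ / ε := by ring
        have : 1 ≤ δ / ε := by rw [le_div_iff₀ hε]; linarith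
        linarith
      refine h3.trans ?_
      rw [div_le_iff₀ hε]
      have h4 : 2 * (K2 + 1) * δ ≤ (K * κ) * δ := mul_le_mul_of_nonneg_right hK.le hδ0.le
      have h5 : (K : ℝ) * (κ * δ) ≤ K * (2 * (n * ε)) :=
        mul_le_mul_of_nonneg_left hn3 (Nat.cast_nonneg _)
      nlinarith
    exact_mod_cast h2
  obtain ⟨E1, hi, hmain, hE1⟩ := hsrc T v ⌊D.ρ / ε⌋ n p ⌈K2 * δ / ε⌉ R hBp.2.2 hnn hbox hstep hvM
    hrK hR64 hR128 hRL
  have hr0 : (0 : ℝ) < ((⌈K2 * δ / ε⌉ : ℤ) : ℝ) := by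
    refine lt_of_lt_of_le ?_ (Int.le_ceil _)
    have : 0 < K2 := by linarith
    positivity
  have hR0 : (0 : ℝ) < R := by
    have h1 : (0 : ℤ) < ⌈K2 * δ / ε⌉ := by exact_mod_cast hr0
    exact_mod_cast (by omega : (0 : ℤ) < R)
  have h1 : (δ / (ε * R)) ^ (1 / 3 : ℝ) ≤ (((⌈K2 * δ / ε⌉ : ℤ) : ℝ) / R) ^ (1 / 3 : ℝ) := by
    apply Real.rpow_le_rpow (by positivity) _ (by norm_num)
    have h2 : δ / (ε * R) = (δ / ε) / R := by field_simp
    rw [h2]
    apply div_le_div_of_nonneg_right _ hR0.le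
    refine le_trans ?_ (Int.le_ceil _)
    apply div_le_div_of_nonneg_right _ hε.le
    nlinarith
  refine ⟨E1, hi, (mul_le_mul_of_nonneg_left h1 hc1.le).trans hmain, ?_⟩
  rintro F hF hE ⟨w, hw, hr⟩
  rw [hp0] at hE1
  refine hE1 F hF hE ⟨w, ?_, hr⟩
  by_contra hcon
  push Not at hcon
  have h2 := ARM1.norm_pos_sub hε (mem_BX_nv.mpr hcon.le)
  push_cast at h2
  nlinarith

/-- **Extension of a cluster to a larger scale.** -/
theorem ext (D : Dom f) {δs e0 Λ K2 : ℝ} (hδs : 0 < δs) (he0 : 0 < e0) (hΛ : 0 < Λ)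
    (hK2 : K2 = D.H + 5) : ∃ c K0 : ℝ, 0 < c ∧ 1 ≤ K0 ∧
    ∀ (ε m : ℝ) (y : Vtx) (w : ℂ) (θ : ℝ) (v : Vtx) (r R : ℤ), 0 < ε → ε ≤ D.ε0 → ‖w‖ < 1 →
    f w = pos ε y → K0 * ε ≤ 1 - ‖w‖ → 1 - ‖w‖ ≤ m → m ≤ 2 → w = (‖w‖ : ℂ) * cir θ →
    Bp f ε D.ρ D.B D.α θ v → K2 * min m δs + ε ≤ ε * r → 64 * r ≤ R → 128 * r ≤ ⌊D.ρ / ε⌋ →
    R ≤ ⌊D.ρ / ε⌋ → ε * R ≤ Λ * m →
    ∃ E1 : Finset Edg → Prop, IncrE (ES (TD f ε)) E1 ∧ c ≤ Pr hf (ES (TD f ε)) E1 ∧
      ∀ F, F ⊆ ES (TD f ε) → E1 F →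
      (∃ w', e0 * m ≤ ‖pos ε w' - pos ε y‖ ∧ Reach (F : Set Edg) y w') →
      Src (TD f ε) y (fun u => u ∈ BX v r) (fun w => w ∉ BX v (R - 1)) F := by
  have hH := D.hH
  have hl := D.hl
  have hcW := D.hcW
  have hK20 : 0 < K2 := by linarith
  set κ : ℝ := min (min 1 (D.l / 32)) (e0 / 8) with hκ
  have hκ0 : 0 < κ := lt_min (lt_min one_pos (by positivity)) (by positivity)
  have hκ1 : κ ≤ 1 := (min_le_left _ _).trans (min_le_left _ _)
  have hκl : κ ≤ D.l / 32 := (min_le_left _ _).trans (min_le_right _ _)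
  have hκe : 8 * κ ≤ e0 := by
    have : κ ≤ e0 / 8 := min_le_right _ _
    linarith
  obtain ⟨c1, K1, hc1, hK1, harm⟩ := ext_arm D hδs hK2 hκ0 hκ1 hκl
  set η : ℝ := min (min 1 (δs / 2)) (e0 / (130 * (K2 + 1))) with hη
  have hη0 : 0 < η := lt_min (lt_min one_pos (by positivity)) (by positivity)
  have hη1 : η ≤ 1 := (min_le_left _ _).trans (min_le_left _ _)
  have hηδ : 2 * η ≤ δs := by
    have : η ≤ δs / 2 := (min_le_left _ _).trans (min_le_right _ _)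
    linarith
  have hηe : 130 * (K2 + 1) * η ≤ e0 := by
    have h1 : η ≤ e0 / (130 * (K2 + 1)) := min_le_right _ _
    rw [le_div_iff₀ (by positivity)] at h1
    linarith
  refine ⟨min (c1 * (η / Λ) ^ (1 / 3 : ℝ)) (D.cW * (D.cW * (η / Λ) ^ (1 / 3 : ℝ))),
    K1 * (1 + 1 / δs * 2), lt_min (by positivity) (by positivity), ?_, ?_⟩
  · have h1 : 0 < 1 / δs * 2 := by positivity
    nlinarith
  intro ε m y w θ v r R hε hε0 hw hfw hKε hwm hm2 hwθ hB hr hrR hrL hRL hΛR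
  have hvw := base_dist D hw hwθ hB
  set a := 1 - ‖w‖ with ha
  have hs0 : 0 < 1 / δs * 2 := by positivity
  have hK1a : K1 * ε ≤ a := by
    have h1 : K1 * (1 + 1 / δs * 2) * ε = K1 * ε + K1 * ε * (1 / δs * 2) := by ring
    have h2 : 0 < K1 * ε * (1 / δs * 2) := by positivity
    linarith
  have hεa : ε ≤ a := by nlinarith
  have ha0 : 0 < a := hε.trans_le hεa
  have hm0 : 0 < m := ha0.trans_le hwm
  have ha1 : a ≤ 1 := by linarith [norm_nonneg w]
  have hrr : (0 : ℝ) < r := by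
    have h1 : 0 < min m δs := lt_min hm0 hδs
    have : 0 < ε * r := lt_of_lt_of_le (by positivity) hr
    exact (mul_pos_iff_of_pos_left hε).mp this
  have hrr' : (0 : ℤ) < r := by exact_mod_cast hrr
  have hRR : (0 : ℝ) < R := by exact_mod_cast (by omega : (0 : ℤ) < R)
  have hceil : ∀ t : ℝ, t ≤ min m δs → ⌈K2 * t / ε⌉ ≤ r := by
    intro t ht
    rw [Int.ceil_le, div_le_iff₀ hε]
    have h1 : K2 * t ≤ K2 * min m δs := mul_le_mul_of_nonneg_left ht hK20.le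
    linarith
  rcases lt_or_ge a (η * m) with hc | hc
  · -- near the boundary
    set r1 : ℤ := ⌈K2 * (η * m) / ε⌉ with hr1
    have hr1r : r1 ≤ r := by
      apply hceil
      apply le_min
      · nlinarith
      · nlinarith
    have g1 : K2 * (η * m) ≤ ε * r1 := by
      have h1 := Int.le_ceil (K2 * (η * m) / ε)
      rw [div_le_iff₀ hε, ← hr1] at h1
      linarith
    have g2 : ε * r1 ≤ (K2 + 1) * (η * m) := by
      have h1 := (Int.ceil_lt_add_one (K2 * (η * m) / ε)).le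
      have h2 : ε * (r1 : ℝ) ≤ ε * (K2 * (η * m) / ε + 1) := mul_le_mul_of_nonneg_left h1 hε.le
      have h3 : ε * (K2 * (η * m) / ε + 1) = K2 * (η * m) + ε := by field_simp
      linarith
    have hr10 : (0 : ℝ) < r1 := by
      have : 0 < ε * r1 := lt_of_lt_of_le (by positivity) g1
      exact (mul_pos_iff_of_pos_left hε).mp this
    have hr10' : (0 : ℤ) < r1 := by exact_mod_cast hr10
    have hHT := (D.win (TD f ε) v _ hB.2.2 r1 r1 (by omega) le_rfl (by omega)).2.2 (by omega)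
    have hXT := (D.win (TD f ε) v _ hB.2.2 r1 R (by omega) (by omega) hRL).2.1
    have hXT' : D.cW * (η / Λ) ^ (1 / 3 : ℝ) ≤ Pr hf (ES (TD f ε)) (XT (TD f ε) v r1 R) := by
      refine le_trans (mul_le_mul_of_nonneg_left ?_ hcW.le) hXT
      apply Real.rpow_le_rpow (by positivity) _ (by norm_num)
      rw [div_le_div_iff₀ hΛ hRR]
      have h1 : ε * (η * R) ≤ ε * (r1 * Λ) := by
        calc ε * (η * R) = η * (ε * R) := by ring
          _ ≤ η * (Λ * m) := mul_le_mul_of_nonneg_left hΛR hη0.le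
          _ = 1 * (η * m) * Λ := by ring
          _ ≤ K2 * (η * m) * Λ := by
              apply mul_le_mul_of_nonneg_right _ hΛ.le
              apply mul_le_mul_of_nonneg_right _ (by positivity)
              linarith
          _ ≤ ε * r1 * Λ := mul_le_mul_of_nonneg_right g1 hΛ.le
          _ = _ := by ring
      exact le_of_mul_le_mul_left h1 hε
    have i1 := CHN.HT_incr (ES (TD f ε)) (TD f ε) v r1 (64 * r1)
    have i2 := CHN.XT_incr (ES (TD f ε)) (TD f ε) v r1 R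
    refine ⟨_, and_incr i1 i2, (min_le_right _ _).trans (hars i1 i2 hHT hXT' (by positivity)), ?_⟩
    rintro F hF ⟨⟨b, -, -, -, hbl⟩, u, hu, hur, w1, hw1, hw1R, hr1'⟩ ⟨w', hw', hyw'⟩
    have hyT : y ∈ TD f ε := by
      refine ((D.gd ε hε hε0).1 y).mpr ?_
      rw [← hfw]
      exact ⟨w, disc_of hw.le, rfl⟩
    have hw'T : w' ∈ TD f ε := reach_mem (fun e he => hF (by exact_mod_cast he)) hyT hyw'
    have hyv : y ∈ BX v r1 := by
      apply ALO.mem_BX_of hε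
      rw [← hfw, norm_sub_rev]
      refine hvw.trans ?_
      have h1 : K2 * (η * m) = D.H * (η * m) + 5 * (η * m) := by rw [hK2]; ring
      have h2 : D.H * a ≤ D.H * (η * m) := mul_le_mul_of_nonneg_left hc.le hH.le
      have h3 : 0 < η * m := by positivity
      linarith
    have hw'v : w' ∉ BX v (64 * r1 - 1) := by
      intro h
      have h1 := ARM1.norm_pos_sub hε h
      push_cast at h1
      have h2 : pos ε w' - pos ε y = (pos ε w' - pos ε v) + (pos ε v - f w) := by rw [← hfw]; ring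
      have h3 := norm_add_le (pos ε w' - pos ε v) (pos ε v - f w)
      rw [← h2] at h3
      have h4 : 130 * (K2 + 1) * η * m ≤ e0 * m := mul_le_mul_of_nonneg_right hηe hm0.le
      have h5 : D.H * a ≤ D.H * (η * m) := mul_le_mul_of_nonneg_left hc.le hH.le
      have h6 : 0 < η * m := by positivity
      have h7 : (K2 + 1) * (η * m) = D.H * (η * m) + 6 * (η * m) := by rw [hK2]; ring
      have h8 : 130 * (K2 + 1) * η * m = 130 * ((K2 + 1) * (η * m)) := by ring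
      have h9 : 2 * ((64 * r1 - 1) : ℝ) * ε = 128 * (ε * r1) - 2 * ε := by ring
      nlinarith
    have k1 := CHN.meets hF hbl hyT hyv hw'T hw'v hyw'
    have k2 := CHN.meets hF hbl hu hur hw1 (fun h => hw1R (BX_mono (by omega) h)) hr1'
    exact ⟨u, hu, BX_mono hr1r hur, k1.symm.trans k2, w1, hw1, hw1R, hr1'⟩
  · -- in the interior
    obtain ⟨δ, hδ⟩ : ∃ δ : ℝ, δ = min a δs := ⟨_, rfl⟩
    have hδa : δ ≤ a := by rw [hδ]; exact min_le_left _ _
    have hδδs : δ ≤ δs := by rw [hδ]; exact min_le_right _ _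
    have hηm : η * m ≤ δ := by
      rw [hδ]
      apply le_min hc
      nlinarith
    have hδ0 : 0 < δ := lt_of_lt_of_le (by positivity) hηm
    have hK1δ : K1 * ε ≤ δ := by
      rw [hδ]
      apply le_min hK1a
      have h1 : K1 * (1 + 1 / δs * 2) * ε = K1 * ε + K1 * ε * (1 / δs * 2) := by ring
      have h2 : K1 * ε * (1 / δs * 2) ≤ 1 := by
        have : 0 < K1 * ε := by positivity
        linarith
      have h3 : K1 * ε * (1 / δs * 2) = K1 * ε * 2 / δs := by ring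
      rw [h3, div_le_one hδs] at h2
      have : 0 < K1 * ε := by positivity
      linarith
    have hδr : ⌈K2 * δ / ε⌉ ≤ r := hceil δ (le_min (hδa.trans hwm) hδδs)
    obtain ⟨E1, hi, hp, hE⟩ := harm ε y w θ δ v hε hε0 hw hfw hδ hK1δ hwθ hB R (by omega)
      (by omega) hRL
    refine ⟨E1, hi, (min_le_left _ _).trans (le_trans (mul_le_mul_of_nonneg_left ?_ hc1.le) hp), ?_⟩
    · apply Real.rpow_le_rpow (by positivity) _ (by norm_num)
      rw [div_le_div_iff₀ hΛ (by positivity)]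
      calc η * (ε * R) ≤ η * (Λ * m) := mul_le_mul_of_nonneg_left hΛR hη0.le
        _ = η * m * Λ := by ring
        _ ≤ δ * Λ := mul_le_mul_of_nonneg_right hηm hΛ.le
    · rintro F hF hE1 ⟨w', hw', hr'⟩
      refine Src_mono (fun u hu => BX_mono hδr hu) (fun _ h => h) (hE F hF hE1 ⟨w', ?_, hr'⟩)
      refine lt_of_lt_of_le ?_ hw'
      have h1 : 8 * κ * m ≤ e0 * m := mul_le_mul_of_nonneg_right hκe hm0.le
      have h2 : κ * δ ≤ κ * m := mul_le_mul_of_nonneg_left (hδa.trans hwm) hκ0.le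
      have h3 : 0 < κ * m := by positivity
      nlinarith

end Run7.h663.PA
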