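import Pool.Agent.Run7.h663.PA.ArcUp

/-!
The probability that two interior points are connected: bounds in the different regimes.
-/

set_option autoImplicit false

namespace Run7.h663.PA

open H974 hiding Blk okhalf
open H973 hiding okhalf
open Finset
open Pool.Agent.Y989.SD
open Pool.Agent.H160R2.CV (nv P ar Far)
open Pool.Agent.H160R2.CV.Quad (bo LA)

variable {f : ℂ → ℂ}

/-- the two points are connected -/
noncomputable def PP (f : ℂ → ℂ) (ε : ℝ) (x y : Vtx) : ℝ :=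
  Pr hf (ES (TD f ε)) (fun F => Reach (F : Set Edg) x y)

theorem PP_comm (f : ℂ → ℂ) (ε : ℝ) (x y : Vtx) : PP f ε x y = PP f ε y x := by
  unfold PP
  apply Pr_congr
  exact fun F _ => ⟨fun h => h.symm, fun h => h.symm⟩

theorem PP_le_one (f : ℂ → ℂ) (ε : ℝ) (x y : Vtx) : PP f ε x y ≤ 1 := Pr_le_one okh _ _

/-- **General lower bound.** -/
theorem two_low (D : Dom f) : ∃ c K0 ε1 : ℝ, 0 < c ∧ 1 ≤ K0 ∧ 0 < ε1 ∧ ε1 ≤ D.ε0 ∧
    ∀ (ε A : ℝ) (x y : Vtx) (z w : ℂ), 0 < ε → ε ≤ ε1 → ‖z‖ < 1 → ‖w‖ < 1 → f z = pos ε x →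
    f w = pos ε y → K0 * ε ≤ 1 - ‖z‖ → K0 * ε ≤ 1 - ‖w‖ → 1 - ‖z‖ ≤ A → 1 - ‖w‖ ≤ A →
    ‖z - w‖ ≤ A → A ≤ 2 →
    c * ((ε / (1 - ‖z‖)) ^ (5 / 48 : ℝ) * (ε / (1 - ‖w‖)) ^ (5 / 48 : ℝ) *
      (((1 - ‖z‖) / A) ^ (1 / 3 : ℝ) * ((1 - ‖w‖) / A) ^ (1 / 3 : ℝ))) ≤ PP f ε x y := by
  have hH := D.hH
  have hρ := D.hρ
  have hcW := D.hcW
  obtain ⟨K3, hK3⟩ : ∃ K3 : ℝ, K3 = 5 * D.H + 12 := ⟨_, rfl⟩
  obtain ⟨A0, hA0⟩ : ∃ A0 : ℝ, A0 = D.ρ / (128 * (K3 + 1)) := ⟨_, rfl⟩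
  have hK30 : 0 < K3 := by linarith
  have hA00 : 0 < A0 := by rw [hA0]; positivity
  obtain ⟨c1, K1, hc1, hK1, hwin⟩ := win_src D hK3 hA0
  obtain ⟨c2, K2, ε1, hc2, hK2, hε1, hε1', hglob⟩ := glob_src D
  set ρ' : ℝ := D.ρ / 200 with hρ'
  have hρ'0 : 0 < ρ' := by positivity
  set C1 : ℝ := c1 * c1 * D.cW with hC1
  set C2 : ℝ := c2 * c2 * (D.cW * (1 / 64) ^ (1 / 3 : ℝ)) * (A0 ^ (1 / 3 : ℝ) * A0 ^ (1 / 3 : ℝ))
    with hC2
  have hC10 : 0 < C1 := by positivity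
  have hC20 : 0 < C2 := by positivity
  refine ⟨min C1 C2, max K1 K2, min ε1 (ρ' / 16), lt_min hC10 hC20,
    hK1.trans (le_max_left _ _), lt_min hε1 (by positivity),
    (min_le_left _ _).trans hε1', ?_⟩
  intro ε A x y z w hε hεε hz hw hfz hfw hKz hKw hzA hwA hzw hA2
  have hεε1 : ε ≤ ε1 := hεε.trans (min_le_left _ _)
  have hερ : ε ≤ ρ' / 16 := hεε.trans (min_le_right _ _)
  have hε0 : ε ≤ D.ε0 := hεε1.trans hε1'
  obtain ⟨-, hG2, -⟩ := D.gd ε hε hε0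
  set δz := 1 - ‖z‖ with hδz
  set δw := 1 - ‖w‖ with hδw
  have hK1z : K1 * ε ≤ δz := (mul_le_mul_of_nonneg_right (le_max_left _ _) hε.le).trans hKz
  have hK2z : K2 * ε ≤ δz := (mul_le_mul_of_nonneg_right (le_max_right _ _) hε.le).trans hKz
  have hK1w : K1 * ε ≤ δw := (mul_le_mul_of_nonneg_right (le_max_left _ _) hε.le).trans hKw
  have hK2w : K2 * ε ≤ δw := (mul_le_mul_of_nonneg_right (le_max_right _ _) hε.le).trans hKw
  have hεz : ε ≤ δz := by nlinarith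
  have hεw : ε ≤ δw := by nlinarith
  have hδz0 : 0 < δz := hε.trans_le hεz
  have hδw0 : 0 < δw := hε.trans_le hεw
  have hAp : 0 < A := hδz0.trans_le hzA
  obtain ⟨θ, hθ⟩ := exists_dir z
  obtain ⟨v0, hv0, hv0', hv0W⟩ := hG2 θ
  have hB0 : Bp f ε D.ρ D.B D.α θ v0 := ⟨hv0, hv0', hv0W⟩
  have hzθ := dir_dist hz.le hθ
  have hwθ : ‖w - cir θ‖ ≤ 2 * A := by
    have h1 : w - cir θ = -(z - w) + (z - cir θ) := by ring
    rw [h1]
    refine (norm_add_le _ _).trans ?_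
    rw [norm_neg, hzθ]
    linarith
  set X := (ε / δz) ^ (5 / 48 : ℝ) * (ε / δw) ^ (5 / 48 : ℝ) *
      ((δz / A) ^ (1 / 3 : ℝ) * (δw / A) ^ (1 / 3 : ℝ)) with hX
  have hX0 : 0 ≤ X := by positivity
  rcases le_total A A0 with hAs | hAl
  · refine (mul_le_mul_of_nonneg_right (min_le_left C1 C2) hX0).trans ?_
    have h1 := hwin ε A x z θ v0 hε hε0 hz hfz hK1z hzA (by rw [hzθ]; linarith) hAs hB0
    have h2 := hwin ε A y w θ v0 hε hε0 hw hfw hK1w hwA (by linarith) hAs hB0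
    set r0 : ℤ := ⌈K3 * A / ε⌉ with hr0
    have hr02 : ε * r0 ≤ (K3 + 1) * A := by
      have h1 := (Int.ceil_lt_add_one (K3 * A / ε)).le
      have h2 : ε * (r0 : ℝ) ≤ ε * (K3 * A / ε + 1) := mul_le_mul_of_nonneg_left h1 hε.le
      have h3 : ε * (K3 * A / ε + 1) = K3 * A + ε := by field_simp
      linarith
    have hr00' : (0 : ℤ) < r0 := by
      rw [hr0]
      apply Int.ceil_pos.mpr
      positivity
    have hL : 128 * r0 ≤ ⌊D.ρ / ε⌋ := by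
      rw [Int.le_floor, le_div_iff₀ hε]
      push_cast
      have h1 : A * (128 * (K3 + 1)) ≤ D.ρ := by
        rw [hA0, le_div_iff₀ (by positivity)] at hAs
        exact hAs
      nlinarith
    have h3 := (D.win (TD f ε) v0 _ hv0W r0 r0 (by omega) le_rfl (by omega)).2.2 hL
    have i1 := Src_incr (ES (TD f ε)) (TD f ε) x (fun u => u ∈ BX v0 r0)
      (fun w => w ∉ BX v0 (64 * r0 - 1))
    have i2 := Src_incr (ES (TD f ε)) (TD f ε) y (fun u => u ∈ BX v0 r0)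
      (fun w => w ∉ BX v0 (64 * r0 - 1))
    have i3 := CHN.HT_incr (ES (TD f ε)) (TD f ε) v0 r0 (64 * r0)
    have g1 := hars i1 i2 h1 h2 (by positivity)
    have g2 := hars (and_incr i1 i2) i3 g1 h3 hcW.le
    refine le_trans (le_of_eq ?_) (g2.trans ?_)
    · rw [hC1, hX]
      ring
    · unfold PP
      apply Pr_mono okh
      rintro F hF ⟨⟨hs, hs'⟩, b, hb, -, -, hbl⟩
      exact (Src_blk hF hs hbl).symm.trans (Src_blk hF hs' hbl)
  · refine (mul_le_mul_of_nonneg_right (min_le_right C1 C2) hX0).trans ?_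
    have h1 := hglob ε x z θ v0 hε hεε1 hz hfz hK2z hB0
    have h2 := hglob ε y w θ v0 hε hεε1 hw hfw hK2w hB0
    set N : ℤ := ⌊ρ' / ε⌋ with hN
    have hN1 : ε * N ≤ ρ' := by
      have h1 := Int.floor_le (ρ' / ε)
      rw [le_div_iff₀ hε, ← hN] at h1
      linarith
    have hN2 : ρ' - ε ≤ ε * N := by
      have h1 := (Int.lt_floor_add_one (ρ' / ε)).le
      rw [div_le_iff₀ hε, ← hN] at h1
      linarith
    have hN0 : (0 : ℝ) < N := by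
      have : 0 < ε * N := by linarith
      exact (mul_pos_iff_of_pos_left hε).mp this
    have hN0' : (0 : ℤ) < N := by exact_mod_cast hN0
    have hL : 200 * N ≤ ⌊D.ρ / ε⌋ := by
      rw [Int.le_floor, le_div_iff₀ hε]
      push_cast
      rw [hρ'] at hN1
      linarith
    have h3 := (D.win (TD f ε) v0 _ hv0W N (64 * N) (by omega) (by omega) (by omega)).2.1
    have h3' : D.cW * (1 / 64) ^ (1 / 3 : ℝ) ≤ Pr hf (ES (TD f ε)) (XT (TD f ε) v0 N (64 * N)) := by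
      refine le_trans (le_of_eq ?_) h3
      congr 2
      push_cast
      field_simp
    have i0 : ∀ q : Vtx, IncrE (ES (TD f ε)) (fun F => ∃ b ∈ TD f ε, Reach (F : Set Edg) b q ∧
        Pool.Agent.Y989.SD.Blk (TD f ε) (fun u => u ∈ BX v0 N)
          (fun w => w ∉ BX v0 (64 * N - 1)) b F) := by
      rintro q F G hFG - ⟨b, hb, h1, h2⟩
      exact ⟨b, hb, h1.mono (by exact_mod_cast hFG), ALO.Blk_mono hFG h2⟩
    have i3 := CHN.XT_incr (ES (TD f ε)) (TD f ε) v0 N (64 * N)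
    have g1 := hars (i0 x) (i0 y) h1 h2 (by positivity)
    have g2 := hars (and_incr (i0 x) (i0 y)) i3 g1 h3' (by positivity)
    refine le_trans ?_ (g2.trans ?_)
    · have e1 : A0 ^ (1 / 3 : ℝ) * (δz / A) ^ (1 / 3 : ℝ) ≤ δz ^ (1 / 3 : ℝ) := by
        rw [← Real.mul_rpow hA00.le (by positivity)]
        apply Real.rpow_le_rpow (by positivity) _ (by norm_num)
        rw [mul_div_assoc', div_le_iff₀ hAp]
        nlinarith
      have e2 : A0 ^ (1 / 3 : ℝ) * (δw / A) ^ (1 / 3 : ℝ) ≤ δw ^ (1 / 3 : ℝ) := by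
        rw [← Real.mul_rpow hA00.le (by positivity)]
        apply Real.rpow_le_rpow (by positivity) _ (by norm_num)
        rw [mul_div_assoc', div_le_iff₀ hAp]
        nlinarith
      have e3 := mul_le_mul e1 e2 (by positivity) (by positivity)
      calc C2 * X = c2 * c2 * (D.cW * (1 / 64) ^ (1 / 3 : ℝ)) * ((ε / δz) ^ (5 / 48 : ℝ) *
            (ε / δw) ^ (5 / 48 : ℝ)) * (A0 ^ (1 / 3 : ℝ) * (δz / A) ^ (1 / 3 : ℝ) *
            (A0 ^ (1 / 3 : ℝ) * (δw / A) ^ (1 / 3 : ℝ))) := by rw [hC2, hX]; ring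
        _ ≤ c2 * c2 * (D.cW * (1 / 64) ^ (1 / 3 : ℝ)) * ((ε / δz) ^ (5 / 48 : ℝ) *
            (ε / δw) ^ (5 / 48 : ℝ)) * (δz ^ (1 / 3 : ℝ) * δw ^ (1 / 3 : ℝ)) :=
            mul_le_mul_of_nonneg_left e3 (by positivity)
        _ = _ := by ring
    · unfold PP
      apply Pr_mono okh
      rintro F hF ⟨⟨⟨b, hb, hbx, hbl⟩, b', hb', hby, hbl'⟩, u, hu, huN, u', hu', huN', hr⟩
      have k1 := CHN.meets hF hbl hu huN hu' huN' hr
      have k2 := CHN.meets hF hbl' hu huN hu' huN' hr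
      exact (hbx.symm.trans k1).trans (k2.symm.trans hby)

/-- **Close points: lower bound.** -/
theorem two_loc_low (D : Dom f) : ∃ c : ℝ, 0 < c ∧
    ∀ (ε : ℝ) (x y : Vtx) (z w : ℂ), 0 < ε → ε ≤ D.ε0 → ‖z‖ < 1 → ‖w‖ < 1 → f z = pos ε x →
    f w = pos ε y → x ≠ y → 36 * D.H * ‖z - w‖ ≤ D.l * (1 - ‖z‖) →
    c * (ε / ‖z - w‖) ^ (5 / 24 : ℝ) ≤ PP f ε x y := by
  have hH := D.hH
  have hl := D.hl
  obtain ⟨c0, C0, hc0, -, har⟩ := ar_sharp
  refine ⟨(1 / 2 : ℝ) ^ 188 * (c0 * c0) * (8 * D.H) ^ (-(5 / 24 : ℝ)), by positivity, ?_⟩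
  intro ε x y z w hε hε0 hz hw hfz hfw hxy hloc
  set a : ℕ := nv (y - x) with ha
  have ha1 : 1 ≤ a := by
    by_contra hc
    have h1 : nv (y - x) = 0 := by omega
    exact hxy (sub_eq_zero.mp (Pool.Agent.H160R2.CV.Quad.nv_eq_zero h1)).symm
  have hap : (0 : ℝ) < a := by exact_mod_cast ha1
  -- the distance in the lattice
  have hdist : ε * a ≤ ‖pos ε y - pos ε x‖ := by
    obtain ⟨h1, h2⟩ := AUP.pos_low hε y x
    have h3 : (a : ℝ) = max |(y.1 : ℝ) - x.1| |(y.2 : ℝ) - x.2| := by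
      rw [ha]
      unfold nv
      push_cast
      rw [Nat.cast_natAbs, Nat.cast_natAbs]
      simp
    rw [h3, mul_max_of_nonneg _ _ hε.le]
    exact max_le h1 h2
  have hwz : w ≠ z := by
    rintro rfl
    rw [hfz] at hfw
    rw [hfw, sub_self, norm_zero] at hdist
    have : 0 < ε * a := by positivity
    linarith
  have hD0 : 0 < ‖z - w‖ := by rw [norm_pos_iff, sub_ne_zero]; exact hwz.symm
  have hD : ε * a ≤ D.H * ‖z - w‖ := by
    refine hdist.trans ?_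
    rw [← hfz, ← hfw, norm_sub_rev z w]
    exact (D.lip w (disc_of hw.le) z (disc_of hz.le)).2
  have hbox : ∀ q ∈ BX x ((9 * a : ℕ) : ℤ), q ∈ TD f ε := by
    refine D.box hε hε0 hz (e := 0) (by rw [hfz, sub_self, norm_zero]) ?_
    push_cast
    have : 0 < ε * a := by positivity
    nlinarith
  have hb1 : ∀ q ∈ BX x ((8 * a : ℕ) : ℤ), q ∈ TD f ε := fun q hq =>
    hbox q (BX_mono (by push_cast; omega) hq)
  have hb2 : ∀ q ∈ BX y ((8 * a : ℕ) : ℤ), q ∈ TD f ε := by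
    intro q hq
    apply hbox
    have h1 : nv (y - x) ≤ a := le_rfl
    rw [nv_le] at h1
    rw [mem_BX] at hq ⊢
    push_cast at hq ⊢
    omega
  have hb3 : bo x (3 * (2 * a)) ⊆ ES (TD f ε) := bo_sub (fun q hq =>
    hbox q (BX_mono (by push_cast; omega) hq))
  have h1 := circ_lower (n := 2 * a) (by omega) hb3
  have h2 := far_lower (bo_sub hb1)
  have h3 := far_lower (bo_sub hb2)
  have i1 := H362P.CA_incr (ES (TD f ε)) x (2 * a) (3 * (2 * a))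
  have i2 : IncrE (ES (TD f ε)) (Far x (8 * a)) := Pool.Agent.H160R2.CV.TwoAux.far_incr _ _ _
  have i3 : IncrE (ES (TD f ε)) (Far y (8 * a)) := Pool.Agent.H160R2.CV.TwoAux.far_incr _ _ _
  have p0 := (Pool.Agent.H160R2.CV.ar_pos (8 * a)).le
  have g1 := hars i1 i2 h1 h2 p0
  have g2 := hars (and_incr i1 i2) i3 g1 h3 p0
  refine le_trans ?_ (g2.trans ?_)
  · have e1 := (har (8 * a) (by omega)).1
    have e2 : 0 ≤ c0 * ((8 * a : ℕ) : ℝ) ^ (-(5 / 48 : ℝ)) := by positivity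
    have e3 := mul_le_mul e1 e1 e2 p0
    have e4 : (8 * D.H) ^ (-(5 / 24 : ℝ)) * (ε / ‖z - w‖) ^ (5 / 24 : ℝ) ≤
        ((8 * a : ℕ) : ℝ) ^ (-(5 / 48 : ℝ)) * ((8 * a : ℕ) : ℝ) ^ (-(5 / 48 : ℝ)) := by
      rw [← Real.rpow_add (by push_cast; positivity)]
      have e5 : (8 * D.H) ^ (-(5 / 24 : ℝ)) * (ε / ‖z - w‖) ^ (5 / 24 : ℝ) =
          (8 * D.H * (‖z - w‖ / ε)) ^ (-(5 / 24 : ℝ)) := by
        rw [Real.mul_rpow (x := 8 * D.H) (by positivity) (by positivity), rpow_inv_eq hD0 hε]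
      rw [e5, show -(5 / 48 : ℝ) + -(5 / 48 : ℝ) = -(5 / 24 : ℝ) by norm_num]
      refine Real.rpow_le_rpow_of_nonpos (by push_cast; positivity) ?_ (by norm_num)
      push_cast
      rw [mul_div_assoc', le_div_iff₀ hε]
      nlinarith
    calc (1 / 2 : ℝ) ^ 188 * (c0 * c0) * (8 * D.H) ^ (-(5 / 24 : ℝ)) *
          (ε / ‖z - w‖) ^ (5 / 24 : ℝ) =
          (1 / 2 : ℝ) ^ 188 * (c0 * c0) * ((8 * D.H) ^ (-(5 / 24 : ℝ)) *
          (ε / ‖z - w‖) ^ (5 / 24 : ℝ)) := by ring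
      _ ≤ (1 / 2 : ℝ) ^ 188 * (c0 * c0) * (((8 * a : ℕ) : ℝ) ^ (-(5 / 48 : ℝ)) *
          ((8 * a : ℕ) : ℝ) ^ (-(5 / 48 : ℝ))) := mul_le_mul_of_nonneg_left e4 (by positivity)
      _ = (1 / 2 : ℝ) ^ 188 * (c0 * ((8 * a : ℕ) : ℝ) ^ (-(5 / 48 : ℝ)) *
          (c0 * ((8 * a : ℕ) : ℝ) ^ (-(5 / 48 : ℝ)))) := by ring
      _ ≤ (1 / 2 : ℝ) ^ 188 * (ar (8 * a) * ar (8 * a)) :=
          mul_le_mul_of_nonneg_left e3 (by positivity)
      _ = _ := by ring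
  · unfold PP
    apply Pr_mono okh
    rintro F - ⟨⟨k1, u, hu, hxu⟩, v, hv, hyv⟩
    obtain ⟨b, hb⟩ := H362P.CA_meet (by omega) k1
    have m1 := hb x u (by simp [nv]) (by omega) hxu
    have m2 := hb y v (by omega) (by
      have h1 : nv (y - x) ≤ a := le_rfl
      rw [nv_le] at h1
      rw [le_nv] at hv ⊢
      push_cast at hv ⊢
      omega) hyv
    exact m1.trans m2.symm

/-- **Upper bound by the distance.** -/
theorem two_loc_up (D : Dom f) : ∃ C : ℝ, 0 < C ∧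
    ∀ (ε : ℝ) (x y : Vtx) (z w : ℂ), 0 < ε → ‖z‖ < 1 → ‖w‖ < 1 → f z = pos ε x →
    f w = pos ε y → x ≠ y → PP f ε x y ≤ C * (ε / ‖z - w‖) ^ (5 / 24 : ℝ) := by
  have hH := D.hH
  have hl := D.hl
  obtain ⟨c0, C0, hc0, hC0, har⟩ := ar_sharp
  set κ := D.l / 8 with hκ
  have hκ0 : 0 < κ := by positivity
  refine ⟨(C0 * C0 + 1) * κ ^ (-(5 / 24 : ℝ)), by positivity, ?_⟩
  intro ε x y z w hε hz hw hfz hfw hxy
  set a : ℕ := nv (y - x) with ha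
  have ha1 : 1 ≤ a := by
    by_contra hc
    have h1 : nv (y - x) = 0 := by omega
    exact hxy (sub_eq_zero.mp (Pool.Agent.H160R2.CV.Quad.nv_eq_zero h1)).symm
  have hap : (0 : ℝ) < a := by exact_mod_cast ha1
  have hzw : z ≠ w := by
    rintro rfl
    rw [hfz] at hfw
    apply hxy
    have h1 := congrArg Complex.re hfw
    have h2 := congrArg Complex.im hfw
    simp only [pos] at h1 h2
    have h3 : (x.1 : ℝ) = y.1 := mul_left_cancel₀ hε.ne' h1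
    have h4 : (x.2 : ℝ) = y.2 := mul_left_cancel₀ hε.ne' h2
    exact Prod.ext (by exact_mod_cast h3) (by exact_mod_cast h4)
  have hD0 : 0 < ‖z - w‖ := by rw [norm_pos_iff, sub_ne_zero]; exact hzw
  have hdist : D.l * ‖z - w‖ ≤ 2 * a * ε := by
    have h1 := (D.lip w (disc_of hw.le) z (disc_of hz.le)).1
    rw [hfz, hfw, norm_sub_rev w z] at h1
    refine h1.trans ?_
    have h2 : y ∈ BX x (a : ℤ) := mem_BX_nv.mpr le_rfl
    have h3 := ARM1.norm_pos_sub hε h2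
    push_cast at h3
    exact h3
  -- the final comparison
  have hfin : ∀ n : ℕ, 1 ≤ n → a ≤ 4 * n → (n : ℝ) ^ (-(5 / 48 : ℝ)) * (n : ℝ) ^ (-(5 / 48 : ℝ)) ≤
      κ ^ (-(5 / 24 : ℝ)) * (ε / ‖z - w‖) ^ (5 / 24 : ℝ) := by
    intro n hn1 hn
    have hn0 : (0 : ℝ) < n := by exact_mod_cast hn1
    rw [← Real.rpow_add hn0]
    have e5 : κ ^ (-(5 / 24 : ℝ)) * (ε / ‖z - w‖) ^ (5 / 24 : ℝ) =
        (κ * (‖z - w‖ / ε)) ^ (-(5 / 24 : ℝ)) := by
      rw [Real.mul_rpow (x := κ) (by positivity) (by positivity), rpow_inv_eq hD0 hε]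
    rw [e5, show -(5 / 48 : ℝ) + -(5 / 48 : ℝ) = -(5 / 24 : ℝ) by norm_num]
    refine Real.rpow_le_rpow_of_nonpos (by positivity) ?_ (by norm_num)
    rw [mul_div_assoc', div_le_iff₀ hε]
    have h1 : (a : ℝ) ≤ 4 * n := by exact_mod_cast hn
    have h2 : (a : ℝ) * ε ≤ 4 * n * ε := mul_le_mul_of_nonneg_right h1 hε.le
    rw [hκ]
    linarith
  have hp : 0 ≤ κ ^ (-(5 / 24 : ℝ)) * (ε / ‖z - w‖) ^ (5 / 24 : ℝ) := by positivity
  by_cases h3 : 3 ≤ a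
  · set n : ℕ := (a - 1) / 2 with hn
    have hn1 : 1 ≤ n := by omega
    have hdj : Disjoint (bo x n) (bo y n) := by
      apply Pool.Agent.H160R2.CV.Quad.bo_disj
      rw [Pool.Agent.H160R2.CV.w_nv_comm]
      omega
    have h1 : PP f ε x y ≤ Pr P (ES (TD f ε)) (fun F => LA x n F ∧ LA y n F) := by
      refine Pr_mono okh ?_
      intro F _ hr
      refine ⟨Pool.Agent.H160R2.CV.Quad.LA_of_reach (u := y) (by omega) hr,
        Pool.Agent.H160R2.CV.Quad.LA_of_reach (u := x) ?_ hr.symm⟩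
      rw [Pool.Agent.H160R2.CV.w_nv_comm]
      omega
    have h2 := Pool.Agent.H160R2.CV.Quad.indep2 (ES (TD f ε)) (bo x n) (bo y n) hdj
      (Pool.Agent.H160R2.CV.Quad.LA_inc x n) (Pool.Agent.H160R2.CV.Quad.LA_inc y n)
      (Pool.Agent.H160R2.CV.Quad.LA_loc (Finset.Subset.refl _))
      (Pool.Agent.H160R2.CV.Quad.LA_loc (Finset.Subset.refl _))
    have h3 := Pool.Agent.H160R2.CV.Quad.pr_LA (bo x n) x n
    have h4 := Pool.Agent.H160R2.CV.Quad.pr_LA (bo y n) y n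
    have p0 := (Pool.Agent.H160R2.CV.ar_pos n).le
    have h5 := (har n hn1).2
    calc PP f ε x y ≤ ar n * ar n := h1.trans (h2.trans
          (mul_le_mul h3 h4 (Pr_nonneg Pool.Agent.H160R2.CV.Quad.okP _ _) p0))
      _ ≤ (C0 * (n : ℝ) ^ (-(5 / 48 : ℝ))) * (C0 * (n : ℝ) ^ (-(5 / 48 : ℝ))) :=
          mul_le_mul h5 h5 p0 (p0.trans h5)
      _ = C0 * C0 * ((n : ℝ) ^ (-(5 / 48 : ℝ)) * (n : ℝ) ^ (-(5 / 48 : ℝ))) := by ring
      _ ≤ C0 * C0 * (κ ^ (-(5 / 24 : ℝ)) * (ε / ‖z - w‖) ^ (5 / 24 : ℝ)) :=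
          mul_le_mul_of_nonneg_left (hfin n hn1 (by omega)) (by positivity)
      _ ≤ (C0 * C0 + 1) * (κ ^ (-(5 / 24 : ℝ)) * (ε / ‖z - w‖) ^ (5 / 24 : ℝ)) := by
          apply mul_le_mul_of_nonneg_right _ hp
          linarith
      _ = _ := by ring
  · have h1 := hfin 1 le_rfl (by omega)
    rw [Nat.cast_one, Real.one_rpow, one_mul] at h1
    calc PP f ε x y ≤ 1 := PP_le_one _ _ _ _
      _ ≤ κ ^ (-(5 / 24 : ℝ)) * (ε / ‖z - w‖) ^ (5 / 24 : ℝ) := h1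
      _ ≤ (C0 * C0 + 1) * (κ ^ (-(5 / 24 : ℝ)) * (ε / ‖z - w‖) ^ (5 / 24 : ℝ)) := by
          have : 0 ≤ C0 * C0 := by positivity
          nlinarith
      _ = _ := by ring

/-- **Upper bound for separated points.** -/
theorem two_up (D : Dom f) {c1 : ℝ} (hc1 : 0 < c1) (hc11 : c1 ≤ 1) : ∃ C K0 : ℝ, 0 < C ∧ 1 ≤ K0 ∧
    ∀ (ε A : ℝ) (x y : Vtx) (z w : ℂ), 0 < ε → ε ≤ D.ε0 → ‖z‖ < 1 → ‖w‖ < 1 → f z = pos ε x →
    f w = pos ε y → K0 * ε ≤ 1 - ‖z‖ → K0 * ε ≤ 1 - ‖w‖ → 1 - ‖z‖ ≤ A → 1 - ‖w‖ ≤ A →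
    A ≤ 2 → c1 * A ≤ ‖z - w‖ →
    PP f ε x y ≤ C * ((ε / (1 - ‖z‖)) ^ (5 / 48 : ℝ) * (ε / (1 - ‖w‖)) ^ (5 / 48 : ℝ) *
      (((1 - ‖z‖) / A) ^ (1 / 3 : ℝ) * ((1 - ‖w‖) / A) ^ (1 / 3 : ℝ))) := by
  have hl := D.hl
  have hρ := D.hρ
  set κ : ℝ := min (c1 * D.l / 8) (min (D.ρ / 2) 1) with hκ
  have hκ0 : 0 < κ := lt_min (by positivity) (lt_min (by positivity) one_pos)
  have hκl : 8 * κ ≤ c1 * D.l := by
    have : κ ≤ c1 * D.l / 8 := min_le_left _ _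
    linarith
  have hκρ : 2 * κ ≤ D.ρ := by
    have : κ ≤ D.ρ / 2 := (min_le_right _ _).trans (min_le_left _ _)
    linarith
  have hκ1 : κ ≤ 1 := (min_le_right _ _).trans (min_le_right _ _)
  have hκl' : 4 * κ ≤ D.l := by
    have : c1 * D.l ≤ 1 * D.l := mul_le_mul_of_nonneg_right hc11 hl.le
    linarith
  obtain ⟨C1, K1, hC1, hK1, hup⟩ := up_x D hκ0 hκρ hκl' hκ1
  refine ⟨C1 * C1, K1, by positivity, hK1, ?_⟩
  intro ε A x y z w hε hε0 hz hw hfz hfw hKz hKw hzA hwA hA2 hA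
  have hδz0 : 0 < 1 - ‖z‖ := by linarith
  have hδw0 : 0 < 1 - ‖w‖ := by linarith
  have hA0 : 0 < A := hδz0.trans_le hzA
  obtain ⟨S, hS, hloc⟩ := hup ε A x z hε hε0 hz hfz hKz hzA hA2
  obtain ⟨S', hS', hloc'⟩ := hup ε A y w hε hε0 hw hfw hKw hwA hA2
  have hdist : 8 * κ * A ≤ ‖f z - f w‖ := by
    refine le_trans ?_ (D.lip z (disc_of hz.le) w (disc_of hw.le)).1
    calc 8 * κ * A ≤ c1 * D.l * A := mul_le_mul_of_nonneg_right hκl hA0.le
      _ = D.l * (c1 * A) := by ring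
      _ ≤ _ := mul_le_mul_of_nonneg_left hA hl.le
  have hκA : 0 < κ * A := by positivity
  have h1 := hloc (fun F => Reach (F : Set Edg) x y) (by
    intro F hF hr
    refine ⟨y, ?_, hr⟩
    rw [← hfw, norm_sub_rev]
    linarith)
  have h2 := hloc' (fun F => Reach (F : Set Edg) x y) (by
    intro F hF hr
    refine ⟨x, ?_, hr.symm⟩
    rw [← hfz]
    linarith)
  have hd : Disjoint S S' := by
    rw [Finset.disjoint_left]
    intro e he he'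
    have h3 := hS e he
    have h4 := hS' e he'
    have h5 : f z - f w = -(pos ε (H974.src e) - f z) + (pos ε (H974.src e) - f w) := by ring
    have h6 := norm_add_le (-(pos ε (H974.src e) - f z)) (pos ε (H974.src e) - f w)
    rw [← h5, norm_neg] at h6
    linarith
  refine (Loc.two hd h1 h2 (by positivity)).trans (le_of_eq ?_)
  ring

end Run7.h663.PA
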