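import Pool.Agent.Run7.h663.PA.KExt
import Pool.Agent.Run7.h663.PA.Two

/-!
The probability that finitely many interior points are connected: the lower bounds.
-/

set_option autoImplicit false

namespace Run7.h663.PA

open H974 hiding Blk okhalf
open H973 hiding okhalf
open Finset
open Pool.Agent.Y989.SD
open Pool.Agent.H160R2.CV (nv P ar Far)
open Pool.Agent.H160R2.CV.Quad (bo)

variable {f : ℂ → ℂ}

/-- **Close points: lower bound.** -/
theorem klow_close (D : Dom f) {e0 : ℝ} (he0 : 0 < e0) : ∃ c : ℝ, 0 < c ∧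
    ∀ (ε : ℝ) (x y v : Vtx) (z w : ℂ) (X X' : Finset Vtx), 0 < ε → ε ≤ D.ε0 → ‖z‖ < 1 → ‖w‖ < 1 →
    f z = pos ε x → f w = pos ε y → x ≠ y → z ≠ w → 36 * D.H * ‖w - z‖ ≤ D.l * (1 - ‖w‖) →
    X ⊆ insert x X' → y ∈ X' → v ∈ X' → e0 * ‖w - z‖ ≤ ‖pos ε v - pos ε y‖ →
    c * (ε / ‖w - z‖) ^ (5 / 48 : ℝ) * KP f ε X' ≤ KP f ε X := by
  have hH := D.hH
  have hl := D.hl
  obtain ⟨c0, C0, hc0, hC0, har⟩ := ar_sharp
  obtain ⟨c1, hc1, hloc⟩ := two_loc_low D
  set κ : ℝ := min (D.H / 8) (e0 / 16) with hκ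
  have hκ0 : 0 < κ := lt_min (by positivity) (by positivity)
  have hκH : 8 * κ ≤ D.H := by
    have : κ ≤ D.H / 8 := min_le_left _ _
    linarith
  have hκe : 16 * κ ≤ e0 := by
    have : κ ≤ e0 / 16 := min_le_right _ _
    linarith
  obtain ⟨M, hM⟩ := exists_nat_gt (8 * D.H / κ)
  have hM0 : 0 < (M : ℝ) := lt_of_le_of_lt (by positivity) hM
  rw [div_lt_iff₀ hκ0] at hM
  have hcc := cc_pos
  set ca : ℝ := c1 * (κ / 8) ^ (5 / 48 : ℝ) with hca
  set cb : ℝ := cc ^ (M + 1) * (c0 * (4 * κ) ^ (-(5 / 48 : ℝ))) with hcb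
  have hca0 : 0 < ca := by positivity
  have hcb0 : 0 < cb := by positivity
  refine ⟨min ca cb, lt_min hca0 hcb0, ?_⟩
  intro ε x y v z w X X' hε hε0 hz hw hfz hfw hxy hzw hcl hX hy hv hdv
  have hd : 0 < ‖w - z‖ := by rw [norm_pos_iff, sub_ne_zero]; exact hzw.symm
  set d := ‖w - z‖ with hdd
  have hHd : ‖pos ε x - pos ε y‖ ≤ D.H * d := by
    rw [← hfz, ← hfw, hdd, norm_sub_rev w z]
    exact (D.lip z (disc_of hz.le) w (disc_of hw.le)).2
  have hE0 : 0 ≤ (ε / d) ^ (5 / 48 : ℝ) := by positivity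
  have hKP := KP_nonneg f ε X'
  rcases lt_or_ge (κ * d) (8 * ε) with hsm | hlg
  · -- a bounded number of lattice steps
    have h1 := hloc ε y x w z hε hε0 hw hz hfw hfz hxy.symm hcl
    have h2 : ca * (ε / d) ^ (5 / 48 : ℝ) ≤ PP f ε y x := by
      refine le_trans ?_ h1
      rw [hca, mul_assoc]
      apply mul_le_mul_of_nonneg_left _ hc1.le
      have h3 : (ε / d) ^ (5 / 24 : ℝ) = (ε / d) ^ (5 / 48 : ℝ) * (ε / d) ^ (5 / 48 : ℝ) := by
        rw [← Real.rpow_add (by positivity)]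
        norm_num
      rw [h3]
      apply mul_le_mul_of_nonneg_right _ hE0
      apply Real.rpow_le_rpow (by positivity) _ (by norm_num)
      rw [div_le_div_iff₀ (by norm_num) hd]
      linarith
    have h4 := low_abs (E := ES (TD f ε)) (E' := fun F => Reach (F : Set Edg) y x) hX hy
      (p := ca * (ε / d) ^ (5 / 48 : ℝ)) (by positivity)
      (by rintro F G h - hr; exact hr.mono (by exact_mod_cast h)) h2
      (fun F _ _ hr => hr.symm)
    refine le_trans ?_ h4
    apply mul_le_mul_of_nonneg_right _ hKP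
    exact mul_le_mul_of_nonneg_right (min_le_left _ _) hE0
  · -- the chain
    set n : ℕ := ⌊κ * d / ε⌋₊ with hn
    have hn1 : (n : ℝ) ≤ κ * d / ε := Nat.floor_le (by positivity)
    have hn2 : κ * d / ε < n + 1 := Nat.lt_floor_add_one _
    have hn8 : 8 ≤ n := by
      rw [hn]
      apply Nat.le_floor
      rw [le_div_iff₀ hε]
      push_cast
      exact hlg
    rw [le_div_iff₀ hε] at hn1
    rw [div_lt_iff₀ hε] at hn2
    have hn8' : (8 : ℝ) ≤ n := by exact_mod_cast hn8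
    have hκd : 0 < κ * d := by positivity
    choose q hq using fun j : ℕ => exists_round hε
      (pos ε y + ((j / M : ℝ) : ℂ) * (pos ε x - pos ε y))
    have hq0 : ‖pos ε y - pos ε (q 0)‖ ≤ ε := by
      have h1 := hq 0
      rw [norm_sub_rev]
      simpa using h1
    have hqM : ‖pos ε x - pos ε (q M)‖ ≤ ε := by
      have h1 := hq M
      rw [div_self hM0.ne', Complex.ofReal_one, one_mul, add_sub_cancel] at h1
      rwa [norm_sub_rev]
    have hqj : ∀ j < M + 1, ‖pos ε (q j) - f w‖ ≤ D.H * d + ε := by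
      intro j hj
      have h1 := hq j
      have h2 : pos ε (q j) - f w = (pos ε (q j) - (pos ε y + ((j / M : ℝ) : ℂ) *
          (pos ε x - pos ε y))) + ((j / M : ℝ) : ℂ) * (pos ε x - pos ε y) := by
        rw [hfw]
        ring
      rw [h2]
      refine (norm_add_le _ _).trans ?_
      have h3 : ‖((j / M : ℝ) : ℂ) * (pos ε x - pos ε y)‖ ≤ 1 * (D.H * d) := by
        rw [norm_mul, Complex.norm_real, Real.norm_eq_abs, abs_of_nonneg (by positivity)]
        apply mul_le_mul _ hHd (norm_nonneg _) (by norm_num)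
        rw [div_le_one hM0]
        exact_mod_cast Nat.lt_succ_iff.mp hj
      linarith
    have hbox : ∀ j < M + 1, ∀ y ∈ BX (q j) ((4 * n : ℕ) : ℤ), y ∈ TD f ε := by
      intro j hj
      refine D.box hε hε0 hw (hqj j hj) ?_
      push_cast
      have h1 : 8 * κ * d ≤ D.H * d := mul_le_mul_of_nonneg_right hκH hd.le
      have h2 : 0 < D.H * d := by positivity
      nlinarith
    have hboxx : ∀ y ∈ BX x ((4 * n : ℕ) : ℤ), y ∈ TD f ε := by
      refine D.box hε hε0 hw (e := D.H * d) (by rw [hfw]; exact hHd) ?_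
      push_cast
      have h1 : 8 * κ * d ≤ D.H * d := mul_le_mul_of_nonneg_right hκH hd.le
      have h2 : 0 < D.H * d := by positivity
      nlinarith
    have hstep : ∀ j < M, 2 * nv (q (j + 1) - q j) ≤ n := by
      intro j hj
      have h1 := hq j
      have h2 := hq (j + 1)
      have h3 : pos ε (q (j + 1)) - pos ε (q j) =
          (pos ε (q (j + 1)) - (pos ε y + (((j + 1 : ℕ) / M : ℝ) : ℂ) * (pos ε x - pos ε y))) +
          ((1 / M : ℝ) : ℂ) * (pos ε x - pos ε y) +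
          -(pos ε (q j) - (pos ε y + ((j / M : ℝ) : ℂ) * (pos ε x - pos ε y))) := by
        push_cast
        ring
      have h4 : ‖((1 / M : ℝ) : ℂ) * (pos ε x - pos ε y)‖ ≤ κ * d / 8 := by
        rw [norm_mul, Complex.norm_real, Real.norm_eq_abs, abs_of_nonneg (by positivity)]
        have h5 : 1 / (M : ℝ) * ‖pos ε x - pos ε y‖ ≤ 1 / (M : ℝ) * (D.H * d) :=
          mul_le_mul_of_nonneg_left hHd (by positivity)
        refine h5.trans ?_
        rw [one_div_mul_eq_div, div_le_iff₀ hM0]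
        nlinarith
      have h5 : ‖pos ε (q (j + 1)) - pos ε (q j)‖ ≤ κ * d / 8 + 2 * ε := by
        rw [h3]
        refine norm_add₃_le.trans ?_
        rw [norm_neg]
        linarith
      have h6 : nv (q (j + 1) - q j) ≤ n / 2 := by
        refine nv_le_of hε h5 ?_
        have h7 : (n : ℝ) ≤ 2 * ((n / 2 : ℕ) : ℝ) + 1 := by
          have : n ≤ 2 * (n / 2) + 1 := by omega
          exact_mod_cast this
        nlinarith
      omega
    have hbo : ∀ j < M + 1, bo (q j) (4 * n) ⊆ ES (TD f ε) := fun j hj => bo_sub (hbox j hj)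
    have g1 := chain_lower (p := q) (M := M) (by omega) hbo
    have g2 := far_lower (bo_sub hboxx)
    have i1 := Chain_incr (ES (TD f ε)) q n M
    have i2 : IncrE (ES (TD f ε)) (Far x (4 * n)) := Pool.Agent.H160R2.CV.TwoAux.far_incr _ _ _
    have g3 := hars i1 i2 g1 g2 (Pool.Agent.H160R2.CV.ar_pos _).le
    have h4n : 4 * κ * (d / ε) = 4 * (κ * d / ε) := by ring
    have har4 : c0 * (4 * κ) ^ (-(5 / 48 : ℝ)) * (ε / d) ^ (5 / 48 : ℝ) ≤ ar (4 * n) := by
      refine le_trans ?_ (har (4 * n) (by omega)).1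
      rw [mul_assoc]
      apply mul_le_mul_of_nonneg_left _ hc0.le
      have h5 : (4 * κ) ^ (-(5 / 48 : ℝ)) * (ε / d) ^ (5 / 48 : ℝ) =
          (4 * κ * (d / ε)) ^ (-(5 / 48 : ℝ)) := by
        rw [Real.mul_rpow (x := 4 * κ) (by positivity) (by positivity), rpow_inv_eq hd hε]
      rw [h5]
      refine Real.rpow_le_rpow_of_nonpos (by push_cast; positivity) ?_ (by norm_num)
      rw [h4n]
      push_cast
      have : (n : ℝ) ≤ κ * d / ε := by rw [le_div_iff₀ hε]; exact hn1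
      linarith
    have h2 : cb * (ε / d) ^ (5 / 48 : ℝ) ≤ Pr hf (ES (TD f ε))
        (fun F => Chain q n M F ∧ Far x (4 * n) F) := by
      refine le_trans ?_ g3
      rw [hcb, mul_assoc]
      exact mul_le_mul_of_nonneg_left har4 (by positivity)
    have h4 := low_abs (E := ES (TD f ε)) hX hy (p := cb * (ε / d) ^ (5 / 48 : ℝ))
      (by positivity) (and_incr i1 i2) h2 (by
        rintro F _ hC ⟨hch, w', hw', hxw⟩
        obtain ⟨ζ, hζ⟩ := chain_meet (by omega) hstep hch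
        have n1 : nv (y - q 0) ≤ 1 := nv_le_of hε hq0 (by push_cast; linarith)
        have n2 : nv (x - q M) ≤ 1 := nv_le_of hε hqM (by push_cast; linarith)
        have n3 : 3 * n ≤ nv (v - q 0) := by
          by_contra hcon
          push Not at hcon
          have h5 := ARM1.norm_pos_sub hε (mem_BX_nv.mpr hcon.le)
          push_cast at h5
          have h6 : pos ε v - pos ε y = (pos ε v - pos ε (q 0)) + -(pos ε y - pos ε (q 0)) := by
            ring
          have h7 := norm_add_le (pos ε v - pos ε (q 0)) (-(pos ε y - pos ε (q 0)))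
          rw [← h6, norm_neg] at h7
          have h8 : 16 * κ * d ≤ e0 * d := mul_le_mul_of_nonneg_right hκe hd.le
          nlinarith
        have n4 : 3 * n ≤ nv (w' - q M) := by
          rw [nv_le] at n2
          rw [le_nv] at hw' ⊢
          push_cast at hw' n2 ⊢
          omega
        have k1 := hζ 0 (by omega) y v (by omega) n3 (hC y hy v hv)
        have k2 := hζ M (by omega) x w' (by omega) n4 hxw
        exact k2.trans k1.symm)
    refine le_trans ?_ h4
    apply mul_le_mul_of_nonneg_right _ hKP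
    exact mul_le_mul_of_nonneg_right (min_le_right _ _) hE0

/-- **Separated points: lower bound.** -/
theorem klow_far (D : Dom f) {e0 : ℝ} (he0 : 0 < e0) : ∃ c K0 ε1 : ℝ, 0 < c ∧ 1 ≤ K0 ∧ 0 < ε1 ∧
    ε1 ≤ D.ε0 ∧ ∀ (ε m : ℝ) (x y v : Vtx) (z w : ℂ) (X X' : Finset Vtx), 0 < ε → ε ≤ ε1 →
    ‖z‖ < 1 → ‖w‖ < 1 → f z = pos ε x → f w = pos ε y → K0 * ε ≤ 1 - ‖z‖ → K0 * ε ≤ 1 - ‖w‖ →
    1 - ‖z‖ ≤ m → 1 - ‖w‖ ≤ m → ‖z - w‖ ≤ m → m ≤ 2 → X ⊆ insert x X' → y ∈ X' → v ∈ X' →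
    e0 * m ≤ ‖pos ε v - pos ε y‖ →
    c * ((ε / (1 - ‖z‖)) ^ (5 / 48 : ℝ) * ((1 - ‖z‖) / m) ^ (1 / 3 : ℝ)) * KP f ε X' ≤
      KP f ε X := by
  have hH := D.hH
  have hρ := D.hρ
  have hcW := D.hcW
  obtain ⟨K3, hK3⟩ : ∃ K3 : ℝ, K3 = 5 * D.H + 12 := ⟨_, rfl⟩
  obtain ⟨A0, hA0⟩ : ∃ A0 : ℝ, A0 = D.ρ / (128 * (K3 + 1)) := ⟨_, rfl⟩
  have hK30 : 0 < K3 := by linarith
  have hA00 : 0 < A0 := by rw [hA0]; positivity
  obtain ⟨K2, hK2⟩ : ∃ K2 : ℝ, K2 = D.H + 5 := ⟨_, rfl⟩
  have hK20 : 0 < K2 := by linarith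
  set ρ' : ℝ := D.ρ / 200 with hρ'
  have hρ'0 : 0 < ρ' := by positivity
  set δs : ℝ := min 1 (ρ' / (4 * K2)) with hδs
  have hδs0 : 0 < δs := lt_min one_pos (by positivity)
  have hδs2 : K2 * δs ≤ ρ' / 4 := by
    have h1 : δs ≤ ρ' / (4 * K2) := min_le_right _ _
    rw [le_div_iff₀ (by positivity)] at h1
    linarith
  obtain ⟨c1, K1, hc1, hK1, hwin⟩ := win_src D hK3 hA0
  obtain ⟨c2, K2', ε1, hc2, hK2', hε1, hε1', hglob⟩ := glob_src D
  obtain ⟨c3, K3', hc3, hK3', hext1⟩ := ext D (δs := 1) (e0 := e0) (Λ := 64 * (K3 + 1))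
    one_pos he0 (by positivity) hK2
  obtain ⟨c4, K4', hc4, hK4', hext2⟩ := ext D (δs := δs) (e0 := e0) (Λ := 64 * ρ' / A0)
    hδs0 he0 (by positivity) hK2
  set C1 : ℝ := c3 * (c1 * D.cW) with hC1
  set C2 : ℝ := c4 * (c2 * A0 ^ (1 / 3 : ℝ)) with hC2
  have hC10 : 0 < C1 := by positivity
  have hC20 : 0 < C2 := by positivity
  refine ⟨min C1 C2, K1 + K2' + K3' + K4', min ε1 (ρ' / 8), lt_min hC10 hC20,
    by linarith, lt_min hε1 (by positivity), (min_le_left _ _).trans hε1', ?_⟩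
  intro ε m x y v z w X X' hε hεε hz hw hfz hfw hKz hKw hzm hwm hzw hm2 hX hy hv hdv
  have hεε1 : ε ≤ ε1 := hεε.trans (min_le_left _ _)
  have hερ : ε ≤ ρ' / 8 := hεε.trans (min_le_right _ _)
  have hε0 : ε ≤ D.ε0 := hεε1.trans hε1'
  obtain ⟨-, hG2, -⟩ := D.gd ε hε hε0
  set a := 1 - ‖z‖ with ha
  have q1 : 0 < K1 * ε := by positivity
  have q2 : 0 < K2' * ε := by positivity
  have q3 : 0 < K3' * ε := by positivity
  have q4 : 0 < K4' * ε := by positivity
  have hK1z : K1 * ε ≤ a := by nlinarith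
  have hK2z : K2' * ε ≤ a := by nlinarith
  have hK3w : K3' * ε ≤ 1 - ‖w‖ := by nlinarith
  have hK4w : K4' * ε ≤ 1 - ‖w‖ := by nlinarith
  have hεa : ε ≤ a := by nlinarith
  have ha0 : 0 < a := hε.trans_le hεa
  have hm0 : 0 < m := ha0.trans_le hzm
  have hεm : ε ≤ m := hεa.trans hzm
  obtain ⟨θ, hθ⟩ := exists_dir w
  obtain ⟨v0, hv0, hv0', hv0W⟩ := hG2 θ
  have hB0 : Bp f ε D.ρ D.B D.α θ v0 := ⟨hv0, hv0', hv0W⟩
  have hwθ := dir_dist hw.le hθ
  have hzθ : ‖z - cir θ‖ ≤ 3 * m := by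
    have h1 : z - cir θ = (z - w) + (w - cir θ) := by ring
    rw [h1]
    refine (norm_add_le _ _).trans ?_
    rw [hwθ]
    linarith
  set Y := (ε / a) ^ (5 / 48 : ℝ) * (a / m) ^ (1 / 3 : ℝ) with hY
  have hY0 : 0 ≤ Y := by positivity
  have hKP := KP_nonneg f ε X'
  rcases le_total m A0 with hAs | hAl
  · -- in a window
    have h1 := hwin ε m x z θ v0 hε hε0 hz hfz hK1z hzm hzθ hAs hB0
    set r0 : ℤ := ⌈K3 * m / ε⌉ with hr0
    have hr01 : K3 * m ≤ ε * r0 := by
      have h1 := Int.le_ceil (K3 * m / ε)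
      rw [div_le_iff₀ hε, ← hr0] at h1
      linarith
    have hr02 : ε * r0 ≤ (K3 + 1) * m := by
      have h1 := (Int.ceil_lt_add_one (K3 * m / ε)).le
      have h2 : ε * (r0 : ℝ) ≤ ε * (K3 * m / ε + 1) := mul_le_mul_of_nonneg_left h1 hε.le
      have h3 : ε * (K3 * m / ε + 1) = K3 * m + ε := by field_simp
      linarith
    have hr00' : (0 : ℤ) < r0 := by
      rw [hr0]
      apply Int.ceil_pos.mpr
      positivity
    have hL : 128 * r0 ≤ ⌊D.ρ / ε⌋ := by
      rw [Int.le_floor, le_div_iff₀ hε]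
      push_cast
      have h1 : m * (128 * (K3 + 1)) ≤ D.ρ := by
        rw [hA0, le_div_iff₀ (by positivity)] at hAs
        exact hAs
      nlinarith
    have h3 := (D.win (TD f ε) v0 _ hv0W r0 r0 (by omega) le_rfl (by omega)).2.2 hL
    obtain ⟨E1, hi1, hp1, hE1⟩ := hext1 ε m y w θ v0 r0 (64 * r0) hε hε0 hw hfw hK3w hwm hm2 hθ
      hB0 (by
        have h1 : min m 1 ≤ m := min_le_left _ _
        have h2 : K2 * min m 1 ≤ K2 * m := mul_le_mul_of_nonneg_left h1 hK20.le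
        have h3 : K3 * m = K2 * m + (4 * D.H * m + 7 * m) := by rw [hK3, hK2]; ring
        have h4 : 0 < D.H * m := by positivity
        linarith) le_rfl hL (by omega) (by push_cast; linarith)
    have i1 := Src_incr (ES (TD f ε)) (TD f ε) x (fun u => u ∈ BX v0 r0)
      (fun w => w ∉ BX v0 (64 * r0 - 1))
    have i3 := CHN.HT_incr (ES (TD f ε)) (TD f ε) v0 r0 (64 * r0)
    have g1 := hars i1 i3 h1 h3 hcW.le
    have g2 := hars hi1 (and_incr i1 i3) hp1 g1 (by positivity)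
    have h4 := low_abs (E := ES (TD f ε)) hX hy (p := c3 * (c1 * Y * D.cW)) (by positivity)
      (and_incr hi1 (and_incr i1 i3)) g2 (by
        rintro F hF hC ⟨hE, hs, b, -, -, -, hbl⟩
        have hs' := hE1 F hF hE ⟨v, hdv, hC y hy v hv⟩
        exact (Src_blk hF hs hbl).symm.trans (Src_blk hF hs' hbl))
    refine le_trans ?_ h4
    apply mul_le_mul_of_nonneg_right _ hKP
    calc min C1 C2 * Y ≤ C1 * Y := mul_le_mul_of_nonneg_right (min_le_left _ _) hY0
      _ = _ := by rw [hC1]; ring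
  · -- at macroscopic scale
    have h1 := hglob ε x z θ v0 hε hεε1 hz hfz hK2z hB0
    set N : ℤ := ⌊ρ' / ε⌋ with hN
    have hN1 : ε * N ≤ ρ' := by
      have h1 := Int.floor_le (ρ' / ε)
      rw [le_div_iff₀ hε, ← hN] at h1
      linarith
    have hN2 : ρ' - ε ≤ ε * N := by
      have h1 := (Int.lt_floor_add_one (ρ' / ε)).le
      rw [div_le_iff₀ hε, ← hN] at h1
      linarith
    have hN0 : (0 : ℝ) < N := by
      have : 0 < ε * N := by linarith
      exact (mul_pos_iff_of_pos_left hε).mp this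
    have hN0' : (0 : ℤ) < N := by exact_mod_cast hN0
    have hL : 200 * N ≤ ⌊D.ρ / ε⌋ := by
      rw [Int.le_floor, le_div_iff₀ hε]
      push_cast
      rw [hρ'] at hN1
      linarith
    obtain ⟨E1, hi1, hp1, hE1⟩ := hext2 ε m y w θ v0 N (64 * N) hε hε0 hw hfw hK4w hwm hm2 hθ
      hB0 (by
        have h1 : min m δs ≤ δs := min_le_right _ _
        have h2 : K2 * min m δs ≤ K2 * δs := mul_le_mul_of_nonneg_left h1 hK20.le
        linarith) le_rfl (by omega) (by omega) (by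
        push_cast
        rw [div_mul_eq_mul_div, le_div_iff₀ hA00]
        have h1 : ε * (64 * N) * A0 ≤ 64 * ρ' * A0 := by
          apply mul_le_mul_of_nonneg_right _ hA00.le
          linarith
        have h2 : 64 * ρ' * A0 ≤ 64 * ρ' * m := mul_le_mul_of_nonneg_left hAl (by positivity)
        linarith)
    have i0 : IncrE (ES (TD f ε)) (fun F => ∃ b ∈ TD f ε, Reach (F : Set Edg) b x ∧
        Pool.Agent.Y989.SD.Blk (TD f ε) (fun u => u ∈ BX v0 N)
          (fun w => w ∉ BX v0 (64 * N - 1)) b F) := by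
      rintro F G hFG - ⟨b, hb, h1, h2⟩
      exact ⟨b, hb, h1.mono (by exact_mod_cast hFG), ALO.Blk_mono hFG h2⟩
    have g2 := hars hi1 i0 hp1 h1 (by positivity)
    have h4 := low_abs (E := ES (TD f ε)) hX hy
      (p := c4 * (c2 * ((ε / a) ^ (5 / 48 : ℝ) * a ^ (1 / 3 : ℝ)))) (by positivity)
      (and_incr hi1 i0) g2 (by
        rintro F hF hC ⟨hE, b, hb, hbx, hbl⟩
        have hs' := hE1 F hF hE ⟨v, hdv, hC y hy v hv⟩
        exact hbx.symm.trans (Src_blk hF hs' hbl))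
    refine le_trans ?_ h4
    apply mul_le_mul_of_nonneg_right _ hKP
    have e1 : A0 ^ (1 / 3 : ℝ) * (a / m) ^ (1 / 3 : ℝ) ≤ a ^ (1 / 3 : ℝ) := by
      rw [← Real.mul_rpow hA00.le (by positivity)]
      apply Real.rpow_le_rpow (by positivity) _ (by norm_num)
      rw [mul_div_assoc', div_le_iff₀ hm0]
      nlinarith
    calc min C1 C2 * Y ≤ C2 * Y := mul_le_mul_of_nonneg_right (min_le_right _ _) hY0
      _ = c4 * (c2 * ((ε / a) ^ (5 / 48 : ℝ) * (A0 ^ (1 / 3 : ℝ) * (a / m) ^ (1 / 3 : ℝ)))) := by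
          rw [hC2, hY]; ring
      _ ≤ _ := by
          apply mul_le_mul_of_nonneg_left _ hc4.le
          apply mul_le_mul_of_nonneg_left _ hc2.le
          exact mul_le_mul_of_nonneg_left e1 (by positivity)

end Run7.h663.PA
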