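import Pool.Agent.Run7.h663.PA.KLow
import Pool.Agent.Run7.h663.PA.TwoMain

/-!
The probability that finitely many interior points are connected: adding a point next to the others.
-/

set_option autoImplicit false

namespace Run7.h663.PA

open H974 hiding Blk okhalf
open H973 hiding okhalf
open Finset
open Pool.Agent.Y989.SD
open Pool.Agent.H160R2.CV (nv P ar Far)

variable {f : ℂ → ℂ}

/-- the factor of a new point -/
noncomputable def LG (ε a m d : ℝ) : ℝ :=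
  (ε / a) ^ (5 / 48 : ℝ) * (m / d) ^ (5 / 48 : ℝ) * (a / m) ^ (1 / 3 : ℝ)

theorem LG_eq {ε a m d : ℝ} (hε : 0 < ε) (ha : 0 < a) (hm : 0 < m) (hd : 0 < d) :
    LG ε a m d = (ε / d) ^ (5 / 48 : ℝ) * ((m / a) ^ (5 / 48 : ℝ) * (a / m) ^ (1 / 3 : ℝ)) := by
  unfold LG
  rw [← mul_assoc, ← Real.mul_rpow (by positivity) (by positivity),
    ← Real.mul_rpow (by positivity) (by positivity)]
  congr 2
  field_simp

/-- **Adding a point, in terms of the factor.** -/
theorem kstep (D : Dom f) {Q : ℝ} (hQ : 1 ≤ Q) : ∃ c C K0 ε1 : ℝ, 0 < c ∧ 0 < C ∧ 1 ≤ K0 ∧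
    0 < ε1 ∧ ε1 ≤ D.ε0 ∧ ∀ (ε : ℝ) (x y v : Vtx) (z w : ℂ) (X X' : Finset Vtx), 0 < ε → ε ≤ ε1 →
    ‖z‖ < 1 → ‖w‖ < 1 → f z = pos ε x → f w = pos ε y → K0 * ε ≤ 1 - ‖z‖ → K0 * ε ≤ 1 - ‖w‖ →
    x ∈ X → X' ⊆ X → X ⊆ insert x X' → y ∈ X' → v ∈ X' → x ≠ y → z ≠ w →
    (∀ u ∈ X', u ∈ TD f ε) →
    (∀ u ∈ X', ‖pos ε x - pos ε y‖ ≤ Q * ‖pos ε u - pos ε x‖) →
    ‖pos ε x - pos ε y‖ ≤ Q * ‖pos ε v - pos ε y‖ →
    c * LG ε (1 - ‖z‖) (mz z w) ‖z - w‖ * KP f ε X' ≤ KP f ε X ∧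
    KP f ε X ≤ C * LG ε (1 - ‖z‖) (mz z w) ‖z - w‖ * KP f ε X' := by
  have hH := D.hH
  have hl := D.hl
  have hQ0 : 0 < Q := by linarith
  -- upper bounds
  set e0 : ℝ := min (D.l / Q) 1 with he0
  have he00 : 0 < e0 := lt_min (by positivity) one_pos
  have he01 : e0 ≤ 1 := min_le_right _ _
  have he0l : e0 * Q ≤ D.l := by
    have h1 : e0 ≤ D.l / Q := min_le_left _ _
    rwa [le_div_iff₀ hQ0] at h1
  obtain ⟨Cb, Kb, η, hCb, hKb, hη, hub⟩ := kup_bd D he00 he01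
  obtain ⟨Ca, hCa, hua⟩ := kup_in D hη he00
  -- lower bounds
  obtain ⟨ca, hca, hla⟩ := klow_close D he00
  obtain ⟨Λ, hΛ⟩ : ∃ Λ : ℝ, Λ = 1 + 72 * D.H / D.l := ⟨_, rfl⟩
  have hΛ1 : 1 ≤ Λ := by
    rw [hΛ]
    have : 0 < 72 * D.H / D.l := by positivity
    linarith
  have hΛ0 : 0 < Λ := by linarith
  obtain ⟨cb, Kc, ε1, hcb, hKc, hε1, hε10, hlb⟩ := klow_far D (e0 := e0 / Λ) (by positivity)
  refine ⟨min (ca / 3) (cb / Λ ^ (5 / 48 : ℝ)),
    Ca * (1 / η + 2) ^ (1 / 3 : ℝ) + Cb * (1 + 2 * η) ^ (1 / 3 : ℝ), Kb + Kc, ε1,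
    lt_min (by positivity) (by positivity), by positivity, by linarith, hε1, hε10, ?_⟩
  intro ε x y v z w X X' hε hεε hz hw hfz hfw hKz hKw hx hX' hX hy hv hxy hzw hT hxu hyv
  obtain ⟨hm, hdm, ham, hbm, hm1, hm2, -⟩ := F2_eq (ε := ε) (r := 1) (s := 1) hz hw hzw
  have hd : 0 < ‖z - w‖ := by rw [norm_pos_iff, sub_ne_zero]; exact hzw
  have hz0 := norm_nonneg z
  have hw0 := norm_nonneg w
  have hmle : mz z w ≤ 2 := by
    unfold mz
    refine (norm_sub_le _ _).trans ?_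
    rw [norm_one, norm_mul, Complex.norm_conj]
    nlinarith
  have hdab : 1 - ‖w‖ ≤ 1 - ‖z‖ + ‖z - w‖ := by
    have := norm_sub_norm_le z w
    linarith
  have hd2 : ‖z - w‖ ≤ 2 := hdm.trans hmle
  have hlip := D.lip z (disc_of hz.le) w (disc_of hw.le)
  rw [hfz, hfw] at hlip
  have hwz : ‖w - z‖ = ‖z - w‖ := norm_sub_rev w z
  set a := 1 - ‖z‖ with ha
  set b := 1 - ‖w‖ with hb
  set d := ‖z - w‖ with hdd
  set m := mz z w with hmm
  have p1 : 0 < Kb * ε := by positivity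
  have p2 : 0 < Kc * ε := by positivity
  have hKbz : Kb * ε ≤ a := by nlinarith
  have hKcz : Kc * ε ≤ a := by nlinarith
  have hKcw : Kc * ε ≤ b := by nlinarith
  have ha0 : 0 < a := by linarith
  have hb0 : 0 < b := by linarith
  have hε0 : ε ≤ D.ε0 := hεε.trans hε10
  have hKP := KP_nonneg f ε X'
  have hLG0 : 0 ≤ LG ε a m d := by unfold LG; positivity
  have hLGe := LG_eq hε ha0 hm hd
  have hdist : ∀ t : ℝ, ‖pos ε x - pos ε y‖ ≤ Q * t → e0 * d ≤ t := by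
    intro t ht
    have h1 : Q * (e0 * d) ≤ Q * t := by
      calc Q * (e0 * d) = e0 * Q * d := by ring
        _ ≤ D.l * d := mul_le_mul_of_nonneg_right he0l hd.le
        _ ≤ _ := hlip.1.trans ht
    exact le_of_mul_le_mul_left h1 hQ0
  have hdx : ∀ u ∈ X', e0 * d ≤ ‖pos ε u - pos ε x‖ := fun u hu => hdist _ (hxu u hu)
  have hdy : e0 * d ≤ ‖pos ε v - pos ε y‖ := hdist _ hyv
  constructor
  · rcases le_or_gt (36 * D.H * d) (D.l * b) with hc | hc
    · -- close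
      have h1 := hla ε x y v z w X X' hε hε0 hz hw hfz hfw hxy hzw (by rw [hwz]; exact hc) hX hy
        hv (by rw [hwz]; exact hdy)
      rw [hwz] at h1
      have hlH : D.l ≤ D.H := by
        have h2 := hlip.1.trans hlip.2
        exact le_of_mul_le_mul_right h2 hd
      have hda : 35 * d ≤ a := by
        have h2 : D.l * b ≤ D.H * b := mul_le_mul_of_nonneg_right hlH hb0.le
        have h3 : D.H * (36 * d) ≤ D.H * b := by linarith
        have h4 := le_of_mul_le_mul_left h3 hH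
        linarith
      have h2 : (m / a) ^ (5 / 48 : ℝ) ≤ 3 := by
        calc (m / a) ^ (5 / 48 : ℝ) ≤ 3 ^ (5 / 48 : ℝ) := by
              apply Real.rpow_le_rpow (by positivity) _ (by norm_num)
              rw [div_le_iff₀ ha0]
              linarith
          _ ≤ 3 ^ (1 : ℝ) := Real.rpow_le_rpow_of_exponent_le (by norm_num) (by norm_num)
          _ = 3 := Real.rpow_one _
      have h3 : (a / m) ^ (1 / 3 : ℝ) ≤ 1 :=
        Real.rpow_le_one (by positivity) (by rw [div_le_one hm]; exact ham) (by norm_num)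
      have h4 : LG ε a m d ≤ (ε / d) ^ (5 / 48 : ℝ) * 3 := by
        rw [hLGe]
        apply mul_le_mul_of_nonneg_left _ (by positivity)
        calc (m / a) ^ (5 / 48 : ℝ) * (a / m) ^ (1 / 3 : ℝ) ≤ 3 * 1 :=
              mul_le_mul h2 h3 (by positivity) (by norm_num)
          _ = 3 := by ring
      refine le_trans ?_ h1
      apply mul_le_mul_of_nonneg_right _ hKP
      calc _ ≤ ca / 3 * ((ε / d) ^ (5 / 48 : ℝ) * 3) :=
            mul_le_mul (min_le_left _ _) h4 hLG0 (by positivity)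
        _ = _ := by ring
    · -- separated
      have hmΛ : m ≤ Λ * d := by
        have h2 : b ≤ 36 * D.H / D.l * d := by
          rw [div_mul_eq_mul_div, le_div_iff₀ hl]
          linarith
        rw [hΛ]
        have h3 : (1 + 72 * D.H / D.l) * d = d + 2 * (36 * D.H / D.l * d) := by ring
        rw [h3]
        linarith
      have h1 := hlb ε m x y v z w X X' hε hεε hz hw hfz hfw hKcz hKcw ham hbm hdm hmle hX hy hv
        (by
          refine le_trans ?_ hdy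
          rw [div_mul_eq_mul_div, div_le_iff₀ hΛ0]
          calc e0 * m ≤ e0 * (Λ * d) := mul_le_mul_of_nonneg_left hmΛ he00.le
            _ = _ := by ring)
      have h4 : LG ε a m d ≤ Λ ^ (5 / 48 : ℝ) * ((ε / a) ^ (5 / 48 : ℝ) * (a / m) ^ (1 / 3 : ℝ)) := by
        unfold LG
        have h5 : (m / d) ^ (5 / 48 : ℝ) ≤ Λ ^ (5 / 48 : ℝ) := by
          apply Real.rpow_le_rpow (by positivity) _ (by norm_num)
          rw [div_le_iff₀ hd]
          exact hmΛ
        calc (ε / a) ^ (5 / 48 : ℝ) * (m / d) ^ (5 / 48 : ℝ) * (a / m) ^ (1 / 3 : ℝ) ≤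
            (ε / a) ^ (5 / 48 : ℝ) * Λ ^ (5 / 48 : ℝ) * (a / m) ^ (1 / 3 : ℝ) := by
              apply mul_le_mul_of_nonneg_right _ (by positivity)
              exact mul_le_mul_of_nonneg_left h5 (by positivity)
          _ = _ := by ring
      refine le_trans ?_ h1
      apply mul_le_mul_of_nonneg_right _ hKP
      have hΛp : 0 < Λ ^ (5 / 48 : ℝ) := by positivity
      calc _ ≤ cb / Λ ^ (5 / 48 : ℝ) * (Λ ^ (5 / 48 : ℝ) * ((ε / a) ^ (5 / 48 : ℝ) *
            (a / m) ^ (1 / 3 : ℝ))) := mul_le_mul (min_le_right _ _) h4 hLG0 (by positivity)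
        _ = _ := by
            rw [← mul_assoc, div_mul_cancel₀ _ hΛp.ne']
  · rcases le_or_gt (η * d) a with hc | hc
    · -- interior
      have h1 := hua ε d x z X X' hε hε0 hz hfz hd hc hx hX' ⟨y, hy⟩ hdx
      have h2 : (ε / d) ^ (5 / 48 : ℝ) ≤ (1 / η + 2) ^ (1 / 3 : ℝ) * LG ε a m d := by
        rw [hLGe]
        have h3 : 1 ≤ (m / a) ^ (5 / 48 : ℝ) :=
          Real.one_le_rpow (by rw [one_le_div ha0]; exact ham) (by norm_num)
        have h4 : 1 ≤ (1 / η + 2) ^ (1 / 3 : ℝ) * (a / m) ^ (1 / 3 : ℝ) := by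
          rw [← Real.mul_rpow (by positivity) (by positivity)]
          apply Real.one_le_rpow _ (by norm_num)
          rw [mul_div_assoc', le_div_iff₀ hm]
          have h5 : d ≤ 1 / η * a := by
            rw [one_div_mul_eq_div, le_div_iff₀ hη]
            linarith
          linarith
        calc (ε / d) ^ (5 / 48 : ℝ) = (ε / d) ^ (5 / 48 : ℝ) * (1 * 1) := by ring
          _ ≤ (ε / d) ^ (5 / 48 : ℝ) * ((m / a) ^ (5 / 48 : ℝ) *
              ((1 / η + 2) ^ (1 / 3 : ℝ) * (a / m) ^ (1 / 3 : ℝ))) := by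
              apply mul_le_mul_of_nonneg_left _ (by positivity)
              exact mul_le_mul h3 h4 (by norm_num) (by positivity)
          _ = _ := by ring
      refine h1.trans ?_
      apply mul_le_mul_of_nonneg_right _ hKP
      calc Ca * (ε / d) ^ (5 / 48 : ℝ) ≤ Ca * ((1 / η + 2) ^ (1 / 3 : ℝ) * LG ε a m d) :=
            mul_le_mul_of_nonneg_left h2 hCa.le
        _ = Ca * (1 / η + 2) ^ (1 / 3 : ℝ) * LG ε a m d := by ring
        _ ≤ _ := by
            apply mul_le_mul_of_nonneg_right _ hLG0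
            have : 0 < Cb * (1 + 2 * η) ^ (1 / 3 : ℝ) := by positivity
            linarith
    · -- near the boundary
      have h1 := hub ε d x z X X' hε hε0 hz hfz hKbz hc.le hd2 hx hX' ⟨y, hy⟩ hT hdx
      have h2 : (ε / a) ^ (5 / 48 : ℝ) * (a / d) ^ (1 / 3 : ℝ) ≤
          (1 + 2 * η) ^ (1 / 3 : ℝ) * LG ε a m d := by
        unfold LG
        have h3 : 1 ≤ (m / d) ^ (5 / 48 : ℝ) :=
          Real.one_le_rpow (by rw [one_le_div hd]; exact hdm) (by norm_num)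
        have h4 : (a / d) ^ (1 / 3 : ℝ) ≤ (1 + 2 * η) ^ (1 / 3 : ℝ) * (a / m) ^ (1 / 3 : ℝ) := by
          apply cbrt_mul_le (by positivity) (by positivity) (by positivity)
          rw [mul_div_assoc', div_le_div_iff₀ hd hm]
          nlinarith
        calc (ε / a) ^ (5 / 48 : ℝ) * (a / d) ^ (1 / 3 : ℝ) =
            (ε / a) ^ (5 / 48 : ℝ) * (1 * (a / d) ^ (1 / 3 : ℝ)) := by ring
          _ ≤ (ε / a) ^ (5 / 48 : ℝ) * ((m / d) ^ (5 / 48 : ℝ) *
              ((1 + 2 * η) ^ (1 / 3 : ℝ) * (a / m) ^ (1 / 3 : ℝ))) := by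
              apply mul_le_mul_of_nonneg_left _ (by positivity)
              exact mul_le_mul h3 h4 (by positivity) (by positivity)
          _ = _ := by ring
      refine h1.trans ?_
      apply mul_le_mul_of_nonneg_right _ hKP
      calc Cb * ((ε / a) ^ (5 / 48 : ℝ) * (a / d) ^ (1 / 3 : ℝ)) ≤
            Cb * ((1 + 2 * η) ^ (1 / 3 : ℝ) * LG ε a m d) := mul_le_mul_of_nonneg_left h2 hCb.le
        _ = Cb * (1 + 2 * η) ^ (1 / 3 : ℝ) * LG ε a m d := by ring
        _ ≤ _ := by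
            apply mul_le_mul_of_nonneg_right _ hLG0
            have : 0 < Ca * (1 / η + 2) ^ (1 / 3 : ℝ) := by positivity
            linarith

/-- the identity behind the factorization -/
theorem LG_id {ε a1 a2 a3 m12 d12 m13 d13 : ℝ} (hε : 0 < ε) (h1 : 0 < a1) (h2 : 0 < a2)
    (h3 : 0 < a3) (hm12 : 0 < m12) (hd12 : 0 < d12) (hm13 : 0 < m13) (hd13 : 0 < d13) :
    LG ε a2 m12 d12 ^ 2 * GG ε a1 a3 m13 d13 =
      GG ε a1 a2 m12 d12 * GG ε a2 a3 m13 d13 := by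
  unfold LG GG
  rw [← two48 (show 0 < m12 / d12 by positivity), ← two48 (show 0 < m13 / d13 by positivity)]
  simp only [Real.div_rpow hε.le h1.le, Real.div_rpow hε.le h2.le, Real.div_rpow hε.le h3.le,
    Real.div_rpow hm12.le hd12.le, Real.div_rpow hm13.le hd13.le, Real.div_rpow h1.le hm12.le,
    Real.div_rpow h2.le hm12.le, Real.div_rpow h1.le hm13.le, Real.div_rpow h2.le hm13.le,
    Real.div_rpow h3.le hm13.le]
  have e1 : a1 ^ (5 / 48 : ℝ) ≠ 0 := by positivity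
  have e2 : a2 ^ (5 / 48 : ℝ) ≠ 0 := by positivity
  have e3 : a3 ^ (5 / 48 : ℝ) ≠ 0 := by positivity
  have e4 : d12 ^ (5 / 48 : ℝ) ≠ 0 := by positivity
  have e5 : d13 ^ (5 / 48 : ℝ) ≠ 0 := by positivity
  have e6 : m12 ^ (1 / 3 : ℝ) ≠ 0 := by positivity
  have e7 : m13 ^ (1 / 3 : ℝ) ≠ 0 := by positivity
  field_simp

/-- comparison of two values of the function `GG` -/
theorem GG_cmp {ε a b m d m' d' q : ℝ} (hε : 0 < ε) (ha : 0 < a) (hb : 0 < b) (hm : 0 < m)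
    (hd : 0 < d) (hm' : 0 < m') (hd' : 0 < d') (hq : 0 < q) (h1 : m ≤ q * m') (h2 : m' ≤ q * m)
    (h3 : d' ≤ q * d) :
    GG ε a b m d ≤ (q * q) ^ (5 / 24 : ℝ) * (q ^ (1 / 3 : ℝ) * q ^ (1 / 3 : ℝ)) *
      GG ε a b m' d' := by
  have e1 : (m / d) ^ (5 / 24 : ℝ) ≤ (q * q) ^ (5 / 24 : ℝ) * (m' / d') ^ (5 / 24 : ℝ) := by
    apply rp (by positivity) (by positivity) (by positivity) (by norm_num)
    rw [mul_div_assoc', div_le_div_iff₀ hd hd']
    calc m * d' ≤ (q * m') * (q * d) := mul_le_mul h1 h3 hd'.le (by positivity)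
      _ = _ := by ring
  have e2 : ∀ t : ℝ, 0 < t → (t / m) ^ (1 / 3 : ℝ) ≤ q ^ (1 / 3 : ℝ) * (t / m') ^ (1 / 3 : ℝ) := by
    intro t ht
    apply rp (by positivity) hq.le (by positivity) (by norm_num)
    rw [mul_div_assoc', div_le_div_iff₀ hm hm']
    nlinarith
  unfold GG
  calc (ε / a) ^ (5 / 48 : ℝ) * (ε / b) ^ (5 / 48 : ℝ) *
        ((m / d) ^ (5 / 24 : ℝ) * ((a / m) ^ (1 / 3 : ℝ) * (b / m) ^ (1 / 3 : ℝ))) ≤
      (ε / a) ^ (5 / 48 : ℝ) * (ε / b) ^ (5 / 48 : ℝ) *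
        (((q * q) ^ (5 / 24 : ℝ) * (m' / d') ^ (5 / 24 : ℝ)) *
        ((q ^ (1 / 3 : ℝ) * (a / m') ^ (1 / 3 : ℝ)) * (q ^ (1 / 3 : ℝ) * (b / m') ^ (1 / 3 : ℝ)))) := by
        apply mul_le_mul_of_nonneg_left _ (by positivity)
        exact mul_le_mul e1 (mul_le_mul (e2 a ha) (e2 b hb) (by positivity) (by positivity))
          (by positivity) (by positivity)
    _ = _ := by ring

end Run7.h663.PA
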