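import Pool.Agent.Run7.h663.PA.KBase

/-!
The probability that finitely many interior points are connected: upper bound near the boundary.
-/

set_option autoImplicit false

namespace Run7.h663.PA

open H974 hiding Blk okhalf
open H973 hiding okhalf
open Finset
open Pool.Agent.Y989.SD
open Pool.Agent.H160R2.CV (nv P ar Far)
open Pool.Agent.H160R2.CV.Quad (bo LA)

variable {f : ℂ → ℂ}

theorem tgt_near (e : Edg) : tgt e ∈ BX (H974.src e) 1 := by
  obtain ⟨a, b, _ | _⟩ := e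
  · rw [mem_BX, src_mk, tgt_false]
    simp only
    omega
  · rw [mem_BX, src_mk, tgt_true]
    simp only
    omega

/-- the distance from a point to its base point -/
theorem base_dist (D : Dom f) {ε ρ B α : ℝ} {z : ℂ} {θ : ℝ} {v : Vtx} (hz : ‖z‖ < 1)
    (hθ : z = (‖z‖ : ℂ) * cir θ) (hB : Bp f ε ρ B α θ v) :
    ‖pos ε v - f z‖ ≤ D.H * (1 - ‖z‖) + 2 * ε := by
  have h1 : pos ε v - f z = (pos ε v - f (cir θ)) + -(f z - f (cir θ)) := by ring
  rw [h1]
  refine (norm_add_le _ _).trans ?_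
  rw [norm_neg]
  have h2 := (D.lip z (disc_of hz.le) (cir θ) (ARM1.cir_mem θ)).2
  rw [dir_dist hz.le hθ] at h2
  linarith [hB.2.1]

/-- **Upper bound, boundary regime.** -/
theorem kup_bd (D : Dom f) {e0 : ℝ} (he0 : 0 < e0) (he1 : e0 ≤ 1) : ∃ C K0 η : ℝ, 0 < C ∧
    1 ≤ K0 ∧ 0 < η ∧ ∀ (ε d : ℝ) (x : Vtx) (z : ℂ) (X X' : Finset Vtx), 0 < ε → ε ≤ D.ε0 →
    ‖z‖ < 1 → f z = pos ε x → K0 * ε ≤ 1 - ‖z‖ → 1 - ‖z‖ ≤ η * d → d ≤ 2 → x ∈ X → X' ⊆ X →
    X'.Nonempty → (∀ v ∈ X', v ∈ TD f ε) → (∀ v ∈ X', e0 * d ≤ ‖pos ε v - pos ε x‖) →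
    KP f ε X ≤ C * ((ε / (1 - ‖z‖)) ^ (5 / 48 : ℝ) * ((1 - ‖z‖) / d) ^ (1 / 3 : ℝ)) *
      KP f ε X' := by
  have hH := D.hH
  have hl := D.hl
  have hρ := D.hρ
  have hcW := D.hcW
  set t : ℝ := min e0 D.ρ / 2000 with ht
  have ht0 : 0 < t := by
    have := lt_min he0 hρ
    positivity
  have hte : 2000 * t ≤ e0 := by
    have : min e0 D.ρ ≤ e0 := min_le_left _ _
    linarith
  have htρ : 2000 * t ≤ D.ρ := by
    have : min e0 D.ρ ≤ D.ρ := min_le_right _ _
    linarith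
  set κ : ℝ := min t (min (D.l / 4) 1) with hκ
  have hκ0 : 0 < κ := lt_min ht0 (lt_min (by positivity) one_pos)
  have hκt : κ ≤ t := min_le_left _ _
  have hκl : 4 * κ ≤ D.l := by
    have : κ ≤ D.l / 4 := (min_le_right _ _).trans (min_le_left _ _)
    linarith
  have hκ1 : κ ≤ 1 := (min_le_right _ _).trans (min_le_right _ _)
  obtain ⟨η, hη⟩ : ∃ η : ℝ, η = t / (D.H + 5) := ⟨_, rfl⟩
  have hη0 : 0 < η := by rw [hη]; positivity
  have hηt : (D.H + 5) * η = t := by rw [hη]; field_simp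
  have hη1 : η ≤ 1 := by nlinarith
  obtain ⟨C1, K1, hC1, hK1, hup⟩ := up_x D hκ0 (by linarith) hκl hκ1
  refine ⟨C1 / D.cW, K1, η, by positivity, hK1, hη0, ?_⟩
  intro ε d x z X X' hε hε0 hz hfz hKε hδd hd2 hx hX hne hXT hdist
  obtain ⟨θ, hθ⟩ := exists_dir z
  obtain ⟨-, hG2, -⟩ := D.gd ε hε hε0
  obtain ⟨v, hv, hv', hvW⟩ := hG2 θ
  have hBv : Bp f ε D.ρ D.B D.α θ v := ⟨hv, hv', hvW⟩
  have hvz := base_dist D hz hθ hBv
  set δ := 1 - ‖z‖ with hδ
  have hεδ : ε ≤ δ := by nlinarith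
  have hδ0 : 0 < δ := hε.trans_le hεδ
  have hd0 : 0 < d := by
    by_contra hcon
    push Not at hcon
    nlinarith
  have hδd' : δ ≤ d := by nlinarith
  have hεd : ε ≤ η * d := hεδ.trans hδd
  obtain ⟨S, hS, hloc⟩ := hup ε d x z hε hε0 hz hfz hKε hδd' hd2
  obtain ⟨v1, hv1⟩ := hne
  have hloc' := hloc (Conn X) (by
    intro F _ hF
    refine ⟨v1, ?_, hF x hx v1 (hX hv1)⟩
    rw [hfz]
    refine le_trans ?_ (hdist v1 hv1)
    have : 4 * κ * d ≤ e0 * d := mul_le_mul_of_nonneg_right (by linarith) hd0.le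
    exact this)
  -- the blocking annulus
  obtain ⟨K5, hK5⟩ : ∃ K5 : ℝ, K5 = 3 * κ + (D.H + 4) * η := ⟨_, rfl⟩
  have hK50 : 0 < K5 := by rw [hK5]; positivity
  have hK5t : K5 + η ≤ 4 * t := by
    have : (D.H + 5) * η = (D.H + 4) * η + η := by ring
    rw [hK5]
    linarith
  set r : ℤ := ⌈K5 * d / ε⌉ with hr
  have hr1 : K5 * d ≤ ε * r := by
    have h1 := Int.le_ceil (K5 * d / ε)
    rw [div_le_iff₀ hε, ← hr] at h1
    linarith
  have hr2 : ε * r ≤ 4 * t * d := by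
    have h1 := (Int.ceil_lt_add_one (K5 * d / ε)).le
    have h2 : ε * (r : ℝ) ≤ ε * (K5 * d / ε + 1) := mul_le_mul_of_nonneg_left h1 hε.le
    have h3 : ε * (K5 * d / ε + 1) = K5 * d + ε := by field_simp
    have h4 : (K5 + η) * d ≤ 4 * t * d := mul_le_mul_of_nonneg_right hK5t hd0.le
    linarith
  have hr0 : (0 : ℝ) < r := by
    have : 0 < ε * r := lt_of_lt_of_le (by positivity) hr1
    exact (mul_pos_iff_of_pos_left hε).mp this
  have hr0' : (0 : ℤ) < r := by exact_mod_cast hr0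
  have hL : 128 * r ≤ ⌊D.ρ / ε⌋ := by
    rw [Int.le_floor, le_div_iff₀ hε]
    push_cast
    nlinarith
  have hHT := (D.win (TD f ε) v _ hvW r r (by omega) le_rfl (by omega)).2.2 hL
  have hfar : ∀ w ∈ X', w ∉ BX v (64 * r - 1) := by
    intro w hw hwB
    have h1 := ARM1.norm_pos_sub hε hwB
    push_cast at h1
    have h2 := hdist w hw
    have h3 : pos ε w - pos ε x = (pos ε w - pos ε v) + (pos ε v - f z) := by rw [← hfz]; ring
    have h4 := norm_add_le (pos ε w - pos ε v) (pos ε v - f z)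
    rw [← h3] at h4
    have h5 : 2000 * t * d ≤ e0 * d := mul_le_mul_of_nonneg_right hte hd0.le
    have h6 : D.H * δ ≤ D.H * (η * d) := mul_le_mul_of_nonneg_left hδd hH.le
    have h7 : (D.H + 5) * η * d = t * d := by rw [hηt]
    have h8 : 0 < t * d := by positivity
    have h9 : 0 < η * d := by positivity
    nlinarith
  have hSE := hloc'.1
  have hin : ∀ u : Vtx, ‖pos ε u - f z‖ ≤ 3 * κ * d + 2 * ε → u ∈ BX v r := by
    intro u hu
    apply ALO.mem_BX_of hε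
    have h2 : pos ε u - pos ε v = (pos ε u - f z) + -(pos ε v - f z) := by ring
    rw [h2]
    refine (norm_add_le _ _).trans ?_
    rw [norm_neg]
    have h6 : D.H * δ ≤ D.H * (η * d) := mul_le_mul_of_nonneg_left hδd hH.le
    have h7 : K5 * d = 3 * κ * d + (D.H * (η * d) + 4 * (η * d)) := by rw [hK5]; ring
    linarith
  have hmain := up_abs hX (c := D.cW) hcW hloc' (Bs := fun u => u ∈ TD f ε ∧ u ∈ BX v r)
    (by
      intro e he
      have h1 := hSE he
      rw [mem_ES] at h1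
      have h2 := hS e he
      refine ⟨⟨h1.1, hin _ (by linarith)⟩, h1.2, hin _ ?_⟩
      have h3 := ARM1.norm_pos_sub hε (tgt_near e)
      push_cast at h3
      have h4 : pos ε (tgt e) - f z = (pos ε (tgt e) - pos ε (H974.src e)) +
          (pos ε (H974.src e) - f z) := by ring
      rw [h4]
      refine (norm_add_le _ _).trans ?_
      linarith)
    (CHN.HT_incr (ES (TD f ε)) (TD f ε) v r (64 * r)) hHT (by
      rintro F hF ⟨b, -, -, -, hbl⟩
      refine ⟨b, fun u hu w hw hr => ?_⟩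
      exact hr.trans (CHN.meets hF hbl hu.1 hu.2 (hXT w hw) (hfar w hw) hr.symm).symm)
  refine hmain.trans (le_of_eq ?_)
  unfold KP
  ring

end Run7.h663.PA
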