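import Pool.Agent.Run7.h663.PA.Side
import Pool.Agent.Run7.h663.PA.Poi

/-!
Left-passage probabilities: lower bound.
-/

set_option autoImplicit false

namespace Run7.h663.PA

open H974 hiding Blk okhalf
open H973 hiding okhalf
open Finset
open Pool.Agent.Y989.SD
open Pool.Agent.H160R2.CV (nv P ar Far)
open Pool.Agent.H160R2.CV.Quad (bo LA)

variable {f : ℂ → ℂ}

/-- a small box is joined to `U` -/
def BU (x : Vtx) (n : ℕ) (U : Set Vtx) (F : Finset Edg) : Prop :=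
  ∃ u, nv (u - x) ≤ n ∧ ∃ w ∈ U, Reach (F : Set Edg) u w

theorem BU_incr (S : Finset Edg) (x : Vtx) (n : ℕ) (U : Set Vtx) : IncrE S (BU x n U) := by
  rintro F G h - ⟨u, hu, w, hw, hr⟩
  exact ⟨u, hu, w, hw, hr.mono (by exact_mod_cast h)⟩

/-- the connection of `x` to `U` factorizes -/
theorem box_fac {T : Finset Vtx} {x : Vtx} {n : ℕ} {U : Set Vtx} (hT : ∀ y ∈ BX x n, y ∈ T)
    (hU : ∀ w ∈ U, n ≤ nv (w - x)) :
    Pr hf (ES T) (fun F => ∃ w ∈ U, Reach (F : Set Edg) x w) ≤ ar n * Pr hf (ES T) (BU x n U) := by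
  have hS1 : bo x n ⊆ ES T := bo_sub hT
  have hd : Disjoint (bo x n) (ES T \ bo x n) := Finset.disjoint_sdiff
  have h1 : Pr hf (ES T) (fun F => ∃ w ∈ U, Reach (F : Set Edg) x w) ≤
      Pr hf (ES T) (fun F => LA x n (F ∩ bo x n) ∧ BU x n U (F ∩ (ES T \ bo x n))) := by
    apply Pr_mono oku
    rintro F hF ⟨w, hw, hr⟩
    constructor
    · exact ((Pool.Agent.H160R2.CV.Quad.LA_loc (Finset.Subset.refl _)) F).mp
        (Pool.Agent.H160R2.CV.Quad.LA_of_reach (hU w hw) hr)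
    · have h4 : inR (x.1 - n) (x.1 + n) (x.2 - n) (x.2 + n) x := by
        unfold inR
        omega
      obtain ⟨u, hu, hur⟩ := Pool.Agent.H160R2.CV.Quad.last_exit h4 hr
      refine ⟨u, ?_, w, hw, hur.mono ?_⟩
      · rw [nv_le]
        exact hu
      · rintro e ⟨he1, he2⟩
        rw [Finset.mem_coe] at he1
        rw [Finset.mem_coe, Finset.mem_inter, Finset.mem_sdiff]
        exact ⟨he1, hF he1, fun h => he2 (by exact_mod_cast h)⟩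
  refine h1.trans ((le_of_eq (Pr_indep' hS1 Finset.sdiff_subset hd (LA x n) (BU x n U))).trans ?_)
  have h2 : Pr hf (bo x n) (LA x n) ≤ ar n := Pool.Agent.H160R2.CV.Quad.pr_LA _ x n
  have h3 : Pr hf (ES T \ bo x n) (BU x n U) ≤ Pr hf (ES T) (BU x n U) :=
    Pr_mono_set oku Finset.sdiff_subset (BU_incr _ _ _ _)
  exact mul_le_mul h2 h3 (Pr_nonneg oku _ _) (Pool.Agent.H160R2.CV.ar_pos n).le

theorem far_vtx (D : Dom f) {ε : ℝ} (hε : 0 < ε) {x y : Vtx} {z : ℂ} (hz : ‖z‖ < 1)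
    (hfz : f z = pos ε x) {t : ℝ} (ht : ‖pos ε y - f (cir t)‖ ≤ 2 * ε) {m : ℕ}
    (hm : 2 * m * ε + 2 * ε < D.l * (1 - ‖z‖)) : m + 1 ≤ nv (y - x) := by
  by_contra hcon
  have h1 : nv (y - x) ≤ m := by omega
  have h2 := ARM1.norm_pos_sub hε (mem_BX_nv.mpr h1)
  push_cast at h2
  have h3 := (D.lip z (disc_of hz.le) (cir t) (ARM1.cir_mem t)).1
  have h4 : 1 - ‖z‖ ≤ ‖z - cir t‖ := by
    have := norm_sub_norm_le (cir t) z
    rw [ARM1.norm_cir, norm_sub_rev] at this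
    exact this
  have h5 := mul_le_mul_of_nonneg_left h4 D.hl.le
  have h6 : f z - f (cir t) = -(pos ε y - pos ε x) + (pos ε y - f (cir t)) := by rw [hfz]; ring
  have h7 := norm_add_le (-(pos ε y - pos ε x)) (pos ε y - f (cir t))
  rw [← h6, norm_neg] at h7
  linarith

/-- **The lower bound.** -/
theorem left_low (D : Dom f) : ∃ c K0 ε1 : ℝ, 0 < c ∧ 1 ≤ K0 ∧ 0 < ε1 ∧ ε1 ≤ D.ε0 ∧
    ∀ (ε : ℝ) (x : Vtx) (z : ℂ) (θ1 θ2 t0 : ℝ) (U' : Set Vtx), 0 < ε → ε ≤ ε1 → ‖z‖ < 1 →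
    f z = pos ε x → K0 * ε ≤ 1 - ‖z‖ → ε ≤ θ2 - θ1 → θ1 ≤ t0 → t0 ≤ θ2 →
    (∀ y ∈ U', ∃ t, ‖pos ε y - f (cir t)‖ ≤ 2 * ε) →
    c * ((1 - ‖z‖) * min (θ2 - θ1) ‖z - cir t0‖ / ‖z - cir t0‖ ^ 2) ^ (1 / 3 : ℝ) ≤
      Pr hf (ES (TD f ε)) (fun F => ¬ Rt (TD f ε) (near f ε θ1 θ2) U' x F) := by
  have hl := D.hl
  obtain ⟨c1, K1, ε1, hc1, hK1, hε1, hε10, hlow⟩ := arc_low D
  obtain ⟨c0, C0, hc0, hC0, har⟩ := ar_sharp
  obtain ⟨κ, hκ⟩ : ∃ κ : ℝ, κ = min (D.l / 16) 1 := ⟨_, rfl⟩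
  have hκ0 : 0 < κ := by rw [hκ]; exact lt_min (by positivity) one_pos
  have hκl : 16 * κ ≤ D.l := by
    have : κ ≤ D.l / 16 := by rw [hκ]; exact min_le_left _ _
    linarith
  obtain ⟨C1, hC1⟩ : ∃ C1 : ℝ, C1 = C0 * (κ / 2) ^ (-(5 / 48 : ℝ)) := ⟨_, rfl⟩
  have hC10 : 0 < C1 := by rw [hC1]; positivity
  refine ⟨c1 / C1 * (1 / 2) ^ 188, K1 + 2 / κ, ε1, by positivity, ?_, hε1, hε10, ?_⟩
  · have : 0 < 2 / κ := by positivity
    linarith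
  intro ε x z θ1 θ2 t0 U' hε hεε hz hfz hKε hℓ ht1 ht2 hU'
  have hε0 : ε ≤ D.ε0 := hεε.trans hε10
  obtain ⟨δ, hδ⟩ : ∃ δ : ℝ, δ = 1 - ‖z‖ := ⟨_, rfl⟩
  rw [← hδ] at hKε
  have hK1ε : K1 * ε ≤ δ := by
    have : 0 < 2 / κ * ε := by positivity
    nlinarith
  have hκε : 2 * ε ≤ κ * δ := by
    have h0 : 0 < K1 * ε := by positivity
    have h2 : 2 / κ * ε ≤ δ := by nlinarith
    have h3 := mul_le_mul_of_nonneg_left h2 hκ0.le
    have h4 : κ * (2 / κ * ε) = 2 * ε := by field_simp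
    linarith
  have hεδ : ε ≤ δ := by nlinarith
  have hδ0 : 0 < δ := hε.trans_le hεδ
  obtain ⟨n, hn⟩ : ∃ n : ℕ, n = ⌊κ * δ / ε⌋₊ := ⟨_, rfl⟩
  have hn1 : (n : ℝ) ≤ κ * δ / ε := by rw [hn]; exact Nat.floor_le (by positivity)
  have hn2 : κ * δ / ε < n + 1 := by rw [hn]; exact Nat.lt_floor_add_one _
  rw [le_div_iff₀ hε] at hn1
  rw [div_lt_iff₀ hε] at hn2
  have hnn : 1 ≤ n := by
    rw [hn, Nat.one_le_floor_iff]
    rw [le_div_iff₀ hε]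
    linarith
  have hnpos : (1 : ℝ) ≤ n := by exact_mod_cast hnn
  have hlδ : 16 * (κ * δ) ≤ D.l * δ := by
    have := mul_le_mul_of_nonneg_right hκl hδ0.le
    linarith
  have hκδ : 0 < κ * δ := by positivity
  -- the boxes
  have hbox : ∀ m : ℕ, m ≤ 4 * n → ∀ y ∈ BX x m, y ∈ TD f ε := by
    intro m hm
    have hm' : (m : ℝ) ≤ 4 * n := by exact_mod_cast hm
    refine D.box hε hε0 hz (e := 0) (by rw [hfz, sub_self, norm_zero]) ?_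
    rw [← hδ]
    nlinarith
  have hfar : ∀ (y : Vtx) (t : ℝ), ‖pos ε y - f (cir t)‖ ≤ 2 * ε → 3 * n + 1 ≤ nv (y - x) := by
    intro y t ht
    refine far_vtx D hε hz hfz ht ?_
    rw [← hδ]
    push_cast
    nlinarith
  have hnear : ∀ w ∈ near f ε θ1 θ2, 3 * n + 1 ≤ nv (w - x) := by
    rintro w ⟨-, t, -, -, h3⟩
    exact hfar w t h3
  have h1 := hlow ε x z θ1 θ2 t0 hε hεε hz hfz (by rw [← hδ]; exact hK1ε) hℓ ht1 ht2
  rw [← hδ] at h1 ⊢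
  have h2 := box_fac (U := near f ε θ1 θ2) (hbox n (by omega)) (fun w hw => by
    have := hnear w hw
    omega)
  have harn : ar n ≤ C1 * (ε / δ) ^ (5 / 48 : ℝ) := by
    refine (har n hnn).2.trans ?_
    rw [hC1, mul_assoc]
    apply mul_le_mul_of_nonneg_left _ hC0.le
    have h1 : (κ / 2) ^ (-(5 / 48 : ℝ)) * (ε / δ) ^ (5 / 48 : ℝ) =
        (κ / 2 * (δ / ε)) ^ (-(5 / 48 : ℝ)) := by
      rw [Real.mul_rpow (x := κ / 2) (by positivity) (by positivity), rpow_inv_eq hδ0 hε]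
    rw [h1]
    refine Real.rpow_le_rpow_of_nonpos (by positivity) ?_ (by norm_num)
    have h2 : κ / 2 * (δ / ε) = κ * δ / 2 / ε := by ring
    rw [h2, div_le_iff₀ hε]
    nlinarith
  have hX : 0 < (ε / δ) ^ (5 / 48 : ℝ) := by positivity
  obtain ⟨Q, hQ⟩ : ∃ Q : ℝ, Q = (δ * min (θ2 - θ1) ‖z - cir t0‖ / ‖z - cir t0‖ ^ 2) ^ (1 / 3 : ℝ) :=
    ⟨_, rfl⟩
  rw [← hQ] at h1 ⊢
  have hp0 : 0 ≤ Pr hf (ES (TD f ε)) (BU x n (near f ε θ1 θ2)) := Pr_nonneg oku _ _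
  have h3 : c1 / C1 * Q ≤ Pr hf (ES (TD f ε)) (BU x n (near f ε θ1 θ2)) := by
    rw [div_mul_eq_mul_div, div_le_iff₀ hC10]
    have h4 := h1.trans (h2.trans (mul_le_mul_of_nonneg_right harn hp0))
    have h5 : (ε / δ) ^ (5 / 48 : ℝ) * (c1 * Q) ≤ (ε / δ) ^ (5 / 48 : ℝ) *
        (Pr hf (ES (TD f ε)) (BU x n (near f ε θ1 θ2)) * C1) := by
      calc _ = c1 * ((ε / δ) ^ (5 / 48 : ℝ) * Q) := by ring
        _ ≤ _ := h4
        _ = _ := by ring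
    exact le_of_mul_le_mul_left h5 hX
  have h4 := circ_lower (S := ES (TD f ε)) (x := x) hnn (bo_sub (hbox (3 * n) (by omega)))
  have h5 := hars (BU_incr (ES (TD f ε)) x n (near f ε θ1 θ2))
    (H362P.CA_incr (ES (TD f ε)) x n (3 * n)) h3 h4 (by positivity)
  refine le_trans (le_of_eq (by ring)) (h5.trans (Pr_mono oku ?_))
  rintro F hF ⟨⟨u, hu, w, hw, hr⟩, hC⟩
  refine circ_left hnn hC (u := u) (w := w) ⟨w, hw, hr.symm⟩ hu ?_ hr ?_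
  · have := hnear w hw
    omega
  · intro y hy
    obtain ⟨t, ht⟩ := hU' y hy
    exact hfar y t ht

end Run7.h663.PA
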