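import Pool.Agent.Run7.h663.PA.LeftLow

/-!
Left-passage probabilities: upper bound.
-/

set_option autoImplicit false

namespace Run7.h663.PA

open H974 hiding Blk okhalf
open H973 hiding okhalf
open Finset
open Pool.Agent.Y989.SD
open Pool.Agent.H160R2.CV (nv P ar Far)
open Pool.Agent.H160R2.CV.Quad (bo LA)

variable {f : ℂ → ℂ}

theorem EV_step {V : Vtx → Prop} {p q : Vtx} (hp : V p) (hq : V q)
    (h : q = (p.1 + 1, p.2) ∨ q = (p.1 - 1, p.2) ∨ q = (p.1, p.2 + 1) ∨ q = (p.1, p.2 - 1)) :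
    Reach (EV V) p q := by
  obtain ⟨a, b⟩ := p
  rcases h with rfl | rfl | rfl | rfl
  · exact Adj.reach ⟨(a, b, true), ⟨by simpa using hp, by simpa using hq⟩, Or.inl (by simp)⟩
  · exact Adj.reach ⟨(a - 1, b, true), ⟨by simpa using hq, by simpa using hp⟩, Or.inr (by simp)⟩
  · exact Adj.reach ⟨(a, b, false), ⟨by simpa using hp, by simpa using hq⟩, Or.inl (by simp)⟩
  · exact Adj.reach ⟨(a, b - 1, false), ⟨by simpa using hq, by simpa using hp⟩, Or.inr (by simp)⟩

/-- A ray leaves a finite set. -/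
theorem ray {T : Finset Vtx} (p : ℕ → Vtx) (h0 : p 0 ∈ T) (hN : ∃ N, p N ∉ T)
    (hp : ∀ j, p (j + 1) = ((p j).1 + 1, (p j).2) ∨ p (j + 1) = ((p j).1 - 1, (p j).2) ∨
      p (j + 1) = ((p j).1, (p j).2 + 1) ∨ p (j + 1) = ((p j).1, (p j).2 - 1)) :
    ∃ k, (∀ j ≤ k, p j ∈ T) ∧ btT T (p k) ∧ ∀ W : Vtx → Prop, (∀ j ≤ k, W (p j)) →
      Reach (EV fun y => y ∈ T ∧ W y) (p 0) (p k) := by
  classical
  obtain ⟨m, hm⟩ : ∃ m, m = Nat.find hN := ⟨_, rfl⟩
  have h1 : p m ∉ T := hm ▸ Nat.find_spec hN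
  have h2 : ∀ j < m, p j ∈ T := fun j hj => by
    by_contra hc
    rw [hm] at hj
    exact Nat.find_min hN hj hc
  obtain ⟨k, rfl⟩ : ∃ k, m = k + 1 := by
    cases m with
    | zero => exact absurd h0 h1
    | succ k => exact ⟨k, rfl⟩
  refine ⟨k, fun j hj => h2 j (by omega), ⟨h2 k (by omega), ?_⟩, ?_⟩
  · rcases hp k with h | h | h | h <;> rw [h] at h1
    · exact Or.inl h1
    · exact Or.inr (Or.inl h1)
    · exact Or.inr (Or.inr (Or.inl h1))
    · exact Or.inr (Or.inr (Or.inr h1))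
  · intro W hW
    have key : ∀ j ≤ k, Reach (EV fun y => y ∈ T ∧ W y) (p 0) (p j) := by
      intro j
      induction j with
      | zero => exact fun _ => Reach.refl _ _
      | succ j ih =>
        intro hj
        exact (ih (by omega)).trans (EV_step ⟨h2 j (by omega), hW j (by omega)⟩
          ⟨h2 (j + 1) (by omega), hW (j + 1) hj⟩ (hp j))
    exact key k le_rfl

theorem emb_surj (e v : Vtx) (he : e = (0, 1) ∨ e = (1, 0) ∨ e = (0, -1) ∨ e = (-1, 0)) (x : Vtx) :
    ∃ y, emb e v y = x := by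
  obtain ⟨g, hg⟩ := EMB.exists_sym e v he
  obtain ⟨y, hy⟩ := g.ψ.surjective x
  exact ⟨y, (hg y).symm.trans hy⟩

theorem emb_zero (e v : Vtx) : emb e v (0, 0) = v := by simp [emb]

/-- Descent in a window. -/
theorem down {T : Finset Vtx} {v x : Vtx} {L r : ℤ} {B α : ℝ} (hW : Win T v L B α) (hxT : x ∈ T)
    (hx : x ∈ BX v r) (hrL : 4 * r ≤ L) (hr : 1 ≤ r) :
    ∃ w ∈ BX v (3 * r), btT T w ∧ ∀ W : Vtx → Prop, (∀ y ∈ BX v (3 * r), W y) →
      Reach (EV fun y => y ∈ T ∧ W y) x w := by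
  obtain ⟨e, he, h, s, hLp, hs, hFl, hQ⟩ := hW
  obtain ⟨y, rfl⟩ := emb_surj e v he x
  have hB : ∀ (y : Vtx) (n : ℤ), emb e v y ∈ BX v n ↔ y ∈ BX (0, 0) n := by
    intro y n
    have := EMB.emb_mem_BX e v he y (0, 0) n
    rwa [emb_zero] at this
  rw [hB, mem_BX] at hx
  simp only at hx
  have hlip : ∀ n : ℕ, |h n| ≤ 3 * n ∧ |h (-(n : ℤ))| ≤ 3 * n := by
    intro n
    induction n with
    | zero => simp [hLp.zero]
    | succ n ih =>
      have h1 := hLp.lip n
      have h2 := hLp.lip (-((n : ℤ) + 1))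
      have h3 : -((n : ℤ) + 1) + 1 = -(n : ℤ) := by ring
      rw [h3] at h2
      push_cast
      have h4 := ih.1
      have h5 := ih.2
      rw [abs_le] at h1 h2 h4 h5 ⊢
      rw [abs_le]
      constructor <;> constructor <;> omega
  have hh : -(3 * r) ≤ h y.1 := by
    rcases le_total 0 y.1 with h0 | h0
    · obtain ⟨n, hn⟩ : ∃ n : ℕ, y.1 = (n : ℤ) := ⟨y.1.toNat, by omega⟩
      have := (hlip n).1
      rw [← hn, abs_le] at this
      omega
    · obtain ⟨n, hn⟩ : ∃ n : ℕ, y.1 = -(n : ℤ) := ⟨(-y.1).toNat, by omega⟩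
      have := (hlip n).2
      rw [← hn, abs_le] at this
      omega
  have hk := (hQ y (by rw [mem_QB]; omega)).mp hxT
  obtain ⟨k, hk1⟩ : ∃ k : ℕ, y.2 - h y.1 = (k : ℤ) := ⟨(y.2 - h y.1).toNat, by omega⟩
  obtain ⟨p, hp⟩ : ∃ p : ℕ → Vtx, p = fun j : ℕ => emb e v (y.1, y.2 - (j : ℤ)) := ⟨_, rfl⟩
  have hp0 : p 0 = emb e v y := by rw [hp]; simp
  obtain ⟨m, h1, h2, h3⟩ := ray (T := T) p (by rw [hp0]; exact hxT) ⟨k + 1, by
    rw [hp]
    intro hc
    have := (hQ (y.1, y.2 - ((k + 1 : ℕ) : ℤ)) (by rw [mem_QB]; push_cast; omega)).mp hc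
    push_cast at this
    omega⟩ (by
    intro j
    rw [hp]
    simp only [emb]
    rcases he with rfl | rfl | rfl | rfl
    · right; right; right
      push_cast
      simp only [Prod.mk.injEq]
      constructor <;> ring
    · right; left
      push_cast
      simp only [Prod.mk.injEq]
      constructor <;> ring
    · right; right; left
      push_cast
      simp only [Prod.mk.injEq]
      constructor <;> ring
    · left
      push_cast
      simp only [Prod.mk.injEq]
      constructor <;> ring)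
  have hmk : m ≤ k := by
    by_contra hc
    have hc2 := h1 (k + 1) (by omega)
    rw [hp] at hc2
    have := (hQ (y.1, y.2 - ((k + 1 : ℕ) : ℤ)) (by rw [mem_QB]; push_cast; omega)).mp hc2
    push_cast at this
    omega
  have hpB : ∀ j ≤ m, p j ∈ BX v (3 * r) := by
    intro j hj
    rw [hp, hB, mem_BX]
    simp only
    omega
  refine ⟨p m, hpB m le_rfl, h2, fun W hW => ?_⟩
  rw [← hp0]
  exact h3 W (fun j hj => hW _ (hpB j hj))

/-- Escape from a point outside a box, avoiding the box. -/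
theorem esc {T : Finset Vtx} {v x : Vtx} {R : ℤ} (hxT : x ∈ T) (hx : x ∉ BX v R) :
    ∃ w, btT T w ∧ w ∉ BX v R ∧ Reach (EV fun y => y ∈ T ∧ y ∉ BX v R) x w := by
  -- a direction in which the ray avoids the box
  have hfin : ∀ (p : ℕ → Vtx), Function.Injective p → ∃ N, p N ∉ T := by
    intro p hp
    by_contra hc
    push Not at hc
    exact Set.infinite_of_injective_forall_mem hp (s := (T : Set Vtx)) hc T.finite_toSet
  have key : ∀ d : Vtx, (d = (1, 0) ∨ d = (-1, 0) ∨ d = (0, 1) ∨ d = (0, -1)) →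
      (∀ j : ℕ, (x.1 + j * d.1, x.2 + j * d.2) ∉ BX v R) →
      ∃ w, btT T w ∧ w ∉ BX v R ∧ Reach (EV fun y => y ∈ T ∧ y ∉ BX v R) x w := by
    intro d hd hB
    obtain ⟨p, hp⟩ : ∃ p : ℕ → Vtx, p = fun j : ℕ => (x.1 + (j : ℤ) * d.1, x.2 + (j : ℤ) * d.2) := ⟨_, rfl⟩
    have hp0 : p 0 = x := by rw [hp]; simp
    obtain ⟨k, h1, h2, h3⟩ := ray (T := T) p (by rw [hp0]; exact hxT) (hfin p (by
      intro i j hij
      rw [hp] at hij
      simp only [Prod.mk.injEq] at hij
      rcases hd with rfl | rfl | rfl | rfl <;> simp at hij <;> omega)) (by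
      intro j
      rw [hp]
      rcases hd with rfl | rfl | rfl | rfl
      · left
        simp only [Prod.mk.injEq]
        push_cast
        constructor <;> ring
      · right; left
        simp only [Prod.mk.injEq]
        push_cast
        constructor <;> ring
      · right; right; left
        simp only [Prod.mk.injEq]
        push_cast
        constructor <;> ring
      · right; right; right
        simp only [Prod.mk.injEq]
        push_cast
        constructor <;> ring)
    have hpB : ∀ j, p j ∉ BX v R := by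
      intro j
      rw [hp]
      exact hB j
    refine ⟨p k, h2, hpB k, ?_⟩
    have := h3 (fun y => y ∉ BX v R) (fun j _ => hpB j)
    rwa [hp0] at this
  have h4 : x.1 < v.1 - R ∨ v.1 + R < x.1 ∨ x.2 < v.2 - R ∨ v.2 + R < x.2 := by
    by_contra hc
    apply hx
    rw [mem_BX]
    omega
  rcases h4 with h4 | h4 | h4 | h4
  · refine key (-1, 0) (by simp) fun j => ?_
    rw [mem_BX]
    simp only
    omega
  · refine key (1, 0) (by simp) fun j => ?_
    rw [mem_BX]
    simp only
    omega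
  · refine key (0, -1) (by simp) fun j => ?_
    rw [mem_BX]
    simp only
    omega
  · refine key (0, 1) (by simp) fun j => ?_
    rw [mem_BX]
    simp only
    omega

end Run7.h663.PA
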