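import Pool.Agent.Run7.h663.PA.LeftUp

/-!
Left-passage probabilities: upper bound.
-/

set_option autoImplicit false

namespace Run7.h663.PA

open H974 hiding Blk okhalf
open H973 hiding okhalf
open Finset
open Pool.Agent.Y989.SD
open Pool.Agent.H160R2.CV (nv P ar Far)
open Pool.Agent.H160R2.CV.Quad (bo LA)

variable {f : ℂ → ℂ}

theorem cir_mod (θ1 θ : ℝ) : ∃ θ', θ1 ≤ θ' ∧ θ' ≤ θ1 + 2 * Real.pi ∧ cir θ' = cir θ := by
  have h := toIcoMod_mem_Ico Real.two_pi_pos θ1 θ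
  refine ⟨toIcoMod Real.two_pi_pos θ1 θ, h.1, h.2.le, ?_⟩
  have h2 : toIcoMod Real.two_pi_pos θ1 θ = θ - toIcoDiv Real.two_pi_pos θ1 θ • (2 * Real.pi) :=
    rfl
  unfold cir
  rw [Complex.exp_eq_exp_iff_exists_int]
  refine ⟨-toIcoDiv Real.two_pi_pos θ1 θ, ?_⟩
  rw [h2]
  push_cast
  rw [zsmul_eq_mul]
  ring

/-- a boundary vertex is near one of the two arcs -/
theorem near_or {ε θ1 θ2 : ℝ} {w : Vtx} (hε : 0 < ε) (hG : ∀ v : Vtx, btT (TD f ε) v →
    ∃ θ : ℝ, ‖pos ε v - f (cir θ)‖ ≤ ε) (hw : btT (TD f ε) w) :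
    (∃ t, θ1 ≤ t ∧ t ≤ θ2 ∧ ‖pos ε w - f (cir t)‖ ≤ ε) ∨ w ∈ near f ε θ2 (θ1 + 2 * Real.pi) := by
  obtain ⟨θ, hθ⟩ := hG w hw
  obtain ⟨t, h1, h2, h3⟩ := cir_mod θ1 θ
  rw [← h3] at hθ
  rcases le_total t θ2 with h | h
  · exact Or.inl ⟨t, h1, h, hθ⟩
  · exact Or.inr ⟨hw.1, t, h, h2, by linarith⟩

/-- **The upper bound.** -/
theorem left_up (D : Dom f) : ∃ C K0 : ℝ, 0 < C ∧ 1 ≤ K0 ∧
    ∀ (ε : ℝ) (x : Vtx) (z : ℂ) (θ1 θ2 t0 : ℝ), 0 < ε → ε ≤ D.ε0 → ‖z‖ < 1 → f z = pos ε x →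
    K0 * ε ≤ 1 - ‖z‖ → ε ≤ θ2 - θ1 → θ1 ≤ t0 → t0 ≤ θ2 →
    (∀ t, θ1 ≤ t → t ≤ θ2 → ‖z - cir t0‖ ≤ ‖z - cir t‖) →
    Pr hf (ES (TD f ε)) (fun F => ¬ Rt (TD f ε) (near f ε θ1 θ2)
      (near f ε θ2 (θ1 + 2 * Real.pi)) x F) ≤
    C * ((1 - ‖z‖) * min (θ2 - θ1) ‖z - cir t0‖ / ‖z - cir t0‖ ^ 2) ^ (1 / 3 : ℝ) := by
  have hH := D.hH
  have hl := D.hl
  have hρ := D.hρ
  have hCW := D.hCW
  obtain ⟨κ, hκ⟩ : ∃ κ : ℝ, κ = min (D.l / 16) (min (D.ρ / 2) 1) := ⟨_, rfl⟩
  have hκ0 : 0 < κ := by rw [hκ]; exact lt_min (by positivity) (lt_min (by positivity) one_pos)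
  have hκl : 16 * κ ≤ D.l := by
    have : κ ≤ D.l / 16 := by rw [hκ]; exact min_le_left _ _
    linarith
  have hκρ : 2 * κ ≤ D.ρ := by
    have : κ ≤ D.ρ / 2 := by rw [hκ]; exact (min_le_right _ _).trans (min_le_left _ _)
    linarith
  have hκ1 : κ ≤ 1 := by rw [hκ]; exact (min_le_right _ _).trans (min_le_right _ _)
  obtain ⟨K, hK⟩ : ∃ K : ℝ, K = D.H + 5 := ⟨_, rfl⟩
  have hK0 : 0 < K := by linarith
  -- the far regime is `K5 * δ < A`
  obtain ⟨K5, hK5⟩ : ∃ K5 : ℝ, K5 = 32 * (K + 1) / D.l + 6 * (K + 1) / κ := ⟨_, rfl⟩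
  have hK50 : 0 < K5 := by rw [hK5]; positivity
  have hK5l : 32 * (K + 1) ≤ D.l * K5 := by
    have h0 : D.l * K5 = D.l * (32 * (K + 1) / D.l) + D.l * (6 * (K + 1) / κ) := by rw [hK5]; ring
    have h1 : D.l * (32 * (K + 1) / D.l) = 32 * (K + 1) := by field_simp
    have h2 : 0 < D.l * (6 * (K + 1) / κ) := by positivity
    linarith
  have hK5κ : 6 * (K + 1) ≤ κ * K5 := by
    have h0 : κ * K5 = κ * (32 * (K + 1) / D.l) + κ * (6 * (K + 1) / κ) := by rw [hK5]; ring
    have h1 : κ * (6 * (K + 1) / κ) = 6 * (K + 1) := by field_simp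
    have h2 : 0 < κ * (32 * (K + 1) / D.l) := by positivity
    linarith
  have hK51 : 1 ≤ K5 := by
    have : κ * K5 ≤ 1 * K5 := mul_le_mul_of_nonneg_right hκ1 hK50.le
    linarith
  obtain ⟨C2, hC2⟩ : ∃ C2 : ℝ, C2 = D.CW * (2 * (K + 1) / κ) ^ (1 / 3 : ℝ) := ⟨_, rfl⟩
  have hC20 : 0 < C2 := by rw [hC2]; positivity
  obtain ⟨C4, hC4⟩ : ∃ C4 : ℝ, C4 = D.CW * (6 * (K + 1) / κ) ^ (1 / 3 : ℝ) := ⟨_, rfl⟩
  have hC40 : 0 < C4 := by rw [hC4]; positivity
  obtain ⟨C3, hC3⟩ : ∃ C3 : ℝ, C3 = (1 + 2 * (K + 1) / κ) ^ (1 / 3 : ℝ) := ⟨_, rfl⟩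
  have hC30 : 0 < C3 := by rw [hC3]; positivity
  obtain ⟨C5, hC5⟩ : ∃ C5 : ℝ, C5 = (K5 ^ 2) ^ (1 / 3 : ℝ) := ⟨_, rfl⟩
  have hC50 : 0 < C5 := by rw [hC5]; positivity
  obtain ⟨C6, hC6⟩ : ∃ C6 : ℝ, C6 = (2 * (K + 1) * K5 ^ 2 / κ) ^ (1 / 3 : ℝ) := ⟨_, rfl⟩
  have hC60 : 0 < C6 := by rw [hC6]; positivity
  refine ⟨C4 * (C2 + C3) + C2 * C5 + C6, 1 + 2 / κ, by positivity, by
    have : 0 < 2 / κ := by positivity
    linarith, ?_⟩
  intro ε x z θ1 θ2 t0 hε hε0 hz hfz hKε hℓ ht1 ht2 hmin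
  obtain ⟨-, hG2, hG3⟩ := D.gd ε hε hε0
  set δ := 1 - ‖z‖ with hδ
  set A := ‖z - cir t0‖ with hA
  set ℓ := θ2 - θ1 with hℓ'
  have hκε : 2 * ε ≤ κ * δ := by
    have h2 : 2 / κ * ε ≤ δ := by
      have : (1 + 2 / κ) * ε = ε + 2 / κ * ε := by ring
      linarith
    have h3 := mul_le_mul_of_nonneg_left h2 hκ0.le
    have h4 : κ * (2 / κ * ε) = 2 * ε := by field_simp
    linarith
  have hεδ : ε ≤ δ := by
    have h1 : (1 + 2 / κ) * ε = ε + 2 / κ * ε := by ring
    have : 0 < 2 / κ * ε := by positivity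
    linarith
  have hδ0 : 0 < δ := hε.trans_le hεδ
  have hδA : δ ≤ A := by
    have := norm_sub_norm_le (cir t0) z
    rw [ARM1.norm_cir, norm_sub_rev] at this
    exact this
  have hA0' : 0 < A := hδ0.trans_le hδA
  have hA2 : A ≤ 2 := by
    have := norm_sub_le z (cir t0)
    rw [ARM1.norm_cir] at this
    linarith
  have hκA : κ * δ ≤ κ * A := mul_le_mul_of_nonneg_left hδA hκ0.le
  have hκlA : 16 * κ * A ≤ D.l * A := mul_le_mul_of_nonneg_right hκl hA0'.le
  have hκlδ : 16 * κ * δ ≤ D.l * δ := mul_le_mul_of_nonneg_right hκl hδ0.le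
  have hκA0 : 0 < κ * A := by positivity
  have hκδ0 : 0 < κ * δ := by positivity
  have hℓ0 : 0 < ℓ := hε.trans_le hℓ
  have hminp : 0 < min ℓ A := lt_min hℓ0 hA0'
  have hxf : D.l * A ≤ ‖f z - f (cir t0)‖ := (D.lip z (disc_of hz.le) _ (ARM1.cir_mem t0)).1
  obtain ⟨Q, hQ⟩ : ∃ Q : ℝ, Q = (δ * min ℓ A / A ^ 2) ^ (1 / 3 : ℝ) := ⟨_, rfl⟩
  rw [← hQ]
  have hQ0 : 0 ≤ Q := by rw [hQ]; positivity
  obtain ⟨r0, hr0⟩ : ∃ r0 : ℤ, r0 = ⌈K * ℓ / ε⌉ := ⟨_, rfl⟩
  have hr01 : K * ℓ ≤ ε * r0 := by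
    have h1 := Int.le_ceil (K * ℓ / ε)
    rw [div_le_iff₀ hε, ← hr0] at h1
    linarith
  have hr02 : ε * r0 ≤ (K + 1) * ℓ := by
    have h1 := (Int.ceil_lt_add_one (K * ℓ / ε)).le
    rw [← hr0] at h1
    have h2 : ε * (r0 : ℝ) ≤ ε * (K * ℓ / ε + 1) := mul_le_mul_of_nonneg_left h1 hε.le
    have h3 : ε * (K * ℓ / ε + 1) = K * ℓ + ε := by field_simp
    linarith
  have hr00 : (0 : ℝ) < r0 := by
    have : 0 < ε * r0 := lt_of_lt_of_le (by positivity) hr01
    exact (mul_pos_iff_of_pos_left hε).mp this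
  obtain ⟨v0, hv0, hv0', hv0W⟩ := hG2 t0
  have hbox : ∀ u ∈ near f ε θ1 θ2, u ∈ TD f ε ∧ u ∈ BX v0 r0 := by
    intro u hu
    refine ⟨hu.1, ?_⟩
    refine near_box D hε hv0' (t := (θ1 + θ2) / 2) (a := ℓ / 2) (m := ℓ) ?_ ?_ u ?_
    · have : |(θ1 + θ2) / 2 - t0| ≤ ℓ / 2 := by
        rw [abs_le]
        constructor <;> linarith
      linarith
    · have : K * ℓ = D.H * ℓ + 5 * ℓ := by rw [hK]; ring
      linarith
    · have e1 : (θ1 + θ2) / 2 - ℓ / 2 = θ1 := by rw [hℓ']; ring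
      have e2 : (θ1 + θ2) / 2 + ℓ / 2 = θ2 := by rw [hℓ']; ring
      rw [e1, e2]
      exact hu
  -- the annulus around the arc at scale `m`
  have hann : ∀ m : ℝ, 0 < m → m ≤ 2 → 2 * ε ≤ κ * m → (K + 1) * ℓ ≤ κ * m / 2 →
      r0 ≤ ⌊κ * m / ε⌋ ∧ ε * (⌊κ * m / ε⌋ : ℤ) ≤ κ * m ∧
      Pr hf (ES (TD f ε)) (XT (TD f ε) v0 r0 ⌊κ * m / ε⌋) ≤ C2 * (ℓ / m) ^ (1 / 3 : ℝ) := by
    intro m hm0 hm2 hκm hc
    obtain ⟨R, hR⟩ : ∃ R : ℤ, R = ⌊κ * m / ε⌋ := ⟨_, rfl⟩
    rw [← hR]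
    have hR1 : ε * R ≤ κ * m := by
      have h1 := Int.floor_le (κ * m / ε)
      rw [le_div_iff₀ hε, ← hR] at h1
      linarith
    have hR2 : κ * m - ε ≤ ε * R := by
      have h1 := (Int.lt_floor_add_one (κ * m / ε)).le
      rw [div_le_iff₀ hε, ← hR] at h1
      linarith
    have hrR : r0 ≤ R := by
      have h1 : ε * (r0 : ℝ) ≤ ε * R := by linarith
      exact_mod_cast le_of_mul_le_mul_left h1 hε
    have hR0 : (0 : ℝ) < R := lt_of_lt_of_le hr00 (by exact_mod_cast hrR)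
    have hRL : R ≤ ⌊D.ρ / ε⌋ := by
      rw [Int.le_floor, le_div_iff₀ hε]
      have : κ * m ≤ κ * 2 := mul_le_mul_of_nonneg_left hm2 hκ0.le
      linarith
    refine ⟨hrR, hR1, ?_⟩
    have hq := (D.win (TD f ε) v0 _ hv0W r0 R (by exact_mod_cast hr00) hrR hRL).1
    refine hq.trans ?_
    rw [hC2, mul_assoc]
    apply mul_le_mul_of_nonneg_left _ hCW.le
    refine cbrt_mul_le (by positivity) (by positivity) (by positivity) ?_
    rw [div_le_iff₀ hR0]
    have h1 : κ * m / 2 ≤ ε * R := by linarith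
    have h2 : 2 * (K + 1) / κ * (ℓ / m) * R = (2 * (K + 1) * ℓ / (κ * m)) * R := by
      field_simp
    rw [h2, div_mul_eq_mul_div, le_div_iff₀ (by positivity)]
    have h3 : (r0 : ℝ) * (κ * m / 2) ≤ r0 * (ε * R) := mul_le_mul_of_nonneg_left h1 hr00.le
    have h4 : ε * r0 * R ≤ (K + 1) * ℓ * R := mul_le_mul_of_nonneg_right hr02 hR0.le
    linarith
  by_cases hreg : K5 * δ < A
  · -- the far regime
    have e0 : Q = (δ / A) ^ (1 / 3 : ℝ) * (min ℓ A / A) ^ (1 / 3 : ℝ) := by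
      rw [hQ, ← Real.mul_rpow (by positivity) (by positivity)]
      congr 1
      field_simp
    have hp2 : 0 ≤ (δ / A) ^ (1 / 3 : ℝ) := by positivity
    have hp3 : 0 ≤ (min ℓ A / A) ^ (1 / 3 : ℝ) := by positivity
    have hfl : 32 * (K + 1) * δ ≤ D.l * A := by
      calc 32 * (K + 1) * δ ≤ D.l * K5 * δ := mul_le_mul_of_nonneg_right hK5l hδ0.le
        _ = D.l * (K5 * δ) := by ring
        _ ≤ D.l * A := mul_le_mul_of_nonneg_left hreg.le hl.le
    have hfκ : 6 * (K + 1) * δ ≤ κ * A := by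
      calc 6 * (K + 1) * δ ≤ κ * K5 * δ := mul_le_mul_of_nonneg_right hK5κ hδ0.le
        _ = κ * (K5 * δ) := by ring
        _ ≤ κ * A := mul_le_mul_of_nonneg_left hreg.le hκ0.le
    obtain ⟨θ, hθ⟩ := exists_dir z
    obtain ⟨v, hv, hv', hvW⟩ := hG2 θ
    obtain ⟨r, hr⟩ : ∃ r : ℤ, r = ⌈K * δ / ε⌉ := ⟨_, rfl⟩
    have hr1 : K * δ ≤ ε * r := by
      have h1 := Int.le_ceil (K * δ / ε)
      rw [div_le_iff₀ hε, ← hr] at h1
      linarith
    have hr2 : ε * r ≤ (K + 1) * δ := by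
      have h1 := (Int.ceil_lt_add_one (K * δ / ε)).le
      rw [← hr] at h1
      have h2 : ε * (r : ℝ) ≤ ε * (K * δ / ε + 1) := mul_le_mul_of_nonneg_left h1 hε.le
      have h3 : ε * (K * δ / ε + 1) = K * δ + ε := by field_simp
      linarith
    have hr00' : (0 : ℝ) < r := by
      have : 0 < ε * r := lt_of_lt_of_le (by positivity) hr1
      exact (mul_pos_iff_of_pos_left hε).mp this
    have hr1' : 1 ≤ r := by
      have : (0 : ℤ) < r := by exact_mod_cast hr00'
      omega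
    have hvz : ‖pos ε v - f z‖ ≤ D.H * δ + 2 * ε := by
      have h1 : pos ε v - f z = (pos ε v - f (cir θ)) + -(f z - f (cir θ)) := by ring
      rw [h1]
      refine (norm_add_le _ _).trans ?_
      rw [norm_neg]
      have h2 := (D.lip z (disc_of hz.le) (cir θ) (ARM1.cir_mem θ)).2
      rw [dir_dist hz.le hθ] at h2
      linarith
    have hKδ : K * δ = D.H * δ + 5 * δ := by rw [hK]; ring
    have hxv : x ∈ BX v r := by
      apply ALO.mem_BX_of hε
      have h2 : pos ε x - pos ε v = -(pos ε v - f z) := by rw [hfz]; ring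
      rw [h2, norm_neg]
      linarith
    obtain ⟨R, hR⟩ : ∃ R : ℤ, R = ⌊κ * A / ε⌋ := ⟨_, rfl⟩
    have hR1 : ε * R ≤ κ * A := by
      have h1 := Int.floor_le (κ * A / ε)
      rw [le_div_iff₀ hε, ← hR] at h1
      linarith
    have hR2 : κ * A - ε ≤ ε * R := by
      have h1 := (Int.lt_floor_add_one (κ * A / ε)).le
      rw [div_le_iff₀ hε, ← hR] at h1
      linarith
    have hRA : κ * A / 2 ≤ ε * R := by linarith
    have hKδ0 : 0 < (K + 1) * δ := by positivity
    have hKδ1 : δ ≤ (K + 1) * δ := by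
      have : 0 < K * δ := by positivity
      linarith
    have hrR : 3 * r ≤ R := by
      have h1 : ε * ((3 * r : ℤ) : ℝ) ≤ ε * R := by
        push_cast
        linarith
      exact_mod_cast le_of_mul_le_mul_left h1 hε
    have hR0 : (0 : ℝ) < R := by
      have : (3 * r : ℝ) ≤ R := by exact_mod_cast hrR
      linarith
    have hRL : R ≤ ⌊D.ρ / ε⌋ := by
      rw [Int.le_floor, le_div_iff₀ hε]
      have : κ * A ≤ κ * 2 := mul_le_mul_of_nonneg_left hA2 hκ0.le
      linarith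
    have hxT : x ∈ TD f ε := by
      have := D.box (n := 0) hε hε0 hz (q := x) (e := 0) (by rw [hfz, sub_self, norm_zero])
        (by
          rw [← hδ]
          have : 0 < D.l * δ := by positivity
          simpa using this)
      exact this x (by rw [mem_BX]; simp)
    have h4L : 4 * r ≤ ⌊D.ρ / ε⌋ := by
      rw [Int.le_floor, le_div_iff₀ hε]
      push_cast
      have : κ * A ≤ κ * 2 := mul_le_mul_of_nonneg_left hA2 hκ0.le
      linarith
    obtain ⟨w, hw1, hw2, hw3⟩ := down hvW hxT hxv h4L hr1'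
    -- distances
    have hdist : ∀ y ∈ BX v (3 * r), ‖pos ε y - f z‖ ≤ 7 * (K + 1) * δ := by
      intro y hy
      have h1 := ARM1.norm_pos_sub hε hy
      push_cast at h1
      have h2 : pos ε y - f z = (pos ε y - pos ε v) + (pos ε v - f z) := by ring
      rw [h2]
      refine (norm_add_le _ _).trans ?_
      linarith
    have hwB : w ∈ near f ε θ2 (θ1 + 2 * Real.pi) := by
      rcases near_or (θ1 := θ1) (θ2 := θ2) hε hG3 hw2 with ⟨t, h1, h2, h3⟩ | h
      · exfalso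
        have h4 := hdist w hw1
        have h5 := (D.lip z (disc_of hz.le) (cir t) (ARM1.cir_mem t)).1
        have h6 := mul_le_mul_of_nonneg_left (hmin t h1 h2) hl.le
        have h7 : f z - f (cir t) = -(pos ε w - f z) + (pos ε w - f (cir t)) := by ring
        have h8 := norm_add_le (-(pos ε w - f z)) (pos ε w - f (cir t))
        rw [← h7, norm_neg] at h8
        linarith
      · exact h
    have hev : ∀ F, F ⊆ ES (TD f ε) → (¬ Rt (TD f ε) (near f ε θ1 θ2)
        (near f ε θ2 (θ1 + 2 * Real.pi)) x F) →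
        ∃ y ∈ TD f ε, y ∈ BX v (3 * r) ∧ ∃ u ∈ near f ε θ1 θ2, Reach (F : Set Edg) u y := by
      intro F hF hL
      obtain ⟨y, h1, h2, h3⟩ := left_meets (W := fun y => y ∈ BX v (3 * r)) hL
        ⟨hxT, BX_mono (by omega) hxv⟩ (hw3 _ (fun y hy => hy)) hwB
      exact ⟨y, h1, h2, h3⟩
    have hq2 : D.CW * (((3 * r : ℤ) : ℝ) / R) ^ (1 / 3 : ℝ) ≤ C4 * (δ / A) ^ (1 / 3 : ℝ) := by
      clear hev hw3 hdist
      rw [hC4, mul_assoc]
      apply mul_le_mul_of_nonneg_left _ hCW.le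
      push_cast
      refine cbrt_mul_le (by positivity) (by positivity) (by positivity) ?_
      rw [div_le_iff₀ hR0]
      have h2 : 6 * (K + 1) / κ * (δ / A) * R = (6 * (K + 1) * δ / (κ * A)) * R := by
        field_simp
      rw [h2, div_mul_eq_mul_div, le_div_iff₀ (by positivity)]
      have h3 : (r : ℝ) * (κ * A / 2) ≤ r * (ε * R) := mul_le_mul_of_nonneg_left hRA hr00'.le
      have h4 : ε * r * R ≤ (K + 1) * δ * R := mul_le_mul_of_nonneg_right hr2 hR0.le
      linarith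
    have hq := (D.win (TD f ε) v _ hvW (3 * r) R (by omega) hrR hRL).1
    have h1 : Loc (ES (TD f ε)) (fun F => ¬ Rt (TD f ε) (near f ε θ1 θ2)
        (near f ε θ2 (θ1 + 2 * Real.pi)) x F) (ES (TD f ε ∩ BX v R))
        (C4 * (δ / A) ^ (1 / 3 : ℝ)) := by
      refine loc_XT hrR (hq.trans hq2) ?_
      intro F hF hL
      obtain ⟨y, hy1, hy2, u, hu, hr⟩ := hev F hF hL
      refine ⟨y, hy1, hy2, u, fun hc => ?_, hr.symm⟩
      obtain ⟨-, t, h1, h2, h3⟩ := hu
      have h4 := ARM1.norm_pos_sub hε hc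
      push_cast at h4
      have h5 := (D.lip z (disc_of hz.le) (cir t) (ARM1.cir_mem t)).1
      have h6 := mul_le_mul_of_nonneg_left (hmin t h1 h2) hl.le
      have h7 : f z - f (cir t) = -(pos ε v - f z) + -(pos ε u - pos ε v) +
        (pos ε u - f (cir t)) := by ring
      have h8 := norm_add₃_le (a := -(pos ε v - f z)) (b := -(pos ε u - pos ε v))
        (c := pos ε u - f (cir t))
      rw [← h7, norm_neg, norm_neg] at h8
      linarith
    by_cases hc : (K + 1) * ℓ ≤ κ * A / 2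
    · -- a small arc
      obtain ⟨a1, a2, a3⟩ := hann A hA0' hA2 (by linarith) hc
      rw [← hR] at a1 a2 a3
      have hℓA : ℓ ≤ A := by
        have : κ * A ≤ 1 * A := mul_le_mul_of_nonneg_right hκ1 hA0'.le
        have : 0 < K * ℓ := by positivity
        linarith
      have h2 : Loc (ES (TD f ε)) (fun F => ¬ Rt (TD f ε) (near f ε θ1 θ2)
          (near f ε θ2 (θ1 + 2 * Real.pi)) x F) (ES (TD f ε ∩ BX v0 R))
          (C2 * (min ℓ A / A) ^ (1 / 3 : ℝ)) := by
        rw [min_eq_left hℓA]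
        refine loc_XT a1 a3 ?_
        intro F hF hL
        obtain ⟨y, hy1, hy2, u, hu, hr⟩ := hev F hF hL
        refine ⟨u, (hbox u hu).1, (hbox u hu).2, y, fun hc => ?_, hr⟩
        have h3 := ARM1.norm_pos_sub hε hc
        push_cast at h3
        have h4 := hdist y hy2
        have h5 : f z - f (cir t0) = -(pos ε y - f z) + (pos ε y - pos ε v0) +
          (pos ε v0 - f (cir t0)) := by ring
        have h6 := norm_add₃_le (a := -(pos ε y - f z)) (b := pos ε y - pos ε v0)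
          (c := pos ε v0 - f (cir t0))
        rw [← h5, norm_neg] at h6
        linarith
      have hd : Disjoint (ES (TD f ε ∩ BX v R)) (ES (TD f ε ∩ BX v0 R)) := by
        rw [Finset.disjoint_left]
        intro e he he'
        rw [mem_ES, Finset.mem_inter] at he he'
        have h3 := ARM1.norm_pos_sub hε he.1.2
        have h4 := ARM1.norm_pos_sub hε he'.1.2
        have h5 : f z - f (cir t0) = (-(pos ε v - f z) + -(pos ε (H974.src e) - pos ε v)) +
          (pos ε (H974.src e) - pos ε v0) + (pos ε v0 - f (cir t0)) := by ring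
        have h6 := norm_add₃_le (a := -(pos ε v - f z) + -(pos ε (H974.src e) - pos ε v))
          (b := pos ε (H974.src e) - pos ε v0) (c := pos ε v0 - f (cir t0))
        have h7 := norm_add_le (-(pos ε v - f z)) (-(pos ε (H974.src e) - pos ε v))
        rw [← h5] at h6
        rw [norm_neg, norm_neg] at h7
        linarith
      refine (Loc.two hd h1 h2 (by positivity)).trans ?_
      calc C4 * (δ / A) ^ (1 / 3 : ℝ) * (C2 * (min ℓ A / A) ^ (1 / 3 : ℝ)) =
            C4 * C2 * Q := by rw [e0]; ring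
        _ ≤ _ := by
            apply mul_le_mul_of_nonneg_right _ hQ0
            have : 0 < C4 * C3 := by positivity
            have : 0 < C2 * C5 := by positivity
            have e1 : C4 * (C2 + C3) = C4 * C2 + C4 * C3 := by ring
            linarith
    · push Not at hc
      refine h1.le.trans ?_
      have h5 : (1 : ℝ) ≤ C3 * (min ℓ A / A) ^ (1 / 3 : ℝ) := by
        have h6 := cbrt_mul_le (C := 1 + 2 * (K + 1) / κ) (a := 1) (b := min ℓ A / A)
          (by positivity) (by positivity) (by norm_num) (by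
            rcases min_choice ℓ A with h | h
            · rw [h]
              have h7 : (1 + 2 * (K + 1) / κ) * (ℓ / A) =
                (κ + 2 * (K + 1)) * ℓ / (κ * A) := by field_simp
              rw [h7, le_div_iff₀ (by positivity)]
              have : 0 < κ * ℓ := by positivity
              linarith
            · rw [h, div_self hA0'.ne', mul_one]
              have : 0 < 2 * (K + 1) / κ := by positivity
              linarith)
        rw [Real.one_rpow, ← hC3] at h6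
        exact h6
      calc C4 * (δ / A) ^ (1 / 3 : ℝ) = C4 * (δ / A) ^ (1 / 3 : ℝ) * 1 := by ring
        _ ≤ C4 * (δ / A) ^ (1 / 3 : ℝ) * (C3 * (min ℓ A / A) ^ (1 / 3 : ℝ)) :=
            mul_le_mul_of_nonneg_left h5 (by positivity)
        _ = C4 * C3 * Q := by rw [e0]; ring
        _ ≤ _ := by
            apply mul_le_mul_of_nonneg_right _ hQ0
            have : 0 < C4 * C2 := by positivity
            have : 0 < C2 * C5 := by positivity
            have e1 : C4 * (C2 + C3) = C4 * C2 + C4 * C3 := by ring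
            linarith
  · -- the near regime
    push Not at hreg
    have hA5 : A ^ 2 ≤ K5 ^ 2 * δ ^ 2 := by
      rw [← mul_pow]
      exact pow_le_pow_left₀ hA0'.le hreg 2
    by_cases hc : (K + 1) * ℓ ≤ κ * δ / 2
    · obtain ⟨a1, a2, a3⟩ := hann δ hδ0 (hδA.trans hA2) hκε hc
      obtain ⟨R, hR⟩ : ∃ R : ℤ, R = ⌊κ * δ / ε⌋ := ⟨_, rfl⟩
      rw [← hR] at a1 a2 a3
      have hxR : x ∉ BX v0 R := by
        intro hx
        have h3 := ARM1.norm_pos_sub hε hx
        have h4 : f z - f (cir t0) = (pos ε x - pos ε v0) + (pos ε v0 - f (cir t0)) := by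
          rw [hfz]; ring
        have h5 := norm_add_le (pos ε x - pos ε v0) (pos ε v0 - f (cir t0))
        rw [← h4] at h5
        have h6 : D.l * δ ≤ D.l * A := mul_le_mul_of_nonneg_left hδA hl.le
        linarith
      have hxT : x ∈ TD f ε := by
        have := D.box (n := 0) hε hε0 hz (q := x) (e := 0) (by rw [hfz, sub_self, norm_zero])
          (by
            rw [← hδ]
            have : 0 < D.l * δ := by positivity
            simpa using this)
        exact this x (by rw [mem_BX]; simp)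
      obtain ⟨w, hw1, hw2, hw3⟩ := esc hxT hxR
      have hwB : w ∈ near f ε θ2 (θ1 + 2 * Real.pi) := by
        rcases near_or (θ1 := θ1) (θ2 := θ2) hε hG3 hw1 with ⟨t, h1, h2, h3⟩ | h
        · exfalso
          exact hw2 (BX_mono a1 (hbox w ⟨hw1.1, t, h1, h2, by linarith⟩).2)
        · exact h
      have h1 : Pr hf (ES (TD f ε)) (fun F => ¬ Rt (TD f ε) (near f ε θ1 θ2)
          (near f ε θ2 (θ1 + 2 * Real.pi)) x F) ≤ C2 * (ℓ / δ) ^ (1 / 3 : ℝ) := by
        refine (Pr_mono oku ?_).trans a3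
        intro F hF hL
        obtain ⟨y, h1, h2, u, hu, hr⟩ := left_meets (W := fun y => y ∉ BX v0 R) hL
          ⟨hxT, hxR⟩ hw3 hwB
        exact ⟨u, (hbox u hu).1, (hbox u hu).2, y, h1, fun h => h2 (BX_mono (by omega) h), hr⟩
      refine h1.trans ?_
      have h2 : (ℓ / δ) ^ (1 / 3 : ℝ) ≤ C5 * Q := by
        rw [hC5, hQ]
        refine cbrt_mul_le (by positivity) (by positivity) (by positivity) ?_
        have hℓA : ℓ ≤ A := by
          have : κ * δ ≤ 1 * δ := mul_le_mul_of_nonneg_right hκ1 hδ0.le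
          have : 0 < K * ℓ := by positivity
          linarith
        rw [min_eq_left hℓA, mul_div_assoc', div_le_div_iff₀ hδ0 (by positivity)]
        have h3 := mul_le_mul_of_nonneg_left hA5 hℓ0.le
        linarith
      calc C2 * (ℓ / δ) ^ (1 / 3 : ℝ) ≤ C2 * (C5 * Q) := mul_le_mul_of_nonneg_left h2 hC20.le
        _ = C2 * C5 * Q := by ring
        _ ≤ _ := by
            apply mul_le_mul_of_nonneg_right _ hQ0
            have : 0 < C4 * (C2 + C3) := by positivity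
            linarith
    · push Not at hc
      refine (Pr_le_one oku _ _).trans ?_
      have h6 := cbrt_mul_le (C := 2 * (K + 1) * K5 ^ 2 / κ) (a := 1) (b := δ * min ℓ A / A ^ 2)
        (by positivity) (by positivity) (by norm_num) (by
          have h7 : 2 * (K + 1) * K5 ^ 2 / κ * (δ * min ℓ A / A ^ 2) =
            (2 * (K + 1) * min ℓ A) * (K5 ^ 2 * δ) / (κ * A ^ 2) := by field_simp
          rw [h7, le_div_iff₀ (by positivity)]
          have h8 : κ * δ ≤ 2 * (K + 1) * min ℓ A := by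
            rcases min_choice ℓ A with h | h
            · rw [h]; linarith
            · rw [h]
              have : κ * δ ≤ 1 * δ := mul_le_mul_of_nonneg_right hκ1 hδ0.le
              have : 0 < K * A := by positivity
              linarith
          have h9 : 0 ≤ K5 ^ 2 * δ := by positivity
          have h10 := mul_le_mul_of_nonneg_right h8 h9
          have h11 := mul_le_mul_of_nonneg_left hA5 hκ0.le
          linarith)
      rw [Real.one_rpow, ← hC6, ← hQ] at h6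
      refine h6.trans ?_
      apply mul_le_mul_of_nonneg_right _ hQ0
      have : 0 < C4 * (C2 + C3) := by positivity
      have : 0 < C2 * C5 := by positivity
      linarith

end Run7.h663.PA
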