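import Pool.Agent.Y989.SD.Main
import Pool.Agent.H362P.Low

/-!
Interior points of lattice domains: local estimates, and connection of an interior point to a
macroscopic neighbourhood of the boundary.
-/

set_option autoImplicit false

namespace Run7.h663.PA

open H974 hiding Blk
open H973 Finset
open Pool.Agent.Y989.SD
open Pool.Agent.H160R2.CV (nv P ar Far)
open Pool.Agent.H160R2.CV.Quad (bo)

/-! ### boxes -/

theorem bo_sub {T : Finset Vtx} {x : Vtx} {n : ℕ} (h : ∀ y ∈ BX x n, y ∈ T) : bo x n ⊆ ES T := by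
  rintro ⟨a, b, _ | _⟩ he
  · rw [bo, mem_RE_false] at he
    rw [mem_ES]
    refine ⟨h _ ?_, h _ ?_⟩ <;> rw [mem_BX] <;> simp only [src_mk, tgt_false] <;> omega
  · rw [bo, mem_RE_true] at he
    rw [mem_ES]
    refine ⟨h _ ?_, h _ ?_⟩ <;> rw [mem_BX] <;> simp only [src_mk, tgt_true] <;> omega

theorem mem_BX_nv {x y : Vtx} {n : ℕ} : y ∈ BX x n ↔ nv (y - x) ≤ n := by
  rw [mem_BX]
  unfold nv
  simp only [Prod.fst_sub, Prod.snd_sub]
  omega

theorem le_nv {x w : Vtx} {n : ℕ} : n ≤ nv (w - x) ↔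
    w.1 ≤ x.1 - n ∨ x.1 + n ≤ w.1 ∨ w.2 ≤ x.2 - n ∨ x.2 + n ≤ w.2 := by
  unfold nv
  simp only [Prod.fst_sub, Prod.snd_sub]
  omega

theorem nv_le {x w : Vtx} {n : ℕ} : nv (w - x) ≤ n ↔
    (x.1 - n ≤ w.1 ∧ w.1 ≤ x.1 + n) ∧ (x.2 - n ≤ w.2 ∧ w.2 ≤ x.2 + n) := by
  rw [← mem_BX_nv, mem_BX]

theorem BX_mono {x : Vtx} {m n : ℤ} (h : m ≤ n) {y : Vtx} (hy : y ∈ BX x m) : y ∈ BX x n := by
  rw [mem_BX] at *
  omega

/-- arms of an interior point -/
theorem far_lower {S : Finset Edg} {x : Vtx} {n : ℕ} (hS : bo x n ⊆ S) :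
    ar n ≤ Pr hf S (Far x n) := by
  have h1 : ar n ≤ barm (1 / 2) 0 n := by
    unfold ar arm barm
    apply Pr_mono okhalf
    rintro F - ⟨w, hw, hr⟩
    refine ⟨(0, 0), w, ?_, hw, hr⟩
    unfold inR
    simp
  have h2 : barm (1 / 2) 0 n ≤ Pr hf S (Pool.Agent.H389R2.CD.Ex1 x 0 n) := H362P.pr_Ex1_ge hS
  refine h1.trans (h2.trans (Pr_mono okhalf ?_))
  intro F _ hF
  obtain ⟨u, w, hu, hw, hr⟩ := H362P.Ex1_out hF
  have h3 : u - x = 0 := Pool.Agent.H160R2.CV.Quad.nv_eq_zero (by omega)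
  have h4 : u = x := sub_eq_zero.mp h3
  subst h4
  exact ⟨w, hw, hr⟩

/-- connection of a small box to a large one -/
def ExB (x : Vtx) (m n : ℕ) (F : Finset Edg) : Prop :=
  ∃ u w : Vtx, nv (u - x) ≤ m ∧ n ≤ nv (w - x) ∧ Reach (F : Set Edg) u w

theorem ExB_incr (S : Finset Edg) (x : Vtx) (m n : ℕ) : IncrE S (ExB x m n) := by
  rintro F G h - ⟨u, w, h1, h2, h3⟩
  exact ⟨u, w, h1, h2, h3.mono (by exact_mod_cast h)⟩

theorem exb_lower {S : Finset Edg} {x : Vtx} {n : ℕ} (hn : 1 ≤ n) (hS : bo x (4 * n) ⊆ S) :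
    (1 / 8 : ℝ) ≤ Pr hf S (ExB x (n / 2) (4 * n)) := by
  have h1 : barm (1 / 2) (n / 2) (4 * n) ≤ Pr hf S (Pool.Agent.H389R2.CD.Ex1 x (n / 2) (4 * n)) :=
    H362P.pr_Ex1_ge hS
  have h2 := barm_lower (r := n / 2) (n := 4 * n) (by omega) (by omega)
  have h3 : (n : ℝ) ≤ 2 * ((n / 2 : ℕ) : ℝ) + 1 := by
    have : n ≤ 2 * (n / 2) + 1 := by omega
    exact_mod_cast this
  have h4 : 0 ≤ barm (1 / 2) (n / 2) (4 * n) := barm_nonneg (by norm_num) (by norm_num) _ _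
  have h5 : (1 / 8 : ℝ) ≤ barm (1 / 2) (n / 2) (4 * n) := by
    have hn' : (0 : ℝ) < n := by exact_mod_cast hn
    push_cast at h2
    by_contra hc
    push Not at hc
    have h6 : barm (1 / 2) (n / 2) (4 * n) ^ 2 < (1 / 8) ^ 2 := pow_lt_pow_left₀ hc h4 (by norm_num)
    nlinarith
  refine h5.trans (h1.trans (Pr_mono okhalf ?_))
  intro F _ hF
  exact H362P.Ex1_out hF

theorem circ_lower {S : Finset Edg} {x : Vtx} {n : ℕ} (hn : 1 ≤ n) (hS : bo x (3 * n) ⊆ S) :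
    (1 / 2 : ℝ) ^ 188 ≤ Pr hf S (H362P.CA x n (3 * n)) := H362P.pr_CA hn hS

/-! ### chains of circuits -/

/-- circuits and crossings along a chain of boxes -/
def Chain (p : ℕ → Vtx) (n M : ℕ) (F : Finset Edg) : Prop :=
  ∀ j < M + 1, H362P.CA (p j) n (3 * n) F ∧ ExB (p j) (n / 2) (4 * n) F

theorem Chain_incr (S : Finset Edg) (p : ℕ → Vtx) (n M : ℕ) : IncrE S (Chain p n M) :=
  fun F G h h' hF j hj => ⟨H362P.CA_incr S _ _ _ F G h h' (hF j hj).1,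
    ExB_incr S _ _ _ F G h h' (hF j hj).2⟩

/-- the constant of the chain -/
noncomputable def cc : ℝ := (1 / 2 : ℝ) ^ 188 * (1 / 8)

theorem cc_pos : 0 < cc := by unfold cc; positivity

theorem chain_lower {S : Finset Edg} {p : ℕ → Vtx} {n M : ℕ} (hn : 1 ≤ n)
    (hS : ∀ j < M + 1, bo (p j) (4 * n) ⊆ S) : cc ^ (M + 1) ≤ Pr hf S (Chain p n M) := by
  refine CHN.harris_fin okhalf
    (fun j F => H362P.CA (p j) n (3 * n) F ∧ ExB (p j) (n / 2) (4 * n) F)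
    (fun j F G h h' hF => ⟨H362P.CA_incr S _ _ _ F G h h' hF.1, ExB_incr S _ _ _ F G h h' hF.2⟩)
    cc_pos.le (M + 1) (fun j hj => ?_)
  have h1 : bo (p j) (3 * n) ⊆ S := by
    refine Finset.Subset.trans ?_ (hS j hj)
    unfold bo
    apply RE_subset <;> push_cast <;> omega
  have h2 := circ_lower hn h1
  have h3 := exb_lower hn (hS j hj)
  refine le_trans ?_ (Pr_harris okhalf (H362P.CA_incr S _ _ _) (ExB_incr S _ _ _))
  unfold cc
  exact mul_le_mul h2 h3 (by norm_num) (Pr_nonneg okhalf _ _)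

/-- all the circuits of the chain are connected -/
theorem chain_meet {p : ℕ → Vtx} {n M : ℕ} (hn : 1 ≤ n)
    (hp : ∀ j < M, 2 * nv (p (j + 1) - p j) ≤ n) {F : Finset Edg} (h : Chain p n M F) :
    ∃ z : Vtx, ∀ j < M + 1, ∀ u v : Vtx, nv (u - p j) ≤ n → 3 * n ≤ nv (v - p j) →
      Reach (F : Set Edg) u v → Reach (F : Set Edg) u z := by
  obtain ⟨z, hz⟩ := H362P.CA_meet (by omega) (h 0 (by omega)).1
  refine ⟨z, fun j => ?_⟩
  induction j with
  | zero => exact fun _ u v => hz u v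
  | succ j ih =>
    intro hj u v hu hv hr
    obtain ⟨z', hz'⟩ := H362P.CA_meet (by omega) (h (j + 1) hj).1
    obtain ⟨a, b, ha, hb, hab⟩ := (h j (by omega)).2
    have hpj : nv (p (j + 1) - p j) ≤ n / 2 := by
      have := hp j (by omega)
      omega
    have k1 := ih (by omega) a b (by omega) (by omega) hab
    rw [nv_le] at ha hpj
    rw [le_nv] at hb
    have e1 : nv (a - p (j + 1)) ≤ n := by
      rw [nv_le]
      omega
    have e2 : 3 * n ≤ nv (b - p (j + 1)) := by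
      rw [le_nv]
      omega
    have k2 := hz' a b e1 e2 hab
    have k3 := hz' u v hu hv hr
    exact k3.trans (k2.symm.trans k1)

/-! ### columns -/

theorem tall_le (K m : ℕ) (hm : 1 ≤ m) {q : ℤ} (hq0 : 0 < q) (hq : q ≤ K * m) :
    (1 / 2 : ℝ) ^ (48 * (K + 1)) ≤ hh (1 / 2) q (2 * m) := by
  have hm' : (0 : ℤ) < m := by exact_mod_cast hm
  refine (hh_long K hm').trans (hh_mono (by norm_num) (by norm_num) hq0 ?_ le_rfl)
  have : (K : ℤ) * m ≤ (8 + 6 * (K : ℤ)) * m := by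
    apply mul_le_mul_of_nonneg_right _ hm'.le
    omega
  omega

/-- a path from the middle of a box to the outside of a larger box -/
def Out (T : Finset Vtx) (x v : Vtx) (n : ℕ) (R : ℤ) (F : Finset Edg) : Prop :=
  ∃ u ∈ T, u ∈ BX x n ∧ ∃ w ∈ T, w ∉ BX v (R - 1) ∧ Reach (F : Set Edg) u w

theorem Out_incr (S : Finset Edg) (T : Finset Vtx) (x v : Vtx) (n : ℕ) (R : ℤ) :
    IncrE S (Out T x v n R) := by
  rintro F G h - ⟨u, hu, hux, w, hw, hwR, hr⟩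
  exact ⟨u, hu, hux, w, hw, hwR, hr.mono (by exact_mod_cast h)⟩

theorem col (K : ℕ) : ∃ c : ℝ, 0 < c ∧ ∀ (T : Finset Vtx) (v x : Vtx) (L : ℤ) (B α : ℝ) (n : ℕ)
    (r : ℤ), Win T v L B α → 1 ≤ n → (∀ y ∈ BX x n, y ∈ T) → (∀ y ∈ BX x n, y ∈ BX v r) →
    r ≤ K * n → 128 * r ≤ L → c ≤ Pr hf (ES T) (Out T x v n (64 * r)) := by
  refine ⟨(1 / 2 : ℝ) ^ (48 * (130 * K + 1)), by positivity, ?_⟩
  intro T v x L B α n r hW hn hxT hxv hrK hrL
  obtain ⟨g, h, s, hv, hg, hLp, hs, hFl, hQ⟩ := EMB.t_EMB T v L B α hW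
  subst hv
  obtain ⟨x, rfl⟩ := g.ψ.surjective x
  have hT : ∀ y ∈ QB L, (y ∈ WIN.tT g T ↔ h y.1 ≤ y.2) := by
    intro y hy
    rw [WIN.mem_tT]
    exact hQ y hy
  have hx0 : ∀ y ∈ BX x n, y ∈ WIN.tT g T ∧ y ∈ BX (0, 0) r := by
    intro y hy
    have h1 := (hg y x n).mpr hy
    exact ⟨WIN.mem_tT.mpr (hxT _ h1), (hg y (0, 0) r).mp (hxv _ h1)⟩
  set T' := WIN.tT g T with hT'
  have hr0 : (n : ℤ) ≤ r := by
    have h1 := (hx0 (x.1 + n, x.2) (by rw [mem_BX]; simp only; omega)).2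
    have h2 := (hx0 (x.1 - n, x.2) (by rw [mem_BX]; simp only; omega)).2
    rw [mem_BX] at h1 h2
    simp only at h1 h2
    omega
  have hn0 : (1 : ℤ) ≤ n := by exact_mod_cast hn
  have hxb : ∀ a : ℤ, x.1 - n ≤ a → a ≤ x.1 + n → h a ≤ x.2 - n ∧ -r ≤ a ∧ a ≤ r := by
    intro a h1 h2
    obtain ⟨h3, h4⟩ := hx0 (a, x.2 - n) (by rw [mem_BX]; simp only; omega)
    rw [mem_BX] at h4
    simp only at h4
    have h5 := (hT (a, x.2 - n) (by rw [mem_QB]; simp only; omega)).mp h3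
    exact ⟨h5, by omega, by omega⟩
  have hx2 : -r ≤ x.2 - n ∧ x.2 + n ≤ r := by
    have h1 := (hx0 (x.1, x.2 + n) (by rw [mem_BX]; simp only; omega)).2
    have h2 := (hx0 (x.1, x.2 - n) (by rw [mem_BX]; simp only; omega)).2
    rw [mem_BX] at h1 h2
    simp only at h1 h2
    omega
  have hcol : ∀ a b : ℤ, x.1 - n ≤ a → a ≤ x.1 + n → x.2 ≤ b → b ≤ x.2 + 130 * r →
      ((a, b) : Vtx) ∈ T' := by
    intro a b h1 h2 h3 h4
    obtain ⟨h5, h6, h7⟩ := hxb a h1 h2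
    refine (hT (a, b) (by rw [mem_QB]; simp only; omega)).mpr ?_
    simp only
    omega
  have hsub : TBE (x.1 - n) (x.1 + n) x.2 (x.2 + 130 * r) ⊆ ES T' := by
    rintro ⟨a, b, _ | _⟩ he
    · rw [mem_TBE_false] at he
      rw [mem_ES, src_mk, tgt_false]
      exact ⟨hcol a b (by omega) (by omega) (by omega) (by omega),
        hcol a (b + 1) (by omega) (by omega) (by omega) (by omega)⟩
    · rw [mem_TBE_true] at he
      rw [mem_ES, src_mk, tgt_true]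
      exact ⟨hcol a b (by omega) (by omega) (by omega) (by omega),
        hcol (a + 1) b (by omega) (by omega) (by omega) (by omega)⟩
  have hpr : (1 / 2 : ℝ) ^ (48 * (130 * K + 1)) ≤
      Pr hf (ES T') (TBc (x.1 - n) (x.1 + n) x.2 (x.2 + 130 * r)) := by
    have e := pr_TBc (1 / 2) hsub
    have e2 : Pr hf (ES T') (TBc (x.1 - n) (x.1 + n) x.2 (x.2 + 130 * r)) =
        hh (1 / 2) (130 * r) (2 * n) := by
      refine e.trans ?_
      congr 1 <;> ring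
    rw [e2]
    refine tall_le (130 * K) n hn (by omega) ?_
    push_cast
    nlinarith
  refine hpr.trans ?_
  rw [WIN.pr_tT g T]
  refine Pr_mono okhalf ?_
  rintro F - ⟨a, b, h1, h2, h3⟩
  refine ⟨g.ψ (a, x.2), WIN.mem_tT.mp (hcol _ _ h1.1 h1.2 le_rfl (by omega)), ?_,
    g.ψ (b, x.2 + 130 * r), WIN.mem_tT.mp (hcol _ _ h2.1 h2.2 (by omega) le_rfl), ?_, ?_⟩
  · rw [hg, mem_BX]
    simp only
    omega
  · rw [hg, mem_BX]
    simp only
    omega
  · exact (WIN.reach_mp g F _ _).mpr (h3.mono Set.inter_subset_left)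

end Run7.h663.PA
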