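import Pool.Agent.Run7.h663.PA.Geo

/-!
Interior points of smooth lattice domains: sources in a window and at macroscopic distances.
-/

set_option autoImplicit false

namespace Run7.h663.PA

open H974 hiding Blk
open H973 Finset
open Pool.Agent.Y989.SD
open Pool.Agent.H160R2.CV (nv P ar Far)
open Pool.Agent.H160R2.CV.Quad (bo)

variable {f : ℂ → ℂ}

theorem dir_dist {z : ℂ} {θ : ℝ} (hz : ‖z‖ ≤ 1) (hθ : z = (‖z‖ : ℂ) * cir θ) :
    ‖z - cir θ‖ = 1 - ‖z‖ := by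
  have := norm_sub_cir (s := ‖z‖) (t := 1) θ
  rw [Complex.ofReal_one, one_mul, ← hθ] at this
  rw [this, abs_sub_comm, abs_of_nonneg (by linarith)]

theorem Dom.circ (D : Dom f) (θ θ' : ℝ) : ‖f (cir θ) - f (cir θ')‖ ≤ D.H * ‖cir θ - cir θ'‖ :=
  (D.lip _ (ARM1.cir_mem θ) _ (ARM1.cir_mem θ')).2

/-- box shift -/
theorem not_BX_shift {v w x : Vtx} {n m k : ℤ} (hv : v ∈ BX w n) (hk : m + n ≤ k)
    (hx : x ∉ BX v k) : x ∉ BX w m := by
  intro h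
  apply hx
  rw [mem_BX] at *
  omega

/-- two base points -/
theorem base_near {ε ρ B α e : ℝ} (hε : 0 < ε) {θ θ' : ℝ} {v v' : Vtx}
    (h : Bp f ε ρ B α θ v) (h' : Bp f ε ρ B α θ' v') (he : ‖f (cir θ) - f (cir θ')‖ ≤ e) {r : ℤ}
    (hr : e + 4 * ε ≤ ε * r) : v ∈ BX v' r := by
  apply ALO.mem_BX_of hε
  have h1 : pos ε v - pos ε v' = (pos ε v - f (cir θ)) + (f (cir θ) - f (cir θ')) +
      -(pos ε v' - f (cir θ')) := by ring
  rw [h1]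
  refine norm_add₃_le.trans ?_
  rw [norm_neg]
  linarith [h.2.1, h'.2.1]

/-- **A source in a window.** -/
theorem win_src (D : Dom f) {K3 A0 : ℝ} (hK3 : K3 = 5 * D.H + 12)
    (hA0 : A0 = D.ρ / (128 * (K3 + 1))) : ∃ c K0 : ℝ, 0 < c ∧ 1 ≤ K0 ∧
    ∀ (ε m : ℝ) (x : Vtx) (z : ℂ) (θ0 : ℝ) (v0 : Vtx), 0 < ε → ε ≤ D.ε0 → ‖z‖ < 1 → f z = pos ε x →
    K0 * ε ≤ 1 - ‖z‖ → 1 - ‖z‖ ≤ m → ‖z - cir θ0‖ ≤ 3 * m → m ≤ A0 →
    Bp f ε D.ρ D.B D.α θ0 v0 →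
    c * ((ε / (1 - ‖z‖)) ^ (5 / 48 : ℝ) * ((1 - ‖z‖) / m) ^ (1 / 3 : ℝ)) ≤
      Pr hf (ES (TD f ε)) (Src (TD f ε) x (fun u => u ∈ BX v0 ⌈K3 * m / ε⌉)
        (fun w => w ∉ BX v0 (64 * ⌈K3 * m / ε⌉ - 1))) := by
  have hH := D.hH
  obtain ⟨K2, hK2⟩ : ∃ K2 : ℝ, K2 = D.H + 5 := ⟨_, rfl⟩
  obtain ⟨c, K0, hc, hK0, h⟩ := arm_all D one_pos hK2
  have hK3p : 0 < K3 := by linarith
  refine ⟨c * (1 / (65 * (K3 + 1))) ^ (1 / 3 : ℝ), K0, by positivity, hK0, ?_⟩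
  intro ε m x z θ0 v0 hε hε0 hz hfz hKε hδm hzm hmA hBp
  obtain ⟨θ, hθ⟩ := exists_dir z
  obtain ⟨-, hG2, -⟩ := D.gd ε hε hε0
  obtain ⟨v, hv, hv', hvW⟩ := hG2 θ
  have hBv : Bp f ε D.ρ D.B D.α θ v := ⟨hv, hv', hvW⟩
  set δ := 1 - ‖z‖ with hδ
  have hεδ : ε ≤ δ := by nlinarith
  have hδ0 : 0 < δ := hε.trans_le hεδ
  have hm0 : 0 < m := hδ0.trans_le hδm
  have hεm : ε ≤ m := hεδ.trans hδm
  have hδ1 : δ ≤ 1 := by linarith [norm_nonneg z]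
  set r0 : ℤ := ⌈K3 * m / ε⌉ with hr0
  set r : ℤ := ⌈K2 * δ / ε⌉ with hr
  have hr01 : K3 * m ≤ ε * r0 := by
    have h1 := Int.le_ceil (K3 * m / ε)
    rw [div_le_iff₀ hε, ← hr0] at h1
    linarith
  have hr02 : ε * r0 ≤ (K3 + 1) * m := by
    have h1 := (Int.ceil_lt_add_one (K3 * m / ε)).le
    have h2 : ε * (r0 : ℝ) ≤ ε * (K3 * m / ε + 1) := mul_le_mul_of_nonneg_left h1 hε.le
    have h3 : ε * (K3 * m / ε + 1) = K3 * m + ε := by field_simp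
    linarith
  have hr1 : ε * r ≤ (K2 + 1) * m := by
    have h1 := (Int.ceil_lt_add_one (K2 * δ / ε)).le
    have h2 : ε * (r : ℝ) ≤ ε * (K2 * δ / ε + 1) := mul_le_mul_of_nonneg_left h1 hε.le
    have h3 : ε * (K2 * δ / ε + 1) = K2 * δ + ε := by field_simp
    have h4 : K2 * δ ≤ K2 * m := mul_le_mul_of_nonneg_left hδm (by linarith)
    linarith
  have hr00 : (0 : ℝ) < r0 := by
    have : 0 < ε * r0 := lt_of_lt_of_le (by positivity) hr01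
    exact (mul_pos_iff_of_pos_left hε).mp this
  have hr00' : (0 : ℤ) < r0 := by exact_mod_cast hr00
  -- the number of units between the two base points
  obtain ⟨k, hk⟩ : ∃ k : ℤ, k = r0 - r := ⟨_, rfl⟩
  have hdist : ‖f (cir θ) - f (cir θ0)‖ ≤ 4 * D.H * m := by
    refine (D.circ θ θ0).trans ?_
    have h1 : ‖cir θ - cir θ0‖ ≤ 4 * m := by
      have h2 : cir θ - cir θ0 = -(z - cir θ) + (z - cir θ0) := by ring
      rw [h2]
      refine (norm_add_le _ _).trans ?_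
      rw [norm_neg, dir_dist hz.le hθ]
      linarith
    nlinarith
  have hkk : 4 * D.H * m + 4 * ε ≤ ε * k := by
    rw [hk]
    push_cast
    nlinarith
  have hvk : v ∈ BX v0 k := base_near hε hBv hBp hdist hkk
  have hk0 : 0 ≤ k := by
    by_contra hc
    push Not at hc
    rw [mem_BX] at hvk
    omega
  have hr0' : (0 : ℤ) < r := by
    rw [hr]
    apply Int.ceil_pos.mpr
    have : 0 < K2 := by linarith
    positivity
  have hL : 128 * r0 ≤ ⌊D.ρ / ε⌋ := by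
    rw [Int.le_floor, le_div_iff₀ hε]
    push_cast
    have h1 : m * (128 * (K3 + 1)) ≤ D.ρ := by
      rw [hA0, le_div_iff₀ (by positivity)] at hmA
      exact hmA
    nlinarith
  have hmain := h ε x z θ δ v hε hε0 hz hfz (by rw [min_eq_left hδ1]) hKε hθ hBv (65 * r0)
    (by omega) (by omega) (by omega)
  have hsub : Pr hf (ES (TD f ε)) (Src (TD f ε) x (fun u => u ∈ BX v r)
        (fun w => w ∉ BX v (65 * r0 - 1))) ≤
      Pr hf (ES (TD f ε)) (Src (TD f ε) x (fun u => u ∈ BX v0 r0)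
        (fun w => w ∉ BX v0 (64 * r0 - 1))) := by
    apply Pr_mono H974.okhalf
    intro F _ hF
    refine Src_mono (fun u hu => ?_) (fun w hw => ?_) hF
    · have := ALO.BX_shift (v := v) (w := v0) (x := u) (n := r) (m := k)
      rw [mem_BX] at hu hvk ⊢
      omega
    · exact not_BX_shift (n := r0) (by rw [mem_BX] at hvk ⊢; omega) (by omega) hw
  refine le_trans ?_ (hmain.trans hsub)
  rw [mul_assoc]
  apply mul_le_mul_of_nonneg_left _ hc.le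
  rw [mul_left_comm]
  apply mul_le_mul_of_nonneg_left _ (by positivity)
  rw [← Real.mul_rpow (by positivity) (by positivity)]
  apply Real.rpow_le_rpow (by positivity) _ (by norm_num)
  push_cast
  rw [one_div_mul_eq_div, div_div]
  apply div_le_div_of_nonneg_left hδ0.le (by positivity)
  nlinarith

/-- **A source at macroscopic distances.** -/
theorem glob_src (D : Dom f) : ∃ c K0 ε1 : ℝ, 0 < c ∧ 1 ≤ K0 ∧ 0 < ε1 ∧ ε1 ≤ D.ε0 ∧
    ∀ (ε : ℝ) (x : Vtx) (z : ℂ) (θ0 : ℝ) (v0 : Vtx), 0 < ε → ε ≤ ε1 → ‖z‖ < 1 → f z = pos ε x →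
    K0 * ε ≤ 1 - ‖z‖ → Bp f ε D.ρ D.B D.α θ0 v0 →
    c * ((ε / (1 - ‖z‖)) ^ (5 / 48 : ℝ) * (1 - ‖z‖) ^ (1 / 3 : ℝ)) ≤
      Pr hf (ES (TD f ε)) (fun F => ∃ b ∈ TD f ε, Reach (F : Set Edg) b x ∧
        Pool.Agent.Y989.SD.Blk (TD f ε) (fun u => u ∈ BX v0 ⌊D.ρ / 200 / ε⌋)
          (fun w => w ∉ BX v0 (64 * ⌊D.ρ / 200 / ε⌋ - 1)) b F) := by
  have hH := D.hH
  have hρ := D.hρ
  obtain ⟨K2, hK2⟩ : ∃ K2 : ℝ, K2 = D.H + 5 := ⟨_, rfl⟩
  have hK20 : 0 < K2 := by linarith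
  set ρ' : ℝ := D.ρ / 200 with hρ'
  have hρ'0 : 0 < ρ' := by positivity
  set δs : ℝ := min 1 (ρ' / (4 * K2)) with hδs
  have hδs0 : 0 < δs := lt_min one_pos (by positivity)
  have hδs1 : δs ≤ 1 := min_le_left _ _
  have hδs2 : K2 * δs ≤ ρ' / 4 := by
    have h1 : δs ≤ ρ' / (4 * K2) := min_le_right _ _
    rw [le_div_iff₀ (by positivity)] at h1
    linarith
  obtain ⟨c, K0, hc, hK0, h⟩ := arm_all D hδs0 hK2
  have hcC := D.hcC
  refine ⟨c * D.cC * (δs / (64 * ρ')) ^ (1 / 3 : ℝ), K0,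
    min D.ε0 (min (δs / K0) (ρ' / 8)), by positivity, hK0,
    lt_min D.he (lt_min (by positivity) (by positivity)), min_le_left _ _, ?_⟩
  intro ε x z θ0 v0 hε hε1 hz hfz hKε hBp
  have hε0 : ε ≤ D.ε0 := hε1.trans (min_le_left _ _)
  have hεδs : K0 * ε ≤ δs := by
    have h1 : ε ≤ δs / K0 := hε1.trans ((min_le_right _ _).trans (min_le_left _ _))
    rw [le_div_iff₀ (by linarith)] at h1
    linarith
  have hερ : ε ≤ ρ' / 8 := hε1.trans ((min_le_right _ _).trans (min_le_right _ _))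
  obtain ⟨θ, hθ⟩ := exists_dir z
  obtain ⟨-, hG2, -⟩ := D.gd ε hε hε0
  obtain ⟨v, hv, hv', hvW⟩ := hG2 θ
  have hBv : Bp f ε D.ρ D.B D.α θ v := ⟨hv, hv', hvW⟩
  set d := 1 - ‖z‖ with hd
  have hεd : ε ≤ d := by nlinarith
  have hd0 : 0 < d := hε.trans_le hεd
  have hd1 : d ≤ 1 := by linarith [norm_nonneg z]
  obtain ⟨δ, hδ⟩ : ∃ δ : ℝ, δ = min d δs := ⟨_, rfl⟩
  have hδd : δ ≤ d := by rw [hδ]; exact min_le_left _ _
  have hδδs : δ ≤ δs := by rw [hδ]; exact min_le_right _ _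
  have hδ0 : 0 < δ := by rw [hδ]; exact lt_min hd0 hδs0
  have hδK : K0 * ε ≤ δ := by rw [hδ]; exact le_min hKε hεδs
  have hδδ : δs * d ≤ δ := by
    rw [hδ]
    apply le_min
    · nlinarith
    · nlinarith
  set N : ℤ := ⌊ρ' / ε⌋ with hN
  have hN1 : ε * N ≤ ρ' := by
    have h1 := Int.floor_le (ρ' / ε)
    rw [le_div_iff₀ hε, ← hN] at h1
    linarith
  have hN2 : ρ' - ε ≤ ε * N := by
    have h1 := (Int.lt_floor_add_one (ρ' / ε)).le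
    rw [div_le_iff₀ hε, ← hN] at h1
    linarith
  set r : ℤ := ⌈K2 * δ / ε⌉ with hr
  have hr1 : ε * r ≤ ρ' / 4 + ε := by
    have h1 := (Int.ceil_lt_add_one (K2 * δ / ε)).le
    have h2 : ε * (r : ℝ) ≤ ε * (K2 * δ / ε + 1) := mul_le_mul_of_nonneg_left h1 hε.le
    have h3 : ε * (K2 * δ / ε + 1) = K2 * δ + ε := by field_simp
    have h4 : K2 * δ ≤ K2 * δs := mul_le_mul_of_nonneg_left hδδs hK20.le
    linarith
  have hrN : r ≤ N := by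
    have h1 : ε * (r : ℝ) ≤ ε * N := by linarith
    exact_mod_cast le_of_mul_le_mul_left h1 hε
  have hN0 : (0 : ℝ) < N := by
    have : 0 < ε * N := by linarith
    exact (mul_pos_iff_of_pos_left hε).mp this
  have hL : 200 * N ≤ ⌊D.ρ / ε⌋ := by
    rw [Int.le_floor, le_div_iff₀ hε]
    push_cast
    rw [hρ'] at hN1
    linarith
  have hN0' : (0 : ℤ) < N := by exact_mod_cast hN0
  have hmain := h ε x z θ δ v hε hε0 hz hfz hδ hδK hθ hBv (64 * N)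
    (by omega) (by omega) (by omega)
  have hchn := D.chn ε hε hε0 θ θ0 v v0 hBv hBp
  have i1 := Src_incr (ES (TD f ε)) (TD f ε) x (fun u => u ∈ BX v r)
    (fun w => w ∉ BX v (64 * N - 1))
  have i2 : IncrE (ES (TD f ε)) (fun F => ∃ b ∈ TD f ε,
      Pool.Agent.Y989.SD.Blk (TD f ε) (fun u => u ∈ BX v N) (fun w => w ∉ BX v (64 * N - 1)) b F ∧
      Pool.Agent.Y989.SD.Blk (TD f ε) (fun u => u ∈ BX v0 N) (fun w => w ∉ BX v0 (64 * N - 1)) b F) := by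
    rintro F G hFG - ⟨b, hb, h1, h2⟩
    exact ⟨b, hb, ALO.Blk_mono hFG h1, ALO.Blk_mono hFG h2⟩
  have hfkg := hars i1 i2 hmain hchn hcC.le
  have hlast : Pr hf (ES (TD f ε)) (fun F => Src (TD f ε) x (fun u => u ∈ BX v r)
      (fun w => w ∉ BX v (64 * N - 1)) F ∧ ∃ b ∈ TD f ε,
      Pool.Agent.Y989.SD.Blk (TD f ε) (fun u => u ∈ BX v N) (fun w => w ∉ BX v (64 * N - 1)) b F ∧
      Pool.Agent.Y989.SD.Blk (TD f ε) (fun u => u ∈ BX v0 N) (fun w => w ∉ BX v0 (64 * N - 1)) b F) ≤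
      Pr hf (ES (TD f ε)) (fun F => ∃ b ∈ TD f ε, Reach (F : Set Edg) b x ∧
        Pool.Agent.Y989.SD.Blk (TD f ε) (fun u => u ∈ BX v0 N)
          (fun w => w ∉ BX v0 (64 * N - 1)) b F) := by
    apply Pr_mono H974.okhalf
    rintro F hF ⟨hs, b, hb, h1, h2⟩
    exact ⟨b, hb, Src_blk hF (Src_mono (fun u hu => BX_mono hrN hu) (fun _ h => h) hs) h1, h2⟩
  refine le_trans ?_ (hfkg.trans hlast)
  have e1 : (ε / d) ^ (5 / 48 : ℝ) ≤ (ε / δ) ^ (5 / 48 : ℝ) := by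
    apply Real.rpow_le_rpow (by positivity) _ (by norm_num)
    exact div_le_div_of_nonneg_left hε.le hδ0 hδd
  have e2 : (δs / (64 * ρ')) ^ (1 / 3 : ℝ) * d ^ (1 / 3 : ℝ) ≤
      (δ / (ε * ((64 * N : ℤ) : ℝ))) ^ (1 / 3 : ℝ) := by
    rw [← Real.mul_rpow (by positivity) hd0.le]
    apply Real.rpow_le_rpow (by positivity) _ (by norm_num)
    push_cast
    rw [div_mul_eq_mul_div]
    apply div_le_div₀ hδ0.le hδδ (by positivity)
    linarith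
  calc c * D.cC * (δs / (64 * ρ')) ^ (1 / 3 : ℝ) * ((ε / d) ^ (5 / 48 : ℝ) * d ^ (1 / 3 : ℝ)) =
      c * D.cC * ((ε / d) ^ (5 / 48 : ℝ) * ((δs / (64 * ρ')) ^ (1 / 3 : ℝ) * d ^ (1 / 3 : ℝ))) := by
        ring
    _ ≤ c * D.cC * ((ε / δ) ^ (5 / 48 : ℝ) * (δ / (ε * ((64 * N : ℤ) : ℝ))) ^ (1 / 3 : ℝ)) := by
        apply mul_le_mul_of_nonneg_left _ (by positivity)
        exact mul_le_mul e1 e2 (by positivity) (by positivity)
    _ = c * ((ε / δ) ^ (5 / 48 : ℝ) * (δ / (ε * ((64 * N : ℤ) : ℝ))) ^ (1 / 3 : ℝ)) * D.cC := by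
        ring

end Run7.h663.PA
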