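import Pool.Agent.Run7.h663.PA.ArcUp
import Pool.Agent.H974R2.RSW2

/-!
The side on which the exploration path leaves an interior point: deterministic part.
-/

set_option autoImplicit false

namespace Run7.h663.PA

open H974 hiding Blk okhalf
open H973 hiding okhalf
open Finset
open Pool.Agent.Y989.SD
open Pool.Agent.H160R2.CV (nv P ar Far)
open Pool.Agent.H160R2.CV.Quad (bo LA)

/-! ### circuits block dual paths -/

/-- Four crossings around the annulus by edges of the set `G`. -/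
structure CircS (R1 R2 : ℤ) (G : Set Edg) : Prop where
  t : ∃ y y', (R1 ≤ y' ∧ y' ≤ R2) ∧ Reach (G ∩ ↑(LRE (-R2) R2 R1 R2)) (-R2, y) (R2, y')
  b : ∃ y y', (-R2 ≤ y' ∧ y' ≤ -R1) ∧ Reach (G ∩ ↑(LRE (-R2) R2 (-R2) (-R1))) (-R2, y) (R2, y')
  r : ∃ x x', (R1 ≤ x' ∧ x' ≤ R2) ∧ Reach (G ∩ ↑(TBE R1 R2 (-R2) R2)) (x, -R2) (x', R2)
  l : ∃ x x', (-R2 ≤ x' ∧ x' ≤ -R1) ∧ Reach (G ∩ ↑(TBE (-R2) (-R1) (-R2) R2)) (x, -R2) (x', R2)

section steps

variable {R1 R2 : ℤ} {G : Set Edg} {w w' : Vtx} {e : Edg}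

def PT (R1 R2 : ℤ) (G : Set Edg) (w : Vtx) : Prop :=
  ∃ x0, (-R2 ≤ x0 ∧ x0 < R2) ∧ DReach (Gᶜ ∩ ↑(LRE (-R2) R2 R1 R2)) (x0, R1 - 1) w

def PB (R1 R2 : ℤ) (G : Set Edg) (w : Vtx) : Prop :=
  ∃ x0, (-R2 ≤ x0 ∧ x0 < R2) ∧ DReach (Gᶜ ∩ ↑(LRE (-R2) R2 (-R2) (-R1))) w (x0, -R1)

def PR (R1 R2 : ℤ) (G : Set Edg) (w : Vtx) : Prop :=
  ∃ y0, (-R2 ≤ y0 ∧ y0 < R2) ∧ DReach (Gᶜ ∩ ↑(TBE R1 R2 (-R2) R2)) (R1 - 1, y0) w

def PL (R1 R2 : ℤ) (G : Set Edg) (w : Vtx) : Prop :=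
  ∃ y0, (-R2 ≤ y0 ∧ y0 < R2) ∧ DReach (Gᶜ ∩ ↑(TBE (-R2) (-R1) (-R2) R2)) w (-R1, y0)

theorem DAdj_of (he : e ∈ G) (hc : (dsrc e = w ∧ dtgt e = w') ∨ (dsrc e = w' ∧ dtgt e = w)) :
    DReach G w w' := DAdj.reach ⟨e, he, hc⟩

theorem dco_false {a b : ℤ} (hc : (dsrc (a, b, false) = w ∧ dtgt (a, b, false) = w') ∨
    (dsrc (a, b, false) = w' ∧ dtgt (a, b, false) = w)) :
    (w.2 = b ∧ w'.2 = b) ∧ ((w.1 = a - 1 ∧ w'.1 = a) ∨ (w.1 = a ∧ w'.1 = a - 1)) := by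
  rcases hc with ⟨h1, h2⟩ | ⟨h1, h2⟩
  · rw [← h1, ← h2]
    simp
  · rw [← h1, ← h2]
    simp

theorem dco_true {a b : ℤ} (hc : (dsrc (a, b, true) = w ∧ dtgt (a, b, true) = w') ∨
    (dsrc (a, b, true) = w' ∧ dtgt (a, b, true) = w)) :
    (w.1 = a ∧ w'.1 = a) ∧ ((w.2 = b - 1 ∧ w'.2 = b) ∨ (w.2 = b ∧ w'.2 = b - 1)) := by
  rcases hc with ⟨h1, h2⟩ | ⟨h1, h2⟩
  · rw [← h1, ← h2]
    simp
  · rw [← h1, ← h2]
    simp

theorem stepT (he : e ∈ Gᶜ)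
    (hc : (dsrc e = w ∧ dtgt e = w') ∨ (dsrc e = w' ∧ dtgt e = w))
    (hw : (-R2 ≤ w.1 ∧ w.1 < R2) ∧ (-R2 ≤ w.2 ∧ w.2 < R2)) (hT : R1 ≤ w.2 → PT R1 R2 G w)
    (h : R1 ≤ w'.2) (hx : -R2 ≤ w'.1 ∧ w'.1 < R2) : PT R1 R2 G w' := by
  obtain ⟨a, b, _ | _⟩ := e
  · have k := dco_false hc
    obtain ⟨x0, hx0, hr⟩ := hT (by omega)
    refine ⟨x0, hx0, hr.trans (DAdj_of ⟨he, ?_⟩ hc)⟩
    rw [Finset.mem_coe, mem_LRE_false]
    omega
  · have k := dco_true hc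
    by_cases h2 : R1 ≤ w.2
    · obtain ⟨x0, hx0, hr⟩ := hT h2
      refine ⟨x0, hx0, hr.trans (DAdj_of ⟨he, ?_⟩ hc)⟩
      rw [Finset.mem_coe, mem_LRE_true]
      omega
    · have hwe : w = (w.1, R1 - 1) := Prod.ext rfl (by simp only; omega)
      refine ⟨w.1, hw.1, ?_⟩
      rw [← hwe]
      refine DAdj_of ⟨he, ?_⟩ hc
      rw [Finset.mem_coe, mem_LRE_true]
      omega

theorem stepB (he : e ∈ Gᶜ)
    (hc : (dsrc e = w ∧ dtgt e = w') ∨ (dsrc e = w' ∧ dtgt e = w))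
    (hw : (-R2 ≤ w.1 ∧ w.1 < R2) ∧ (-R2 ≤ w.2 ∧ w.2 < R2)) (hT : w.2 < -R1 → PB R1 R2 G w)
    (h : w'.2 < -R1) (hx : -R2 ≤ w'.1 ∧ w'.1 < R2) : PB R1 R2 G w' := by
  obtain ⟨a, b, _ | _⟩ := e
  · have k := dco_false hc
    obtain ⟨x0, hx0, hr⟩ := hT (by omega)
    refine ⟨x0, hx0, DReach.trans (DReach.symm (DAdj_of ⟨he, ?_⟩ hc)) hr⟩
    rw [Finset.mem_coe, mem_LRE_false]
    omega
  · have k := dco_true hc
    by_cases h2 : w.2 < -R1
    · obtain ⟨x0, hx0, hr⟩ := hT h2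
      refine ⟨x0, hx0, DReach.trans (DReach.symm (DAdj_of ⟨he, ?_⟩ hc)) hr⟩
      rw [Finset.mem_coe, mem_LRE_true]
      omega
    · have hwe : w = (w.1, -R1) := Prod.ext rfl (by simp only; omega)
      refine ⟨w.1, hw.1, ?_⟩
      rw [← hwe]
      refine DReach.symm (DAdj_of ⟨he, ?_⟩ hc)
      rw [Finset.mem_coe, mem_LRE_true]
      omega

theorem stepR (he : e ∈ Gᶜ)
    (hc : (dsrc e = w ∧ dtgt e = w') ∨ (dsrc e = w' ∧ dtgt e = w))
    (hw : (-R2 ≤ w.1 ∧ w.1 < R2) ∧ (-R2 ≤ w.2 ∧ w.2 < R2)) (hT : R1 ≤ w.1 → PR R1 R2 G w)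
    (h : R1 ≤ w'.1) (hx : -R2 ≤ w'.2 ∧ w'.2 < R2) : PR R1 R2 G w' := by
  obtain ⟨a, b, _ | _⟩ := e
  · have k := dco_false hc
    by_cases h2 : R1 ≤ w.1
    · obtain ⟨x0, hx0, hr⟩ := hT h2
      refine ⟨x0, hx0, hr.trans (DAdj_of ⟨he, ?_⟩ hc)⟩
      rw [Finset.mem_coe, mem_TBE_false]
      omega
    · have hwe : w = (R1 - 1, w.2) := Prod.ext (by simp only; omega) rfl
      refine ⟨w.2, hw.2, ?_⟩
      rw [← hwe]
      refine DAdj_of ⟨he, ?_⟩ hc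
      rw [Finset.mem_coe, mem_TBE_false]
      omega
  · have k := dco_true hc
    obtain ⟨x0, hx0, hr⟩ := hT (by omega)
    refine ⟨x0, hx0, hr.trans (DAdj_of ⟨he, ?_⟩ hc)⟩
    rw [Finset.mem_coe, mem_TBE_true]
    omega

theorem stepL (he : e ∈ Gᶜ)
    (hc : (dsrc e = w ∧ dtgt e = w') ∨ (dsrc e = w' ∧ dtgt e = w))
    (hw : (-R2 ≤ w.1 ∧ w.1 < R2) ∧ (-R2 ≤ w.2 ∧ w.2 < R2)) (hT : w.1 < -R1 → PL R1 R2 G w)
    (h : w'.1 < -R1) (hx : -R2 ≤ w'.2 ∧ w'.2 < R2) : PL R1 R2 G w' := by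
  obtain ⟨a, b, _ | _⟩ := e
  · have k := dco_false hc
    by_cases h2 : w.1 < -R1
    · obtain ⟨x0, hx0, hr⟩ := hT h2
      refine ⟨x0, hx0, DReach.trans (DReach.symm (DAdj_of ⟨he, ?_⟩ hc)) hr⟩
      rw [Finset.mem_coe, mem_TBE_false]
      omega
    · have hwe : w = (-R1, w.2) := Prod.ext (by simp only; omega) rfl
      refine ⟨w.2, hw.2, ?_⟩
      rw [← hwe]
      refine DReach.symm (DAdj_of ⟨he, ?_⟩ hc)
      rw [Finset.mem_coe, mem_TBE_false]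
      omega
  · have k := dco_true hc
    obtain ⟨x0, hx0, hr⟩ := hT (by omega)
    refine ⟨x0, hx0, DReach.trans (DReach.symm (DAdj_of ⟨he, ?_⟩ hc)) hr⟩
    rw [Finset.mem_coe, mem_TBE_true]
    omega

end steps

/-- A dual path which starts inside and does not use the edges of the circuit stays inside. -/
theorem blocked {R1 R2 : ℤ} (h2 : R1 < R2) {G : Set Edg} (h : CircS R1 R2 G) {g w : Vtx}
    (hg : (-R1 ≤ g.1 ∧ g.1 < R1) ∧ (-R1 ≤ g.2 ∧ g.2 < R1)) (hr : DReach Gᶜ g w) :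
    (-R2 ≤ w.1 ∧ w.1 < R2) ∧ (-R2 ≤ w.2 ∧ w.2 < R2) := by
  obtain ⟨⟨ty, ty', ht1, ht2⟩, ⟨by', by'', hb1, hb2⟩, ⟨rx, rx', hr1, hr2⟩, ⟨lx, lx', hl1, hl2⟩⟩ := h
  suffices H : ((-R2 ≤ w.1 ∧ w.1 < R2) ∧ (-R2 ≤ w.2 ∧ w.2 < R2)) ∧
      (R1 ≤ w.2 → PT R1 R2 G w) ∧ (w.2 < -R1 → PB R1 R2 G w) ∧ (R1 ≤ w.1 → PR R1 R2 G w) ∧
      (w.1 < -R1 → PL R1 R2 G w) from H.1
  induction hr with
  | refl =>
    exact ⟨⟨by omega, by omega⟩, fun h => absurd h (by omega), fun h => absurd h (by omega),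
      fun h => absurd h (by omega), fun h => absurd h (by omega)⟩
  | @tail w w' _ hs ih =>
    obtain ⟨hw, iT, iB, iR, iL⟩ := ih
    obtain ⟨e, he, hc⟩ := hs
    have hmv : (w'.1 = w.1 ∧ (w'.2 = w.2 + 1 ∨ w'.2 = w.2 - 1)) ∨
        (w'.2 = w.2 ∧ (w'.1 = w.1 + 1 ∨ w'.1 = w.1 - 1)) := by
      obtain ⟨a, b, _ | _⟩ := e
      · have k := dco_false hc
        omega
      · have k := dco_true hc
        omega
    have hbox : (-R2 ≤ w'.1 ∧ w'.1 < R2) ∧ (-R2 ≤ w'.2 ∧ w'.2 < R2) := by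
      by_contra hcon
      have hcase : (w'.2 = R2 ∧ (-R2 ≤ w'.1 ∧ w'.1 < R2)) ∨
          (w'.2 = -R2 - 1 ∧ (-R2 ≤ w'.1 ∧ w'.1 < R2)) ∨
          (w'.1 = R2 ∧ (-R2 ≤ w'.2 ∧ w'.2 < R2)) ∨
          (w'.1 = -R2 - 1 ∧ (-R2 ≤ w'.2 ∧ w'.2 < R2)) := by omega
      rcases hcase with ⟨k1, k2⟩ | ⟨k1, k2⟩ | ⟨k1, k2⟩ | ⟨k1, k2⟩
      · obtain ⟨x0, hx0, hd⟩ := stepT he hc hw iT (by omega) k2
        have hwe : w' = (w'.1, R2) := Prod.ext rfl k1
        rw [hwe] at hd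
        exact no_both h2.le ht1 hx0 ht2 hd
      · obtain ⟨x0, hx0, hd⟩ := stepB he hc hw iB (by omega) k2
        have hwe : w' = (w'.1, -R2 - 1) := Prod.ext rfl k1
        rw [hwe] at hd
        exact no_both (by omega) hb1 k2 hb2 hd
      · obtain ⟨x0, hx0, hd⟩ := stepR he hc hw iR (by omega) k2
        have hwe : w' = (R2, w'.2) := Prod.ext k1 rfl
        rw [hwe] at hd
        exact no_both_TB h2.le hr1 hx0 hr2 hd
      · obtain ⟨x0, hx0, hd⟩ := stepL he hc hw iL (by omega) k2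
        have hwe : w' = (-R2 - 1, w'.2) := Prod.ext k1 rfl
        rw [hwe] at hd
        exact no_both_TB (by omega) hl1 k2 hl2 hd
    exact ⟨hbox, fun h => stepT he hc hw iT h hbox.1, fun h => stepB he hc hw iB h hbox.1,
      fun h => stepR he hc hw iR h hbox.2, fun h => stepL he hc hw iL h hbox.2⟩

/-! ### the wired cluster -/

/-- the cluster of the set `U` -/
def Wd (U : Set Vtx) (F : Finset Edg) (v : Vtx) : Prop := ∃ u ∈ U, Reach (F : Set Edg) u v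

theorem Wd.step {U : Set Vtx} {F : Finset Edg} {v w : Vtx} (h : Wd U F v)
    (hr : Reach (F : Set Edg) v w) : Wd U F w := by
  obtain ⟨u, hu, h1⟩ := h
  exact ⟨u, hu, h1.trans hr⟩

/-- the open edges of the cluster -/
def WE (U : Set Vtx) (F : Finset Edg) : Set Edg := {e | e ∈ F ∧ Wd U F (H974.src e)}

theorem WE_tgt {U : Set Vtx} {F : Finset Edg} {e : Edg} (h : e ∈ WE U F) :
    Wd U F (H974.tgt e) :=
  h.2.step (Adj.reach ⟨e, h.1, Or.inl ⟨rfl, rfl⟩⟩)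

/-- a path which starts in the cluster uses edges of the cluster -/
theorem reach_WE {U : Set Vtx} {F : Finset Edg} {S : Set Edg} {p q : Vtx}
    (h : Reach ((F : Set Edg) ∩ S) p q) (hp : Wd U F p) : Reach (WE U F ∩ S) p q := by
  have key : ∀ w, Reach ((F : Set Edg) ∩ S) p w → Wd U F w ∧ Reach (WE U F ∩ S) p w := by
    intro w hw
    induction hw with
    | refl => exact ⟨hp, Reach.refl _ _⟩
    | @tail w w' _ hs ih =>
      obtain ⟨e, ⟨heF, heS⟩, hc⟩ := hs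
      rw [Finset.mem_coe] at heF
      have h1 : Wd U F w' := ih.1.step (Adj.reach ⟨e, heF, hc⟩)
      refine ⟨h1, ih.2.trans (Adj.reach ⟨e, ⟨⟨heF, ?_⟩, heS⟩, hc⟩)⟩
      rcases hc with ⟨h3, h4⟩ | ⟨h3, h4⟩
      · rw [h3]; exact ih.1
      · rw [h3]; exact h1
  exact (key q h).2

theorem CircS_of {F : Finset Edg} {U : Set Vtx} {R1 R2 : ℤ} (h1 : 0 ≤ R1) (h2 : R1 < R2)
    (h : Circ R1 R2 F) {u v : Vtx} (hU : Wd U F u) (hu : inR (-R1) R1 (-R1) R1 u)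
    (hv : v.1 = -R2 ∨ v.1 = R2 ∨ v.2 = -R2 ∨ v.2 = R2)
    (hP : Reach (↑F ∩ ↑(RE (-R2) R2 (-R2) R2)) u v) : CircS R1 R2 (WE U F) := by
  obtain ⟨⟨⟨t, t', ht, ht', hT⟩, ⟨b, b', hb, hb', hB⟩⟩, ⟨r, r', hr, hr', hR⟩,
    ⟨l, l', hl, hl', hL⟩⟩ := h
  have hT' := hT.mono (Set.inter_subset_inter_right (↑F)
    (by exact_mod_cast LRE_subset_RE : (↑(LRE (-R2) R2 R1 R2) : Set Edg) ⊆ _))
  have hB' := hB.mono (Set.inter_subset_inter_right (↑F)
    (by exact_mod_cast LRE_subset_RE : (↑(LRE (-R2) R2 (-R2) (-R1)) : Set Edg) ⊆ _))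
  have hR' := hR.mono (Set.inter_subset_inter_right (↑F)
    (by exact_mod_cast TBE_subset_RE : (↑(TBE R1 R2 (-R2) R2) : Set Edg) ⊆ _))
  have hL' := hL.mono (Set.inter_subset_inter_right (↑F)
    (by exact_mod_cast TBE_subset_RE : (↑(TBE (-R2) (-R1) (-R2) R2) : Set Edg) ⊆ _))
  have mTR : Reach (↑F ∩ ↑(RE (-R2) R2 (-R2) R2)) (-R2, t) (r, -R2) :=
    cross_meet (by omega) h2 le_rfl (by omega) h2 le_rfl hT' (by simp only; omega) le_rfl hR'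
      (by simp only; omega) le_rfl
  have mBR : Reach (↑F ∩ ↑(RE (-R2) R2 (-R2) R2)) (-R2, b) (r, -R2) :=
    cross_meet (by omega) h2 le_rfl le_rfl (by omega) (by omega) hB' (by simp only; omega) le_rfl
      hR' le_rfl (by simp only; omega)
  have mTL : Reach (↑F ∩ ↑(RE (-R2) R2 (-R2) R2)) (-R2, t) (l, -R2) :=
    cross_meet le_rfl (by omega) (by omega) (by omega) h2 le_rfl hT' le_rfl (by simp only; omega)
      hL' (by simp only; omega) le_rfl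
  unfold inR at hu
  have hur : Reach (↑F ∩ ↑(RE (-R2) R2 (-R2) R2)) u (r, -R2) := by
    rcases hv with hv | hv | hv | hv
    · have m : Reach (↑F ∩ ↑(RE (-R2) R2 (-R2) R2)) v (l, -R2) :=
        cross_meet le_rfl (by omega) (by omega) le_rfl (by omega) le_rfl hP.symm hv.le
          (show -R1 ≤ u.1 by omega) hL' le_rfl le_rfl
      exact hP.trans (m.trans (mTL.symm.trans mTR))
    · exact cross_meet (by omega) h2 le_rfl le_rfl (by omega) le_rfl hP (by omega) hv.ge hR' le_rfl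
        le_rfl
    · have m : Reach (↑F ∩ ↑(RE (-R2) R2 (-R2) R2)) (-R2, b) v :=
        cross_meet le_rfl (by omega) le_rfl le_rfl (by omega) (by omega) hB' le_rfl le_rfl hP.symm
          hv.le (show -R1 ≤ u.2 by omega)
      exact hP.trans (m.symm.trans mBR)
    · have m : Reach (↑F ∩ ↑(RE (-R2) R2 (-R2) R2)) (-R2, t) u :=
        cross_meet le_rfl (by omega) le_rfl (by omega) h2 le_rfl hT' le_rfl le_rfl hP
          (by omega) hv.ge
      exact m.symm.trans mTR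
  have wr : Wd U F (r, -R2) := hU.step (hur.mono Set.inter_subset_left)
  have wt : Wd U F (-R2, t) := wr.step ((mTR.mono Set.inter_subset_left).symm)
  have wb : Wd U F (-R2, b) := wr.step ((mBR.mono Set.inter_subset_left).symm)
  have wl : Wd U F (l, -R2) := wt.step (mTL.mono Set.inter_subset_left)
  exact ⟨⟨t, t', ht', reach_WE hT wt⟩, ⟨b, b', hb', reach_WE hB wb⟩,
    ⟨r, r', hr', reach_WE hR wr⟩, ⟨l, l', hl', reach_WE hL wl⟩⟩

/-! ### the two sides -/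

/-- `y` is a corner of the face `g` -/
def cor (y g : Vtx) : Prop := (g.1 = y.1 ∨ g.1 = y.1 - 1) ∧ (g.2 = y.2 ∨ g.2 = y.2 - 1)

/-- the face `g` has a corner in `T` -/
def fT (T : Finset Vtx) (g : Vtx) : Prop := ∃ y ∈ T, cor y g

/-- the dual edges which do not cross the cluster of `U` -/
def HH (T : Finset Vtx) (U : Set Vtx) (F : Finset Edg) : Set Edg :=
  {e | e ∉ WE U F ∧ fT T (dsrc e) ∧ fT T (dtgt e)}

/-- `x` is on the side of `U'` -/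
def Rt (T : Finset Vtx) (U U' : Set Vtx) (x : Vtx) (F : Finset Edg) : Prop :=
  ¬ Wd U F x ∧ ∃ g g' y, cor x g ∧ y ∈ U' ∧ cor y g' ∧ DReach (HH T U F) g g'

theorem HH_mem {T : Finset Vtx} {U : Set Vtx} {F : Finset Edg} {y : Vtx} (hy : y ∈ T)
    (hn : ¬ Wd U F y) {e : Edg} (he : H974.src e = y ∨ H974.tgt e = y) (h1 : cor y (dsrc e))
    (h2 : cor y (dtgt e)) : e ∈ HH T U F := by
  refine ⟨fun h => ?_, ⟨y, hy, h1⟩, ⟨y, hy, h2⟩⟩
  rcases he with he | he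
  · exact hn (he ▸ h.2)
  · exact hn (he ▸ WE_tgt h)

theorem around {T : Finset Vtx} {U : Set Vtx} {F : Finset Edg} {y : Vtx} (hy : y ∈ T)
    (hn : ¬ Wd U F y) {g g' : Vtx} (hg : cor y g) (hg' : cor y g') :
    DReach (HH T U F) g g' := by
  have key : ∀ g, cor y g → DReach (HH T U F) g y := by
    obtain ⟨a, b⟩ := y
    have s1 : DReach (HH T U F) (a, b - 1) (a, b) :=
      DAdj_of (e := (a, b, true)) (HH_mem hy hn (Or.inl rfl) (by simp [cor]) (by simp [cor]))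
        (Or.inl ⟨rfl, rfl⟩)
    have s2 : DReach (HH T U F) (a - 1, b) (a, b) :=
      DAdj_of (e := (a, b, false)) (HH_mem hy hn (Or.inl rfl) (by simp [cor]) (by simp [cor]))
        (Or.inl ⟨rfl, rfl⟩)
    have s3 : DReach (HH T U F) (a - 1, b - 1) (a - 1, b) :=
      DAdj_of (e := (a - 1, b, true)) (HH_mem hy hn (Or.inr (by simp)) (by simp [cor])
        (by simp [cor])) (Or.inl ⟨rfl, rfl⟩)
    rintro ⟨p, q⟩ ⟨h1 | h1, h2 | h2⟩ <;> simp only at h1 h2 <;> subst h1 h2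
    · exact DReach.refl _ _
    · exact s1
    · exact s2
    · exact s3.trans s2
  exact (key g hg).trans (key g' hg').symm

theorem along {T : Finset Vtx} {U : Set Vtx} {F : Finset Edg} {x w : Vtx}
    (hx : x ∈ T ∧ ¬ Wd U F x) (hr : Reach (EV fun y => y ∈ T ∧ ¬ Wd U F y) x w) :
    ∀ g g', cor x g → cor w g' → DReach (HH T U F) g g' := by
  have key : (w ∈ T ∧ ¬ Wd U F w) ∧ ∀ g g', cor x g → cor w g' → DReach (HH T U F) g g' := by
    induction hr with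
    | refl => exact ⟨hx, fun g g' h h' => around hx.1 hx.2 h h'⟩
    | @tail w w' _ hs ih =>
      obtain ⟨e, he, hc⟩ := hs
      have he' : (H974.src e ∈ T ∧ ¬ Wd U F (H974.src e)) ∧
        (H974.tgt e ∈ T ∧ ¬ Wd U F (H974.tgt e)) := he
      have hcs : cor (H974.src e) (dtgt e) := by
        obtain ⟨a, b, _ | _⟩ := e <;> simp [cor]
      have hct : cor (H974.tgt e) (dtgt e) := by
        obtain ⟨a, b, _ | _⟩ := e <;> simp [cor]
      rcases hc with ⟨h3, h4⟩ | ⟨h3, h4⟩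
      · rw [h3] at hcs he'
        rw [h4] at hct he'
        exact ⟨he'.2, fun g g' h h' => (ih.2 g (dtgt e) h hcs).trans
          (around he'.2.1 he'.2.2 hct h')⟩
      · rw [h3] at hcs he'
        rw [h4] at hct he'
        exact ⟨he'.1, fun g g' h h' => (ih.2 g (dtgt e) h hct).trans
          (around he'.1.1 he'.1.2 hcs h')⟩
  exact key.2

theorem cor_self (x : Vtx) : cor x x := ⟨Or.inl rfl, Or.inl rfl⟩

/-- if `x` is not on the side of `U'` then every path from `x` to `U'` meets the cluster -/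
theorem left_meets {T : Finset Vtx} {U U' : Set Vtx} {x w : Vtx} {F : Finset Edg} {W : Vtx → Prop}
    (hL : ¬ Rt T U U' x F) (hx : x ∈ T ∧ W x) (hr : Reach (EV fun y => y ∈ T ∧ W y) x w)
    (hw : w ∈ U') : ∃ y ∈ T, W y ∧ Wd U F y := by
  by_contra hcon
  push Not at hcon
  have h1 : ¬ Wd U F x := hcon x hx.1 hx.2
  apply hL
  refine ⟨h1, x, w, w, cor_self x, hw, cor_self w, ?_⟩
  refine along ⟨hx.1, h1⟩ (hr.mono ?_) x w (cor_self x) (cor_self w)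
  rintro e ⟨⟨h2, h3⟩, h4, h5⟩
  exact ⟨⟨h2, hcon _ h2 h3⟩, h4, hcon _ h4 h5⟩

/-! ### translation of dual paths -/

theorem DReach_trl {G : Set Edg} {s t : ℤ} {g w : Vtx} (h : DReach G g w) :
    DReach ((trl s t).φ '' G) (g.1 + s, g.2 + t) (w.1 + s, w.2 + t) := by
  induction h with
  | refl => exact DReach.refl _ _
  | @tail w w' _ hs ih =>
    refine ih.trans ?_
    obtain ⟨⟨a, b, o⟩, he, hc⟩ := hs
    refine DAdj.reach ⟨(trl s t).φ (a, b, o), ⟨_, he, rfl⟩, ?_⟩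
    have hφ : (trl s t).φ (a, b, o) = (a + s, b + t, o) := rfl
    rw [hφ]
    rcases hc with ⟨h3, h4⟩ | ⟨h3, h4⟩
    · left
      rw [← h3, ← h4]
      cases o
      · simp only [dsrc_false, dtgt_mk, Prod.mk.injEq, and_true]
        omega
      · simp only [dsrc_true, dtgt_mk, Prod.mk.injEq, and_true, true_and]
        omega
    · right
      rw [← h3, ← h4]
      cases o
      · simp only [dsrc_false, dtgt_mk, Prod.mk.injEq, and_true]
        omega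
      · simp only [dsrc_true, dtgt_mk, Prod.mk.injEq, and_true, true_and]
        omega

theorem Wd_trl {U : Set Vtx} {F : Finset Edg} {c v : Vtx} :
    Wd {u | u + c ∈ U} ((trl (-c.1) (-c.2)).mp F) (v - c) ↔ Wd U F v := by
  constructor
  · rintro ⟨u, hu, hr⟩
    refine ⟨u + c, hu, ?_⟩
    rw [LSym.coe_mp] at hr
    have h3 : u = (trl (-c.1) (-c.2)).ψ (u + c) := by rw [H362P.trl_neg]; simp
    rw [h3, ← H362P.trl_neg, LSym.reach_iff] at hr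
    exact hr
  · rintro ⟨u, hu, hr⟩
    refine ⟨u - c, by simpa using hu, ?_⟩
    have h1 := (trl (-c.1) (-c.2)).reach hr
    rw [← LSym.coe_mp, H362P.trl_neg, H362P.trl_neg] at h1
    exact h1

/-- **A circuit of the cluster around `x`.** -/
theorem circ_left {T : Finset Vtx} {U U' : Set Vtx} {F : Finset Edg} {x : Vtx} {n : ℕ}
    (hn : 1 ≤ n) (h : H362P.CA x n (3 * n) F) {u w : Vtx} (hU : Wd U F u) (hu : nv (u - x) ≤ n)
    (hw : 3 * n ≤ nv (w - x)) (hr : Reach (F : Set Edg) u w)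
    (hfar : ∀ y ∈ U', 3 * n + 1 ≤ nv (y - x)) : ¬ Rt T U U' x F := by
  rintro ⟨-, g, g', y, hg, hy, hg', hd⟩
  have h1 := (trl (-x.1) (-x.2)).reach hr
  rw [← LSym.coe_mp, H362P.trl_neg, H362P.trl_neg] at h1
  have hu1 := H362P.nv_in hu
  obtain ⟨w', k1, k2, k3⟩ := first_exit (a := -(((3 * n : ℕ)) : ℤ)) (b := ((3 * n : ℕ) : ℤ))
    (c := -(((3 * n : ℕ)) : ℤ)) (d := ((3 * n : ℕ) : ℤ))
    (by unfold inR at hu1 ⊢; push_cast; omega) h1 (H362P.nv_cases' hw)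
  have hC := CircS_of (U := {u | u + x ∈ U}) (R1 := (n : ℤ)) (R2 := ((3 * n : ℕ) : ℤ))
    (by positivity) (by push_cast; omega) h (Wd_trl.mpr hU) hu1 k2 k3
  have hd1 := DReach_trl (s := -x.1) (t := -x.2) hd
  have hd2 : DReach (WE {u | u + x ∈ U} ((trl (-x.1) (-x.2)).mp F))ᶜ (g.1 + -x.1, g.2 + -x.2)
      (g'.1 + -x.1, g'.2 + -x.2) := by
    refine hd1.mono ?_
    rintro _ ⟨⟨a, b, o⟩, he, rfl⟩ hcon
    apply he.1
    have e1 : (a, b, o) ∈ F := by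
      have h2 := hcon.1
      rw [← Finset.mem_coe, LSym.coe_mp] at h2
      obtain ⟨e', he', h3⟩ := h2
      rw [(trl (-x.1) (-x.2)).φ.injective h3] at he'
      exact he'
    refine ⟨e1, ?_⟩
    have e2 : H974.src ((trl (-x.1) (-x.2)).φ (a, b, o)) = H974.src (a, b, o) - x := by
      apply Prod.ext <;> simp [trl, sub_eq_add_neg]
    have h3 := hcon.2
    rw [e2] at h3
    exact Wd_trl.mp h3
  have hb := blocked (by push_cast; omega) hC (by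
    obtain ⟨h3, h4⟩ := hg
    simp only
    omega) hd2
  have h5 := hfar y hy
  rw [le_nv] at h5
  obtain ⟨h3, h4⟩ := hg'
  simp only at hb
  push_cast at hb h5
  omega

end Run7.h663.PA
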