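import Pool.Agent.Run7.h663.PA.Loc

/-!
Interior points of lattice domains: connection of an interior point to the neighbourhood of a
boundary point, through a chain of boxes.
-/

set_option autoImplicit false

namespace Run7.h663.PA

open H974 hiding Blk
open H973 Finset
open Pool.Agent.Y989.SD
open Pool.Agent.H160R2.CV (nv P ar Far)
open Pool.Agent.H160R2.CV.Quad (bo)

theorem hars {S : Finset Edg} {A B : Finset Edg → Prop} {a b : ℝ} (hA : IncrE S A)
    (hB : IncrE S B) (ha : a ≤ Pr hf S A) (hb : b ≤ Pr hf S B) (hb0 : 0 ≤ b) :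
    a * b ≤ Pr hf S (fun F => A F ∧ B F) :=
  (mul_le_mul ha hb hb0 (Pr_nonneg okhalf _ _)).trans (Pr_harris okhalf hA hB)

theorem and_incr {S : Finset Edg} {A B : Finset Edg → Prop} (hA : IncrE S A) (hB : IncrE S B) :
    IncrE S (fun F => A F ∧ B F) := fun F G h h' hF => ⟨hA F G h h' hF.1, hB F G h h' hF.2⟩

/-- `x` is connected to a point `u` with the property `A`, which is connected to a point with the
property `B`. -/
def Src (T : Finset Vtx) (x : Vtx) (A B : Vtx → Prop) (F : Finset Edg) : Prop :=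
  ∃ u ∈ T, A u ∧ Reach (F : Set Edg) x u ∧ ∃ w ∈ T, B w ∧ Reach (F : Set Edg) u w

theorem Src_incr (S : Finset Edg) (T : Finset Vtx) (x : Vtx) (A B : Vtx → Prop) :
    IncrE S (Src T x A B) := by
  rintro F G h - ⟨u, hu, hA, hr, w, hw, hB, hr'⟩
  have h' : (F : Set Edg) ⊆ G := by exact_mod_cast h
  exact ⟨u, hu, hA, hr.mono h', w, hw, hB, hr'.mono h'⟩

theorem Src_mono {T : Finset Vtx} {x : Vtx} {A B A' B' : Vtx → Prop} (hA : ∀ u, A u → A' u)
    (hB : ∀ u, B u → B' u) {F : Finset Edg} (h : Src T x A B F) : Src T x A' B' F := by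
  obtain ⟨u, hu, h1, hr, w, hw, h2, hr'⟩ := h
  exact ⟨u, hu, hA _ h1, hr, w, hw, hB _ h2, hr'⟩

/-- a source meets the blocking cluster -/
theorem Src_blk {T : Finset Vtx} {x z : Vtx} {A B : Vtx → Prop} {F : Finset Edg} (hF : F ⊆ ES T)
    (h : Src T x A B F) (hb : Pool.Agent.Y989.SD.Blk T A B z F) : Reach (F : Set Edg) z x := by
  obtain ⟨u, hu, h1, hr, w, hw, h2, hr'⟩ := h
  exact (CHN.meets hF hb hu h1 hw h2 hr').trans hr.symm

/-- **A source.** -/
theorem src {B α : ℝ} (hα : 0 < α) (K M : ℕ) : ∃ c : ℝ, 0 < c ∧ ∀ (T : Finset Vtx) (v : Vtx)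
    (L : ℤ) (n : ℕ) (p : ℕ → Vtx) (r R : ℤ), Win T v L B α → 1 ≤ n →
    (∀ j < M + 1, ∀ y ∈ BX (p j) ((4 * n : ℕ) : ℤ), y ∈ T) →
    (∀ j < M, 2 * nv (p (j + 1) - p j) ≤ n) →
    (∀ y ∈ BX (p M) n, y ∈ BX v r) → r ≤ K * n → 64 * r ≤ R → 128 * r ≤ L → R ≤ L →
    c * (ar (3 * n) * ((r : ℝ) / R) ^ (1 / 3 : ℝ)) ≤
      Pr hf (ES T) (Src T (p 0) (fun u => u ∈ BX v r) (fun w => w ∉ BX v (R - 1))) := by
  obtain ⟨c1, C1, hc1, -, hW⟩ := m_WIN B α hα
  obtain ⟨c2, hc2, hcol⟩ := col K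
  refine ⟨cc ^ (M + 1) * c2 * c1 * c1, by have := cc_pos; positivity, ?_⟩
  intro T v L n p r R hwin hn hbox hp hxv hrK hrR hrL hRL
  have hn0 : (1 : ℤ) ≤ n := by exact_mod_cast hn
  have hr0 : (n : ℤ) ≤ r := by
    have h1 := hxv ((p M).1 + n, (p M).2) (by rw [mem_BX]; simp only; omega)
    have h2 := hxv ((p M).1 - n, (p M).2) (by rw [mem_BX]; simp only; omega)
    rw [mem_BX] at h1 h2
    simp only at h1 h2
    omega
  have hbo : ∀ j < M + 1, bo (p j) (4 * n) ⊆ ES T := fun j hj => bo_sub (hbox j hj)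
  have hbo3 : bo (p 0) (3 * n) ⊆ ES T := by
    refine Finset.Subset.trans ?_ (hbo 0 (by omega))
    unfold bo
    apply RE_subset <;> push_cast <;> omega
  have e1 := far_lower hbo3
  have e2 := chain_lower (p := p) (M := M) hn hbo
  have e3 := hcol T v (p M) L B α n r hwin hn
    (fun y hy => hbox M (by omega) y (BX_mono (by push_cast; omega) hy)) hxv hrK hrL
  obtain ⟨-, e5, -, -⟩ := hW T v L hwin r R (by omega) (by omega) hRL
  have e4 := (hW T v L hwin r r (by omega) le_rfl (by omega)).2.2.2 hrL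
  have i1 : IncrE (ES T) (Far (p 0) (3 * n)) := Pool.Agent.H160R2.CV.TwoAux.far_incr _ _ _
  have i2 := Chain_incr (ES T) p n M
  have i3 := Out_incr (ES T) T (p M) v n (64 * r)
  have i4 := CHN.HT_incr (ES T) T v r (64 * r)
  have i5 := CHN.XT_incr (ES T) T v r R
  have hrr : (0 : ℝ) < r := by exact_mod_cast (by omega : 0 < r)
  have hRR : (0 : ℝ) < R := by exact_mod_cast (by omega : 0 < R)
  have q : 0 ≤ ((r : ℝ) / R) ^ (1 / 3 : ℝ) := by positivity
  have g1 := hars i1 i2 e1 e2 (by have := cc_pos; positivity)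
  have g2 := hars (and_incr i1 i2) i3 g1 e3 hc2.le
  have g3 := hars (and_incr (and_incr i1 i2) i3) i4 g2 e4 hc1.le
  have g4 := hars (and_incr (and_incr (and_incr i1 i2) i3) i4) i5 g3 e5 (by positivity)
  have e : cc ^ (M + 1) * c2 * c1 * c1 * (ar (3 * n) * ((r : ℝ) / R) ^ (1 / 3 : ℝ)) =
      ar (3 * n) * cc ^ (M + 1) * c2 * c1 * (c1 * ((r : ℝ) / R) ^ (1 / 3 : ℝ)) := by ring
  rw [e]
  refine g4.trans (Pr_mono okhalf ?_)
  rintro F hF ⟨⟨⟨⟨⟨w0, hw0, hr0w⟩, hch⟩, u, hu, hux, w, hw, hwR, hrw⟩, hH⟩, hX⟩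
  obtain ⟨z, hz⟩ := chain_meet hn hp hch
  have k1 := hz 0 (by omega) (p 0) w0 (by simp [nv]) hw0 hr0w
  have hMv : (v.1 - r + n ≤ (p M).1 ∧ (p M).1 ≤ v.1 + r - n) ∧
      (v.2 - r + n ≤ (p M).2 ∧ (p M).2 ≤ v.2 + r - n) := by
    have h1 := hxv ((p M).1 + n, (p M).2 + n) (by rw [mem_BX]; simp only; omega)
    have h2 := hxv ((p M).1 - n, (p M).2 - n) (by rw [mem_BX]; simp only; omega)
    rw [mem_BX] at h1 h2
    simp only at h1 h2
    omega
  have k2 := hz M (by omega) u w (mem_BX_nv.mp hux) (by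
    rw [mem_BX] at hwR
    unfold nv
    simp only [Prod.fst_sub, Prod.snd_sub]
    omega) hrw
  have k3 : Reach (F : Set Edg) (p 0) u := k1.trans k2.symm
  obtain ⟨zb, hzb, -, -, hB⟩ := hH
  obtain ⟨u', hu', hu'r, w', hw', hw'R, hr'⟩ := hX
  have k4 := CHN.meets hF hB hu (hxv u hux) hw hwR hrw
  have k5 := CHN.meets hF hB hu' hu'r hw' (fun h => hw'R (BX_mono (by omega) h)) hr'
  exact ⟨u, hu, hxv u hux, k3, w', hw', hw'R, k4.symm.trans (k5.trans hr')⟩

end Run7.h663.PA
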