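import Pool.Agent.Run7.h663.PA.KUp

/-!
Two interior points and a boundary arc: the abstract bounds, and the upper bounds.
-/

set_option autoImplicit false

namespace Run7.h663.PA

open H974 hiding Blk okhalf
open H973 hiding okhalf
open Finset
open Pool.Agent.Y989.SD
open Pool.Agent.H160R2.CV (nv P ar Far)
open Pool.Agent.H160R2.CV.Quad (bo LA)

variable {f : ℂ → ℂ}

/-- the vertex `x` is connected to both sets -/
def Tri (x : Vtx) (V W : Set Vtx) (F : Finset Edg) : Prop :=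
  ∃ v ∈ V, ∃ w ∈ W, Reach (F : Set Edg) x v ∧ Reach (F : Set Edg) x w

/-- the two sets are connected -/
def Duo (V W : Set Vtx) (F : Finset Edg) : Prop :=
  ∃ v ∈ V, ∃ w ∈ W, Reach (F : Set Edg) v w

theorem Tri_incr (S : Finset Edg) (x : Vtx) (V W : Set Vtx) : IncrE S (Tri x V W) := by
  rintro F G h - ⟨v, hv, w, hw, h1, h2⟩
  exact ⟨v, hv, w, hw, h1.mono (by exact_mod_cast h), h2.mono (by exact_mod_cast h)⟩

theorem Duo_incr (S : Finset Edg) (V W : Set Vtx) : IncrE S (Duo V W) := by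
  rintro F G h - ⟨v, hv, w, hw, h1⟩
  exact ⟨v, hv, w, hw, h1.mono (by exact_mod_cast h)⟩

theorem Tri_Duo {x : Vtx} {V W : Set Vtx} {F : Finset Edg} (h : Tri x V W F) : Duo V W F := by
  obtain ⟨v, hv, w, hw, h1, h2⟩ := h
  exact ⟨v, hv, w, hw, h1.symm.trans h2⟩

/-- probabilities -/
noncomputable def PT (f : ℂ → ℂ) (ε : ℝ) (x : Vtx) (V W : Set Vtx) : ℝ :=
  Pr hf (ES (TD f ε)) (Tri x V W)

noncomputable def PD (f : ℂ → ℂ) (ε : ℝ) (V W : Set Vtx) : ℝ := Pr hf (ES (TD f ε)) (Duo V W)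

theorem PT_nonneg (f : ℂ → ℂ) (ε : ℝ) (x : Vtx) (V W : Set Vtx) : 0 ≤ PT f ε x V W :=
  Pr_nonneg oku _ _

theorem PD_nonneg (f : ℂ → ℂ) (ε : ℝ) (V W : Set Vtx) : 0 ≤ PD f ε V W := Pr_nonneg oku _ _

theorem PT_le (f : ℂ → ℂ) (ε : ℝ) (x : Vtx) (V W : Set Vtx) : PT f ε x V W ≤ PD f ε V W :=
  Pr_mono oku (fun _ _ hF => Tri_Duo hF)

/-- **Upper bound, abstract form.** -/
theorem tri_up {E S : Finset Edg} {x : Vtx} {V W : Set Vtx} {q c : ℝ} (hc : 0 < c)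
    (hloc : Loc E (Tri x V W) S q) {Bs : Vtx → Prop}
    (hS : ∀ e ∈ S, Bs (H974.src e) ∧ Bs (tgt e))
    {Bk : Finset Edg → Prop} (hBi : IncrE E Bk) (hBc : c ≤ Pr hf E Bk)
    (hBk : ∀ F, F ⊆ E → Bk F → ∃ z, ∀ u, Bs u → ∀ v, (v ∈ V ∨ v ∈ W) →
      Reach (F : Set Edg) v u → Reach (F : Set Edg) v z) :
    Pr hf E (Tri x V W) ≤ q / c * Pr hf E (Duo V W) := by
  obtain ⟨hSE, G, hG, hA⟩ := hloc
  have hq : 0 ≤ q := (Pr_nonneg oku _ _).trans hG
  set G' : Finset Edg → Prop := fun H => Duo V W (H ∪ S) with hG'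
  have hGi : IncrE E G' := by
    intro F H hFH _ hF
    exact Duo_incr (H ∪ S) V W (F ∪ S) (H ∪ S) (Finset.union_subset_union_left hFH)
      (Finset.Subset.refl _) hF
  have hdj : Disjoint S (E \ S) := Finset.disjoint_sdiff
  have h1 : Pr hf E (Tri x V W) ≤ Pr hf S G * Pr hf (E \ S) G' := by
    refine (Pr_mono oku (B := fun F => G (F ∩ S) ∧ G' (F ∩ (E \ S))) (fun F hF h =>
      ⟨hA F hF h, ?_⟩)).trans (le_of_eq (Pr_indep' hSE Finset.sdiff_subset hdj G G'))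
    refine Duo_incr (F ∩ (E \ S) ∪ S) V W F _ ?_ (Finset.Subset.refl _) (Tri_Duo h)
    intro e he
    rw [Finset.mem_union, Finset.mem_inter, Finset.mem_sdiff]
    by_cases h3 : e ∈ S
    · exact Or.inr h3
    · exact Or.inl ⟨he, hF he, h3⟩
  have h2 : Pr hf (E \ S) G' ≤ Pr hf E G' := Pr_mono_set oku Finset.sdiff_subset hGi
  have h3 : Pr hf E G' * c ≤ Pr hf E (Duo V W) := by
    refine (hars hGi hBi le_rfl hBc hc.le).trans (Pr_mono oku ?_)
    rintro F hF ⟨⟨v, hv, w, hw, h4⟩, h5⟩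
    obtain ⟨z, hz⟩ := hBk F hF h5
    refine ⟨v, hv, w, hw, ?_⟩
    rcases hit hS h4 with h6 | ⟨u, hu, h6⟩
    · exact h6
    · rcases hit hS h4.symm with h7 | ⟨u', hu', h7⟩
      · exact h7.symm
      · exact (hz u hu v (Or.inl hv) h6).trans (hz u' hu' w (Or.inr hw) h7).symm
  have h4 : Pr hf E G' ≤ Pr hf E (Duo V W) / c := by rwa [le_div_iff₀ hc]
  calc Pr hf E (Tri x V W) ≤ Pr hf S G * Pr hf (E \ S) G' := h1
    _ ≤ q * (Pr hf E (Duo V W) / c) :=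
        mul_le_mul hG (h2.trans h4) (Pr_nonneg oku _ _) hq
    _ = _ := by ring

/-- **Lower bound, abstract form.** -/
theorem tri_low {E : Finset Edg} {x : Vtx} {V W : Set Vtx} {p : ℝ} (hp : 0 ≤ p)
    {E' : Finset Edg → Prop} (hi : IncrE E E') (hE : p ≤ Pr hf E E')
    (h : ∀ F, F ⊆ E → E' F → ∀ v ∈ V, ∀ w ∈ W, Reach (F : Set Edg) v w →
      Reach (F : Set Edg) x v) :
    p * Pr hf E (Duo V W) ≤ Pr hf E (Tri x V W) := by
  rw [mul_comm]
  refine (hars (Duo_incr E V W) hi le_rfl hE hp).trans (Pr_mono oku ?_)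
  rintro F hF ⟨⟨v, hv, w, hw, h1⟩, h2⟩
  have h3 := h F hF h2 v hv w hw h1
  exact ⟨v, hv, w, hw, h3, h3.trans h1⟩

/-- **Upper bound, interior regime.** -/
theorem tup_in (D : Dom f) {η e0 : ℝ} (hη : 0 < η) (he0 : 0 < e0) : ∃ C : ℝ, 0 < C ∧
    ∀ (ε d : ℝ) (x : Vtx) (z : ℂ) (V W : Set Vtx), 0 < ε → ε ≤ D.ε0 → ‖z‖ < 1 →
    f z = pos ε x → 0 < d → η * d ≤ 1 - ‖z‖ →
    (∀ v, (v ∈ V ∨ v ∈ W) → e0 * d ≤ ‖pos ε v - pos ε x‖) →
    PT f ε x V W ≤ C * (ε / d) ^ (5 / 48 : ℝ) * PD f ε V W := by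
  have hl := D.hl
  obtain ⟨c0, C0, hc0, hC0, har⟩ := ar_sharp
  set κ : ℝ := min (η * D.l / 8) (e0 / 8) with hκ
  have hκ0 : 0 < κ := lt_min (by positivity) (by positivity)
  have hκl : 8 * κ ≤ η * D.l := by
    have : κ ≤ η * D.l / 8 := min_le_left _ _
    linarith
  have hκe : 8 * κ ≤ e0 := by
    have : κ ≤ e0 / 8 := min_le_right _ _
    linarith
  have hcir : (0 : ℝ) < (1 / 2 : ℝ) ^ 188 := by positivity
  refine ⟨(C0 / (1 / 2 : ℝ) ^ 188 + 1) * (κ / 2) ^ (-(5 / 48 : ℝ)), by positivity, ?_⟩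
  intro ε d x z V W hε hε0 hz hfz hd hηd hdist
  set n : ℕ := ⌊κ * d / ε⌋₊ with hn
  have hn1 : (n : ℝ) ≤ κ * d / ε := Nat.floor_le (by positivity)
  have hn2 : κ * d / ε < n + 1 := Nat.lt_floor_add_one _
  rw [le_div_iff₀ hε] at hn1
  rw [div_lt_iff₀ hε] at hn2
  have hκd : 0 < κ * d := by positivity
  have hpow : ∀ t : ℝ, 0 < t → κ * d / 2 ≤ t * ε →
      t ^ (-(5 / 48 : ℝ)) ≤ (κ / 2) ^ (-(5 / 48 : ℝ)) * (ε / d) ^ (5 / 48 : ℝ) := by
    intro t ht htd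
    have h1 : (κ / 2) ^ (-(5 / 48 : ℝ)) * (ε / d) ^ (5 / 48 : ℝ) =
        (κ / 2 * (d / ε)) ^ (-(5 / 48 : ℝ)) := by
      rw [Real.mul_rpow (x := κ / 2) (by positivity) (by positivity), rpow_inv_eq hd hε]
    rw [h1]
    refine Real.rpow_le_rpow_of_nonpos (by positivity) ?_ (by norm_num)
    have h2 : κ / 2 * (d / ε) = κ * d / 2 / ε := by ring
    rw [h2, div_le_iff₀ hε]
    exact htd
  have hKP := PD_nonneg f ε V W
  have hp : 0 ≤ (κ / 2) ^ (-(5 / 48 : ℝ)) * (ε / d) ^ (5 / 48 : ℝ) := by positivity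
  rcases Nat.eq_zero_or_pos n with h0 | hnn
  · rw [h0, Nat.cast_zero, zero_add, one_mul] at hn2
    have h1 := hpow 1 one_pos (by linarith)
    rw [Real.one_rpow] at h1
    calc PT f ε x V W ≤ 1 * PD f ε V W := by rw [one_mul]; exact PT_le f ε x V W
      _ ≤ ((C0 / (1 / 2 : ℝ) ^ 188 + 1) * ((κ / 2) ^ (-(5 / 48 : ℝ)) * (ε / d) ^ (5 / 48 : ℝ))) *
          PD f ε V W := by
          apply mul_le_mul_of_nonneg_right _ hKP
          have : 0 < C0 / (1 / 2 : ℝ) ^ 188 := by positivity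
          nlinarith
      _ = _ := by ring
  · have hnpos : (1 : ℝ) ≤ n := by exact_mod_cast hnn
    have hbox : ∀ y ∈ BX x ((3 * n : ℕ) : ℤ), y ∈ TD f ε := by
      refine D.box hε hε0 hz (e := 0) (by rw [hfz, sub_self, norm_zero]) ?_
      push_cast
      have h1 : D.l * (η * d) ≤ D.l * (1 - ‖z‖) := mul_le_mul_of_nonneg_left hηd hl.le
      have h2 : 8 * κ * d ≤ η * D.l * d := mul_le_mul_of_nonneg_right hκl hd.le
      nlinarith
    have hfar : ∀ v, (v ∈ V ∨ v ∈ W) → 3 * n ≤ nv (v - x) := by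
      intro v hv
      by_contra hcon
      push Not at hcon
      have h1 := ARM1.norm_pos_sub hε (mem_BX_nv.mpr hcon.le)
      push_cast at h1
      have h2 := hdist v hv
      have h3 : 8 * κ * d ≤ e0 * d := mul_le_mul_of_nonneg_right hκe hd.le
      nlinarith
    have hloc : Loc (ES (TD f ε)) (Tri x V W) (bo x n) (ar n) := by
      refine loc_arm (fun y hy => hbox y (BX_mono (by push_cast; omega) hy)) ?_
      rintro F _ ⟨v0, hv0, w0, hw0, hF, -⟩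
      exact ⟨v0, (by have := hfar v0 (Or.inl hv0); omega), hF⟩
    have hmain := tri_up (c := (1 / 2 : ℝ) ^ 188) hcir hloc (Bs := fun u => nv (u - x) ≤ n)
      (by
        intro e he
        rw [bo_eq, mem_ES] at he
        exact ⟨mem_BX_nv.mp he.1, mem_BX_nv.mp he.2⟩)
      (H362P.CA_incr (ES (TD f ε)) x n (3 * n)) (circ_lower hnn (bo_sub hbox)) (by
        intro F _ hF
        obtain ⟨z', hz'⟩ := H362P.CA_meet (by omega) hF
        refine ⟨z', fun u hu v hv hr => ?_⟩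
        exact hr.trans (hz' u v hu (hfar v hv) hr.symm))
    have harn := (har n hnn).2
    have h1 := hpow n (by linarith) (by nlinarith)
    calc PT f ε x V W ≤ ar n / (1 / 2 : ℝ) ^ 188 * PD f ε V W := hmain
      _ ≤ (C0 * ((κ / 2) ^ (-(5 / 48 : ℝ)) * (ε / d) ^ (5 / 48 : ℝ))) / (1 / 2 : ℝ) ^ 188 *
          PD f ε V W := by
          apply mul_le_mul_of_nonneg_right _ hKP
          apply div_le_div_of_nonneg_right _ hcir.le
          exact harn.trans (mul_le_mul_of_nonneg_left h1 hC0.le)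
      _ = (C0 / (1 / 2 : ℝ) ^ 188) * ((κ / 2) ^ (-(5 / 48 : ℝ)) * (ε / d) ^ (5 / 48 : ℝ)) *
          PD f ε V W := by ring
      _ ≤ ((C0 / (1 / 2 : ℝ) ^ 188 + 1) * ((κ / 2) ^ (-(5 / 48 : ℝ)) * (ε / d) ^ (5 / 48 : ℝ))) *
          PD f ε V W := by
          apply mul_le_mul_of_nonneg_right _ hKP
          apply mul_le_mul_of_nonneg_right _ hp
          linarith
      _ = _ := by ring

/-- **Upper bound, boundary regime.** -/
theorem tup_bd (D : Dom f) {e0 : ℝ} (he0 : 0 < e0) (he1 : e0 ≤ 1) : ∃ C K0 η : ℝ, 0 < C ∧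
    1 ≤ K0 ∧ 0 < η ∧ ∀ (ε d : ℝ) (x : Vtx) (z : ℂ) (V W : Set Vtx), 0 < ε → ε ≤ D.ε0 →
    ‖z‖ < 1 → f z = pos ε x → K0 * ε ≤ 1 - ‖z‖ → 1 - ‖z‖ ≤ η * d → d ≤ 2 →
    (∀ v, (v ∈ V ∨ v ∈ W) → v ∈ TD f ε) →
    (∀ v, (v ∈ V ∨ v ∈ W) → e0 * d ≤ ‖pos ε v - pos ε x‖) →
    PT f ε x V W ≤ C * ((ε / (1 - ‖z‖)) ^ (5 / 48 : ℝ) * ((1 - ‖z‖) / d) ^ (1 / 3 : ℝ)) *
      PD f ε V W := by
  have hH := D.hH
  have hl := D.hl
  have hρ := D.hρ
  have hcW := D.hcW
  set t : ℝ := min e0 D.ρ / 2000 with ht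
  have ht0 : 0 < t := by
    have := lt_min he0 hρ
    positivity
  have hte : 2000 * t ≤ e0 := by
    have : min e0 D.ρ ≤ e0 := min_le_left _ _
    linarith
  have htρ : 2000 * t ≤ D.ρ := by
    have : min e0 D.ρ ≤ D.ρ := min_le_right _ _
    linarith
  set κ : ℝ := min t (min (D.l / 4) 1) with hκ
  have hκ0 : 0 < κ := lt_min ht0 (lt_min (by positivity) one_pos)
  have hκt : κ ≤ t := min_le_left _ _
  have hκl : 4 * κ ≤ D.l := by
    have : κ ≤ D.l / 4 := (min_le_right _ _).trans (min_le_left _ _)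
    linarith
  have hκ1 : κ ≤ 1 := (min_le_right _ _).trans (min_le_right _ _)
  obtain ⟨η, hη⟩ : ∃ η : ℝ, η = t / (D.H + 5) := ⟨_, rfl⟩
  have hη0 : 0 < η := by rw [hη]; positivity
  have hηt : (D.H + 5) * η = t := by rw [hη]; field_simp
  have hη1 : η ≤ 1 := by nlinarith
  obtain ⟨C1, K1, hC1, hK1, hup⟩ := up_x D hκ0 (by linarith) hκl hκ1
  refine ⟨C1 / D.cW, K1, η, by positivity, hK1, hη0, ?_⟩
  intro ε d x z V W hε hε0 hz hfz hKε hδd hd2 hXT hdist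
  obtain ⟨θ, hθ⟩ := exists_dir z
  obtain ⟨-, hG2, -⟩ := D.gd ε hε hε0
  obtain ⟨v, hv, hv', hvW⟩ := hG2 θ
  have hBv : Bp f ε D.ρ D.B D.α θ v := ⟨hv, hv', hvW⟩
  have hvz := base_dist D hz hθ hBv
  set δ := 1 - ‖z‖ with hδ
  have hεδ : ε ≤ δ := by nlinarith
  have hδ0 : 0 < δ := hε.trans_le hεδ
  have hd0 : 0 < d := by
    by_contra hcon
    push Not at hcon
    nlinarith
  have hδd' : δ ≤ d := by nlinarith
  have hεd : ε ≤ η * d := hεδ.trans hδd
  obtain ⟨S, hS, hloc⟩ := hup ε d x z hε hε0 hz hfz hKε hδd' hd2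
  have hloc' := hloc (Tri x V W) (by
    rintro F _ ⟨v1, hv1, w1, hw1, hF, -⟩
    refine ⟨v1, ?_, hF⟩
    rw [hfz]
    refine le_trans ?_ (hdist v1 (Or.inl hv1))
    have : 4 * κ * d ≤ e0 * d := mul_le_mul_of_nonneg_right (by linarith) hd0.le
    exact this)
  -- the blocking annulus
  obtain ⟨K5, hK5⟩ : ∃ K5 : ℝ, K5 = 3 * κ + (D.H + 4) * η := ⟨_, rfl⟩
  have hK50 : 0 < K5 := by rw [hK5]; positivity
  have hK5t : K5 + η ≤ 4 * t := by
    have : (D.H + 5) * η = (D.H + 4) * η + η := by ring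
    rw [hK5]
    linarith
  set r : ℤ := ⌈K5 * d / ε⌉ with hr
  have hr1 : K5 * d ≤ ε * r := by
    have h1 := Int.le_ceil (K5 * d / ε)
    rw [div_le_iff₀ hε, ← hr] at h1
    linarith
  have hr2 : ε * r ≤ 4 * t * d := by
    have h1 := (Int.ceil_lt_add_one (K5 * d / ε)).le
    have h2 : ε * (r : ℝ) ≤ ε * (K5 * d / ε + 1) := mul_le_mul_of_nonneg_left h1 hε.le
    have h3 : ε * (K5 * d / ε + 1) = K5 * d + ε := by field_simp
    have h4 : (K5 + η) * d ≤ 4 * t * d := mul_le_mul_of_nonneg_right hK5t hd0.le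
    linarith
  have hr0 : (0 : ℝ) < r := by
    have : 0 < ε * r := lt_of_lt_of_le (by positivity) hr1
    exact (mul_pos_iff_of_pos_left hε).mp this
  have hr0' : (0 : ℤ) < r := by exact_mod_cast hr0
  have hL : 128 * r ≤ ⌊D.ρ / ε⌋ := by
    rw [Int.le_floor, le_div_iff₀ hε]
    push_cast
    nlinarith
  have hHT := (D.win (TD f ε) v _ hvW r r (by omega) le_rfl (by omega)).2.2 hL
  have hfar : ∀ w, (w ∈ V ∨ w ∈ W) → w ∉ BX v (64 * r - 1) := by
    intro w hw hwB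
    have h1 := ARM1.norm_pos_sub hε hwB
    push_cast at h1
    have h2 := hdist w hw
    have h3 : pos ε w - pos ε x = (pos ε w - pos ε v) + (pos ε v - f z) := by rw [← hfz]; ring
    have h4 := norm_add_le (pos ε w - pos ε v) (pos ε v - f z)
    rw [← h3] at h4
    have h5 : 2000 * t * d ≤ e0 * d := mul_le_mul_of_nonneg_right hte hd0.le
    have h6 : D.H * δ ≤ D.H * (η * d) := mul_le_mul_of_nonneg_left hδd hH.le
    have h7 : (D.H + 5) * η * d = t * d := by rw [hηt]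
    have h8 : 0 < t * d := by positivity
    have h9 : 0 < η * d := by positivity
    nlinarith
  have hSE := hloc'.1
  have hin : ∀ u : Vtx, ‖pos ε u - f z‖ ≤ 3 * κ * d + 2 * ε → u ∈ BX v r := by
    intro u hu
    apply ALO.mem_BX_of hε
    have h2 : pos ε u - pos ε v = (pos ε u - f z) + -(pos ε v - f z) := by ring
    rw [h2]
    refine (norm_add_le _ _).trans ?_
    rw [norm_neg]
    have h6 : D.H * δ ≤ D.H * (η * d) := mul_le_mul_of_nonneg_left hδd hH.le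
    have h7 : K5 * d = 3 * κ * d + (D.H * (η * d) + 4 * (η * d)) := by rw [hK5]; ring
    linarith
  have hmain := tri_up (c := D.cW) hcW hloc' (Bs := fun u => u ∈ TD f ε ∧ u ∈ BX v r)
    (by
      intro e he
      have h1 := hSE he
      rw [mem_ES] at h1
      have h2 := hS e he
      refine ⟨⟨h1.1, hin _ (by linarith)⟩, h1.2, hin _ ?_⟩
      have h3 := ARM1.norm_pos_sub hε (tgt_near e)
      push_cast at h3
      have h4 : pos ε (tgt e) - f z = (pos ε (tgt e) - pos ε (H974.src e)) +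
          (pos ε (H974.src e) - f z) := by ring
      rw [h4]
      refine (norm_add_le _ _).trans ?_
      linarith)
    (CHN.HT_incr (ES (TD f ε)) (TD f ε) v r (64 * r)) hHT (by
      rintro F hF ⟨b, -, -, -, hbl⟩
      refine ⟨b, fun u hu w hw hr => ?_⟩
      exact hr.trans (CHN.meets hF hbl hu.1 hu.2 (hXT w hw) (hfar w hw) hr.symm).symm)
  refine hmain.trans (le_of_eq ?_)
  unfold PD
  ring

end Run7.h663.PA
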