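import Pool.Agent.Run7.h663.PA.TArc
import Pool.Agent.H974R2.BK

/-!
Two interior points and a boundary arc: the cases.
-/

set_option autoImplicit false

namespace Run7.h663.PA

open H974 hiding Blk okhalf
open H973 hiding okhalf
open Finset
open Pool.Agent.Y989.SD
open Pool.Agent.H160R2.CV (nv P ar Far)

variable {f : ℂ → ℂ}

theorem PT_swap (f : ℂ → ℂ) (ε : ℝ) (x : Vtx) (V W : Set Vtx) : PT f ε x V W = PT f ε x W V := by
  apply Pr_congr
  intro F _
  constructor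
  · rintro ⟨v, hv, w, hw, h1, h2⟩
    exact ⟨w, hw, v, hv, h2, h1⟩
  · rintro ⟨v, hv, w, hw, h1, h2⟩
    exact ⟨w, hw, v, hv, h2, h1⟩

theorem PD_swap (f : ℂ → ℂ) (ε : ℝ) (V W : Set Vtx) : PD f ε V W = PD f ε W V := by
  apply Pr_congr
  intro F _
  constructor
  · rintro ⟨v, hv, w, hw, h1⟩
    exact ⟨w, hw, v, hv, h1.symm⟩
  · rintro ⟨v, hv, w, hw, h1⟩
    exact ⟨w, hw, v, hv, h1.symm⟩

theorem Tri_xy {x y : Vtx} {W : Set Vtx} {F : Finset Edg} (h : Tri x {y} W F) : Tri y {x} W F := by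
  obtain ⟨v, hv, w, hw, h1, h2⟩ := h
  rw [Set.mem_singleton_iff] at hv
  subst hv
  exact ⟨x, rfl, w, hw, h1.symm, h1.symm.trans h2⟩

theorem PT_xy (f : ℂ → ℂ) (ε : ℝ) (x y : Vtx) (W : Set Vtx) : PT f ε x {y} W = PT f ε y {x} W :=
  Pr_congr (fun _ _ => ⟨Tri_xy, Tri_xy⟩)

theorem PT_le_PP (f : ℂ → ℂ) (ε : ℝ) (x y : Vtx) (W : Set Vtx) : PT f ε x {y} W ≤ PP f ε x y := by
  apply Pr_mono oku
  rintro F _ ⟨v, hv, w, hw, h1, h2⟩
  rw [Set.mem_singleton_iff] at hv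
  subst hv
  exact h1

/-- the probability that both points are connected to the set -/
noncomputable def PW (f : ℂ → ℂ) (ε : ℝ) (x y : Vtx) (W : Set Vtx) : ℝ :=
  Pr hf (ES (TD f ε)) (fun F => Duo {x} W F ∧ Duo {y} W F)

theorem PT_le_PW (f : ℂ → ℂ) (ε : ℝ) (x y : Vtx) (W : Set Vtx) : PT f ε x {y} W ≤ PW f ε x y W := by
  apply Pr_mono oku
  rintro F _ ⟨v, hv, w, hw, h1, h2⟩
  rw [Set.mem_singleton_iff] at hv
  subst hv
  exact ⟨⟨x, rfl, w, hw, h2⟩, ⟨v, rfl, w, hw, h1.symm.trans h2⟩⟩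

theorem PW_harris (f : ℂ → ℂ) (ε : ℝ) (x y : Vtx) (W : Set Vtx) :
    PD f ε {x} W * PD f ε {y} W ≤ PW f ε x y W :=
  hars (Duo_incr _ {x} W) (Duo_incr _ {y} W) le_rfl le_rfl (PD_nonneg f ε {y} W)

theorem Duo_disj {x y : Vtx} {W : Set Vtx} {F : Finset Edg} (h1 : Duo {x} W F) (h2 : Duo {y} W F)
    (h : ¬ Reach (F : Set Edg) x y) : DisjOcc (Duo {x} W) (Duo {y} W) F := by
  classical
  have key : ∀ (x : Vtx), ∀ w, Reach (F : Set Edg) x w →
      Reach ((F.filter (fun e => Reach (F : Set Edg) x (H974.src e)) : Finset Edg) : Set Edg)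
        x w := by
    intro x w hw
    induction hw with
    | refl => exact Relation.ReflTransGen.refl
    | @tail b c hxb hbc ih =>
      refine Relation.ReflTransGen.tail ih ?_
      obtain ⟨e, he, hc⟩ := hbc
      refine ⟨e, ?_, hc⟩
      rw [Finset.mem_coe, Finset.mem_filter]
      refine ⟨by exact_mod_cast he, ?_⟩
      rcases hc with ⟨h3, h4⟩ | ⟨h3, h4⟩
      · rw [h3]; exact hxb
      · rw [h3]; exact Relation.ReflTransGen.tail hxb ⟨e, he, Or.inr ⟨h3, h4⟩⟩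
  refine ⟨F.filter (fun e => Reach (F : Set Edg) x (H974.src e)),
    F.filter (fun e => Reach (F : Set Edg) y (H974.src e)), Finset.filter_subset _ _,
    Finset.filter_subset _ _, ?_, ?_, ?_⟩
  · rw [Finset.disjoint_left]
    intro e h3 h4
    rw [Finset.mem_filter] at h3 h4
    exact h (h3.2.trans h4.2.symm)
  · obtain ⟨v, hv, w, hw, h3⟩ := h1
    rw [Set.mem_singleton_iff] at hv
    subst hv
    exact ⟨v, rfl, w, hw, key v w h3⟩
  · obtain ⟨v, hv, w, hw, h3⟩ := h2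
    rw [Set.mem_singleton_iff] at hv
    subst hv
    exact ⟨v, rfl, w, hw, key v w h3⟩

/-- **The two clusters.** -/
theorem PW_bk (f : ℂ → ℂ) (ε : ℝ) (x y : Vtx) (W : Set Vtx) :
    PW f ε x y W ≤ PT f ε x {y} W + PD f ε {x} W * PD f ε {y} W := by
  have h1 := bk oku (S := ES (TD f ε)) (Duo_incr _ {x} W) (Duo_incr _ {y} W)
  have h2 : PW f ε x y W ≤ Pr hf (ES (TD f ε)) (fun F => Tri x {y} W F ∨
      DisjOcc (Duo {x} W) (Duo {y} W) F) := by
    apply Pr_mono oku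
    rintro F _ ⟨h3, h4⟩
    by_cases h5 : Reach (F : Set Edg) x y
    · left
      obtain ⟨v, hv, w, hw, h6⟩ := h3
      rw [Set.mem_singleton_iff] at hv
      subst hv
      exact ⟨y, rfl, w, hw, h5, h6⟩
    · exact Or.inr (Duo_disj h3 h4 h5)
  refine h2.trans ((Pr_or_le oku _ _ _).trans ?_)
  unfold PT PD
  linarith

/-- the arc is far from the point -/
theorem near_dist (D : Dom f) {ε θ1 θ2 A : ℝ} {x v : Vtx} {z : ℂ} (hz : ‖z‖ < 1)
    (hfz : f z = pos ε x) (hA : ∀ t, θ1 ≤ t → t ≤ θ2 → A ≤ ‖z - cir t‖)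
    (hε : 4 * ε ≤ D.l * A) (hv : v ∈ near f ε θ1 θ2) :
    D.l / 2 * A ≤ ‖pos ε v - pos ε x‖ := by
  obtain ⟨-, t, h1, h2, h3⟩ := hv
  have h4 := (D.lip z (disc_of hz.le) (cir t) (disc_of (ARM1.norm_cir t).le)).1
  have h5 := mul_le_mul_of_nonneg_left (hA t h1 h2) D.hl.le
  have h6 : f z - f (cir t) = (pos ε v - f (cir t)) + -(pos ε v - pos ε x) := by
    rw [hfz]; ring
  have h7 := norm_add_le (pos ε v - f (cir t)) (-(pos ε v - pos ε x))
  rw [← h6, norm_neg] at h7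
  linarith

theorem le_cir {z : ℂ} (t : ℝ) : 1 - ‖z‖ ≤ ‖z - cir t‖ := by
  have := norm_sub_norm_le (cir t) z
  rw [ARM1.norm_cir, norm_sub_rev] at this
  exact this

/-- **The points are close to one another.** -/
theorem t_one (D : Dom f) : ∃ c C K0 ε1 : ℝ, 0 < c ∧ 0 < C ∧ 1 ≤ K0 ∧ 0 < ε1 ∧ ε1 ≤ D.ε0 ∧
    ∀ (ε θ1 θ2 : ℝ) (x y : Vtx) (z w : ℂ), 0 < ε → ε ≤ ε1 → ‖z‖ < 1 → ‖w‖ < 1 →
    f z = pos ε x → f w = pos ε y → x ≠ y → z ≠ w → K0 * ε ≤ 1 - ‖z‖ → K0 * ε ≤ 1 - ‖w‖ →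
    (∀ t, θ1 ≤ t → t ≤ θ2 → ‖z - w‖ ≤ 4 * ‖z - cir t‖) →
    (∀ t, θ1 ≤ t → t ≤ θ2 → ‖z - w‖ ≤ 4 * ‖w - cir t‖) →
    c * LG ε (1 - ‖z‖) (mz z w) ‖z - w‖ * PD f ε {y} (near f ε θ1 θ2) ≤
      PT f ε x {y} (near f ε θ1 θ2) ∧
    PT f ε x {y} (near f ε θ1 θ2) ≤
      C * LG ε (1 - ‖z‖) (mz z w) ‖z - w‖ * PD f ε {y} (near f ε θ1 θ2) := by
  have hH := D.hH
  have hl := D.hl
  obtain ⟨e0, he0⟩ : ∃ e0 : ℝ, e0 = min (D.l / 8) 1 := ⟨_, rfl⟩
  have he00 : 0 < e0 := by rw [he0]; exact lt_min (by positivity) one_pos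
  have he01 : e0 ≤ 1 := by rw [he0]; exact min_le_right _ _
  have he0l : e0 ≤ D.l / 8 := by rw [he0]; exact min_le_left _ _
  obtain ⟨Cu, Ku, hCu, hKu, hup⟩ := tup D he00 he01
  obtain ⟨ca, hca, hla⟩ := tlow_close D he00
  obtain ⟨Λ, hΛ⟩ : ∃ Λ : ℝ, Λ = 1 + 72 * D.H / D.l := ⟨_, rfl⟩
  have hΛ1 : 1 ≤ Λ := by
    rw [hΛ]
    have : 0 < 72 * D.H / D.l := by positivity
    linarith
  have hΛ0 : 0 < Λ := by linarith
  obtain ⟨cb, Kc, ε1, hcb, hKc, hε1, hε10, hlb⟩ := tlow_far D (e0 := e0 / Λ) (by positivity)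
  refine ⟨min (ca / 3) (cb / Λ ^ (5 / 48 : ℝ)), Cu, Ku + Kc + 4 / D.l, ε1,
    lt_min (by positivity) (by positivity), hCu, by
      have : 0 < 4 / D.l := by positivity
      linarith, hε1, hε10, ?_⟩
  intro ε θ1 θ2 x y z w hε hεε hz hw hfz hfw hxy hzw hKz hKw hcz hcw
  obtain ⟨hm, hdm, ham, hbm, hm1, hm2, -⟩ := F2_eq (ε := ε) (r := 1) (s := 1) hz hw hzw
  have hd : 0 < ‖z - w‖ := by rw [norm_pos_iff, sub_ne_zero]; exact hzw
  have hz0 := norm_nonneg z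
  have hw0 := norm_nonneg w
  have hmle : mz z w ≤ 2 := by
    unfold mz
    refine (norm_sub_le _ _).trans ?_
    rw [norm_one, norm_mul, Complex.norm_conj]
    nlinarith
  have hdab : 1 - ‖w‖ ≤ 1 - ‖z‖ + ‖z - w‖ := by
    have := norm_sub_norm_le z w
    linarith
  have hd2 : ‖z - w‖ ≤ 2 := hdm.trans hmle
  have hlip := D.lip z (disc_of hz.le) w (disc_of hw.le)
  rw [hfz, hfw] at hlip
  have hwz : ‖w - z‖ = ‖z - w‖ := norm_sub_rev w z
  set a := 1 - ‖z‖ with ha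
  set b := 1 - ‖w‖ with hb
  set d := ‖z - w‖ with hdd
  set m := mz z w with hmm
  have p1 : 0 < Ku * ε := by positivity
  have p2 : 0 < Kc * ε := by positivity
  have p3 : 0 < 4 / D.l * ε := by positivity
  have hKuz : Ku * ε ≤ a := by nlinarith
  have hKcz : Kc * ε ≤ a := by nlinarith
  have hKcw : Kc * ε ≤ b := by nlinarith
  have hla4 : 4 * ε ≤ D.l * a := by
    have h1 : 4 / D.l * ε ≤ a := by nlinarith
    rw [div_mul_eq_mul_div, div_le_iff₀ hl] at h1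
    linarith
  have hlb4 : 4 * ε ≤ D.l * b := by
    have h1 : 4 / D.l * ε ≤ b := by nlinarith
    rw [div_mul_eq_mul_div, div_le_iff₀ hl] at h1
    linarith
  have ha0 : 0 < a := by linarith
  have hb0 : 0 < b := by linarith
  have hε0 : ε ≤ D.ε0 := hεε.trans hε10
  have hTD := (D.gd ε hε hε0).1
  have hKP := PD_nonneg f ε {y} (near f ε θ1 θ2)
  have hLG0 : 0 ≤ LG ε a m d := by unfold LG; positivity
  have hLGe := LG_eq hε ha0 hm hd
  have hnx : ∀ v ∈ near f ε θ1 θ2, e0 * d ≤ ‖pos ε v - pos ε x‖ := by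
    intro v hv
    have h1 := near_dist D (A := max (d / 4) a) hz hfz (fun t h1 h2 => max_le (by
      have := hcz t h1 h2
      linarith) (le_cir t)) (hla4.trans (mul_le_mul_of_nonneg_left (le_max_right _ _) hl.le)) hv
    refine le_trans ?_ h1
    calc e0 * d ≤ D.l / 8 * d := mul_le_mul_of_nonneg_right he0l hd.le
      _ = D.l / 2 * (d / 4) := by ring
      _ ≤ _ := mul_le_mul_of_nonneg_left (le_max_left _ _) (by positivity)
  have hny : ∀ v ∈ near f ε θ1 θ2, e0 * d ≤ ‖pos ε v - pos ε y‖ := by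
    intro v hv
    have h1 := near_dist D (A := max (d / 4) b) hw hfw (fun t h1 h2 => max_le (by
      have := hcw t h1 h2
      linarith) (le_cir t)) (hlb4.trans (mul_le_mul_of_nonneg_left (le_max_right _ _) hl.le)) hv
    refine le_trans ?_ h1
    calc e0 * d ≤ D.l / 8 * d := mul_le_mul_of_nonneg_right he0l hd.le
      _ = D.l / 2 * (d / 4) := by ring
      _ ≤ _ := mul_le_mul_of_nonneg_left (le_max_left _ _) (by positivity)
  constructor
  · rcases le_or_gt (36 * D.H * d) (D.l * b) with hc | hc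
    · -- close
      have h1 := hla ε x y z w (near f ε θ1 θ2) hε hε0 hz hw hfz hfw hxy hzw
        (by rw [hwz]; exact hc) (by rw [hwz]; exact hny)
      rw [hwz] at h1
      have hlH : D.l ≤ D.H := by
        have h2 := hlip.1.trans hlip.2
        exact le_of_mul_le_mul_right h2 hd
      have hda : 35 * d ≤ a := by
        have h2 : D.l * b ≤ D.H * b := mul_le_mul_of_nonneg_right hlH hb0.le
        have h3 : D.H * (36 * d) ≤ D.H * b := by linarith
        have h4 := le_of_mul_le_mul_left h3 hH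
        linarith
      have h2 : (m / a) ^ (5 / 48 : ℝ) ≤ 3 := by
        calc (m / a) ^ (5 / 48 : ℝ) ≤ 3 ^ (5 / 48 : ℝ) := by
              apply Real.rpow_le_rpow (by positivity) _ (by norm_num)
              rw [div_le_iff₀ ha0]
              linarith
          _ ≤ 3 ^ (1 : ℝ) := Real.rpow_le_rpow_of_exponent_le (by norm_num) (by norm_num)
          _ = 3 := Real.rpow_one _
      have h3 : (a / m) ^ (1 / 3 : ℝ) ≤ 1 :=
        Real.rpow_le_one (by positivity) (by rw [div_le_one hm]; exact ham) (by norm_num)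
      have h4 : LG ε a m d ≤ (ε / d) ^ (5 / 48 : ℝ) * 3 := by
        rw [hLGe]
        apply mul_le_mul_of_nonneg_left _ (by positivity)
        calc (m / a) ^ (5 / 48 : ℝ) * (a / m) ^ (1 / 3 : ℝ) ≤ 3 * 1 :=
              mul_le_mul h2 h3 (by positivity) (by norm_num)
          _ = 3 := by ring
      refine le_trans ?_ h1
      apply mul_le_mul_of_nonneg_right _ hKP
      calc _ ≤ ca / 3 * ((ε / d) ^ (5 / 48 : ℝ) * 3) :=
            mul_le_mul (min_le_left _ _) h4 hLG0 (by positivity)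
        _ = _ := by ring
    · -- separated
      have hmΛ : m ≤ Λ * d := by
        have h2 : b ≤ 36 * D.H / D.l * d := by
          rw [div_mul_eq_mul_div, le_div_iff₀ hl]
          linarith
        rw [hΛ]
        have h3 : (1 + 72 * D.H / D.l) * d = d + 2 * (36 * D.H / D.l * d) := by ring
        rw [h3]
        linarith
      have h1 := hlb ε m x y z w (near f ε θ1 θ2) hε hεε hz hw hfz hfw hKcz hKcw ham hbm hdm hmle
        (by
          intro v hv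
          refine le_trans ?_ (hny v hv)
          rw [div_mul_eq_mul_div, div_le_iff₀ hΛ0]
          calc e0 * m ≤ e0 * (Λ * d) := mul_le_mul_of_nonneg_left hmΛ he00.le
            _ = _ := by ring)
      have h4 : LG ε a m d ≤ Λ ^ (5 / 48 : ℝ) * ((ε / a) ^ (5 / 48 : ℝ) * (a / m) ^ (1 / 3 : ℝ)) := by
        unfold LG
        have h5 : (m / d) ^ (5 / 48 : ℝ) ≤ Λ ^ (5 / 48 : ℝ) := by
          apply Real.rpow_le_rpow (by positivity) _ (by norm_num)
          rw [div_le_iff₀ hd]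
          exact hmΛ
        calc (ε / a) ^ (5 / 48 : ℝ) * (m / d) ^ (5 / 48 : ℝ) * (a / m) ^ (1 / 3 : ℝ) ≤
            (ε / a) ^ (5 / 48 : ℝ) * Λ ^ (5 / 48 : ℝ) * (a / m) ^ (1 / 3 : ℝ) := by
              apply mul_le_mul_of_nonneg_right _ (by positivity)
              exact mul_le_mul_of_nonneg_left h5 (by positivity)
          _ = _ := by ring
      refine le_trans ?_ h1
      apply mul_le_mul_of_nonneg_right _ hKP
      have hΛp : 0 < Λ ^ (5 / 48 : ℝ) := by positivity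
      calc _ ≤ cb / Λ ^ (5 / 48 : ℝ) * (Λ ^ (5 / 48 : ℝ) * ((ε / a) ^ (5 / 48 : ℝ) *
            (a / m) ^ (1 / 3 : ℝ))) := mul_le_mul (min_le_right _ _) h4 hLG0 (by positivity)
        _ = _ := by
            rw [← mul_assoc, div_mul_cancel₀ _ hΛp.ne']
  · refine hup ε d m x z {y} (near f ε θ1 θ2) hε hε0 hz hfz hKuz hd hd2 hdm ham hm1 ?_ ?_
    · rintro v (hv | hv)
      · rw [Set.mem_singleton_iff] at hv
        rw [hv]
        refine (hTD y).mpr ?_
        rw [← hfw]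
        exact ⟨_, disc_of hw.le, rfl⟩
      · exact hv.1
    · rintro v (hv | hv)
      · rw [Set.mem_singleton_iff] at hv
        rw [hv, norm_sub_rev]
        refine le_trans ?_ hlip.1
        apply mul_le_mul_of_nonneg_right _ hd.le
        linarith
      · exact hnx v hv

/-- **A small arc next to one of the points.** -/
theorem t_two (D : Dom f) : ∃ κ1 c C K0 ε1 : ℝ, 0 < κ1 ∧ κ1 ≤ 1 ∧ 0 < c ∧ 0 < C ∧ 1 ≤ K0 ∧
    0 < ε1 ∧ ε1 ≤ D.ε0 ∧
    ∀ (ε θ1 θ2 t0 : ℝ) (x y : Vtx) (z w : ℂ), 0 < ε → ε ≤ ε1 → ‖z‖ < 1 → ‖w‖ < 1 →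
    f z = pos ε x → f w = pos ε y → K0 * ε ≤ 1 - ‖z‖ → ε ≤ θ2 - θ1 → θ1 ≤ t0 → t0 ≤ θ2 →
    (∀ t, θ1 ≤ t → t ≤ θ2 → ‖z - cir t0‖ ≤ ‖z - cir t‖) → 4 * ‖z - cir t0‖ ≤ ‖z - w‖ →
    θ2 - θ1 ≤ κ1 * ‖z - cir t0‖ →
    c * ((ε / (1 - ‖z‖)) ^ (5 / 48 : ℝ) * ((1 - ‖z‖) / ‖z - cir t0‖) ^ (1 / 3 : ℝ)) *
      PD f ε {y} (near f ε θ1 θ2) ≤ PT f ε x {y} (near f ε θ1 θ2) ∧
    PT f ε x {y} (near f ε θ1 θ2) ≤
      C * ((ε / (1 - ‖z‖)) ^ (5 / 48 : ℝ) * ((1 - ‖z‖) / ‖z - cir t0‖) ^ (1 / 3 : ℝ)) *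
      PD f ε {y} (near f ε θ1 θ2) := by
  have hH := D.hH
  have hl := D.hl
  obtain ⟨e0, he0⟩ : ∃ e0 : ℝ, e0 = min (D.l / 2) 1 := ⟨_, rfl⟩
  have he00 : 0 < e0 := by rw [he0]; exact lt_min (by positivity) one_pos
  have he01 : e0 ≤ 1 := by rw [he0]; exact min_le_right _ _
  have he0l : e0 ≤ D.l / 2 := by rw [he0]; exact min_le_left _ _
  obtain ⟨Cu, Ku, hCu, hKu, hup⟩ := tup D he00 he01
  obtain ⟨κ1, c, Kc, ε1, hκ1, hκ11, hc, hKc, hε1, hε10, hlow⟩ := tlow_arc D he00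
  refine ⟨κ1, c, Cu, Ku + Kc + 4 / D.l, ε1, hκ1, hκ11, hc, hCu, by
      have : 0 < 4 / D.l := by positivity
      linarith, hε1, hε10, ?_⟩
  intro ε θ1 θ2 t0 x y z w hε hεε hz hw hfz hfw hKz hℓ ht1 ht2 hmin hdx hκ
  have hz0 := norm_nonneg z
  have hlip := D.lip z (disc_of hz.le) w (disc_of hw.le)
  have hlip2 := D.lip w (disc_of hw.le) (cir t0) (disc_of (ARM1.norm_cir t0).le)
  rw [hfw] at hlip2
  rw [hfz, hfw] at hlip
  have haA := le_cir (z := z) t0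
  have hA2 : ‖z - cir t0‖ ≤ 2 := by
    refine (norm_sub_le _ _).trans ?_
    rw [ARM1.norm_cir]
    linarith
  have hwA : ‖z - w‖ - ‖z - cir t0‖ ≤ ‖w - cir t0‖ := by
    have h1 := norm_sub_le_norm_sub_add_norm_sub z (cir t0) w
    rw [norm_sub_rev (cir t0) w] at h1
    linarith
  set a := 1 - ‖z‖ with ha
  set A := ‖z - cir t0‖ with hA
  have p1 : 0 < Ku * ε := by positivity
  have p2 : 0 < Kc * ε := by positivity
  have p3 : 0 < 4 / D.l * ε := by positivity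
  have hKuz : Ku * ε ≤ a := by nlinarith
  have hKcz : Kc * ε ≤ a := by nlinarith
  have hla4 : 4 * ε ≤ D.l * a := by
    have h1 : 4 / D.l * ε ≤ a := by nlinarith
    rw [div_mul_eq_mul_div, div_le_iff₀ hl] at h1
    linarith
  have ha0 : 0 < a := by linarith
  have hA0 : 0 < A := ha0.trans_le haA
  have hε0 : ε ≤ D.ε0 := hεε.trans hε10
  have hTD := (D.gd ε hε hε0).1
  constructor
  · rw [PT_swap, PD_swap]
    refine hlow ε x z θ1 θ2 t0 {y} hε hεε hz hfz hKcz hℓ ht1 ht2 hκ ?_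
    intro v hv
    rw [Set.mem_singleton_iff] at hv
    rw [hv]
    refine le_trans ?_ hlip2.1
    calc e0 * A ≤ D.l / 2 * A := mul_le_mul_of_nonneg_right he0l hA0.le
      _ ≤ D.l * ‖w - cir t0‖ := by nlinarith
  · have h1 := hup ε A A x z {y} (near f ε θ1 θ2) hε hε0 hz hfz hKuz hA0 hA2 le_rfl haA
      (by linarith) (by
      rintro v (hv | hv)
      · rw [Set.mem_singleton_iff] at hv
        rw [hv]
        refine (hTD y).mpr ?_
        rw [← hfw]
        exact ⟨_, disc_of hw.le, rfl⟩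
      · exact hv.1) (by
      rintro v (hv | hv)
      · rw [Set.mem_singleton_iff] at hv
        rw [hv, norm_sub_rev]
        refine le_trans ?_ hlip.1
        calc e0 * A ≤ D.l / 2 * A := mul_le_mul_of_nonneg_right he0l hA0.le
          _ ≤ D.l * ‖z - w‖ := by nlinarith
      · refine le_trans ?_ (near_dist D (A := A) hz hfz hmin
          (hla4.trans (mul_le_mul_of_nonneg_left haA hl.le)) hv)
        exact mul_le_mul_of_nonneg_right he0l hA0.le)
    have h2 : LG ε a A A = (ε / a) ^ (5 / 48 : ℝ) * (a / A) ^ (1 / 3 : ℝ) := by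
      unfold LG
      rw [div_self hA0.ne', Real.one_rpow, mul_one]
    rw [h2] at h1
    exact h1

end Run7.h663.PA
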