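import Pool.Agent.Run7.h663.PA.KMain

/-!
Two interior points and a boundary arc: the comparison of the expressions.
-/

set_option autoImplicit false

namespace Run7.h663.PA

/-- the expression of one point and the arc -/
noncomputable def AA (ε a ℓ A : ℝ) : ℝ :=
  (ε / a) ^ (5 / 48 : ℝ) * (a * min ℓ A / A ^ 2) ^ (1 / 3 : ℝ)

theorem three_cbrt {u v w : ℝ} (hu : 0 ≤ u) (hv : 0 ≤ v) (hw : 0 ≤ w) :
    u ^ (1 / 3 : ℝ) * v ^ (1 / 3 : ℝ) * w ^ (1 / 3 : ℝ) = (u * v * w) ^ (1 / 3 : ℝ) := by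
  rw [Real.mul_rpow (by positivity) hw, Real.mul_rpow hu hv]

theorem LG_sq {ε a m d : ℝ} (hm : 0 < m) (hd : 0 < d) :
    LG ε a m d ^ 2 = ((ε / a) ^ (5 / 48 : ℝ) * (ε / a) ^ (5 / 48 : ℝ)) *
      (m / d) ^ (5 / 24 : ℝ) * ((a / m) ^ (1 / 3 : ℝ) * (a / m) ^ (1 / 3 : ℝ)) := by
  unfold LG
  rw [← two48 (show 0 < m / d by positivity)]
  ring

theorem mu_cmp {ℓ A A' q : ℝ} (hℓ : 0 < ℓ) (hA : 0 < A) (hA' : 0 < A') (hq : 1 ≤ q)
    (h1 : A ≤ q * A') (h2 : A' ≤ q * A) : min ℓ A / A ^ 2 ≤ q ^ 3 * (min ℓ A' / A' ^ 2) := by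
  have hq0 : 0 < q := by linarith
  have h3 : min ℓ A ≤ q * min ℓ A' := by
    rcases min_choice ℓ A' with h | h <;> rw [h]
    · exact (min_le_left _ _).trans (by nlinarith)
    · exact (min_le_right _ _).trans h1
  rw [mul_div_assoc', div_le_div_iff₀ (by positivity) (by positivity)]
  have h4 : A' ^ 2 ≤ q ^ 2 * A ^ 2 := by
    calc A' ^ 2 ≤ (q * A) ^ 2 := pow_le_pow_left₀ hA'.le h2 2
      _ = _ := by ring
  have h5 : 0 < min ℓ A' := lt_min hℓ hA'
  calc min ℓ A * A' ^ 2 ≤ (q * min ℓ A') * (q ^ 2 * A ^ 2) :=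
        mul_le_mul h3 h4 (by positivity) (by positivity)
    _ = _ := by ring

/-- **The points are close to one another.** -/
theorem num_one {ε a b m d ℓ A B q : ℝ} (hε : 0 < ε) (ha : 0 < a) (hb : 0 < b) (hm : 0 < m)
    (hd : 0 < d) (hℓ : 0 < ℓ) (hA : 0 < A) (hB : 0 < B) (hq : 1 ≤ q) (h1 : A ≤ q * B)
    (h2 : B ≤ q * A) :
    LG ε a m d ^ 2 * AA ε b ℓ B ≤ (q ^ 3) ^ (1 / 3 : ℝ) * (GG ε a b m d * AA ε a ℓ A) ∧
    GG ε a b m d * AA ε a ℓ A ≤ (q ^ 3) ^ (1 / 3 : ℝ) * (LG ε a m d ^ 2 * AA ε b ℓ B) := by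
  have hμ1 := mu_cmp hℓ hA hB hq h1 h2
  have hμ2 := mu_cmp hℓ hB hA hq h2 h1
  have hmA : 0 < min ℓ A := lt_min hℓ hA
  have hmB : 0 < min ℓ B := lt_min hℓ hB
  obtain ⟨P, hP⟩ : ∃ P : ℝ, P = (ε / a) ^ (5 / 48 : ℝ) * (ε / a) ^ (5 / 48 : ℝ) *
      (ε / b) ^ (5 / 48 : ℝ) * (m / d) ^ (5 / 24 : ℝ) := ⟨_, rfl⟩
  have hP0 : 0 ≤ P := by rw [hP]; positivity
  have e1 : LG ε a m d ^ 2 * AA ε b ℓ B = P * (a / m * (a / m) * (b * min ℓ B / B ^ 2)) ^
      (1 / 3 : ℝ) := by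
    rw [LG_sq hm hd, ← three_cbrt (by positivity) (by positivity) (by positivity), hP]
    unfold AA
    ring
  have e2 : GG ε a b m d * AA ε a ℓ A = P * (a / m * (b / m) * (a * min ℓ A / A ^ 2)) ^
      (1 / 3 : ℝ) := by
    rw [← three_cbrt (by positivity) (by positivity) (by positivity), hP]
    unfold AA GG
    ring
  rw [e1, e2]
  have hk : 0 ≤ a * a * b / (m * m) := by positivity
  constructor
  · have h3 := rp (X := a / m * (a / m) * (b * min ℓ B / B ^ 2)) (c := q ^ 3)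
      (Y := a / m * (b / m) * (a * min ℓ A / A ^ 2)) (p := 1 / 3) (by positivity) (by positivity)
      (by positivity) (by norm_num) (by
        have h4 := mul_le_mul_of_nonneg_left hμ2 hk
        calc _ = a * a * b / (m * m) * (min ℓ B / B ^ 2) := by field_simp
          _ ≤ _ := h4
          _ = _ := by field_simp)
    calc _ ≤ P * ((q ^ 3) ^ (1 / 3 : ℝ) * (a / m * (b / m) * (a * min ℓ A / A ^ 2)) ^
          (1 / 3 : ℝ)) := mul_le_mul_of_nonneg_left h3 hP0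
      _ = _ := by ring
  · have h3 := rp (X := a / m * (b / m) * (a * min ℓ A / A ^ 2)) (c := q ^ 3)
      (Y := a / m * (a / m) * (b * min ℓ B / B ^ 2)) (p := 1 / 3) (by positivity) (by positivity)
      (by positivity) (by norm_num) (by
        have h4 := mul_le_mul_of_nonneg_left hμ1 hk
        calc _ = a * a * b / (m * m) * (min ℓ A / A ^ 2) := by field_simp
          _ ≤ _ := h4
          _ = _ := by field_simp)
    calc _ ≤ P * ((q ^ 3) ^ (1 / 3 : ℝ) * (a / m * (a / m) * (b * min ℓ B / B ^ 2)) ^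
          (1 / 3 : ℝ)) := mul_le_mul_of_nonneg_left h3 hP0
      _ = _ := by ring

/-- **A small arc next to one of the points.** -/
theorem num_two {ε a b m d ℓ A B : ℝ} (hε : 0 < ε) (ha : 0 < a) (hb : 0 < b)
    (hd : 0 < d) (hℓ : 0 < ℓ) (hA : 0 < A) (hℓA : ℓ ≤ A) (hℓB : ℓ ≤ B) (hdm : d ≤ m)
    (hmd : m ≤ 3 / 2 * d) (h1 : d ≤ 2 * B) (h2 : B ≤ 5 / 4 * d) :
    ((ε / a) ^ (5 / 48 : ℝ) * (a / A) ^ (1 / 3 : ℝ)) ^ 2 * AA ε b ℓ B ≤
      9 ^ (1 / 3 : ℝ) * (GG ε a b m d * AA ε a ℓ A) ∧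
    GG ε a b m d * AA ε a ℓ A ≤ (3 / 2) ^ (5 / 24 : ℝ) * 9 ^ (1 / 3 : ℝ) *
      (((ε / a) ^ (5 / 48 : ℝ) * (a / A) ^ (1 / 3 : ℝ)) ^ 2 * AA ε b ℓ B) := by
  have hm : 0 < m := hd.trans_le hdm
  have hB : 0 < B := by linarith
  obtain ⟨P, hP⟩ : ∃ P : ℝ, P = (ε / a) ^ (5 / 48 : ℝ) * (ε / a) ^ (5 / 48 : ℝ) *
      (ε / b) ^ (5 / 48 : ℝ) := ⟨_, rfl⟩
  have hP0 : 0 ≤ P := by rw [hP]; positivity
  have e1 : ((ε / a) ^ (5 / 48 : ℝ) * (a / A) ^ (1 / 3 : ℝ)) ^ 2 * AA ε b ℓ B =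
      P * (a / A * (a / A) * (b * ℓ / B ^ 2)) ^ (1 / 3 : ℝ) := by
    rw [← three_cbrt (by positivity) (by positivity) (by positivity), hP]
    unfold AA
    rw [min_eq_left hℓB]
    ring
  have e2 : GG ε a b m d * AA ε a ℓ A = P * (m / d) ^ (5 / 24 : ℝ) *
      (a / m * (b / m) * (a * ℓ / A ^ 2)) ^ (1 / 3 : ℝ) := by
    rw [← three_cbrt (by positivity) (by positivity) (by positivity), hP]
    unfold AA GG
    rw [min_eq_left hℓA]
    ring
  have f1 : 1 ≤ (m / d) ^ (5 / 24 : ℝ) := by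
    apply Real.one_le_rpow _ (by norm_num)
    rwa [one_le_div hd]
  have f2 : (m / d) ^ (5 / 24 : ℝ) ≤ (3 / 2) ^ (5 / 24 : ℝ) := by
    apply Real.rpow_le_rpow (by positivity) _ (by norm_num)
    rwa [div_le_iff₀ hd]
  have hk : 0 < a * a * b * ℓ / (A * A) := by positivity
  have hmB : m ^ 2 ≤ 9 * B ^ 2 := by
    calc m ^ 2 ≤ (3 * B) ^ 2 := pow_le_pow_left₀ hm.le (by linarith) 2
      _ = _ := by ring
  have hBm : B ^ 2 ≤ 9 * m ^ 2 := by
    calc B ^ 2 ≤ (3 * m) ^ 2 := pow_le_pow_left₀ hB.le (by linarith) 2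
      _ = _ := by ring
  rw [e1, e2]
  constructor
  · have h3 := rp (X := a / A * (a / A) * (b * ℓ / B ^ 2)) (c := 9)
      (Y := a / m * (b / m) * (a * ℓ / A ^ 2)) (p := 1 / 3) (by positivity) (by positivity)
      (by positivity) (by norm_num) (by
        have h4 : 1 / B ^ 2 ≤ 9 * (1 / m ^ 2) := by
          rw [mul_one_div, div_le_div_iff₀ (by positivity) (by positivity), one_mul]
          exact hmB
        have h5 := mul_le_mul_of_nonneg_left h4 hk.le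
        calc _ = a * a * b * ℓ / (A * A) * (1 / B ^ 2) := by field_simp
          _ ≤ _ := h5
          _ = _ := by field_simp)
    calc _ ≤ P * (9 ^ (1 / 3 : ℝ) * (a / m * (b / m) * (a * ℓ / A ^ 2)) ^ (1 / 3 : ℝ)) :=
          mul_le_mul_of_nonneg_left h3 hP0
      _ = 9 ^ (1 / 3 : ℝ) * (P * 1 * (a / m * (b / m) * (a * ℓ / A ^ 2)) ^ (1 / 3 : ℝ)) := by
          ring
      _ ≤ _ := by
          apply mul_le_mul_of_nonneg_left _ (by positivity)
          apply mul_le_mul_of_nonneg_right _ (by positivity)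
          exact mul_le_mul_of_nonneg_left f1 hP0
  · have h3 := rp (X := a / m * (b / m) * (a * ℓ / A ^ 2)) (c := 9)
      (Y := a / A * (a / A) * (b * ℓ / B ^ 2)) (p := 1 / 3) (by positivity) (by positivity)
      (by positivity) (by norm_num) (by
        have h4 : 1 / m ^ 2 ≤ 9 * (1 / B ^ 2) := by
          rw [mul_one_div, div_le_div_iff₀ (by positivity) (by positivity), one_mul]
          exact hBm
        have h5 := mul_le_mul_of_nonneg_left h4 hk.le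
        calc _ = a * a * b * ℓ / (A * A) * (1 / m ^ 2) := by field_simp
          _ ≤ _ := h5
          _ = _ := by field_simp)
    calc _ ≤ P * (3 / 2) ^ (5 / 24 : ℝ) * (9 ^ (1 / 3 : ℝ) *
          (a / A * (a / A) * (b * ℓ / B ^ 2)) ^ (1 / 3 : ℝ)) :=
          mul_le_mul (mul_le_mul_of_nonneg_left f2 hP0) h3 (by positivity) (by positivity)
      _ = _ := by ring

/-- **A long arc next to one of the points.** -/
theorem num_three {ε a b m d ℓ A B κ : ℝ} (hε : 0 < ε) (ha : 0 < a) (hb : 0 < b)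
    (hd : 0 < d) (hℓ : 0 < ℓ) (hA : 0 < A) (hB : 0 < B) (hκ : 0 < κ) (hκ1 : κ ≤ 1)
    (hκA : κ * A ≤ ℓ) (hdm : d ≤ m) (hmd : m ≤ 3 / 2 * d) (h1 : 4 * A ≤ d)
    (h2 : B ≤ 5 / 4 * d) :
    GG ε a b m d ≤ (3 / 2) ^ (5 / 24 : ℝ) * (2 / κ ^ 2) ^ (1 / 3 : ℝ) *
      (AA ε a ℓ A * AA ε b ℓ B) := by
  have hm : 0 < m := hd.trans_le hdm
  have f2 : (m / d) ^ (5 / 24 : ℝ) ≤ (3 / 2) ^ (5 / 24 : ℝ) := by
    apply Real.rpow_le_rpow (by positivity) _ (by norm_num)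
    rwa [div_le_iff₀ hd]
  have hmA : κ * A ≤ min ℓ A := le_min hκA (by nlinarith)
  have hmA0 : 0 < min ℓ A := lt_min hℓ hA
  have hmB0 : 0 < min ℓ B := lt_min hℓ hB
  have hkey : κ * (A * B ^ 2) ≤ 2 * (d ^ 2 * min ℓ B) := by
    rcases min_choice ℓ B with h | h
    · rw [h]
      have h3 : B ^ 2 ≤ 2 * d ^ 2 := by
        calc B ^ 2 ≤ (5 / 4 * d) ^ 2 := pow_le_pow_left₀ hB.le h2 2
          _ = 25 / 16 * d ^ 2 := by ring
          _ ≤ _ := by nlinarith [sq_nonneg d]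
      calc κ * (A * B ^ 2) = (κ * A) * B ^ 2 := by ring
        _ ≤ ℓ * (2 * d ^ 2) := mul_le_mul hκA h3 (by positivity) hℓ.le
        _ = _ := by ring
    · rw [h]
      have h3 : A * B ≤ (1 / 4 * d) * (5 / 4 * d) :=
        mul_le_mul (by linarith) h2 hB.le (by positivity)
      have h4 : κ * (A * B) ≤ 1 * (A * B) := mul_le_mul_of_nonneg_right hκ1 (by positivity)
      have h5 : κ * (A * B) ≤ 2 * d ^ 2 := by nlinarith [sq_nonneg d]
      calc κ * (A * B ^ 2) = κ * (A * B) * B := by ring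
        _ ≤ 2 * d ^ 2 * B := mul_le_mul_of_nonneg_right h5 hB.le
        _ = _ := by ring
  have h3 := rp (X := a / m * (b / m)) (c := 2 / κ ^ 2)
    (Y := (a * min ℓ A / A ^ 2) * (b * min ℓ B / B ^ 2)) (p := 1 / 3) (by positivity)
    (by positivity) (by positivity) (by norm_num) (by
      have h4 : κ / A ≤ min ℓ A / A ^ 2 := by
        rw [div_le_div_iff₀ hA (by positivity)]
        nlinarith
      have h5 : κ * A / (2 * d ^ 2) ≤ min ℓ B / B ^ 2 := by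
        rw [div_le_div_iff₀ (by positivity) (by positivity)]
        linarith
      have h6 := mul_le_mul h4 h5 (by positivity) (by positivity)
      have h7 : κ / A * (κ * A / (2 * d ^ 2)) = κ ^ 2 / 2 * (1 / d ^ 2) := by
        field_simp
      rw [h7] at h6
      have h8 : 1 / m ^ 2 ≤ 1 / d ^ 2 :=
        one_div_le_one_div_of_le (by positivity) (pow_le_pow_left₀ hd.le hdm 2)
      have h9 : κ ^ 2 / 2 * (1 / m ^ 2) ≤ min ℓ A / A ^ 2 * (min ℓ B / B ^ 2) :=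
        (mul_le_mul_of_nonneg_left h8 (by positivity)).trans h6
      have h10 := mul_le_mul_of_nonneg_left h9 (show 0 ≤ 2 / κ ^ 2 * (a * b) by positivity)
      calc a / m * (b / m) = 2 / κ ^ 2 * (a * b) * (κ ^ 2 / 2 * (1 / m ^ 2)) := by field_simp
        _ ≤ _ := h10
        _ = _ := by field_simp)
  rw [Real.mul_rpow (x := a / m) (by positivity) (by positivity),
    Real.mul_rpow (x := a * min ℓ A / A ^ 2) (by positivity) (by positivity)] at h3
  unfold GG AA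
  calc _ ≤ (ε / a) ^ (5 / 48 : ℝ) * (ε / b) ^ (5 / 48 : ℝ) * ((3 / 2) ^ (5 / 24 : ℝ) *
        ((2 / κ ^ 2) ^ (1 / 3 : ℝ) * ((a * min ℓ A / A ^ 2) ^ (1 / 3 : ℝ) *
          (b * min ℓ B / B ^ 2) ^ (1 / 3 : ℝ)))) := by
        apply mul_le_mul_of_nonneg_left _ (by positivity)
        exact mul_le_mul f2 h3 (by positivity) (by positivity)
    _ = _ := by ring

/-- the square root -/
theorem sq_cmp {L G βx βy P A B c C k : ℝ} (hL : 0 ≤ L) (hG : 0 ≤ G) (hβx : 0 ≤ βx)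
    (hc : 0 < c) (hC : 0 < C) (hk : 0 < k) (h1 : L ^ 2 * βy ≤ k * (G * βx))
    (h2 : G * βx ≤ k * (L ^ 2 * βy)) (hP1 : c * G ≤ P) (hP2 : P ≤ C * G) (hA1 : c * βx ≤ A)
    (hA2 : A ≤ C * βx) (hB1 : c * βy ≤ B) (hB2 : B ≤ C * βy) (hB : 0 ≤ B) :
    L * B ≤ √(C * k / c ^ 2) * √(P * A * B) ∧ √(P * A * B) ≤ √(C ^ 2 * k / c) * (L * B) := by
  have hP : 0 ≤ P := le_trans (by positivity) hP1
  have hA : 0 ≤ A := le_trans (by positivity) hA1
  constructor
  · rw [← Real.sqrt_mul (by positivity)]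
    apply Real.le_sqrt_of_sq_le
    rw [div_mul_eq_mul_div, le_div_iff₀ (by positivity)]
    have h3 : L ^ 2 * B ≤ C * (k * (G * βx)) := by
      calc L ^ 2 * B ≤ L ^ 2 * (C * βy) := mul_le_mul_of_nonneg_left hB2 (sq_nonneg L)
        _ = C * (L ^ 2 * βy) := by ring
        _ ≤ _ := mul_le_mul_of_nonneg_left h1 hC.le
    have h4 : c ^ 2 * (G * βx) ≤ P * A := by
      calc c ^ 2 * (G * βx) = c * G * (c * βx) := by ring
        _ ≤ _ := mul_le_mul hP1 hA1 (by positivity) hP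
    calc (L * B) ^ 2 * c ^ 2 = (L ^ 2 * B) * B * c ^ 2 := by ring
      _ ≤ C * (k * (G * βx)) * B * c ^ 2 := by
          apply mul_le_mul_of_nonneg_right _ (by positivity)
          exact mul_le_mul_of_nonneg_right h3 hB
      _ = C * k * B * (c ^ 2 * (G * βx)) := by ring
      _ ≤ C * k * B * (P * A) := mul_le_mul_of_nonneg_left h4 (by positivity)
      _ = _ := by ring
  · have h0 : √(C ^ 2 * k / c) * (L * B) = √(C ^ 2 * k / c * (L * B) ^ 2) := by
      rw [Real.sqrt_mul (by positivity), Real.sqrt_sq (by positivity)]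
    rw [h0]
    apply Real.sqrt_le_sqrt
    have h3 : P * A ≤ C ^ 2 * (k * (L ^ 2 * βy)) := by
      calc P * A ≤ C * G * (C * βx) := mul_le_mul hP2 hA2 hA (by positivity)
        _ = C ^ 2 * (G * βx) := by ring
        _ ≤ _ := mul_le_mul_of_nonneg_left h2 (by positivity)
    have h4 : βy ≤ B / c := by
      rw [le_div_iff₀ hc]
      linarith
    calc P * A * B ≤ C ^ 2 * (k * (L ^ 2 * βy)) * B := mul_le_mul_of_nonneg_right h3 hB
      _ ≤ C ^ 2 * (k * (L ^ 2 * (B / c))) * B := by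
          apply mul_le_mul_of_nonneg_right _ hB
          apply mul_le_mul_of_nonneg_left _ (by positivity)
          apply mul_le_mul_of_nonneg_left _ hk.le
          exact mul_le_mul_of_nonneg_left h4 (sq_nonneg L)
      _ = _ := by
          field_simp

/-- the square root, when the arc is long -/
theorem sq_cmp' {P A B C : ℝ} (hP : 0 ≤ P) (hA : 0 ≤ A) (hB : 0 ≤ B) (hC : 0 < C)
    (h : P ≤ C * (A * B)) : P ≤ √C * √(P * A * B) ∧ √(P * A * B) ≤ √C * (A * B) := by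
  constructor
  · rw [← Real.sqrt_mul hC.le]
    apply Real.le_sqrt_of_sq_le
    calc P ^ 2 = P * P := by ring
      _ ≤ P * (C * (A * B)) := mul_le_mul_of_nonneg_left h hP
      _ = _ := by ring
  · have h0 : √C * (A * B) = √(C * (A * B) ^ 2) := by
      rw [Real.sqrt_mul hC.le, Real.sqrt_sq (by positivity)]
    rw [h0]
    apply Real.sqrt_le_sqrt
    calc P * A * B = P * (A * B) := by ring
      _ ≤ C * (A * B) * (A * B) := mul_le_mul_of_nonneg_right h (by positivity)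
      _ = _ := by ring

end Run7.h663.PA
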