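import Pool.Agent.Run7.h663.PA.TCase
import Pool.Agent.Run7.h663.PA.TNum
import Pool.Agent.Run7.h663.PA.KFin

/-!
Two interior points and a boundary arc: the assembly.
-/

set_option autoImplicit false

namespace Run7.h663.PA

open H974 hiding Blk okhalf
open H973 hiding okhalf
open Finset
open Pool.Agent.Y989.SD
open Pool.Agent.H160R2.CV (nv P ar Far)

variable {f : ℂ → ℂ}

/-- **The arc next to one of the points.** -/
theorem t_side (D : Dom f) {c C : ℝ} (hc : 0 < c) (hC : 0 < C) : ∃ c' C' K0 ε1 : ℝ, 0 < c' ∧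
    0 < C' ∧ 1 ≤ K0 ∧ 0 < ε1 ∧ ε1 ≤ D.ε0 ∧
    ∀ (ε θ1 θ2 tx ty : ℝ) (x y : Vtx) (z w : ℂ), 0 < ε → ε ≤ ε1 → ‖z‖ < 1 → ‖w‖ < 1 →
    f z = pos ε x → f w = pos ε y → z ≠ w → K0 * ε ≤ 1 - ‖z‖ → ε ≤ θ2 - θ1 → θ1 ≤ tx →
    tx ≤ θ2 → θ1 ≤ ty → ty ≤ θ2 → (∀ t, θ1 ≤ t → t ≤ θ2 → ‖z - cir tx‖ ≤ ‖z - cir t‖) →
    (∀ t, θ1 ≤ t → t ≤ θ2 → ‖w - cir ty‖ ≤ ‖w - cir t‖) → 4 * ‖z - cir tx‖ ≤ ‖z - w‖ →
    c * GG ε (1 - ‖z‖) (1 - ‖w‖) (mz z w) ‖z - w‖ ≤ PP f ε x y →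
    PP f ε x y ≤ C * GG ε (1 - ‖z‖) (1 - ‖w‖) (mz z w) ‖z - w‖ →
    c * AA ε (1 - ‖z‖) (θ2 - θ1) ‖z - cir tx‖ ≤ PD f ε {x} (near f ε θ1 θ2) →
    PD f ε {x} (near f ε θ1 θ2) ≤ C * AA ε (1 - ‖z‖) (θ2 - θ1) ‖z - cir tx‖ →
    c * AA ε (1 - ‖w‖) (θ2 - θ1) ‖w - cir ty‖ ≤ PD f ε {y} (near f ε θ1 θ2) →
    PD f ε {y} (near f ε θ1 θ2) ≤ C * AA ε (1 - ‖w‖) (θ2 - θ1) ‖w - cir ty‖ →
    PT f ε x {y} (near f ε θ1 θ2) ≤ C' * √(PP f ε x y * PD f ε {x} (near f ε θ1 θ2) *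
      PD f ε {y} (near f ε θ1 θ2)) ∧
    (c' * √(PP f ε x y * PD f ε {x} (near f ε θ1 θ2) * PD f ε {y} (near f ε θ1 θ2)) ≤
      PT f ε x {y} (near f ε θ1 θ2) ∨ (c' * PP f ε x y ≤ PT f ε x {y} (near f ε θ1 θ2) ∧
      c' * √(PP f ε x y * PD f ε {x} (near f ε θ1 θ2) * PD f ε {y} (near f ε θ1 θ2)) ≤
      PD f ε {x} (near f ε θ1 θ2) * PD f ε {y} (near f ε θ1 θ2))) := by
  have hH := D.hH
  have hl := D.hl
  obtain ⟨κ, c1, C1, K1, ε1, hκ, hκ1, hc1, hC1, hK1, hε1, hε10, htwo⟩ := t_two D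
  obtain ⟨c2, K2, ε2, hc2, hK2, hε2, hε20, hsub⟩ := tlow_sub D hl hκ hκ1
  obtain ⟨k, hk⟩ : ∃ k : ℝ, k = (3 / 2) ^ (5 / 24 : ℝ) * 9 ^ (1 / 3 : ℝ) := ⟨_, rfl⟩
  have hk0 : 0 < k := by rw [hk]; positivity
  have hk9 : (9 : ℝ) ^ (1 / 3 : ℝ) ≤ k := by
    rw [hk]
    have h1 : (1 : ℝ) ≤ (3 / 2) ^ (5 / 24 : ℝ) := Real.one_le_rpow (by norm_num) (by norm_num)
    have h2 : (0 : ℝ) < 9 ^ (1 / 3 : ℝ) := by positivity
    nlinarith
  obtain ⟨k3, hk3⟩ : ∃ k3 : ℝ, k3 = C * ((3 / 2) ^ (5 / 24 : ℝ) * (2 / κ ^ 2) ^ (1 / 3 : ℝ)) /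
    c ^ 2 := ⟨_, rfl⟩
  have hk30 : 0 < k3 := by rw [hk3]; positivity
  obtain ⟨q1, hq1⟩ : ∃ q1 : ℝ, q1 = √(C * k / c ^ 2) := ⟨_, rfl⟩
  obtain ⟨q2, hq2⟩ : ∃ q2 : ℝ, q2 = √(C ^ 2 * k / c) := ⟨_, rfl⟩
  obtain ⟨q3, hq3⟩ : ∃ q3 : ℝ, q3 = √k3 := ⟨_, rfl⟩
  have hq10 : 0 < q1 := by rw [hq1]; exact Real.sqrt_pos.mpr (by positivity)
  have hq20 : 0 < q2 := by rw [hq2]; exact Real.sqrt_pos.mpr (by positivity)
  have hq30 : 0 < q3 := by rw [hq3]; exact Real.sqrt_pos.mpr hk30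
  refine ⟨min (c1 / q2) (min c2 (1 / q3)), C1 * q1 + q3, K1 + K2, min ε1 ε2,
    lt_min (by positivity) (lt_min hc2 (by positivity)), by positivity, by linarith,
    lt_min hε1 hε2, (min_le_left _ _).trans hε10, ?_⟩
  intro ε θ1 θ2 tx ty x y z w hε hεε hz hw hfz hfw hzw hKz hℓ hx1 hx2 hy1 hy2 hmx hmy h4 p1 p2
    a1 a2 b1 b2
  obtain ⟨hm, hdm, ham, hbm, hm1, hm2, -⟩ := F2_eq (ε := ε) (r := 1) (s := 1) hz hw hzw
  have hd : 0 < ‖z - w‖ := by rw [norm_pos_iff, sub_ne_zero]; exact hzw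
  have hK1z : K1 * ε ≤ 1 - ‖z‖ := by
    have : 0 < K2 * ε := by positivity
    nlinarith
  have hK2z : K2 * ε ≤ 1 - ‖z‖ := by
    have : 0 < K1 * ε := by positivity
    nlinarith
  have haA := le_cir (z := z) tx
  have hbB := le_cir (z := w) ty
  have ha0 : 0 < 1 - ‖z‖ := by linarith
  have hb0 : 0 < 1 - ‖w‖ := by linarith
  have hB1 : ‖w - cir ty‖ ≤ ‖z - w‖ + ‖z - cir tx‖ := by
    refine (hmy tx hx1 hx2).trans ?_
    have h5 : w - cir tx = -(z - w) + (z - cir tx) := by ring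
    rw [h5]
    refine (norm_add_le _ _).trans ?_
    rw [norm_neg]
  have hB2 : ‖z - w‖ - ‖z - cir tx‖ - (θ2 - θ1) ≤ ‖w - cir ty‖ := by
    have h5 : z - w = (z - cir tx) + (cir tx - cir ty) + -(w - cir ty) := by ring
    have h6 : ‖z - w‖ ≤ ‖z - cir tx‖ + ‖cir tx - cir ty‖ + ‖w - cir ty‖ := by
      rw [h5]
      refine (norm_add_le _ _).trans ?_
      rw [norm_neg]
      have := norm_add_le (z - cir tx) (cir tx - cir ty)
      linarith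
    have h7 : ‖cir tx - cir ty‖ ≤ θ2 - θ1 := by
      refine (ALO.cir_lip tx ty).trans ?_
      rw [abs_le]
      constructor <;> linarith
    linarith
  set a := 1 - ‖z‖ with ha
  set b := 1 - ‖w‖ with hb
  set d := ‖z - w‖ with hdd
  set m := mz z w with hmm
  set A := ‖z - cir tx‖ with hA
  set B := ‖w - cir ty‖ with hB
  set ℓ := θ2 - θ1 with hℓd
  have hA0 : 0 < A := ha0.trans_le haA
  have hB0 : 0 < B := hb0.trans_le hbB
  have hℓ0 : 0 < ℓ := hε.trans_le hℓ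
  have hmd : m ≤ 3 / 2 * d := by linarith
  set Px := PD f ε {x} (near f ε θ1 θ2) with hPx
  set Py := PD f ε {y} (near f ε θ1 θ2) with hPy
  set S := √(PP f ε x y * Px * Py) with hS
  have hS0 : 0 ≤ S := Real.sqrt_nonneg _
  have hPx0 : 0 ≤ Px := PD_nonneg _ _ _ _
  have hPy0 : 0 ≤ Py := PD_nonneg _ _ _ _
  have hP0 := PP_nonneg f ε x y
  have hT0 := PT_nonneg f ε x {y} (near f ε θ1 θ2)
  have hG0 : 0 ≤ GG ε a b m d := by unfold GG; positivity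
  have hmA : 0 < min ℓ A := lt_min hℓ0 hA0
  have hmB : 0 < min ℓ B := lt_min hℓ0 hB0
  have hAx0 : 0 ≤ AA ε a ℓ A := by unfold AA; positivity
  have hAy0 : 0 ≤ AA ε b ℓ B := by unfold AA; positivity
  rcases le_total ℓ (κ * A) with hcase | hcase
  · -- a small arc
    have hℓA : ℓ ≤ A := by nlinarith
    obtain ⟨t1, t2⟩ := htwo ε θ1 θ2 tx x y z w hε (hεε.trans (min_le_left _ _)) hz hw hfz hfw
      hK1z hℓ hx1 hx2 hmx h4 hcase
    obtain ⟨n1, n2⟩ := num_two (m := m) (B := B) hε ha0 hb0 hd hℓ0 hA0 hℓA (by linarith)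
      hdm hmd
      (by linarith) (by linarith)
    set L := (ε / a) ^ (5 / 48 : ℝ) * (a / A) ^ (1 / 3 : ℝ) with hL
    have hL0 : 0 ≤ L := by rw [hL]; positivity
    have n1' : L ^ 2 * AA ε b ℓ B ≤ k * (GG ε a b m d * AA ε a ℓ A) :=
      n1.trans (mul_le_mul_of_nonneg_right hk9 (by positivity))
    rw [← hk] at n2
    obtain ⟨s1, s2⟩ := sq_cmp hL0 hG0 hAx0 hc hC hk0 n1' n2 p1 p2 a1 a2 b1 b2 hPy0
    rw [← hq1] at s1
    rw [← hq2] at s2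
    rw [← hPy, mul_assoc] at t1 t2
    constructor
    · refine t2.trans ?_
      calc C1 * (L * Py) ≤ C1 * (q1 * S) := mul_le_mul_of_nonneg_left s1 hC1.le
        _ = C1 * q1 * S := by ring
        _ ≤ _ := mul_le_mul_of_nonneg_right (by linarith) hS0
    · left
      refine le_trans ?_ t1
      calc min (c1 / q2) (min c2 (1 / q3)) * S ≤ c1 / q2 * S :=
            mul_le_mul_of_nonneg_right (min_le_left _ _) hS0
        _ ≤ c1 / q2 * (q2 * (L * Py)) := mul_le_mul_of_nonneg_left s2 (by positivity)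
        _ = _ := by field_simp
  · -- a long arc
    have hlip := (D.lip z (disc_of hz.le) w (disc_of hw.le)).1
    rw [hfz, hfw, norm_sub_rev (pos ε x)] at hlip
    have t1 := hsub ε x y z θ1 θ2 tx hε (hεε.trans (min_le_right _ _)) hz hfz hK2z hℓ hx1 hx2
      hcase (by
        refine le_trans ?_ hlip
        apply mul_le_mul_of_nonneg_left _ hl.le
        linarith)
    have n1 := num_three (m := m) hε ha0 hb0 hd hℓ0 hA0 hB0 hκ hκ1 hcase hdm hmd h4 (by linarith)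
    have hPC : PP f ε x y ≤ k3 * (Px * Py) := by
      have h5 : c ^ 2 * (AA ε a ℓ A * AA ε b ℓ B) ≤ Px * Py := by
        calc _ = c * AA ε a ℓ A * (c * AA ε b ℓ B) := by ring
          _ ≤ _ := mul_le_mul a1 b1 (by positivity) hPx0
      have h6 : AA ε a ℓ A * AA ε b ℓ B ≤ Px * Py / c ^ 2 := by
        rw [le_div_iff₀ (by positivity)]
        linarith
      calc PP f ε x y ≤ C * GG ε a b m d := p2
        _ ≤ C * ((3 / 2) ^ (5 / 24 : ℝ) * (2 / κ ^ 2) ^ (1 / 3 : ℝ) * (Px * Py / c ^ 2)) := by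
            apply mul_le_mul_of_nonneg_left _ hC.le
            exact n1.trans (mul_le_mul_of_nonneg_left h6 (by positivity))
        _ = _ := by rw [hk3]; ring
    obtain ⟨s1, s2⟩ := sq_cmp' hP0 hPx0 hPy0 hk30 hPC
    rw [← hq3] at s1 s2
    constructor
    · refine (PT_le_PP f ε x y _).trans (s1.trans ?_)
      apply mul_le_mul_of_nonneg_right _ hS0
      have : 0 < C1 * q1 := by positivity
      linarith
    · right
      constructor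
      · refine le_trans ?_ t1
        exact mul_le_mul_of_nonneg_right ((min_le_right _ _).trans (min_le_left _ _)) hP0
      · calc min (c1 / q2) (min c2 (1 / q3)) * S ≤ 1 / q3 * S :=
              mul_le_mul_of_nonneg_right ((min_le_right _ _).trans (min_le_right _ _)) hS0
          _ ≤ 1 / q3 * (q3 * (Px * Py)) := mul_le_mul_of_nonneg_left s2 (by positivity)
          _ = _ := by field_simp

/-- **All cases.** -/
theorem main_tri {g : ℂ → ℂ} {M α : ℝ} (hW : SmW f g M α) : ∃ c C K : ℝ, 0 < c ∧ 0 < C ∧ 0 < K ∧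
    ∀ (ε : ℝ) (x y : Vtx) (z w : ℂ) (θ1 θ2 : ℝ), 0 < ε → ‖z‖ < 1 → ‖w‖ < 1 → f z = pos ε x →
    f w = pos ε y → x ≠ y → K * ε ≤ ‖g z‖ * (1 - ‖z‖ ^ 2) → K * ε ≤ ‖g w‖ * (1 - ‖w‖ ^ 2) →
    ε ≤ θ2 - θ1 →
    PT f ε x {y} (near f ε θ1 θ2) ≤ C * √(PP f ε x y * PD f ε {x} (near f ε θ1 θ2) *
      PD f ε {y} (near f ε θ1 θ2)) ∧
    (c * √(PP f ε x y * PD f ε {x} (near f ε θ1 θ2) * PD f ε {y} (near f ε θ1 θ2)) ≤
      PT f ε x {y} (near f ε θ1 θ2) ∨ (c * PP f ε x y ≤ PT f ε x {y} (near f ε θ1 θ2) ∧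
      c * √(PP f ε x y * PD f ε {x} (near f ε θ1 θ2) * PD f ε {y} (near f ε θ1 θ2)) ≤
      PD f ε {x} (near f ε θ1 θ2) * PD f ε {y} (near f ε θ1 θ2))) := by
  obtain ⟨D⟩ := dom_of ⟨g, M, α, hW⟩
  obtain ⟨l, H, hl, hH, -, hg, -, -, -⟩ := m_GA f g M α hW
  obtain ⟨c2, C2, K2, hc2, hC2, hK2, htwo⟩ := two_GG hW
  obtain ⟨c3, K3, ε3, hc3, hK3, hε3, hε30, hlow⟩ := arc_low D
  obtain ⟨C4, K4, hC4, hK4, hup⟩ := arc_up D
  obtain ⟨c0, hc0⟩ : ∃ c0 : ℝ, c0 = min c2 c3 := ⟨_, rfl⟩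
  obtain ⟨C0, hC0⟩ : ∃ C0 : ℝ, C0 = max C2 C4 := ⟨_, rfl⟩
  have hc00 : 0 < c0 := by rw [hc0]; exact lt_min hc2 hc3
  have hC00 : 0 < C0 := by rw [hC0]; exact lt_max_of_lt_left hC2
  have hc02 : c0 ≤ c2 := by rw [hc0]; exact min_le_left _ _
  have hc03 : c0 ≤ c3 := by rw [hc0]; exact min_le_right _ _
  have hC02 : C2 ≤ C0 := by rw [hC0]; exact le_max_left _ _
  have hC04 : C4 ≤ C0 := by rw [hC0]; exact le_max_right _ _
  obtain ⟨c5, C5, K5, ε5, hc5, hC5, hK5, hε5, hε50, hside⟩ := t_side D hc00 hC00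
  obtain ⟨c6, C6, K6, ε6, hc6, hC6, hK6, hε6, hε60, hone⟩ := t_one D
  obtain ⟨k, hk⟩ : ∃ k : ℝ, k = ((5 : ℝ) ^ 3) ^ (1 / 3 : ℝ) := ⟨_, rfl⟩
  have hk0 : 0 < k := by rw [hk]; positivity
  obtain ⟨q1, hq1⟩ : ∃ q1 : ℝ, q1 = √(C0 * k / c0 ^ 2) := ⟨_, rfl⟩
  obtain ⟨q2, hq2⟩ : ∃ q2 : ℝ, q2 = √(C0 ^ 2 * k / c0) := ⟨_, rfl⟩
  have hq10 : 0 < q1 := by rw [hq1]; exact Real.sqrt_pos.mpr (by positivity)
  have hq20 : 0 < q2 := by rw [hq2]; exact Real.sqrt_pos.mpr (by positivity)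
  obtain ⟨K7, hK7⟩ : ∃ K7 : ℝ, K7 = K3 + K4 + K5 + K6 + 1 / ε3 + 1 / ε5 + 1 / ε6 := ⟨_, rfl⟩
  have hK70 : 0 < K7 := by rw [hK7]; positivity
  refine ⟨min c5 (c6 / q2), C5 + C6 * q1, 2 * H * K7 + K2, lt_min hc5 (by positivity),
    by positivity, by positivity, ?_⟩
  intro ε x y z w θ1 θ2 hε hz hw hfz hfw hxy hKz hKw hℓ
  have hloc : ∀ u : ℂ, ‖u‖ < 1 → (2 * H * K7 + K2) * ε ≤ ‖g u‖ * (1 - ‖u‖ ^ 2) →
      K7 * ε ≤ 1 - ‖u‖ ∧ K2 * ε ≤ ‖g u‖ * (1 - ‖u‖ ^ 2) := by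
    intro u h1 h3
    have hn := norm_nonneg u
    have hgu := hg u (disc_of h1.le)
    have h4 : ‖g u‖ * (1 - ‖u‖ ^ 2) ≤ H * (2 * (1 - ‖u‖)) :=
      mul_le_mul hgu.2 (by nlinarith) (by nlinarith) hH.le
    have h5 : 0 < K2 * ε := by positivity
    have h7 : 0 < 2 * H * K7 * ε := by positivity
    have h6 : 2 * H * (K7 * ε) ≤ 2 * H * (1 - ‖u‖) := by nlinarith
    exact ⟨le_of_mul_le_mul_left h6 (by positivity), by nlinarith⟩
  obtain ⟨hz7, hz2⟩ := hloc z hz hKz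
  obtain ⟨hw7, hw2⟩ := hloc w hw hKw
  have hzw : z ≠ w := ne_of_ne hε hfz hfw hxy
  have r3 : 0 < K3 * ε := by positivity
  have r4 : 0 < K4 * ε := by positivity
  have r5 : 0 < K5 * ε := by positivity
  have r6 : 0 < K6 * ε := by positivity
  have r7 : 0 < 1 / ε3 * ε := by positivity
  have r8 : 0 < 1 / ε5 * ε := by positivity
  have r9 : 0 < 1 / ε6 * ε := by positivity
  have hsum : K7 * ε = K3 * ε + K4 * ε + K5 * ε + K6 * ε + 1 / ε3 * ε + 1 / ε5 * ε +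
      1 / ε6 * ε := by rw [hK7]; ring
  have hz0 := norm_nonneg z
  have hsm : ∀ e : ℝ, 0 < e → 1 / e * ε ≤ 1 → ε ≤ e := by
    intro e he h1
    rw [one_div_mul_eq_div, div_le_one he] at h1
    exact h1
  have e3 : ε ≤ ε3 := hsm ε3 hε3 (by linarith)
  have e5 : ε ≤ ε5 := hsm ε5 hε5 (by linarith)
  have e6 : ε ≤ ε6 := hsm ε6 hε6 (by linarith)
  have hε0 : ε ≤ D.ε0 := e3.trans hε30
  have hθ : θ1 < θ2 := by linarith
  obtain ⟨tx, htx, hmx0⟩ := (isCompact_Icc (a := θ1) (b := θ2)).exists_isMinOn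
    ⟨θ1, ⟨le_rfl, hθ.le⟩⟩ ((continuous_const.sub cir_cont).norm.continuousOn
      (f := fun t => ‖z - cir t‖))
  obtain ⟨ty, hty, hmy0⟩ := (isCompact_Icc (a := θ1) (b := θ2)).exists_isMinOn
    ⟨θ1, ⟨le_rfl, hθ.le⟩⟩ ((continuous_const.sub cir_cont).norm.continuousOn
      (f := fun t => ‖w - cir t‖))
  have hmx : ∀ t, θ1 ≤ t → t ≤ θ2 → ‖z - cir tx‖ ≤ ‖z - cir t‖ := fun t h1 h2 => hmx0 ⟨h1, h2⟩
  have hmy : ∀ t, θ1 ≤ t → t ≤ θ2 → ‖w - cir ty‖ ≤ ‖w - cir t‖ := fun t h1 h2 => hmy0 ⟨h1, h2⟩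
  have hDuo : ∀ u : Vtx, Pr hf (ES (TD f ε))
      (fun F => ∃ w ∈ near f ε θ1 θ2, Reach (F : Set Edg) u w) = PD f ε {u} (near f ε θ1 θ2) := by
    intro u
    apply Pr_congr
    intro F _
    constructor
    · rintro ⟨w, hw, h⟩
      exact ⟨u, rfl, w, hw, h⟩
    · rintro ⟨v, hv, w, hw, h⟩
      rw [Set.mem_singleton_iff] at hv
      subst hv
      exact ⟨w, hw, h⟩
  obtain ⟨p1, p2⟩ := htwo ε x y z w hε hz hw hfz hfw hxy hz2 hw2
  have a1 := hlow ε x z θ1 θ2 tx hε e3 hz hfz (by linarith) hℓ htx.1 htx.2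
  have a2 := hup ε x z θ1 θ2 tx hε hε0 hz hfz (by linarith) hℓ htx.1 htx.2 hmx
  have b1 := hlow ε y w θ1 θ2 ty hε e3 hw hfw (by linarith) hℓ hty.1 hty.2
  have b2 := hup ε y w θ1 θ2 ty hε hε0 hw hfw (by linarith) hℓ hty.1 hty.2 hmy
  rw [hDuo] at a1 a2 b1 b2
  have haA := le_cir (z := z) tx
  have hbB := le_cir (z := w) ty
  have ha0 : 0 < 1 - ‖z‖ := by linarith
  have hb0 : 0 < 1 - ‖w‖ := by linarith
  have hA0 : 0 < ‖z - cir tx‖ := ha0.trans_le haA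
  have hB0 : 0 < ‖w - cir ty‖ := hb0.trans_le hbB
  have hℓ0 : 0 < θ2 - θ1 := hε.trans_le hℓ
  obtain ⟨hm, hdm, ham, hbm, hm1, hm2, -⟩ := F2_eq (ε := ε) (r := 1) (s := 1) hz hw hzw
  have hd : 0 < ‖z - w‖ := by rw [norm_pos_iff, sub_ne_zero]; exact hzw
  have hG0 : 0 ≤ GG ε (1 - ‖z‖) (1 - ‖w‖) (mz z w) ‖z - w‖ := by unfold GG; positivity
  have hmA : 0 < min (θ2 - θ1) ‖z - cir tx‖ := lt_min hℓ0 hA0
  have hmB : 0 < min (θ2 - θ1) ‖w - cir ty‖ := lt_min hℓ0 hB0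
  have hAx0 : 0 ≤ AA ε (1 - ‖z‖) (θ2 - θ1) ‖z - cir tx‖ := by unfold AA; positivity
  have hAy0 : 0 ≤ AA ε (1 - ‖w‖) (θ2 - θ1) ‖w - cir ty‖ := by unfold AA; positivity
  have p1' := (mul_le_mul_of_nonneg_right hc02 hG0).trans p1
  have p2' := p2.trans (mul_le_mul_of_nonneg_right hC02 hG0)
  have a1' : c0 * AA ε (1 - ‖z‖) (θ2 - θ1) ‖z - cir tx‖ ≤ PD f ε {x} (near f ε θ1 θ2) :=
    (mul_le_mul_of_nonneg_right hc03 hAx0).trans a1
  have a2' : PD f ε {x} (near f ε θ1 θ2) ≤ C0 * AA ε (1 - ‖z‖) (θ2 - θ1) ‖z - cir tx‖ :=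
    le_trans a2 (mul_le_mul_of_nonneg_right hC04 hAx0)
  have b1' : c0 * AA ε (1 - ‖w‖) (θ2 - θ1) ‖w - cir ty‖ ≤ PD f ε {y} (near f ε θ1 θ2) :=
    (mul_le_mul_of_nonneg_right hc03 hAy0).trans b1
  have b2' : PD f ε {y} (near f ε θ1 θ2) ≤ C0 * AA ε (1 - ‖w‖) (θ2 - θ1) ‖w - cir ty‖ :=
    le_trans b2 (mul_le_mul_of_nonneg_right hC04 hAy0)
  have hPx0 : 0 ≤ PD f ε {x} (near f ε θ1 θ2) := PD_nonneg _ _ _ _
  have hPy0 : 0 ≤ PD f ε {y} (near f ε θ1 θ2) := PD_nonneg _ _ _ _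
  have hP0 := PP_nonneg f ε x y
  have hS0 : 0 ≤ √(PP f ε x y * PD f ε {x} (near f ε θ1 θ2) * PD f ε {y} (near f ε θ1 θ2)) :=
    Real.sqrt_nonneg _
  have hCC : C5 ≤ C5 + C6 * q1 := by
    have : 0 < C6 * q1 := by positivity
    linarith
  -- the conclusion from a bound on one side
  have wrap : ∀ {T P A B S : ℝ}, 0 ≤ S → 0 ≤ P → T ≤ C5 * S ∧ (c5 * S ≤ T ∨ (c5 * P ≤ T ∧
      c5 * S ≤ A * B)) → T ≤ (C5 + C6 * q1) * S ∧ (min c5 (c6 / q2) * S ≤ T ∨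
      (min c5 (c6 / q2) * P ≤ T ∧ min c5 (c6 / q2) * S ≤ A * B)) := by
    rintro T P A B S hS hP ⟨h1, h2⟩
    refine ⟨h1.trans (mul_le_mul_of_nonneg_right hCC hS), ?_⟩
    rcases h2 with h2 | ⟨h2, h3⟩
    · exact Or.inl ((mul_le_mul_of_nonneg_right (min_le_left _ _) hS).trans h2)
    · exact Or.inr ⟨(mul_le_mul_of_nonneg_right (min_le_left _ _) hP).trans h2,
        (mul_le_mul_of_nonneg_right (min_le_left _ _) hS).trans h3⟩
  rcases le_or_gt (4 * ‖z - cir tx‖) ‖z - w‖ with hcx | hcx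
  · exact wrap hS0 hP0 (hside ε θ1 θ2 tx ty x y z w hε e5 hz hw hfz hfw hzw (by linarith) hℓ
      htx.1 htx.2 hty.1 hty.2 hmx hmy hcx p1' p2' a1' a2' b1' b2')
  · rcases le_or_gt (4 * ‖w - cir ty‖) ‖z - w‖ with hcy | hcy
    · have h1 := hside ε θ1 θ2 ty tx y x w z hε e5 hw hz hfw hfz hzw.symm (by linarith) hℓ
        hty.1 hty.2 htx.1 htx.2 hmy hmx (by rw [norm_sub_rev w z]; exact hcy)
        (by rw [GG_comm, mz_comm, norm_sub_rev, PP_comm]; exact p1')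
        (by rw [GG_comm, mz_comm, norm_sub_rev, PP_comm]; exact p2') b1' b2' a1' a2'
      rw [PP_comm f ε y x, ← PT_xy f ε x y, mul_right_comm (PP f ε x y),
        mul_comm (PD f ε {y} (near f ε θ1 θ2))] at h1
      exact wrap hS0 hP0 h1
    · -- the points are close to one another
      obtain ⟨t1, t2⟩ := hone ε θ1 θ2 x y z w hε e6 hz hw hfz hfw hxy hzw (by linarith)
        (by linarith) (fun t h1 h2 => by
          have := hmx t h1 h2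
          linarith) (fun t h1 h2 => by
          have := hmy t h1 h2
          linarith)
      have hAB : ‖z - cir tx‖ ≤ 5 * ‖w - cir ty‖ := by
        have h1 := hmx ty hty.1 hty.2
        have h2 := norm_add_le (z - w) (w - cir ty)
        have h3 : z - w + (w - cir ty) = z - cir ty := by ring
        rw [h3] at h2
        linarith
      have hBA : ‖w - cir ty‖ ≤ 5 * ‖z - cir tx‖ := by
        have h1 := hmy tx htx.1 htx.2
        have h2 := norm_add_le (w - z) (z - cir tx)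
        have h3 : w - z + (z - cir tx) = w - cir tx := by ring
        rw [h3, norm_sub_rev w z] at h2
        linarith
      obtain ⟨n1, n2⟩ := num_one hε ha0 hb0 hm hd hℓ0 hA0 hB0 (by norm_num : (1 : ℝ) ≤ 5) hAB hBA
      rw [← hk] at n1 n2
      have hL0 : 0 ≤ LG ε (1 - ‖z‖) (mz z w) ‖z - w‖ := by unfold LG; positivity
      obtain ⟨s1, s2⟩ := sq_cmp hL0 hG0 hAx0 hc00 hC00 hk0 n1 n2 p1' p2' a1' a2' b1' b2' hPy0
      rw [← hq1] at s1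
      rw [← hq2] at s2
      rw [mul_assoc] at t1 t2
      set S := √(PP f ε x y * PD f ε {x} (near f ε θ1 θ2) * PD f ε {y} (near f ε θ1 θ2)) with hS
      set LP := LG ε (1 - ‖z‖) (mz z w) ‖z - w‖ * PD f ε {y} (near f ε θ1 θ2) with hLP
      constructor
      · refine t2.trans ?_
        calc C6 * LP ≤ C6 * (q1 * S) := mul_le_mul_of_nonneg_left s1 hC6.le
          _ = C6 * q1 * S := by ring
          _ ≤ _ := mul_le_mul_of_nonneg_right (by linarith) hS0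
      · left
        refine le_trans ?_ t1
        calc min c5 (c6 / q2) * S ≤ c6 / q2 * S := mul_le_mul_of_nonneg_right (min_le_right _ _) hS0
          _ ≤ c6 / q2 * (q2 * LP) := mul_le_mul_of_nonneg_left s2 (by positivity)
          _ = _ := by field_simp

end Run7.h663.PA
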