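import Pool.Agent.Run7.h663.PA.Low

/-!
Upper bounds for the arms of interior points and of boundary arcs.
-/

set_option autoImplicit false

namespace Run7.h663.PA

open H974 hiding Blk okhalf
open H973 hiding okhalf
open Finset
open Pool.Agent.Y989.SD
open Pool.Agent.H160R2.CV (nv P ar Far)
open Pool.Agent.H160R2.CV.Quad (bo LA)

variable {f : ℂ → ℂ}

theorem oku : Ok hf := H974.okhalf

/-- A local upper bound: on the set `S` of edges there is an event of probability at most `q`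
which is implied by `A`. -/
def Loc (E : Finset Edg) (A : Finset Edg → Prop) (S : Finset Edg) (q : ℝ) : Prop :=
  S ⊆ E ∧ ∃ G : Finset Edg → Prop, Pr hf S G ≤ q ∧ ∀ F, F ⊆ E → A F → G (F ∩ S)

theorem Loc.le {E S : Finset Edg} {A : Finset Edg → Prop} {q : ℝ} (h : Loc E A S q) :
    Pr hf E A ≤ q := by
  obtain ⟨hS, G, hG, hA⟩ := h
  refine (Pr_mono oku (B := fun F => G (F ∩ S)) hA).trans ?_
  exact (le_of_eq (Pr_restrict hS G)).trans hG

theorem Loc.two {E S S' : Finset Edg} {A : Finset Edg → Prop} {q q' : ℝ} (hd : Disjoint S S')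
    (h : Loc E A S q) (h' : Loc E A S' q') (hq : 0 ≤ q) : Pr hf E A ≤ q * q' := by
  obtain ⟨hS, G, hG, hA⟩ := h
  obtain ⟨hS', G', hG', hA'⟩ := h'
  refine (Pr_mono oku (B := fun F => G (F ∩ S) ∧ G' (F ∩ S'))
    (fun F hF h => ⟨hA F hF h, hA' F hF h⟩)).trans ?_
  refine (le_of_eq (Pr_indep' hS hS' hd G G')).trans ?_
  exact mul_le_mul hG hG' (Pr_nonneg oku _ _) hq

/-- the local arm -/
theorem loc_arm {T : Finset Vtx} {x : Vtx} {n : ℕ} (hT : ∀ y ∈ BX x n, y ∈ T)
    {A : Finset Edg → Prop} (hA : ∀ F, F ⊆ ES T → A F → ∃ w, n ≤ nv (w - x) ∧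
      Reach (F : Set Edg) x w) : Loc (ES T) A (bo x n) (ar n) := by
  refine ⟨bo_sub hT, LA x n, Pool.Agent.H160R2.CV.Quad.pr_LA _ x n, ?_⟩
  intro F hF h
  obtain ⟨w, hw, hr⟩ := hA F hF h
  exact ((Pool.Agent.H160R2.CV.Quad.LA_loc (Finset.Subset.refl _)) F).mp
    (Pool.Agent.H160R2.CV.Quad.LA_of_reach hw hr)

/-- the edges of a box of vertices -/
theorem bo_eq (v : Vtx) (r : ℕ) : bo v r = ES (BX v r) := by
  ext ⟨a, b, _ | _⟩
  · rw [bo, mem_RE_false, mem_ES, src_mk, tgt_false, mem_BX, mem_BX]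
    simp only
    omega
  · rw [bo, mem_RE_true, mem_ES, src_mk, tgt_true, mem_BX, mem_BX]
    simp only
    omega

/-- the arm of an interior point through the annulus around a base point -/
theorem loc_src {T : Finset Vtx} {x v : Vtx} {n : ℕ} {r R : ℤ} (hT : ∀ y ∈ BX x n, y ∈ T)
    (hxv : ∀ y ∈ BX x n, y ∈ BX v r) (hrR : r ≤ R) {q : ℝ}
    (hq : Pr hf (ES T) (XT T v r R) ≤ q)
    {A : Finset Edg → Prop} (hA : ∀ F, F ⊆ ES T → A F → ∃ w, w ∉ BX v (R - 1) ∧
      Reach (F : Set Edg) x w) : Loc (ES T) A (ES (T ∩ BX v R)) (ar n * q) := by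
  have hnr : ((n : ℕ) : ℤ) ≤ r := by
    have h1 := hxv (x.1 + n, x.2) (by rw [mem_BX]; simp only; omega)
    have h2 := hxv (x.1 - n, x.2) (by rw [mem_BX]; simp only; omega)
    rw [mem_BX] at h1 h2
    simp only at h1 h2
    omega
  obtain ⟨k, rfl⟩ : ∃ k : ℕ, r = (k : ℤ) := ⟨r.toNat, by omega⟩
  have hSE : ES (T ∩ BX v R) ⊆ ES T := ES_mono Finset.inter_subset_left
  set S := ES (T ∩ BX v R) with hS
  set S1 := bo x n with hS1
  set S2 := S \ bo v k with hS2
  have hS1S : S1 ⊆ S := by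
    intro e he
    rw [hS1, bo_eq, mem_ES] at he
    rw [hS, mem_ES, Finset.mem_inter, Finset.mem_inter]
    exact ⟨⟨hT _ he.1, BX_mono hrR (hxv _ he.1)⟩, hT _ he.2, BX_mono hrR (hxv _ he.2)⟩
  have hS1v : S1 ⊆ bo v k := by
    intro e he
    rw [hS1, bo_eq, mem_ES] at he
    rw [bo_eq, mem_ES]
    exact ⟨hxv _ he.1, hxv _ he.2⟩
  have hd : Disjoint S1 S2 := by
    rw [Finset.disjoint_left]
    intro e h1 h2
    rw [hS2, Finset.mem_sdiff] at h2
    exact h2.2 (hS1v h1)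
  refine ⟨hSE, fun F => LA x n (F ∩ S1) ∧ XT T v k R (F ∩ S2), ?_, ?_⟩
  · refine (le_of_eq (Pr_indep' hS1S Finset.sdiff_subset hd (LA x n) (XT T v k R))).trans ?_
    have h1 : Pr hf S1 (LA x n) ≤ ar n := Pool.Agent.H160R2.CV.Quad.pr_LA _ x n
    have h2 : Pr hf S2 (XT T v k R) ≤ q := by
      refine (Pr_mono_set oku (Finset.sdiff_subset.trans hSE) (CHN.XT_incr _ _ _ _ _)).trans hq
    exact mul_le_mul h1 h2 (Pr_nonneg oku _ _) (Pool.Agent.H160R2.CV.ar_pos n).le
  · intro F hF h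
    obtain ⟨w, hw, hr⟩ := hA F hF h
    have hxn : x ∈ BX x n := by rw [mem_BX]; omega
    have hxT := hT x hxn
    have hxv' := hxv x hxn
    have hv : w.1 ≤ v.1 - R ∨ v.1 + R ≤ w.1 ∨ w.2 ≤ v.2 - R ∨ v.2 + R ≤ w.2 := by
      by_contra hcon
      apply hw
      rw [mem_BX]
      omega
    obtain ⟨y, h1, h2, h3⟩ := arm_exit hF hxT (BX_mono hrR hxv') hr hv
    have hyT := (Finset.mem_inter.mp h1).1
    have hyR := (Finset.mem_inter.mp h1).2
    have hy' : y ∉ BX v (R - 1) := by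
      intro hy
      rw [mem_BX] at hy
      unfold onBX at h2
      omega
    constructor
    · have h4 : LA x n (F ∩ S) := by
        apply Pool.Agent.H160R2.CV.Quad.LA_of_reach _ h3
        rw [le_nv]
        have h5 := hxv (x.1 + n, x.2 + n) (by rw [mem_BX]; simp only; omega)
        have h6 := hxv (x.1 - n, x.2 - n) (by rw [mem_BX]; simp only; omega)
        rw [mem_BX] at h5 h6
        simp only at h5 h6
        unfold onBX at h2
        omega
      exact ((Pool.Agent.H160R2.CV.Quad.LA_loc (Finset.Subset.refl (bo x n))) _).mp h4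
    · have h4 : inR (v.1 - k) (v.1 + k) (v.2 - k) (v.2 + k) x := by
        rw [mem_BX] at hxv'
        exact hxv'
      obtain ⟨u, hu, hur⟩ := Pool.Agent.H160R2.CV.Quad.last_exit h4 h3
      have h5 : Reach (↑(F ∩ S ∩ S2) : Set Edg) u y := by
        refine hur.mono ?_
        rintro e ⟨he1, he2⟩
        rw [Finset.mem_coe] at he1
        rw [Finset.mem_coe, Finset.mem_inter, hS2, Finset.mem_sdiff]
        exact ⟨he1, (Finset.mem_inter.mp he1).2, fun h => he2 (by exact_mod_cast h)⟩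
      have huT : u ∈ T := by
        refine reach_mem (F := (↑(F ∩ S ∩ S2) : Set Edg)) (fun e he => ?_) hyT h5.symm
        rw [Finset.mem_coe] at he
        exact hF (Finset.mem_inter.mp (Finset.mem_inter.mp he).1).1
      refine ⟨u, huT, ?_, y, hyT, hy', h5⟩
      rw [mem_BX]
      exact hu

/-- the arm of an arc -/
theorem loc_XT {T : Finset Vtx} {v : Vtx} {r R : ℤ} (hrR : r ≤ R) {q : ℝ}
    (hq : Pr hf (ES T) (XT T v r R) ≤ q)
    {A : Finset Edg → Prop} (hA : ∀ F, F ⊆ ES T → A F → ∃ u ∈ T, u ∈ BX v r ∧ ∃ w, w ∉ BX v (R - 1) ∧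
      Reach (F : Set Edg) u w) : Loc (ES T) A (ES (T ∩ BX v R)) q := by
  refine ⟨ES_mono Finset.inter_subset_left, XT T v r R, AUP.XT_res.trans hq, ?_⟩
  intro F hF h
  obtain ⟨u, hu, hur, w, hw, hr⟩ := hA F hF h
  exact AUP.XT_exit hF hrR hu hur hw hr

end Run7.h663.PA
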